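import Pool.Agent.Lib_MP_820dd4_an.Defs

/-! ### Part `Seq` -/

section

/-! # MP_820dd4_an: elementary facts on `UZero`, `UNull`, `Orth`, `Dec`, `DecNull`, `Dom` -/

open scoped ComplexConjugate Topology

namespace Pool.Agent.Nil820

theorem Bdd.nonneg {f : ℤ → ℂ} (h : Bdd f) : ∃ C : ℝ, 0 ≤ C ∧ ∀ m, ‖f m‖ ≤ C := by
  obtain ⟨C, hC⟩ := h
  exact ⟨C, le_trans (norm_nonneg _) (hC 0), hC⟩

theorem Bdd.add {f g : ℤ → ℂ} (hf : Bdd f) (hg : Bdd g) : Bdd (fun m => f m + g m) := by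
  obtain ⟨C, hC⟩ := hf
  obtain ⟨D, hD⟩ := hg
  exact ⟨C + D, fun m => (norm_add_le _ _).trans (add_le_add (hC m) (hD m))⟩

theorem Bdd.neg {f : ℤ → ℂ} (hf : Bdd f) : Bdd (fun m => - f m) := by
  obtain ⟨C, hC⟩ := hf
  exact ⟨C, fun m => by simpa using hC m⟩

theorem Bdd.sub {f g : ℤ → ℂ} (hf : Bdd f) (hg : Bdd g) : Bdd (fun m => f m - g m) := by
  simpa [sub_eq_add_neg] using hf.add hg.neg

theorem Bdd.mul {f g : ℤ → ℂ} (hf : Bdd f) (hg : Bdd g) : Bdd (fun m => f m * g m) := by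
  obtain ⟨C, hC0, hC⟩ := hf.nonneg
  obtain ⟨D, hD⟩ := hg
  refine ⟨C * D, fun m => ?_⟩
  rw [norm_mul]
  exact mul_le_mul (hC m) (hD m) (norm_nonneg _) hC0

theorem Bdd.const (c : ℂ) : Bdd (fun _ => c) := ⟨‖c‖, fun _ => le_rfl⟩

theorem Bdd.cmul {f : ℤ → ℂ} (c : ℂ) (hf : Bdd f) : Bdd (fun m => c * f m) :=
  (Bdd.const c).mul hf

theorem Bdd.cj {f : ℤ → ℂ} (hf : Bdd f) : Bdd (fun m => conj (f m)) := by
  obtain ⟨C, hC⟩ := hf
  exact ⟨C, fun m => by simpa using hC m⟩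

theorem Bdd.shift {f : ℤ → ℂ} (hf : Bdd f) (r : ℤ) : Bdd (fun m => f (m + r)) := by
  obtain ⟨C, hC⟩ := hf
  exact ⟨C, fun m => hC (m + r)⟩

theorem Bdd.norm {f : ℤ → ℂ} (hf : Bdd f) : Bdd (fun m => ((‖f m‖ : ℝ) : ℂ)) := by
  obtain ⟨C, hC⟩ := hf
  exact ⟨C, fun m => by simpa using hC m⟩

theorem Bdd.of_close {f g : ℤ → ℂ} (hg : Bdd g) {ε : ℝ} (h : ∀ m, ‖f m - g m‖ ≤ ε) : Bdd f := by
  obtain ⟨C, hC⟩ := hg
  refine ⟨ε + C, fun m => ?_⟩
  calc ‖f m‖ = ‖(f m - g m) + g m‖ := by ring_nf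
    _ ≤ ‖f m - g m‖ + ‖g m‖ := norm_add_le _ _
    _ ≤ ε + C := add_le_add (h m) (hC m)

theorem UZero.zero : UZero (fun _ => 0) := by
  intro ε hε
  refine ⟨0, fun n _ M => ?_⟩
  simp only [Finset.sum_const_zero, norm_zero]
  positivity

theorem UZero.add {f g : ℤ → ℂ} (hf : UZero f) (hg : UZero g) : UZero (fun m => f m + g m) := by
  intro ε hε
  obtain ⟨L1, h1⟩ := hf (ε / 2) (by positivity)
  obtain ⟨L2, h2⟩ := hg (ε / 2) (by positivity)
  refine ⟨max L1 L2, fun n hn M => ?_⟩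
  rw [Finset.sum_add_distrib]
  calc ‖(∑ i ∈ Finset.range n, f (M + i)) + ∑ i ∈ Finset.range n, g (M + i)‖
      ≤ ‖∑ i ∈ Finset.range n, f (M + i)‖ + ‖∑ i ∈ Finset.range n, g (M + i)‖ := norm_add_le _ _
    _ ≤ ε / 2 * n + ε / 2 * n :=
        add_le_add (h1 n (le_trans (le_max_left _ _) hn) M) (h2 n (le_trans (le_max_right _ _) hn) M)
    _ = ε * n := by ring

theorem UZero.cmul {f : ℤ → ℂ} (c : ℂ) (hf : UZero f) : UZero (fun m => c * f m) := by
  intro ε hε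
  obtain ⟨L, h⟩ := hf (ε / (‖c‖ + 1)) (by positivity)
  refine ⟨L, fun n hn M => ?_⟩
  rw [← Finset.mul_sum, norm_mul]
  calc ‖c‖ * ‖∑ i ∈ Finset.range n, f (M + i)‖ ≤ ‖c‖ * (ε / (‖c‖ + 1) * n) :=
        mul_le_mul_of_nonneg_left (h n hn M) (norm_nonneg _)
    _ = (‖c‖ / (‖c‖ + 1)) * (ε * n) := by ring
    _ ≤ 1 * (ε * n) := by
        apply mul_le_mul_of_nonneg_right _ (by positivity)
        rw [div_le_one (by positivity)]
        linarith
    _ = ε * n := by ring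

theorem UZero.neg {f : ℤ → ℂ} (hf : UZero f) : UZero (fun m => - f m) := by
  simpa using hf.cmul (-1)

theorem UZero.sub {f g : ℤ → ℂ} (hf : UZero f) (hg : UZero g) : UZero (fun m => f m - g m) := by
  simpa [sub_eq_add_neg] using hf.add hg.neg

theorem UZero.cj {f : ℤ → ℂ} (hf : UZero f) : UZero (fun m => conj (f m)) := by
  intro ε hε
  obtain ⟨L, h⟩ := hf ε hε
  refine ⟨L, fun n hn M => ?_⟩
  rw [← map_sum, RCLike.norm_conj]
  exact h n hn M

theorem UZero.shift {f : ℤ → ℂ} (hf : UZero f) (r : ℤ) : UZero (fun m => f (m + r)) := by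
  intro ε hε
  obtain ⟨L, h⟩ := hf ε hε
  refine ⟨L, fun n hn M => ?_⟩
  have := h n hn (M + r)
  convert this using 4
  ring

theorem UZero.sum {ι : Type*} (s : Finset ι) {f : ι → ℤ → ℂ} (h : ∀ i ∈ s, UZero (f i)) :
    UZero (fun m => ∑ i ∈ s, f i m) := by
  classical
  induction s using Finset.induction_on with
  | empty => simpa using UZero.zero
  | insert a s ha ih =>
    simp only [Finset.sum_insert ha]
    exact (h a (Finset.mem_insert_self _ _)).add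
      (ih fun i hi => h i (Finset.mem_insert_of_mem hi))

theorem UZero.of_close {f : ℤ → ℂ} (h : ∀ ε > 0, ∃ g, UZero g ∧ ∀ m, ‖f m - g m‖ ≤ ε) :
    UZero f := by
  intro ε hε
  obtain ⟨g, hg, hc⟩ := h (ε / 2) (by positivity)
  obtain ⟨L, hL⟩ := hg (ε / 2) (by positivity)
  refine ⟨L, fun n hn M => ?_⟩
  have e : ∑ i ∈ Finset.range n, f (M + i) =
      ∑ i ∈ Finset.range n, (f (M + i) - g (M + i)) + ∑ i ∈ Finset.range n, g (M + i) := by
    rw [← Finset.sum_add_distrib]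
    exact Finset.sum_congr rfl fun i _ => by ring
  rw [e]
  calc ‖∑ i ∈ Finset.range n, (f (M + i) - g (M + i)) + ∑ i ∈ Finset.range n, g (M + i)‖
      ≤ ‖∑ i ∈ Finset.range n, (f (M + i) - g (M + i))‖ + ‖∑ i ∈ Finset.range n, g (M + i)‖ :=
        norm_add_le _ _
    _ ≤ ∑ _i ∈ Finset.range n, ε / 2 + ε / 2 * n := by
        refine add_le_add ((norm_sum_le _ _).trans (Finset.sum_le_sum fun i _ => hc _)) (hL n hn M)
    _ = ε * n := by
        rw [Finset.sum_const, Finset.card_range, nsmul_eq_mul]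
        ring

/-- comparison -/
theorem UNull.of_le {e f : ℤ → ℂ} (he : UNull e) (C : ℝ) (h : ∀ m, ‖f m‖ ≤ C * ‖e m‖) :
    UZero f := by
  intro ε hε
  obtain ⟨L, hL⟩ := he (ε / (|C| + 1)) (by positivity)
  refine ⟨L, fun n hn M => ?_⟩
  have h1 := hL n hn M
  rw [← Complex.ofReal_sum, Complex.norm_real, Real.norm_eq_abs,
    abs_of_nonneg (Finset.sum_nonneg fun i _ => norm_nonneg _)] at h1
  calc ‖∑ i ∈ Finset.range n, f (M + i)‖ ≤ ∑ i ∈ Finset.range n, ‖f (M + i)‖ := norm_sum_le _ _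
    _ ≤ ∑ i ∈ Finset.range n, |C| * ‖e (M + i)‖ := by
        refine Finset.sum_le_sum fun i _ => (h _).trans ?_
        exact mul_le_mul_of_nonneg_right (le_abs_self C) (norm_nonneg _)
    _ = |C| * ∑ i ∈ Finset.range n, ‖e (M + i)‖ := by rw [Finset.mul_sum]
    _ ≤ |C| * (ε / (|C| + 1) * n) := mul_le_mul_of_nonneg_left h1 (abs_nonneg _)
    _ = (|C| / (|C| + 1)) * (ε * n) := by ring
    _ ≤ 1 * (ε * n) := by
        apply mul_le_mul_of_nonneg_right _ (by positivity)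
        rw [div_le_one (by positivity)]
        linarith
    _ = ε * n := by ring

theorem UNull.of_le' {e f : ℤ → ℂ} (he : UNull e) (C : ℝ) (h : ∀ m, ‖f m‖ ≤ C * ‖e m‖) :
    UNull f :=
  UNull.of_le he C fun m => by simpa using h m

theorem UNull.uzero {e : ℤ → ℂ} (he : UNull e) : UZero e := he.of_le 1 fun m => by simp

theorem UNull.zero : UNull (fun _ => 0) := by
  unfold UNull
  simpa using UZero.zero

theorem UNull.add {e f : ℤ → ℂ} (he : UNull e) (hf : UNull f) : UNull (fun m => e m + f m) := by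
  have h1 : UZero (fun m => ((‖e m‖ : ℝ) : ℂ) + ((‖f m‖ : ℝ) : ℂ)) := UZero.add he hf
  have h2 : UNull (fun m => ((‖e m‖ : ℝ) : ℂ) + ((‖f m‖ : ℝ) : ℂ)) := by
    unfold UNull
    convert h1 using 2 with m
    simp only
    rw [← Complex.ofReal_add, Complex.norm_real, Real.norm_eq_abs,
      abs_of_nonneg (add_nonneg (norm_nonneg _) (norm_nonneg _))]
  refine h2.of_le' 1 fun m => ?_
  rw [one_mul, ← Complex.ofReal_add, Complex.norm_real, Real.norm_eq_abs,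
      abs_of_nonneg (add_nonneg (norm_nonneg _) (norm_nonneg _))]
  exact norm_add_le _ _

theorem UNull.bmul {e f : ℤ → ℂ} (he : UNull e) (hf : Bdd f) : UNull (fun m => f m * e m) := by
  obtain ⟨C, hC⟩ := hf
  refine he.of_le' C fun m => ?_
  rw [norm_mul]
  exact mul_le_mul_of_nonneg_right (hC m) (norm_nonneg _)

theorem UNull.cmul {e : ℤ → ℂ} (c : ℂ) (he : UNull e) : UNull (fun m => c * e m) :=
  he.bmul (Bdd.const c)

theorem UNull.cj {e : ℤ → ℂ} (he : UNull e) : UNull (fun m => conj (e m)) :=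
  he.of_le' 1 fun m => by simp

theorem UNull.of_close {f : ℤ → ℂ} (h : ∀ ε > 0, ∃ g, UNull g ∧ ∀ m, ‖f m - g m‖ ≤ ε) :
    UNull f := by
  refine UZero.of_close fun ε hε => ?_
  obtain ⟨g, hg, hc⟩ := h ε hε
  refine ⟨_, hg, fun m => ?_⟩
  rw [← Complex.ofReal_sub, Complex.norm_real, Real.norm_eq_abs]
  exact (abs_norm_sub_norm_le _ _).trans (hc m)

theorem UNull.orth {A : Set (ℤ → ℂ)} (hA : SeqAlg A) {e : ℤ → ℂ} (he : UNull e) : Orth A e :=
  fun ψ hψ => (he.bmul (hA.bdd ψ hψ)).uzero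

theorem Orth.add {A : Set (ℤ → ℂ)} {e f : ℤ → ℂ} (he : Orth A e) (hf : Orth A f) :
    Orth A (fun m => e m + f m) := fun ψ hψ => by
  simpa [mul_add] using (he ψ hψ).add (hf ψ hψ)

theorem Orth.cmul {A : Set (ℤ → ℂ)} {e : ℤ → ℂ} (c : ℂ) (he : Orth A e) :
    Orth A (fun m => c * e m) := fun ψ hψ => by
  convert (he ψ hψ).cmul c using 2 with m
  ring

theorem Orth.neg {A : Set (ℤ → ℂ)} {e : ℤ → ℂ} (he : Orth A e) : Orth A (fun m => - e m) := by
  simpa using he.cmul (-1)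

theorem Orth.cj {A : Set (ℤ → ℂ)} (hA : SeqAlg A) {e : ℤ → ℂ} (he : Orth A e) :
    Orth A (fun m => conj (e m)) := fun ψ hψ => by
  have := (he _ (hA.cj ψ hψ)).cj
  convert this using 2 with m
  simp

theorem Orth.amul {A : Set (ℤ → ℂ)} (hA : SeqAlg A) {e f : ℤ → ℂ} (hf : f ∈ A) (he : Orth A e) :
    Orth A (fun m => f m * e m) := fun ψ hψ => by
  convert he _ (hA.mul ψ hψ f hf) using 2 with m
  ring

theorem Orth.of_close {A : Set (ℤ → ℂ)} (hA : SeqAlg A) {e : ℤ → ℂ}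
    (h : ∀ ε > 0, ∃ g, Orth A g ∧ ∀ m, ‖e m - g m‖ ≤ ε) : Orth A e := by
  intro ψ hψ
  obtain ⟨C, hC0, hC⟩ := (hA.bdd ψ hψ).nonneg
  refine UZero.of_close fun ε hε => ?_
  obtain ⟨g, hg, hc⟩ := h (ε / (C + 1)) (by positivity)
  refine ⟨_, hg ψ hψ, fun m => ?_⟩
  rw [← mul_sub, norm_mul]
  calc ‖ψ m‖ * ‖e m - g m‖ ≤ C * (ε / (C + 1)) :=
        mul_le_mul (hC m) (hc m) (norm_nonneg _) hC0
    _ = (C / (C + 1)) * ε := by ring
    _ ≤ 1 * ε := by
        apply mul_le_mul_of_nonneg_right _ hε.le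
        rw [div_le_one (by positivity)]
        linarith
    _ = ε := one_mul _

theorem Orth.zero {A : Set (ℤ → ℂ)} : Orth A (fun _ => 0) := fun ψ _ => by
  simpa using UZero.zero

/-! ### closure properties of a `SeqAlg` -/

theorem SeqAlg.neg {A : Set (ℤ → ℂ)} (hA : SeqAlg A) {f : ℤ → ℂ} (hf : f ∈ A) :
    (fun m => - f m) ∈ A := by
  simpa using hA.mul _ (hA.const (-1)) f hf

theorem SeqAlg.sub {A : Set (ℤ → ℂ)} (hA : SeqAlg A) {f g : ℤ → ℂ} (hf : f ∈ A) (hg : g ∈ A) :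
    (fun m => f m - g m) ∈ A := by
  simpa [sub_eq_add_neg] using hA.add f hf _ (hA.neg hg)

theorem SeqAlg.cmul {A : Set (ℤ → ℂ)} (hA : SeqAlg A) {f : ℤ → ℂ} (c : ℂ) (hf : f ∈ A) :
    (fun m => c * f m) ∈ A :=
  hA.mul _ (hA.const c) f hf

theorem SeqAlg.sum {A : Set (ℤ → ℂ)} (hA : SeqAlg A) {ι : Type*} (s : Finset ι) {f : ι → ℤ → ℂ}
    (h : ∀ i ∈ s, f i ∈ A) : (fun m => ∑ i ∈ s, f i m) ∈ A := by
  classical
  induction s using Finset.induction_on with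
  | empty => simpa using hA.const 0
  | insert a s ha ih =>
    simp only [Finset.sum_insert ha]
    exact hA.add _ (h a (Finset.mem_insert_self _ _)) _
      (ih fun i hi => h i (Finset.mem_insert_of_mem hi))

/-! ### `Dec` and `DecNull` -/

theorem Dec.of_mem {A : Set (ℤ → ℂ)} {a : ℤ → ℂ} (h : a ∈ A) : Dec A a :=
  ⟨a, h, by simpa using Orth.zero⟩

theorem DecNull.of_mem {A : Set (ℤ → ℂ)} {a : ℤ → ℂ} (h : a ∈ A) : DecNull A a :=
  ⟨a, h, by simpa using UNull.zero⟩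

theorem DecNull.dec {A : Set (ℤ → ℂ)} (hA : SeqAlg A) {a : ℤ → ℂ} (h : DecNull A a) :
    Dec A a := by
  obtain ⟨N, hN, he⟩ := h
  exact ⟨N, hN, he.orth hA⟩

theorem Dec.of_orth {A : Set (ℤ → ℂ)} (hA : SeqAlg A) {a : ℤ → ℂ} (h : Orth A a) : Dec A a :=
  ⟨fun _ => 0, hA.const 0, by simpa using h⟩

theorem DecNull.of_null {A : Set (ℤ → ℂ)} (hA : SeqAlg A) {a : ℤ → ℂ} (h : UNull a) :
    DecNull A a :=
  ⟨fun _ => 0, hA.const 0, by simpa using h⟩

theorem Dec.add {A : Set (ℤ → ℂ)} (hA : SeqAlg A) {a b : ℤ → ℂ} (ha : Dec A a) (hb : Dec A b) :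
    Dec A (fun m => a m + b m) := by
  obtain ⟨N, hN, he⟩ := ha
  obtain ⟨N', hN', he'⟩ := hb
  refine ⟨_, hA.add N hN N' hN', ?_⟩
  convert he.add he' using 2 with m
  ring

theorem DecNull.add {A : Set (ℤ → ℂ)} (hA : SeqAlg A) {a b : ℤ → ℂ} (ha : DecNull A a)
    (hb : DecNull A b) : DecNull A (fun m => a m + b m) := by
  obtain ⟨N, hN, he⟩ := ha
  obtain ⟨N', hN', he'⟩ := hb
  refine ⟨_, hA.add N hN N' hN', ?_⟩
  convert he.add he' using 2 with m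
  ring

theorem Dec.amul {A : Set (ℤ → ℂ)} (hA : SeqAlg A) {a f : ℤ → ℂ} (hf : f ∈ A) (ha : Dec A a) :
    Dec A (fun m => f m * a m) := by
  obtain ⟨N, hN, he⟩ := ha
  refine ⟨_, hA.mul f hf N hN, ?_⟩
  convert he.amul hA hf using 2 with m
  ring

theorem DecNull.amul {A : Set (ℤ → ℂ)} (hA : SeqAlg A) {a f : ℤ → ℂ} (hf : f ∈ A)
    (ha : DecNull A a) : DecNull A (fun m => f m * a m) := by
  obtain ⟨N, hN, he⟩ := ha
  refine ⟨_, hA.mul f hf N hN, ?_⟩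
  convert he.bmul (hA.bdd f hf) using 2 with m
  ring

theorem Dec.cmul {A : Set (ℤ → ℂ)} (hA : SeqAlg A) {a : ℤ → ℂ} (c : ℂ) (ha : Dec A a) :
    Dec A (fun m => c * a m) := Dec.amul hA (hA.const c) ha

theorem DecNull.cmul {A : Set (ℤ → ℂ)} (hA : SeqAlg A) {a : ℤ → ℂ} (c : ℂ) (ha : DecNull A a) :
    DecNull A (fun m => c * a m) := DecNull.amul hA (hA.const c) ha

theorem Dec.cj {A : Set (ℤ → ℂ)} (hA : SeqAlg A) {a : ℤ → ℂ} (ha : Dec A a) :
    Dec A (fun m => conj (a m)) := by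
  obtain ⟨N, hN, he⟩ := ha
  refine ⟨_, hA.cj N hN, ?_⟩
  simpa using he.cj hA

theorem DecNull.cj {A : Set (ℤ → ℂ)} (hA : SeqAlg A) {a : ℤ → ℂ} (ha : DecNull A a) :
    DecNull A (fun m => conj (a m)) := by
  obtain ⟨N, hN, he⟩ := ha
  refine ⟨_, hA.cj N hN, ?_⟩
  simpa using he.cj

theorem DecNull.sum {A : Set (ℤ → ℂ)} (hA : SeqAlg A) {ι : Type*} (s : Finset ι)
    {f : ι → ℤ → ℂ} (h : ∀ i ∈ s, DecNull A (f i)) : DecNull A (fun m => ∑ i ∈ s, f i m) := by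
  classical
  induction s using Finset.induction_on with
  | empty => simpa using DecNull.of_mem (hA.const 0)
  | insert a s ha ih =>
    simp only [Finset.sum_insert ha]
    exact DecNull.add hA (h a (Finset.mem_insert_self _ _))
      (ih fun i hi => h i (Finset.mem_insert_of_mem hi))

/-! ### `Dom` -/

theorem Dom.of_mem {S : Set (ℤ → ℂ)} {B : ℤ → ℂ} (h : B ∈ S) : Dom S B :=
  fun _ _ _ hK => hK B h

theorem Dom.mono {S T : Set (ℤ → ℂ)} (h : S ⊆ T) {B : ℤ → ℂ} (hB : Dom S B) : Dom T B :=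
  fun c K hK hs => hB c K hK fun s hs' => hs s (h hs')

theorem Dom.bound {S : Set (ℤ → ℂ)} {B : ℤ → ℂ} (hB : Dom S B) {C : ℝ} (hC : 0 ≤ C)
    (h : ∀ s ∈ S, ∀ m, ‖s m‖ ≤ C) (m : ℤ) : ‖B m‖ ≤ C := by
  have := hB (Finsupp.single m 1) C hC fun s hs => by simpa using h s hs m
  simpa using this

end Pool.Agent.Nil820

end

/-! ### Part `Bary1` -/

section

/-! # Piece BARY1: positive functional from the hull -/

open scoped ComplexConjugate Topology

namespace Pool.Agent.Nil820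

private theorem bary1_lc (g : ℤ → ℂ) (c : ℤ →₀ ℂ) :
    (c.sum fun m z => z * g m) = Finsupp.linearCombination ℂ g c := by
  rw [Finsupp.linearCombination_apply]
  rfl

private theorem bary1_cont {Λ : Type} [TopologicalSpace Λ]
    (θ : Λ → ℤ → ℂ) (hθ : ∀ m, Continuous fun l => θ l m) (c : ℤ →₀ ℂ) :
    Continuous fun l => Finsupp.linearCombination ℂ (θ l) c := by
  simp only [Finsupp.linearCombination_apply, Finsupp.sum]
  exact continuous_finsetSum _ fun m _ => (continuous_const (y := c m)).smul (hθ m)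

/-- the linear map from finite combinations and constants to continuous functions -/
private noncomputable def bary1L {Λ : Type} [TopologicalSpace Λ]
    (θ : Λ → ℤ → ℂ) (hθ : ∀ m, Continuous fun l => θ l m) :
    ((ℤ →₀ ℂ) × ℝ) →ₗ[ℝ] C(Λ × ↥(Metric.closedBall (0 : ℂ) 1), ℝ) where
  toFun x := ⟨fun q => ((q.2 : ℂ) * Finsupp.linearCombination ℂ (θ q.1) x.1).re + x.2, by
    have h := (bary1_cont θ hθ x.1).comp
      (continuous_fst : Continuous (Prod.fst : Λ × ↥(Metric.closedBall (0 : ℂ) 1) → Λ))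
    exact (Complex.continuous_re.comp
      ((continuous_subtype_val.comp continuous_snd).mul h)).add continuous_const⟩
  map_add' x y := by
    ext q
    simp only [Prod.fst_add, Prod.snd_add, map_add, mul_add, Complex.add_re,
      ContinuousMap.coe_mk, ContinuousMap.add_apply]
    ring
  map_smul' r x := by
    ext q
    simp only [Prod.smul_fst, Prod.smul_snd, LinearMap.map_smul_of_tower,
      ContinuousMap.coe_mk, ContinuousMap.smul_apply, RingHom.id_apply, smul_eq_mul]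
    rw [Complex.real_smul, mul_left_comm, Complex.re_ofReal_mul]
    ring

/-- the value at `B` -/
private noncomputable def bary1phi (B : ℤ → ℂ) : ((ℤ →₀ ℂ) × ℝ) →ₗ[ℝ] ℝ where
  toFun x := (Finsupp.linearCombination ℂ B x.1).re + x.2
  map_add' x y := by
    simp only [Prod.fst_add, Prod.snd_add, map_add, Complex.add_re]
    ring
  map_smul' r x := by
    simp only [Prod.smul_fst, Prod.smul_snd, LinearMap.map_smul_of_tower,
      RingHom.id_apply, smul_eq_mul]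
    rw [Complex.real_smul, Complex.re_ofReal_mul]
    ring

private theorem bary1_bdd {Q : Type} [TopologicalSpace Q] [CompactSpace Q] (f : C(Q, ℝ)) :
    BddAbove (Set.range fun q => f q) := by
  have h := isCompact_range f.continuous
  exact h.bddAbove

private theorem bary1_claim {Λ : Type} [TopologicalSpace Λ] [CompactSpace Λ]
    [Nonempty Λ] (θ : Λ → ℤ → ℂ) (hθ : ∀ m, Continuous fun l => θ l m) {B : ℤ → ℂ}
    (hB : Dom (Set.range θ) B) (x : (ℤ →₀ ℂ) × ℝ) :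
    bary1phi B x ≤ ⨆ q, bary1L θ hθ x q := by
  obtain ⟨c, t⟩ := x
  obtain ⟨l₀, -, hl₀⟩ := isCompact_univ.exists_isMaxOn Set.univ_nonempty
    (f := fun l => ‖Finsupp.linearCombination ℂ (θ l) c‖) ((bary1_cont θ hθ c).norm.continuousOn)
  set K := ‖Finsupp.linearCombination ℂ (θ l₀) c‖ with hK
  have h1 : ‖Finsupp.linearCombination ℂ B c‖ ≤ K := by
    rw [← bary1_lc]
    refine hB c K (norm_nonneg _) ?_
    rintro s ⟨l, rfl⟩
    rw [bary1_lc]
    exact hl₀ (Set.mem_univ l)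
  obtain ⟨α, hα, hα2⟩ : ∃ α : ℂ, ‖α‖ ≤ 1 ∧
      (α * Finsupp.linearCombination ℂ (θ l₀) c).re = K := by
    by_cases h0 : Finsupp.linearCombination ℂ (θ l₀) c = 0
    · refine ⟨0, by simp, ?_⟩
      rw [hK, h0]
      simp
    · refine ⟨conj (Finsupp.linearCombination ℂ (θ l₀) c) / (K : ℂ), ?_, ?_⟩
      · rw [norm_div, RCLike.norm_conj, Complex.norm_real, Real.norm_eq_abs, hK, abs_norm]
        exact div_self_le_one _
      · have hK0 : (K : ℂ) ≠ 0 := by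
          rw [hK]
          simpa using h0
        have : conj (Finsupp.linearCombination ℂ (θ l₀) c) / (K : ℂ) *
            Finsupp.linearCombination ℂ (θ l₀) c = (K : ℂ) := by
          rw [div_mul_eq_mul_div, mul_comm, Complex.mul_conj, Complex.normSq_eq_norm_sq, ← hK,
            div_eq_iff hK0]
          push_cast
          ring
        rw [this, Complex.ofReal_re]
  have h2 : K + t ≤ ⨆ q, bary1L θ hθ (c, t) q := by
    refine le_trans (le_of_eq ?_) (le_ciSup (bary1_bdd _)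
      ((l₀, ⟨α, by simpa using hα⟩) : Λ × ↥(Metric.closedBall (0 : ℂ) 1)))
    change K + t = (α * Finsupp.linearCombination ℂ (θ l₀) c).re + t
    rw [hα2]
  refine le_trans ?_ h2
  change (Finsupp.linearCombination ℂ B c).re + t ≤ K + t
  have := (Complex.re_le_norm _).trans h1
  linarith

/-- **BARY1.** Dual description of the hull gives a positive functional on `C(Λ × disc)`.

Proof. Let `Q = Λ × closedBall (0 : ℂ) 1`. For `c : ℤ →₀ ℂ` let
`ev c l = c.sum fun m z => z * θ l m`, continuous in `l`.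
Let `E = C(Q, ℝ)` and `N : E → ℝ`, `N f = ⨆ q, f q` (finite, since `Q` is compact and nonempty);
`N` is positively homogeneous and subadditive.
Consider the real linear map `L : (ℤ →₀ ℂ) × ℝ →ₗ[ℝ] E`, `L (c, t) (l, α) = re (α * ev c l) + t`,
and the real linear functional `φ (c, t) = re (c.sum fun m z => z * B m) + t`.
Claim `φ x ≤ N (L x)`: put `K = sup_l ‖ev c l‖` (attained at some `l₀`, `Λ` compact nonempty);
taking `α` of norm `≤ 1` with `α * ev c l₀ = ‖ev c l₀‖ = K` we get `N (L (c, t)) ≥ K + t`, and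
`re (c.sum ... B) ≤ ‖c.sum ... B‖ ≤ K` by `hB`.
So `φ` vanishes on `ker L` and descends to a linear functional on the subspace `range L ≤ E`
(e.g. through `LinearMap.quotKerEquivRange`), bounded there by `N`; the Hahn-Banach theorem
`exists_extension_of_le_sublinear` gives `Φ : E →ₗ[ℝ] ℝ` with `Φ (L x) = φ x`, `Φ f ≤ N f`.
`Φ` is positive: `f ≥ 0` implies `Φ (-f) ≤ N (-f) ≤ 0`. `Φ 1 = φ (0, 1) = 1`.
Taking `c = single m 1` and `c = single m (-I)` (`re (-I * z) = im z`) gives the last two. -/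
theorem exists_functional {Λ : Type} [TopologicalSpace Λ] [CompactSpace Λ] [T2Space Λ]
    [Nonempty Λ] (θ : Λ → ℤ → ℂ) (hθ : ∀ m, Continuous fun l => θ l m) {B : ℤ → ℂ}
    (hB : Dom (Set.range θ) B) :
    ∃ Φ : C(Λ × ↥(Metric.closedBall (0 : ℂ) 1), ℝ) →ₗ[ℝ] ℝ,
      (∀ f, (∀ q, 0 ≤ f q) → 0 ≤ Φ f) ∧ Φ 1 = 1 ∧
      (∀ (m : ℤ) (f : C(Λ × ↥(Metric.closedBall (0 : ℂ) 1), ℝ)),
        (∀ q, f q = ((q.2 : ℂ) * θ q.1 m).re) → Φ f = (B m).re) ∧
      ∀ (m : ℤ) (f : C(Λ × ↥(Metric.closedBall (0 : ℂ) 1), ℝ)),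
        (∀ q, f q = ((q.2 : ℂ) * θ q.1 m).im) → Φ f = (B m).im := by
  classical
  have hne : Nonempty (Λ × ↥(Metric.closedBall (0 : ℂ) 1)) :=
    ⟨(Classical.arbitrary Λ, ⟨0, by simp⟩)⟩
  set L := bary1L θ hθ with hL
  set φ := bary1phi B with hφ
  have hker : LinearMap.ker L ≤ LinearMap.ker φ := by
    intro x hx
    rw [LinearMap.mem_ker] at hx ⊢
    have key : ∀ y, L y = 0 → φ y ≤ 0 := by
      intro y hy
      have := bary1_claim θ hθ hB y
      rw [← hL, hy] at this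
      simpa using this
    refine le_antisymm (key x hx) ?_
    have := key (-x) (by rw [map_neg, hx, neg_zero])
    rw [map_neg] at this
    linarith
  let p : C(Λ × ↥(Metric.closedBall (0 : ℂ) 1), ℝ) →ₗ.[ℝ] ℝ :=
    { domain := LinearMap.range L
      toFun := ((LinearMap.ker L).liftQ φ hker) ∘ₗ L.quotKerEquivRange.symm.toLinearMap }
  have hp : ∀ x, ∀ h : L x ∈ p.domain, p ⟨L x, h⟩ = φ x := by
    intro x h
    have e : L.quotKerEquivRange.symm ⟨L x, h⟩ = Submodule.Quotient.mk x := by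
      rw [LinearEquiv.symm_apply_eq]
      rfl
    change ((LinearMap.ker L).liftQ φ hker) (L.quotKerEquivRange.symm ⟨L x, h⟩) = φ x
    rw [e]
    rfl
  obtain ⟨Φ, h1, h2⟩ := exists_extension_of_le_sublinear p (fun f => ⨆ q, f q)
    (by
      intro c hc f
      simp only [ContinuousMap.smul_apply, smul_eq_mul]
      rw [Real.mul_iSup_of_nonneg hc.le])
    (by
      intro f g
      refine ciSup_le fun q => ?_
      exact add_le_add (le_ciSup (bary1_bdd f) q) (le_ciSup (bary1_bdd g) q))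
    (by
      rintro ⟨_, x, rfl⟩
      rw [hp]
      exact bary1_claim θ hθ hB x)
  have hΦ : ∀ x, Φ (L x) = φ x := by
    intro x
    have := h1 ⟨L x, ⟨x, rfl⟩⟩
    rw [hp] at this
    exact this
  refine ⟨Φ, ?_, ?_, ?_, ?_⟩
  · intro f hf
    have := h2 (-f)
    rw [map_neg] at this
    have h3 : (⨆ q, (-f) q) ≤ 0 := ciSup_le fun q => by
      simpa using hf q
    linarith
  · have e : L (0, 1) = 1 := by
      ext q
      change ((q.2 : ℂ) * Finsupp.linearCombination ℂ (θ q.1) 0).re + 1 = 1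
      simp
    rw [← e, hΦ]
    change (Finsupp.linearCombination ℂ B 0).re + 1 = 1
    simp
  · intro m f hf
    have e : L (Finsupp.single m 1, 0) = f := by
      ext q
      rw [hf]
      change ((q.2 : ℂ) * Finsupp.linearCombination ℂ (θ q.1) (Finsupp.single m 1)).re + 0 = _
      rw [Finsupp.linearCombination_single, one_smul, add_zero]
    rw [← e, hΦ]
    change (Finsupp.linearCombination ℂ B (Finsupp.single m 1)).re + 0 = _
    rw [Finsupp.linearCombination_single, one_smul, add_zero]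
  · intro m f hf
    have e : L (Finsupp.single m (-Complex.I), 0) = f := by
      ext q
      rw [hf]
      change ((q.2 : ℂ) * Finsupp.linearCombination ℂ (θ q.1)
        (Finsupp.single m (-Complex.I))).re + 0 = _
      rw [Finsupp.linearCombination_single, smul_eq_mul, add_zero, mul_left_comm]
      simp
    rw [← e, hΦ]
    change (Finsupp.linearCombination ℂ B (Finsupp.single m (-Complex.I))).re + 0 = _
    rw [Finsupp.linearCombination_single, smul_eq_mul, add_zero]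
    simp

end Pool.Agent.Nil820

end

/-! ### Part `NilDer` -/

section

/-! # Piece NILDER: the derived filtered group -/

open scoped ComplexConjugate Topology

namespace Pool.Agent.Nil820

/-- membership in the derived filtration -/
theorem mem_derFil {G : Type} [Group G] {fil : ℕ → Subgroup G} {hn : ∀ i, (fil i).Normal}
    {i : ℕ} {x : ↥(derG (fil 2) (hn 2))} :
    x ∈ derFil fil hn i ↔
      (x.1.1 ∈ fil i ∧ x.1.2 ∈ fil i) ∧ x.1.1 * (x.1.2)⁻¹ ∈ fil (i + 1) := by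
  unfold derFil
  rw [Subgroup.mem_subgroupOf, Subgroup.mem_inf, Subgroup.mem_prod]
  rfl

theorem mem_derΓ {G : Type} [Group G] {fil : ℕ → Subgroup G} {hn : ∀ i, (fil i).Normal}
    {Γ : Subgroup G} {x : ↥(derG (fil 2) (hn 2))} :
    x ∈ derΓ fil hn Γ ↔ x.1.1 ∈ Γ ∧ x.1.2 ∈ Γ := by
  unfold derΓ
  rw [Subgroup.mem_subgroupOf, Subgroup.mem_prod]

theorem NilData.anti' {G : Type} [Group G] [TopologicalSpace G]
    {fil : ℕ → Subgroup G} {Γ : Subgroup G} (h : NilData fil Γ) {i l : ℕ} (hil : i ≤ l) :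
    fil l ≤ fil i := by
  induction l, hil using Nat.le_induction with
  | base => exact le_rfl
  | succ l _ ih => exact (h.anti l).trans ih

/-- the compact sets for the derived filtration, `i ≥ 1` -/
theorem NilData.der_cocpt {G : Type} [Group G] [TopologicalSpace G] [IsTopologicalGroup G]
    {fil : ℕ → Subgroup G} {Γ : Subgroup G} (h : NilData fil Γ) (i : ℕ) (hi : 1 ≤ i) :
    ∃ K : Set ↥(derG (fil 2) (h.normal 2)), IsCompact K ∧
      K ⊆ (derFil fil h.normal i : Set ↥(derG (fil 2) (h.normal 2))) ∧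
      ∀ c ∈ derFil fil h.normal i, ∃ k ∈ K, ∃ γ ∈ derΓ fil h.normal Γ,
        γ ∈ derFil fil h.normal i ∧ c = k * γ := by
  obtain ⟨K1, hK1c, hK1, hK1'⟩ := h.cocpt i
  obtain ⟨K2, hK2c, hK2, hK2'⟩ := h.cocpt (i + 1)
  have hle2 : fil (i + 1) ≤ fil 2 := h.anti' (by omega)
  have hle1 : fil (i + 1) ≤ fil i := h.anti' (by omega)
  have hmem : ∀ k ∈ K1, ∀ k' ∈ K2, (k * k') * k⁻¹ ∈ fil (i + 1) := by
    intro k _ k' hk'
    exact (h.normal (i + 1)).conj_mem _ (hK2 hk') k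
  refine ⟨{x | ∃ k ∈ K1, ∃ k' ∈ K2, x.1 = (k * k', k)}, ?_, ?_, ?_⟩
  · rw [Subtype.isCompact_iff]
    have e : (Subtype.val '' {x : ↥(derG (fil 2) (h.normal 2)) |
        ∃ k ∈ K1, ∃ k' ∈ K2, x.1 = (k * k', k)}) =
        (fun p : G × G => (p.1 * p.2, p.1)) '' (K1 ×ˢ K2) := by
      ext y
      constructor
      · rintro ⟨x, ⟨k, hk, k', hk', hx⟩, rfl⟩
        exact ⟨(k, k'), ⟨hk, hk'⟩, hx.symm⟩
      · rintro ⟨⟨k, k'⟩, ⟨hk, hk'⟩, rfl⟩
        exact ⟨⟨(k * k', k), hle2 (hmem k hk k' hk')⟩, ⟨k, hk, k', hk', rfl⟩, rfl⟩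
    rw [e]
    exact (hK1c.prod hK2c).image ((continuous_fst.mul continuous_snd).prodMk continuous_fst)
  · rintro x ⟨k, hk, k', hk', hx⟩
    refine mem_derFil.2 ?_
    rw [hx]
    exact ⟨⟨(fil i).mul_mem (hK1 hk) (hle1 (hK2 hk')), hK1 hk⟩, hmem k hk k' hk'⟩
  · intro c hc
    obtain ⟨⟨hc1, hc2⟩, hc3⟩ := mem_derFil.1 hc
    obtain ⟨k, hk, γ, hγΓ, hγ, hkγ⟩ := hK1' _ hc2
    obtain ⟨k', hk', γ', hγΓ', hγ', hkγ'⟩ := hK2' (k⁻¹ * (c.1.1 * (c.1.2)⁻¹) * k) (by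
      have := (h.normal (i + 1)).conj_mem _ hc3 k⁻¹
      simpa using this)
    have e1 : c.1.1 = k * k' * (γ' * γ) := by
      have h1 : k * k' * (γ' * γ) = k * (k' * γ') * γ := by group
      rw [h1, ← hkγ']
      have h2 : k * (k⁻¹ * (c.1.1 * (c.1.2)⁻¹) * k) * γ = c.1.1 * (c.1.2)⁻¹ * (k * γ) := by
        group
      rw [h2, ← hkγ]
      group
    have m2 : (γ' * γ) * γ⁻¹ = γ' := by group
    have m3 : ((γ' * γ, γ) : G × G) ∈ derG (fil 2) (h.normal 2) := by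
      change (γ' * γ) * γ⁻¹ ∈ fil 2
      rw [m2]
      exact hle2 hγ'
    refine ⟨⟨(k * k', k), hle2 (hmem k hk k' hk')⟩, ⟨k, hk, k', hk', rfl⟩,
      ⟨(γ' * γ, γ), m3⟩, mem_derΓ.2 ⟨Γ.mul_mem hγΓ' hγΓ, hγΓ⟩,
      mem_derFil.2 ⟨⟨(fil i).mul_mem (hle1 hγ') hγ, hγ⟩, ?_⟩, ?_⟩
    · change (γ' * γ) * γ⁻¹ ∈ fil (i + 1)
      rw [m2]
      exact hγ'
    · apply Subtype.ext
      apply Prod.ext
      · exact e1
      · exact hkγ

/-- **NILDER.** The derived group `G' = {(a, b) : a b⁻¹ ∈ fil 2}` with the filtration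
`derFil i = {(a, b) : a, b ∈ fil i, a b⁻¹ ∈ fil (i+1)}` and `derΓ = (Γ × Γ) ∩ G'` satisfies
`NilData` again.

Proof. Unfold with `Subgroup.mem_subgroupOf`, `Subgroup.mem_inf`, `Subgroup.mem_prod`.
* `zero`, `one`: `fil 0 = fil 1 = ⊤` and the elements of `G'` satisfy `a b⁻¹ ∈ fil 2 ≤ fil 1`.
* `anti`, `normal`: clear (`fil i` is normal; conjugation is componentwise and
  `(p a p⁻¹) (q b q⁻¹)⁻¹ ∈ fil (i+1)` for `(p, q) ∈ G'`, `(a, b) ∈ derFil i`: it is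
  `p a p⁻¹ q b⁻¹ q⁻¹`; write `p = n q` with `n ∈ fil 2`; then
  `p a p⁻¹ = n (q a q⁻¹) n⁻¹ = [n, q a q⁻¹] (q a q⁻¹)` with `[n, q a q⁻¹] ∈ fil (i + 2)`, and
  `(q a q⁻¹) (q b⁻¹ q⁻¹) = q (a b⁻¹) q⁻¹ ∈ fil (i+1)`).
* `comm`: let `(a₁, a₂) ∈ derFil i`, `(b₁, b₂) ∈ derFil l`; the commutators `[a₁, b₁]`, `[a₂, b₂]`
  are in `fil (i+l)`, and `[a₁, b₁] [a₂, b₂]⁻¹ ∈ fil (i+l+1)`: write `a₁ = α a₂` with
  `α ∈ fil (i+1)`, `b₁ = β b₂`, `β ∈ fil (l+1)`. Modulo the normal subgroup `N = fil (i+l+1)`: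
  `[α a₂, b₁] = α [a₂, b₁] α⁻¹ [α, b₁]`, `[α, b₁] ∈ fil (i+1+l) = N`, and
  `α [a₂, b₁] α⁻¹ = [α, [a₂, b₁]] [a₂, b₁]` with `[α, [a₂, b₁]] ∈ fil (i+1+(i+l)) ≤ N`
  (antitone), so `[a₁, b₁] ≡ [a₂, b₁]`; similarly `[a₂, β b₂] = [a₂, β] β [a₂, b₂] β⁻¹ ≡ [a₂, b₂]`.
* `cocpt i`, `i ≥ 1`: let `K_i`, `K_{i+1}` be the compact sets for `fil i`, `fil (i+1)`. For
  `(c₁, c₂) ∈ derFil i` write `c₂ = k γ`, `k ∈ K_i`, `γ ∈ Γ ∩ fil i`, and `c₁ = δ c₂`,
  `δ ∈ fil (i+1)`; then `c₁ = k (k⁻¹ δ k) γ`, `k⁻¹ δ k ∈ fil (i+1)` so it is `k' γ'`,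
  `k' ∈ K_{i+1}`, `γ' ∈ Γ ∩ fil (i+1)`; so `(c₁, c₂) = (k k', k) (γ' γ, γ)`. The set
  `{(k k', k) : k ∈ K_i, k' ∈ K_{i+1}}` is compact in `G × G`, contained in
  `derFil i` (`k k' k⁻¹ ∈ fil (i+1)`) hence in `G'`; as a subset of the subtype `G'` it is compact
  (`Topology.IsInducing.isCompact_iff`, or `Subtype.isCompact_iff`), and
  `(γ' γ, γ) ∈ derΓ ∩ derFil i`. For `i = 0` use the set for `i = 1` (`derFil 0 = derFil 1 = ⊤`). -/
theorem NilData.der {G : Type} [Group G] [TopologicalSpace G] [IsTopologicalGroup G]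
    {fil : ℕ → Subgroup G} {Γ : Subgroup G} (h : NilData fil Γ) :
    NilData (derFil fil h.normal) (derΓ fil h.normal Γ) := by
  have hzero : derFil fil h.normal 0 = ⊤ := by
    rw [eq_top_iff]
    intro x _
    refine mem_derFil.2 ?_
    rw [h.zero, zero_add, h.one]
    exact ⟨⟨Subgroup.mem_top _, Subgroup.mem_top _⟩, Subgroup.mem_top _⟩
  have hone : derFil fil h.normal 1 = ⊤ := by
    rw [eq_top_iff]
    intro x _
    refine mem_derFil.2 ?_
    refine ⟨?_, x.2⟩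
    rw [h.one]
    exact ⟨Subgroup.mem_top _, Subgroup.mem_top _⟩
  refine ⟨hzero, hone, ?_, ?_, ?_, ?_⟩
  · intro i x hx
    obtain ⟨⟨h1, h2⟩, h3⟩ := mem_derFil.1 hx
    exact mem_derFil.2 ⟨⟨h.anti i h1, h.anti i h2⟩, h.anti (i + 1) h3⟩
  · intro i
    refine ⟨fun x hx g => ?_⟩
    obtain ⟨⟨h1, h2⟩, h3⟩ := mem_derFil.1 hx
    obtain ⟨⟨a, b⟩, hab⟩ := x
    obtain ⟨⟨p, q⟩, hpq⟩ := g
    have hn : p * q⁻¹ ∈ fil 2 := hpq
    refine mem_derFil.2 ⟨⟨(h.normal i).conj_mem _ h1 p, (h.normal i).conj_mem _ h2 q⟩, ?_⟩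
    change (p * a * p⁻¹) * (q * b * q⁻¹)⁻¹ ∈ fil (i + 1)
    change a ∈ fil i at h1
    change a * b⁻¹ ∈ fil (i + 1) at h3
    have e : (p * a * p⁻¹) * (q * b * q⁻¹)⁻¹ =
        ((p * q⁻¹) * (q * a * q⁻¹) * (p * q⁻¹)⁻¹ * (q * a * q⁻¹)⁻¹) *
          (q * (a * b⁻¹) * q⁻¹) := by group
    rw [e]
    refine (fil (i + 1)).mul_mem ?_ ((h.normal (i + 1)).conj_mem _ h3 q)
    exact h.anti' (by omega) (h.comm 2 i _ hn _ ((h.normal i).conj_mem _ h1 q))
  · intro i l x hx y hy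
    obtain ⟨⟨h1, h2⟩, h3⟩ := mem_derFil.1 hx
    obtain ⟨⟨k1, k2⟩, k3⟩ := mem_derFil.1 hy
    obtain ⟨⟨a₁, a₂⟩, hx'⟩ := x
    obtain ⟨⟨b₁, b₂⟩, hy'⟩ := y
    change a₁ ∈ fil i at h1
    change a₂ ∈ fil i at h2
    change a₁ * a₂⁻¹ ∈ fil (i + 1) at h3
    change b₁ ∈ fil l at k1
    change b₂ ∈ fil l at k2
    change b₁ * b₂⁻¹ ∈ fil (l + 1) at k3
    refine mem_derFil.2 ⟨⟨h.comm i l _ h1 _ k1, h.comm i l _ h2 _ k2⟩, ?_⟩
    change (a₁ * b₁ * a₁⁻¹ * b₁⁻¹) * (a₂ * b₂ * a₂⁻¹ * b₂⁻¹)⁻¹ ∈ fil (i + l + 1)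
    set N := fil (i + l + 1) with hN
    have hNn : N.Normal := h.normal _
    set α := a₁ * a₂⁻¹ with hα
    set β := b₁ * b₂⁻¹ with hβ
    set c := a₂ * b₁ * a₂⁻¹ * b₁⁻¹ with hc
    set d := a₂ * b₂ * a₂⁻¹ * b₂⁻¹ with hd
    have ea : a₁ = α * a₂ := by rw [hα]; group
    have eb : b₁ = β * b₂ := by rw [hβ]; group
    have hcm : c ∈ fil (i + l) := h.comm i l _ h2 _ k1
    have hdm : d ∈ fil (i + l) := h.comm i l _ h2 _ k2
    have m1 : α * c * α⁻¹ * c⁻¹ ∈ N := h.anti' (by omega) (h.comm (i + 1) (i + l) _ h3 _ hcm)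
    have m2 : α * b₁ * α⁻¹ * b₁⁻¹ ∈ N := h.anti' (by omega) (h.comm (i + 1) l _ h3 _ k1)
    have m3 : a₂ * β * a₂⁻¹ * β⁻¹ ∈ N := h.anti' (by omega) (h.comm i (l + 1) _ h2 _ k3)
    have m4 : β * d * β⁻¹ * d⁻¹ ∈ N := h.anti' (by omega) (h.comm (l + 1) (i + l) _ k3 _ hdm)
    have e1 : a₁ * b₁ * a₁⁻¹ * b₁⁻¹ * c⁻¹ =
        (α * c * α⁻¹ * c⁻¹) * (c * (α * b₁ * α⁻¹ * b₁⁻¹) * c⁻¹) := by
      rw [ea, hc]; group
    have e2 : c * d⁻¹ = (a₂ * β * a₂⁻¹ * β⁻¹) * (β * d * β⁻¹ * d⁻¹) := by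
      rw [hc, hd, eb]; group
    have e3 : (a₁ * b₁ * a₁⁻¹ * b₁⁻¹) * d⁻¹ =
        (a₁ * b₁ * a₁⁻¹ * b₁⁻¹ * c⁻¹) * (c * d⁻¹) := by group
    rw [e3, e1, e2]
    exact N.mul_mem (N.mul_mem m1 (hNn.conj_mem _ m2 c)) (N.mul_mem m3 m4)
  · intro i
    rcases Nat.eq_zero_or_pos i with hi | hi
    · subst hi
      rw [hzero, ← hone]
      exact h.der_cocpt 1 le_rfl
    · exact h.der_cocpt i hi

end Pool.Agent.Nil820

end
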