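import Mathlib
import Pool.Agent.Lib_MP_820dd4_an.Bary1

/-! ### Part `NilAlg1` -/

section

/-! # Piece NILALG1: products of nilmanifolds -/

open scoped ComplexConjugate Topology Manifold

namespace Pool.Agent.Nil820

/-- the product of two Lie groups, over the product space -/
private theorem lie_prod (V V' G G' : Type) [NormedAddCommGroup V] [NormedSpace ℝ V]
    [NormedAddCommGroup V'] [NormedSpace ℝ V']
    [Group G] [TopologicalSpace G] [Group G'] [TopologicalSpace G']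
    [ChartedSpace V G] [ChartedSpace V' G'] [LieGroup (modelWithCornersSelf ℝ V) (⊤ : ℕ∞) G]
    [LieGroup (modelWithCornersSelf ℝ V') (⊤ : ℕ∞) G'] :
    @LieGroup ℝ _ (V × V') _ (V × V') _ _ (modelWithCornersSelf ℝ (V × V')) (⊤ : ℕ∞) (G × G') _ _
      (prodChartedSpace V G V' G') := by
  have h : LieGroup ((modelWithCornersSelf ℝ V).prod (modelWithCornersSelf ℝ V')) (⊤ : ℕ∞) (G × G') :=
    inferInstance
  rw [← modelWithCornersSelf_prod] at h
  exact h

private theorem disc_prod (G G' : Type) [Group G] [TopologicalSpace G] [Group G'] [TopologicalSpace G']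
    (Γ : Subgroup G) (Γ' : Subgroup G') [DiscreteTopology Γ] [DiscreteTopology Γ'] :
    DiscreteTopology (Γ.prod Γ') := by
  have hc : Continuous (fun z : Γ.prod Γ' =>
      ((⟨z.1.1, (Subgroup.mem_prod.1 z.2).1⟩, ⟨z.1.2, (Subgroup.mem_prod.1 z.2).2⟩) : Γ × Γ')) := by
    fun_prop
  refine DiscreteTopology.of_continuous_injective hc ?_
  intro z w hzw
  simp only [Prod.mk.injEq, Subtype.mk.injEq] at hzw
  exact Subtype.ext (Prod.ext hzw.1 hzw.2)

/-- the projections of the product nilmanifold -/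
private def pfst (G G' : Type) [Group G] [Group G'] (Γ : Subgroup G) (Γ' : Subgroup G') :
    (G × G') ⧸ (Γ.prod Γ') → G ⧸ Γ :=
  Quotient.map' Prod.fst (by
    intro a b hab
    rw [QuotientGroup.leftRel_apply] at hab ⊢
    exact (Subgroup.mem_prod.1 hab).1)

private def psnd (G G' : Type) [Group G] [Group G'] (Γ : Subgroup G) (Γ' : Subgroup G') :
    (G × G') ⧸ (Γ.prod Γ') → G' ⧸ Γ' :=
  Quotient.map' Prod.snd (by
    intro a b hab
    rw [QuotientGroup.leftRel_apply] at hab ⊢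
    exact (Subgroup.mem_prod.1 hab).2)

private def pinc (G G' : Type) [Group G] [Group G'] (Γ : Subgroup G) (Γ' : Subgroup G') :
    (G ⧸ Γ) × (G' ⧸ Γ') → (G × G') ⧸ (Γ.prod Γ') := fun z =>
  Quotient.map₂ (fun a b => (a, b)) (by
    intro a b hab c d hcd
    change QuotientGroup.leftRel _ _ _ at hab hcd ⊢
    rw [QuotientGroup.leftRel_apply] at hab hcd ⊢
    exact Subgroup.mem_prod.2 ⟨hab, hcd⟩) z.1 z.2

private theorem comp_prod (G G' : Type) [Group G] [TopologicalSpace G] [Group G'] [TopologicalSpace G']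
    [IsTopologicalGroup G] [IsTopologicalGroup G']
    (Γ : Subgroup G) (Γ' : Subgroup G') [CompactSpace (G ⧸ Γ)] [CompactSpace (G' ⧸ Γ')] :
    CompactSpace ((G × G') ⧸ (Γ.prod Γ')) := by
  have h1 : Continuous (pinc G G' Γ Γ') := by
    have hq : Topology.IsQuotientMap (Prod.map (QuotientGroup.mk : G → G ⧸ Γ) (QuotientGroup.mk : G' → G' ⧸ Γ')) :=
      (QuotientGroup.isOpenQuotientMap_mk.prodMap QuotientGroup.isOpenQuotientMap_mk).isQuotientMap
    rw [hq.continuous_iff]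
    exact QuotientGroup.continuous_mk
  have h2 : Function.Surjective (pinc G G' Γ Γ') := by
    intro z
    induction z using QuotientGroup.induction_on with
    | H z => exact ⟨(QuotientGroup.mk z.1, QuotientGroup.mk z.2), rfl⟩
  exact h2.compactSpace h1

/-- **NILALG1.** Products of nilmanifolds: the sequences `m ↦ q (φ m, φ' m)` (`φ ∈ W`, `φ' ∈ W'`,
`q` continuous) belong to one nil class.

Proof. Let `(V, G, Γ, g, F)`, `(V', G', Γ', g', F')` be the data of `W`, `W'`. Take `V × V'`,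
`G × G'` with the product structures: `ChartedSpace (V × V') (G × G')` is
`prodChartedSpace V G V' G'` (`ModelProd V V' = V × V'`), and
`LieGroup (𝓘(ℝ, V × V')) ⊤ (G × G')` from `modelWithCornersSelf_prod` and the product instance
`instLieGroupProd` (`LieGroup (I.prod J) n (G × G')`); `Γ.prod Γ'` is discrete (it is homeomorphic to
`Γ × Γ'`; `Subgroup.prodEquiv`), `lowerCentralSeries` of the product is the product
(`Subgroup.top_lowerCentralSeries_prod`). The map
`p : (G × G') ⧸ (Γ.prod Γ') → (G ⧸ Γ) × (G' ⧸ Γ')` is a continuous bijection with continuous inverse: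
the product of the two quotient maps is an open quotient map, so it descends; hence the source is
compact. Let `F'' = fun z => q (F (p z).1, F' (p z).2)`, and
`(g, g') ^ m • (x, x') = (g ^ m • x, g' ^ m • x')`. -/
theorem NilClass.prod {s : ℕ} {W W' : Set (ℤ → ℂ)} (hW : NilClass s W) (hW' : NilClass s W')
    (q : C(ℂ × ℂ, ℂ)) :
    ∃ U, NilClass s U ∧ ∀ φ ∈ W, ∀ φ' ∈ W', (fun m => q (φ m, φ' m)) ∈ U := by
  obtain ⟨V, _, _, _, G, _, _, _, _, _, _, Γ, g, F, h1, h2, h3, rfl⟩ := hW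
  obtain ⟨V', _, _, _, G', _, _, _, _, _, _, Γ', g', F', h1', h2', h3', rfl⟩ := hW'
  have tg : IsTopologicalGroup G :=
    topologicalGroup_of_lieGroup (modelWithCornersSelf ℝ V) (⊤ : ℕ∞)
  have tg' : IsTopologicalGroup G' :=
    topologicalGroup_of_lieGroup (modelWithCornersSelf ℝ V') (⊤ : ℕ∞)
  have hL := lie_prod V V' G G'
  have hD := disc_prod G G' Γ Γ'
  have hC := comp_prod G G' Γ Γ'
  have c1 : Continuous (pfst G G' Γ Γ') := Continuous.quotient_map' continuous_fst _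
  have c2 : Continuous (psnd G G' Γ Γ') := Continuous.quotient_map' continuous_snd _
  refine ⟨_, ⟨V × V', inferInstance, inferInstance, inferInstance, G × G', inferInstance, inferInstance,
    inferInstance, inferInstance, prodChartedSpace V G V' G', hL, Γ.prod Γ', (g, g'),
    ⟨fun z => q (F (pfst G G' Γ Γ' z), F' (psnd G G' Γ Γ' z)), by fun_prop⟩, ?_, hD, hC, rfl⟩, ?_⟩
  · rw [Subgroup.top_lowerCentralSeries_prod, h1, h1', Subgroup.bot_prod_bot]
  · rintro φ ⟨x, hx⟩ φ' ⟨x', hx'⟩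
    induction x using QuotientGroup.induction_on with
    | H x =>
      induction x' using QuotientGroup.induction_on with
      | H x' =>
        refine ⟨QuotientGroup.mk (x, x'), fun m => ?_⟩
        change q (φ m, φ' m) = _
        rw [hx, hx']
        rfl

/-- **NILALG1b.** Composition with a continuous function `q : ℂ → ℂ` (same data, `q ∘ F`). -/
theorem NilClass.comp {s : ℕ} {W : Set (ℤ → ℂ)} (hW : NilClass s W) (q : C(ℂ, ℂ)) :
    ∃ U, NilClass s U ∧ ∀ φ ∈ W, (fun m => q (φ m)) ∈ U := by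
  obtain ⟨V, i1, i2, i3, G, i4, i5, i6, i7, i8, i9, Γ, g, F, h1, h2, h3, rfl⟩ := hW
  refine ⟨_, ⟨V, i1, i2, i3, G, i4, i5, i6, i7, i8, i9, Γ, g, q.comp F, h1, h2, h3, rfl⟩, ?_⟩
  rintro φ ⟨x, hx⟩
  refine ⟨x, fun m => ?_⟩
  change q (φ m) = _
  rw [hx]
  rfl

/-- **NILALG1c.** Shifts (`x` is replaced by `g ^ r • x`) and boundedness. -/
theorem NilClass.shift {s : ℕ} {W : Set (ℤ → ℂ)} (hW : NilClass s W) {φ : ℤ → ℂ} (hφ : φ ∈ W)
    (r : ℤ) : (fun m => φ (m + r)) ∈ W := by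
  obtain ⟨V, _, _, _, G, _, _, _, _, _, _, Γ, g, F, h1, h2, h3, rfl⟩ := hW
  obtain ⟨x, hx⟩ := hφ
  refine ⟨g ^ r • x, fun m => ?_⟩
  change φ (m + r) = _
  rw [hx, zpow_add, mul_smul]

/-- boundedness -/
theorem NilClass.bdd {s : ℕ} {W : Set (ℤ → ℂ)} (hW : NilClass s W) :
    ∃ C : ℝ, ∀ w ∈ W, ∀ m, ‖w m‖ ≤ C := by
  obtain ⟨V, _, _, _, G, _, _, _, _, _, _, Γ, g, F, h1, h2, h3, rfl⟩ := hW
  refine ⟨‖F‖, ?_⟩
  rintro w ⟨x, hx⟩ m
  rw [hx]
  exact F.norm_coe_le_norm _

end Pool.Agent.Nil820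

end

/-! ### Part `NilAlg2` -/

section

/-! # Piece NILALG2: the trivial nilmanifold -/

open scoped ComplexConjugate Topology Manifold

namespace Pool.Agent.Nil820

/-- **NILALG2.** Constants are in a nil class of every step, including `0`.

Proof. Take `V = PUnit` or `V = EuclideanSpace ℝ (Fin 0)` or `V = Fin 0 → ℝ` (a zero dimensional
normed space which is a subsingleton) and `G` the trivial group on the same space, e.g.
`G = PUnit` (with its group structure `PUnit.commGroup`) or `G = Multiplicative V`; the charted space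
structure is `chartedSpaceSelf` (transport if `G ≠ V`), the Lie group structure is trivial because
everything is a subsingleton (`contMDiff_of_subsingleton` or similar; all maps into a subsingleton
are constant). `Γ = ⊥` or `⊤`, `lowerCentralSeries s = ⊥` by `Subsingleton`, `F` constant. -/
theorem nilClass_const (s : ℕ) (c : ℂ) : ∃ W, NilClass s W ∧ (fun _ : ℤ => c) ∈ W := by
  haveI hL : LieGroup (modelWithCornersSelf ℝ PUnit.{1}) (⊤ : ℕ∞) PUnit.{1} :=
    { contMDiff_mul := contMDiff_of_subsingleton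
      contMDiff_inv := contMDiff_of_subsingleton
      compatible := by
        intro e e' he he'
        rw [(chartedSpaceSelf_atlas).1 he, (chartedSpaceSelf_atlas).1 he']
        have := (contDiffGroupoid (⊤ : ℕ∞) (modelWithCornersSelf ℝ PUnit.{1})).id_mem
        simpa using this }
  refine ⟨_, ⟨PUnit.{1}, inferInstance, inferInstance, inferInstance, PUnit.{1}, inferInstance,
    inferInstance, inferInstance, inferInstance, inferInstance, hL, ⊤, 1,
    ContinuousMap.const _ c, Subsingleton.elim _ _, ?_, ?_, rfl⟩, ?_⟩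
  · infer_instance
  · infer_instance
  · exact ⟨QuotientGroup.mk 1, fun m => rfl⟩

end Pool.Agent.Nil820

end

/-! ### Part `MinDefs` -/

section

/-! # Definitions for piece MIN: recurrence on nilmanifolds -/

open scoped Topology

namespace Pool.Agent.Nil820

/-- `x` is uniformly recurrent for the translation by `g`: its orbit closure is minimal -/
def URec {G X : Type} [Group G] [MulAction G X] [TopologicalSpace X] (g : G) (x : X) : Prop :=
  ∀ y ∈ closure (Set.range fun n : ℤ => g ^ n • x), x ∈ closure (Set.range fun n : ℤ => g ^ n • y)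

/-- `M` is a minimal closed invariant set -/
structure IsMin {G X : Type} [Group G] [MulAction G X] [TopologicalSpace X] (g : G) (M : Set X) :
    Prop where
  closed : IsClosed M
  nonempty : M.Nonempty
  inv : ∀ x ∈ M, ∀ n : ℤ, g ^ n • x ∈ M
  dense : ∀ x ∈ M, ∀ y ∈ M, y ∈ closure (Set.range fun n : ℤ => g ^ n • x)

end Pool.Agent.Nil820

end

/-! ### Part `MinA` -/

section

/-! # Piece MINA: existence of minimal sets -/

open scoped Topology

namespace Pool.Agent.Nil820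

/-- **MINA2.** The orbit closure is closed, contains `x` and is invariant. -/
theorem orbitClosure_inv {G X : Type} [Group G] [MulAction G X]
    [TopologicalSpace X] [ContinuousConstSMul G X] (g : G) (x : X) :
    x ∈ closure (Set.range fun n : ℤ => g ^ n • x) ∧
    (∀ y ∈ closure (Set.range fun n : ℤ => g ^ n • x), ∀ n : ℤ,
      g ^ n • y ∈ closure (Set.range fun n : ℤ => g ^ n • x)) ∧
    ∀ Z : Set X, IsClosed Z → (∀ z ∈ Z, ∀ n : ℤ, g ^ n • z ∈ Z) → x ∈ Z →
      closure (Set.range fun n : ℤ => g ^ n • x) ⊆ Z := by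
  refine ⟨subset_closure ⟨0, by simp⟩, ?_, ?_⟩
  · intro y hy n
    refine map_mem_closure (continuous_const_smul (g ^ n)) hy ?_
    rintro _ ⟨m, rfl⟩
    refine ⟨n + m, ?_⟩
    simp only [zpow_add, mul_smul]
  · intro Z hZ hinv hx
    refine closure_minimal ?_ hZ
    rintro _ ⟨m, rfl⟩
    exact hinv x hx m

/-- **MINA1.** Every nonempty closed invariant subset `Y` of a compact space contains a minimal set.

Proof. Zorn's lemma (`zorn_superset_nonempty` or `zorn_superset`) for the family of nonempty closed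
`M ⊆ Y` with `g ^ n • x ∈ M` for `x ∈ M`, `n : ℤ`: the intersection of a nonempty chain is nonempty by
compactness (`IsCompact.nonempty_sInter_of_directedOn...`), closed and invariant. For a minimal
`M` and `x ∈ M` the set `closure (range (n ↦ g ^ n • x)) ⊆ M` is nonempty, closed, and invariant
(the map `y ↦ g ^ n • y` is continuous and maps the orbit to itself: `map_mem_closure`), so it
equals `M`. -/
theorem exists_isMin {G X : Type} [Group G] [TopologicalSpace G] [MulAction G X]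
    [TopologicalSpace X] [CompactSpace X] [ContinuousConstSMul G X] (g : G) {Y : Set X}
    (hY : IsClosed Y) (hne : Y.Nonempty) (hinv : ∀ x ∈ Y, ∀ n : ℤ, g ^ n • x ∈ Y) :
    ∃ M ⊆ Y, IsMin g M := by
  obtain ⟨M, hMY, hM⟩ := zorn_superset_nonempty
    {M : Set X | IsClosed M ∧ M.Nonempty ∧ ∀ x ∈ M, ∀ n : ℤ, g ^ n • x ∈ M} (by
      intro c hc hchain hcne
      refine ⟨⋂₀ c, ⟨isClosed_sInter fun s hs => (hc hs).1, ?_, ?_⟩, fun s hs => Set.sInter_subset_of_mem hs⟩
      · haveI : Nonempty c := hcne.to_subtype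
        refine IsCompact.nonempty_sInter_of_directed_nonempty_isCompact_isClosed ?_
          (fun s hs => (hc hs).2.1) (fun s hs => (hc hs).1.isCompact) (fun s hs => (hc hs).1)
        intro a ha b hb
        rcases hchain.total ha hb with h | h
        · exact ⟨a, ha, le_refl a, h⟩
        · exact ⟨b, hb, h, le_refl b⟩
      · intro x hx n s hs
        exact (hc hs).2.2 x (hx s hs) n) Y ⟨hY, hne, hinv⟩
  refine ⟨M, hMY, ⟨hM.prop.1, hM.prop.2.1, hM.prop.2.2, ?_⟩⟩
  intro x hx y hy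
  obtain ⟨h1, h2, h3⟩ := orbitClosure_inv g x
  have hsub := h3 M hM.prop.1 hM.prop.2.2 hx
  have := hM.le_of_le (y := closure (Set.range fun n : ℤ => g ^ n • x))
    ⟨isClosed_closure, ⟨x, h1⟩, h2⟩ hsub
  exact this hy

/-- **MINA3.** Recurrence lifts through a fibration whose fibres are permuted by commuting
homeomorphisms.

Proof. Let `y ∈ closure (orbit x)`. `Y = closure (orbit x)` is closed invariant, let `M ⊆ Y` be
minimal (`exists_isMin`). `π '' M` is compact, hence closed (`Y'` Hausdorff), invariant (`π`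
equivariant), nonempty and contained in `closure (orbit (π x))` (`map_mem_closure`). Take
`z ∈ M`: by `hx`, `π x ∈ closure (orbit (π z)) ⊆ π '' M` (`orbitClosure_inv`), so `π x = π w` with
`w ∈ M`. Take `R, R'` for the pair `(w, x)`: `R w = x`, both continuous, commuting with `g ^ n`,
mutually inverse. Now `R' y ∈ closure (orbit (R' x)) = closure (orbit w) ⊆ M` (`R'` is continuous and
equivariant; `R' x = w`), and by minimality `w ∈ closure (orbit (R' y))`; apply `R`:
`x = R w ∈ closure (orbit (R (R' y))) = closure (orbit y)`. -/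
theorem urec_lift {G X X' : Type} [Group G] [TopologicalSpace G] [MulAction G X] [MulAction G X']
    [TopologicalSpace X] [CompactSpace X] [TopologicalSpace X'] [T2Space X']
    [ContinuousConstSMul G X] [ContinuousConstSMul G X'] (g : G) (π : X → X')
    (hπ : Continuous π) (hπg : ∀ (n : ℤ) x, π (g ^ n • x) = g ^ n • π x)
    (hR : ∀ w x, π w = π x → ∃ R R' : X → X, Continuous R ∧ Continuous R' ∧
      (∀ (n : ℤ) z, R (g ^ n • z) = g ^ n • R z) ∧ (∀ (n : ℤ) z, R' (g ^ n • z) = g ^ n • R' z) ∧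
      (∀ z, R (R' z) = z) ∧ (∀ z, R' (R z) = z) ∧ R w = x)
    (x : X) (hx : URec g (π x)) : URec g x := by
  intro y hy
  obtain ⟨hx1, hx2, hx3⟩ := orbitClosure_inv g x
  obtain ⟨M, hMY, hM⟩ := exists_isMin g (Y := closure (Set.range fun n : ℤ => g ^ n • x))
    isClosed_closure ⟨x, hx1⟩ hx2
  have hcM : IsClosed (π '' M) := (hM.closed.isCompact.image hπ).isClosed
  have hinvM : ∀ z ∈ π '' M, ∀ n : ℤ, g ^ n • z ∈ π '' M := by
    rintro _ ⟨z, hz, rfl⟩ n
    exact ⟨g ^ n • z, hM.inv z hz n, hπg n z⟩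
  obtain ⟨z, hz⟩ := hM.nonempty
  have hπz : π z ∈ closure (Set.range fun n : ℤ => g ^ n • π x) := by
    refine map_mem_closure hπ (hMY hz) ?_
    rintro _ ⟨m, rfl⟩
    exact ⟨m, (hπg m x).symm⟩
  have h1 : π x ∈ closure (Set.range fun n : ℤ => g ^ n • π z) := hx (π z) hπz
  obtain ⟨w, hw, hwx⟩ := (orbitClosure_inv g (π z)).2.2 (π '' M) hcM hinvM ⟨z, hz, rfl⟩ h1
  obtain ⟨R, R', hRc, hRc', hRg, hRg', hRR', hRR, hRw⟩ := hR w x hwx
  have hR'x : R' x = w := by rw [← hRw, hRR]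
  have h2 : R' y ∈ M := by
    have h3 : R' y ∈ closure (Set.range fun n : ℤ => g ^ n • w) := by
      refine map_mem_closure hRc' hy ?_
      rintro _ ⟨m, rfl⟩
      refine ⟨m, ?_⟩
      simp only [hRg', hR'x]
    exact (orbitClosure_inv g w).2.2 M hM.closed hM.inv hw h3
  have h4 : w ∈ closure (Set.range fun n : ℤ => g ^ n • R' y) := hM.dense _ h2 _ hw
  have h5 : R w ∈ closure (Set.range fun n : ℤ => g ^ n • y) := by
    refine map_mem_closure hRc h4 ?_
    rintro _ ⟨m, rfl⟩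
    refine ⟨m, ?_⟩
    simp only [hRg, hRR']
  rwa [hRw] at h5

end Pool.Agent.Nil820

end

/-! ### Part `MinB` -/

section

/-! # Piece MINB: every point of a nilmanifold is uniformly recurrent -/

open scoped Topology Pointwise commutatorElement

namespace Pool.Agent.Nil820

/-- **MINB1.** Quotients by closed subgroups are Hausdorff: the relation
`{(x, y) | x⁻¹ * y ∈ N}` is closed in `G × G` and the quotient map is open
(`t2Space_iff_of_isOpenQuotientMap`, `QuotientGroup.isOpenQuotientMap_mk` or similar). -/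
theorem t2_quotient {G : Type} [Group G] [TopologicalSpace G] [IsTopologicalGroup G]
    (N : Subgroup G) (hN : IsClosed (N : Set G)) : T2Space (G ⧸ N) := by
  rw [t2Space_iff_of_isOpenQuotientMap (QuotientGroup.isOpenQuotientMap_mk (N := N))]
  have h : {q : G × G | (QuotientGroup.mk q.1 : G ⧸ N) = QuotientGroup.mk q.2} =
      (fun q : G × G => q.1⁻¹ * q.2) ⁻¹' (N : Set G) := by
    ext q
    simp only [Set.mem_ofPred_eq, Set.mem_preimage, SetLike.mem_coe]
    exact QuotientGroup.eq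
  rw [h]
  exact hN.preimage (by fun_prop)

/-- right translation by `n` on `G ⧸ Γ` -/
private noncomputable def minb_R {G : Type} [Group G] (Γ : Subgroup G) (n : G)
    (hn : ∀ γ ∈ Γ, n⁻¹ * γ * n ∈ Γ) : G ⧸ Γ → G ⧸ Γ :=
  Quotient.map' (fun y => y * n) (by
    intro y z hyz
    rw [QuotientGroup.leftRel_apply] at hyz ⊢
    have := hn _ hyz
    have h2 : (y * n)⁻¹ * (z * n) = n⁻¹ * (y⁻¹ * z) * n := by group
    rw [h2]
    exact this)

private theorem minb_R_mk {G : Type} [Group G] (Γ : Subgroup G) (n : G)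
    (hn : ∀ γ ∈ Γ, n⁻¹ * γ * n ∈ Γ) (y : G) :
    minb_R Γ n hn (QuotientGroup.mk y : G ⧸ Γ) = QuotientGroup.mk (y * n) := rfl

private theorem minb_R_cont {G : Type} [Group G] [TopologicalSpace G] [IsTopologicalGroup G]
    (Γ : Subgroup G) (n : G) (hn : ∀ γ ∈ Γ, n⁻¹ * γ * n ∈ Γ) : Continuous (minb_R Γ n hn) := by
  unfold minb_R
  exact Continuous.quotient_map' (by fun_prop) _

private theorem minb_R_smul {G : Type} [Group G] (Γ : Subgroup G) (n : G)
    (hn : ∀ γ ∈ Γ, n⁻¹ * γ * n ∈ Γ) (h : G) (z : G ⧸ Γ) :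
    minb_R Γ n hn (h • z) = h • minb_R Γ n hn z := by
  obtain ⟨y, rfl⟩ := QuotientGroup.mk_surjective z
  have h1 : h • (QuotientGroup.mk y : G ⧸ Γ) = QuotientGroup.mk (h * y) := rfl
  rw [h1, minb_R_mk, minb_R_mk]
  change (QuotientGroup.mk (h * y * n) : G ⧸ Γ) = QuotientGroup.mk (h * (y * n))
  rw [mul_assoc]

/-- **MINB2.** Let `Γ ≤ N` be subgroups, `Γ` normalized by `N`. Two points of `G ⧸ Γ` with the same
image in `G ⧸ N` are exchanged by a right translation.

Proof. `w = a Γ`, `x = b Γ`, `a⁻¹ b = n ∈ N`. `R (y Γ) = y n Γ`, `R' (y Γ) = y n⁻¹ Γ`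
(`Quotient.map'`/`Quotient.lift`; well defined since `n⁻¹ Γ n = Γ`), continuous
(`continuous_quot_lift`...), commuting with left translations. -/
theorem exists_right_translation {G : Type} [Group G] [TopologicalSpace G] [IsTopologicalGroup G]
    (Γ N : Subgroup G) (hΓN : Γ ≤ N) (hN : ∀ n ∈ N, ∀ γ, γ ∈ Γ ↔ n * γ * n⁻¹ ∈ Γ) (g : G)
    (w x : G ⧸ Γ) (hwx : Subgroup.quotientMapOfLE hΓN w = Subgroup.quotientMapOfLE hΓN x) :
    ∃ R R' : G ⧸ Γ → G ⧸ Γ, Continuous R ∧ Continuous R' ∧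
      (∀ (n : ℤ) z, R (g ^ n • z) = g ^ n • R z) ∧ (∀ (n : ℤ) z, R' (g ^ n • z) = g ^ n • R' z) ∧
      (∀ z, R (R' z) = z) ∧ (∀ z, R' (R z) = z) ∧ R w = x := by
  obtain ⟨a, rfl⟩ := QuotientGroup.mk_surjective w
  obtain ⟨b, rfl⟩ := QuotientGroup.mk_surjective x
  have hn : a⁻¹ * b ∈ N := by
    have h1 : (QuotientGroup.mk a : G ⧸ N) = QuotientGroup.mk b := hwx
    exact QuotientGroup.eq.1 h1
  have hn1 : ∀ γ ∈ Γ, (a⁻¹ * b)⁻¹ * γ * (a⁻¹ * b) ∈ Γ := by
    intro γ hγ
    have := (hN (a⁻¹ * b)⁻¹ (N.inv_mem hn) γ).1 hγ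
    rwa [inv_inv] at this
  have hn2 : ∀ γ ∈ Γ, ((a⁻¹ * b)⁻¹)⁻¹ * γ * (a⁻¹ * b)⁻¹ ∈ Γ := by
    intro γ hγ
    have := (hN (a⁻¹ * b) hn γ).1 hγ
    rwa [inv_inv]
  refine ⟨minb_R Γ (a⁻¹ * b) hn1, minb_R Γ (a⁻¹ * b)⁻¹ hn2, minb_R_cont _ _ _, minb_R_cont _ _ _,
    fun n z => minb_R_smul _ _ _ _ _, fun n z => minb_R_smul _ _ _ _ _, ?_, ?_, ?_⟩
  · intro z
    obtain ⟨y, rfl⟩ := QuotientGroup.mk_surjective z
    rw [minb_R_mk, minb_R_mk]
    congr 1
    group
  · intro z
    obtain ⟨y, rfl⟩ := QuotientGroup.mk_surjective z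
    rw [minb_R_mk, minb_R_mk]
    congr 1
    group
  · rw [minb_R_mk]
    congr 1
    group

/-- the elements normalizing a closed subgroup form a closed set -/
private theorem minb_closed {G : Type} [Group G] [TopologicalSpace G] [IsTopologicalGroup G]
    (Γ : Subgroup G) (hΓ : IsClosed (Γ : Set G)) : IsClosed (Subgroup.normalizer (Γ : Set G) : Set G) := by
  have h : (Subgroup.normalizer (Γ : Set G) : Set G) = (⋂ γ ∈ Γ, {n : G | n * γ * n⁻¹ ∈ (Γ : Set G)}) ∩
      (⋂ γ ∈ Γ, {n : G | n⁻¹ * γ * n ∈ (Γ : Set G)}) := by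
    ext n
    simp only [SetLike.mem_coe, Set.mem_inter_iff, Set.mem_iInter, Set.mem_ofPred_eq]
    constructor
    · intro hn
      refine ⟨fun γ hγ => (Subgroup.mem_normalizer_iff.1 hn γ).1 hγ, fun γ hγ => ?_⟩
      have := (Subgroup.mem_normalizer_iff.1 ((Subgroup.normalizer (Γ : Set G)).inv_mem hn) γ).1 hγ
      rwa [inv_inv] at this
    · rintro ⟨h1, h2⟩
      rw [Subgroup.mem_normalizer_iff]
      intro γ
      refine ⟨h1 γ, fun h => ?_⟩
      have := h2 _ h
      have e : n⁻¹ * (n * γ * n⁻¹) * n = γ := by group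
      rwa [e] at this
  rw [h]
  refine IsClosed.inter ?_ ?_
  · exact isClosed_biInter fun γ _ => hΓ.preimage (by fun_prop)
  · exact isClosed_biInter fun γ _ => hΓ.preimage (by fun_prop)

/-- **MINB3.** Every point of `G ⧸ Γ` is uniformly recurrent (`Γ` closed, `G ⧸ Γ` compact,
`G` nilpotent modulo `Γ`).

Proof. Induction on `s` (all `Γ` at once). `s = 0`: `lcs 0 = ⊤ ≤ Γ`, `G ⧸ Γ` is one point.
Step: `C = lcs s` (normal), `[C, G] = lcs (s+1) ≤ Γ`, so for `c ∈ C`, `γ ∈ Γ`: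
`c γ c⁻¹ γ⁻¹ ∈ Γ`, so `C` normalizes `Γ`. `N = (C ⊔ Γ).topologicalClosure`: the normalizer of a
closed subgroup is closed (`{n | n γ n⁻¹ ∈ Γ ∀ γ} ∩ {n | n⁻¹ γ n ∈ Γ ∀ γ}`, an intersection of
closed sets), so `N` normalizes `Γ`. `lcs s ≤ N`, `N` closed, `G ⧸ N` is compact (image of
`G ⧸ Γ` under the continuous surjection `quotientMapOfLE`), so all points of `G ⧸ N` are uniformly
recurrent by induction; `G ⧸ N` is Hausdorff by `t2_quotient`. Apply `urec_lift` with
`π = quotientMapOfLE` (continuous, equivariant) and `exists_right_translation`. -/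
theorem urec_nil {G : Type} [Group G] [TopologicalSpace G] [IsTopologicalGroup G] (g : G) (s : ℕ) :
    ∀ Γ : Subgroup G, IsClosed (Γ : Set G) → CompactSpace (G ⧸ Γ) →
      (⊤ : Subgroup G).lowerCentralSeries s ≤ Γ → ∀ x : G ⧸ Γ, URec g x := by
  induction s with
  | zero =>
    intro Γ hΓ hc hs x y hy
    have hsub : ∀ u v : G ⧸ Γ, u = v := by
      intro u v
      obtain ⟨a, rfl⟩ := QuotientGroup.mk_surjective u
      obtain ⟨b, rfl⟩ := QuotientGroup.mk_surjective v
      refine QuotientGroup.eq.2 (hs ?_)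
      rw [Subgroup.lowerCentralSeries_zero]
      trivial
    rw [hsub x y]
    refine subset_closure ⟨0, ?_⟩
    exact hsub _ _
  | succ s ih =>
    intro Γ hΓ hc hs x
    have := hc
    set C : Subgroup G := (⊤ : Subgroup G).lowerCentralSeries s with hC
    have hCn : C ≤ Subgroup.normalizer (Γ : Set G) := by
      intro c hcC
      rw [Subgroup.mem_normalizer_iff]
      have key : ∀ c ∈ C, ∀ γ ∈ Γ, c * γ * c⁻¹ ∈ Γ := by
        intro c hcC γ hγ
        have h1 : ⁅c, γ⁆ ∈ Γ := hs (by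
          rw [Subgroup.lowerCentralSeries_succ]
          exact Subgroup.commutator_mem_commutator hcC (Subgroup.mem_top γ))
        have h2 : c * γ * c⁻¹ = ⁅c, γ⁆ * γ := by
          rw [commutatorElement_def]; group
        rw [h2]
        exact Γ.mul_mem h1 hγ
      intro γ
      refine ⟨key c hcC γ, fun h => ?_⟩
      have := key c⁻¹ (C.inv_mem hcC) _ h
      have e : c⁻¹ * (c * γ * c⁻¹) * c⁻¹⁻¹ = γ := by group
      rwa [e] at this
    set N : Subgroup G := (C ⊔ Γ).topologicalClosure with hN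
    have hNle : N ≤ Subgroup.normalizer (Γ : Set G) := by
      refine Subgroup.topologicalClosure_minimal _ (sup_le hCn Subgroup.le_normalizer) ?_
      exact minb_closed Γ hΓ
    have hΓN : Γ ≤ N := le_trans le_sup_right (Subgroup.le_topologicalClosure _)
    have hCN : C ≤ N := le_trans le_sup_left (Subgroup.le_topologicalClosure _)
    have hNc : IsClosed (N : Set G) := Subgroup.isClosed_topologicalClosure _
    have hπc : Continuous (Subgroup.quotientMapOfLE hΓN) := by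
      refine QuotientGroup.isOpenQuotientMap_mk.isQuotientMap.continuous_iff.2 ?_
      exact (QuotientGroup.continuous_mk : Continuous (QuotientGroup.mk : G → G ⧸ N))
    have hπs : Function.Surjective (Subgroup.quotientMapOfLE hΓN) := by
      intro u
      obtain ⟨a, rfl⟩ := QuotientGroup.mk_surjective u
      exact ⟨QuotientGroup.mk a, rfl⟩
    have hcN : CompactSpace (G ⧸ N) := hπs.compactSpace hπc
    have : T2Space (G ⧸ N) := t2_quotient N hNc
    refine urec_lift g (Subgroup.quotientMapOfLE hΓN) hπc ?_ ?_ x (ih N hNc hcN hCN _)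
    · intro n z
      obtain ⟨a, rfl⟩ := QuotientGroup.mk_surjective z
      rfl
    · intro w x hwx
      exact exists_right_translation Γ N hΓN
        (fun n hn γ => Subgroup.mem_normalizer_iff.1 (hNle hn) γ) g w x hwx

end Pool.Agent.Nil820

end

/-! ### Part `MinC` -/

section

/-! # Piece MINC: syndetic return times and positive lower means -/

open scoped Topology

namespace Pool.Agent.Nil820

/-- **MINC1.** Return times of a uniformly recurrent point to a neighbourhood are syndetic.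

Proof. `Y = closure (orbit x)` is compact. For `y ∈ Y`, `x ∈ closure (orbit y)` and `U` is an open
set containing `x`, so `g ^ n • y ∈ U` for some `n`; the open sets `{y | g ^ n • y ∈ U}` cover `Y`, so
finitely many suffice: there is `N` such that for every `y ∈ Y` some `|n| ≤ N` has
`g ^ n • y ∈ U`. For `m : ℤ` apply this to `y = g ^ (m + N) • x`: `m ≤ n + m + N ≤ m + 2 N`.
`L = 2 N + 1`. -/
theorem syndetic {G X : Type} [Group G] [MulAction G X] [TopologicalSpace X] [CompactSpace X]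
    [ContinuousConstSMul G X] (g : G) {x : X} (hx : URec g x) {U : Set X} (hU : IsOpen U)
    (hxU : x ∈ U) : ∃ L : ℕ, ∀ m : ℤ, ∃ n : ℕ, n < L ∧ g ^ (m + n) • x ∈ U := by
  have hcomp : IsCompact (closure (Set.range fun n : ℤ => g ^ n • x)) :=
    isClosed_closure.isCompact
  have hcov : closure (Set.range fun n : ℤ => g ^ n • x)
      ⊆ ⋃ n : ℤ, (fun y : X => g ^ n • y) ⁻¹' U := by
    intro y hy
    have h1 := hx y hy
    rw [mem_closure_iff] at h1
    obtain ⟨z, hz, n, rfl⟩ := h1 U hU hxU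
    exact Set.mem_iUnion.mpr ⟨n, hz⟩
  obtain ⟨t, ht⟩ := hcomp.elim_finite_subcover _
    (fun n : ℤ => hU.preimage (continuous_const_smul (g ^ n))) hcov
  set N : ℕ := t.sup Int.natAbs with hN
  refine ⟨2 * N + 1, fun m => ?_⟩
  have hy : g ^ (m + N) • x ∈ closure (Set.range fun n : ℤ => g ^ n • x) :=
    subset_closure ⟨m + N, rfl⟩
  obtain ⟨k, hk⟩ := Set.mem_iUnion.mp (ht hy)
  obtain ⟨hkt, hkU⟩ := Set.mem_iUnion.mp hk
  have hkN : k.natAbs ≤ N := Finset.le_sup (f := Int.natAbs) hkt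
  refine ⟨(k + N).toNat, ?_, ?_⟩
  · omega
  · have h2 : g ^ k • g ^ (m + N) • x ∈ U := hkU
    rw [smul_smul, ← zpow_add] at h2
    have h3 : m + (((k + N).toNat : ℕ) : ℤ) = k + (m + N) := by omega
    rw [h3]
    exact h2

/-- **MINC2.** Syndetic lower bounds give a positive lower mean: cut a window of length `n ≥ L`
into `⌊n / L⌋ ≥ n / (2 L)` blocks of length `L`, each of which contributes at least `δ`. -/
theorem lower_mean {ψ : ℤ → ℝ} (hψ : ∀ m, 0 ≤ ψ m) {L : ℕ} (hL : 0 < L) {δ : ℝ} (hδ : 0 < δ)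
    (h : ∀ m : ℤ, ∃ n : ℕ, n < L ∧ δ ≤ ψ (m + n)) :
    ∀ n ≥ L, ∀ M : ℤ, δ / (2 * L) * n ≤ ∑ i ∈ Finset.range n, ψ (M + i) := by
  have hblock : ∀ M : ℤ, δ ≤ ∑ i ∈ Finset.range L, ψ (M + i) := by
    intro M
    obtain ⟨n, hn, hd⟩ := h M
    refine hd.trans ?_
    exact Finset.single_le_sum (f := fun i : ℕ => ψ (M + i)) (fun i _ => hψ _)
      (Finset.mem_range.mpr hn)
  have hblocks : ∀ (q : ℕ) (M : ℤ), δ * q ≤ ∑ i ∈ Finset.range (q * L), ψ (M + i) := by
    intro q
    induction q with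
    | zero => intro M; simp
    | succ q ih =>
      intro M
      rw [Nat.succ_mul, Finset.sum_range_add]
      have h1 := ih M
      have h2 := hblock (M + (q * L : ℕ))
      have h3 : ∑ x ∈ Finset.range L, ψ (M + ((q * L + x : ℕ) : ℤ))
          = ∑ i ∈ Finset.range L, ψ (M + (q * L : ℕ) + i) := by
        refine Finset.sum_congr rfl fun i _ => ?_
        congr 1
        push_cast
        ring
      rw [h3]
      push_cast at h2 ⊢
      linarith
  intro n hn M
  set q := n / L with hq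
  have hq1 : q * L ≤ n := Nat.div_mul_le_self n L
  have hq2 : n < (q + 1) * L := by
    have := Nat.lt_div_mul_add (a := n) hL
    rw [Nat.succ_mul]
    exact this
  have hq3 : 1 ≤ q := (Nat.one_le_div_iff hL).mpr hn
  have hn2 : (n : ℝ) ≤ 2 * L * q := by
    have h1 : n ≤ 2 * L * q := by nlinarith
    exact_mod_cast h1
  have h4 : ∑ i ∈ Finset.range (q * L), ψ (M + i) ≤ ∑ i ∈ Finset.range n, ψ (M + i) :=
    Finset.sum_le_sum_of_subset_of_nonneg
      (Finset.range_subset_range.mpr hq1) (fun i _ _ => hψ _)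
  refine le_trans ?_ ((hblocks q M).trans h4)
  have hL' : (0 : ℝ) < L := by exact_mod_cast hL
  rw [div_mul_eq_mul_div, div_le_iff₀ (by positivity)]
  nlinarith
end Pool.Agent.Nil820

end

/-! ### Part `NilAlg3` -/

section

/-! # Piece NILALG3: nilsequences form a sequence algebra -/

open scoped ComplexConjugate Topology Manifold

namespace Pool.Agent.Nil820

/-- **NILALG3a.** Recurrence for basic nilsequences.

Proof. `φ m = F (g ^ m • x)`. Let `x₀ = g ^ m₀ • x`, `ψ m = max 0 (ε - ‖F (g ^ m • x) - F x₀‖)`,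
again a basic nilsequence (`ψ m = F' (g ^ m • x)` with `F'` continuous; same class data). It is
nonnegative, and `ψ m ≠ 0` implies `‖φ m - φ m₀‖ ≤ ε`. `Γ` is closed (a discrete subgroup of a
Hausdorff group is closed), a Lie group is a topological group
(`topologicalGroup_of_lieGroup`), so `urec_nil` gives `URec g x₀`; `U = {y | ‖F y - F x₀‖ < ε / 2}`
and `syndetic` give `L` such that every `m` has `n < L` with `g ^ (m + n) • x₀ ∈ U`,
i.e. `ψ (m + m₀ + n) ≥ ε / 2`; `lower_mean` (`‖ψ m‖ = ψ m`). -/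
theorem basic_recur {s : ℕ} {φ : ℤ → ℂ} (hφ : BasicNil s φ) (m₀ : ℤ) {ε : ℝ} (hε : 0 < ε) :
    ∃ ψ, BasicNil s ψ ∧ ∃ c > (0 : ℝ), ∃ L : ℕ,
    (∀ m, ∃ t : ℝ, 0 ≤ t ∧ ψ m = (t : ℂ)) ∧ (∀ m, ψ m ≠ 0 → ‖φ m - φ m₀‖ ≤ ε) ∧
    (∀ n ≥ L, ∀ M : ℤ, c * n ≤ ∑ i ∈ Finset.range n, ‖ψ (M + i)‖) := by
  obtain ⟨V, i1, i2, i3, G, i4, i5, i6, i7, i8, i9, Γ, g, x, F, h1, h2, h3, h4⟩ := hφ
  have hTG : IsTopologicalGroup G := topologicalGroup_of_lieGroup (modelWithCornersSelf ℝ V) (⊤ : ℕ∞)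
  have hcl : IsClosed (Γ : Set G) := Subgroup.isClosed_of_discrete
  set x₀ : G ⧸ Γ := g ^ m₀ • x with hx₀
  have hrec : URec g x₀ := urec_nil g s Γ hcl h3 (by rw [h1]; exact bot_le) x₀
  set ρ : G ⧸ Γ → ℝ := fun y => max 0 (ε - ‖F y - F x₀‖) with hρ
  have hρc : Continuous ρ := by
    have : Continuous (fun y => F y) := F.continuous
    fun_prop
  have hρ0 : ∀ y, 0 ≤ ρ y := fun y => le_max_left _ _
  set F' : C(G ⧸ Γ, ℂ) := ⟨fun y => ((ρ y : ℝ) : ℂ), Complex.continuous_ofReal.comp hρc⟩ with hF'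
  have hU : IsOpen {y : G ⧸ Γ | ‖F y - F x₀‖ < ε / 2} := by
    have : Continuous (fun y => ‖F y - F x₀‖) := by
      have : Continuous (fun y => F y) := F.continuous
      fun_prop
    exact isOpen_lt this continuous_const
  have hxU : x₀ ∈ {y : G ⧸ Γ | ‖F y - F x₀‖ < ε / 2} := by
    show ‖F x₀ - F x₀‖ < ε / 2
    simp [hε]
  obtain ⟨L, hL⟩ := syndetic g hrec hU hxU
  have hLpos : 0 < L := by
    obtain ⟨n, hn, _⟩ := hL 0
    omega
  have hshift : ∀ m : ℤ, ∃ n : ℕ, n < L ∧ ε / 2 ≤ ρ (g ^ (m + n) • x) := by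
    intro m
    obtain ⟨n, hn, hmem⟩ := hL (m - m₀)
    refine ⟨n, hn, ?_⟩
    have e : g ^ (m - m₀ + n) • x₀ = g ^ (m + n) • x := by
      rw [hx₀, smul_smul, ← zpow_add]
      congr 2
      ring
    rw [e] at hmem
    have hmem' : ‖F (g ^ (m + n) • x) - F x₀‖ < ε / 2 := hmem
    have : ε / 2 ≤ ε - ‖F (g ^ (m + n) • x) - F x₀‖ := by linarith
    exact this.trans (le_max_right _ _)
  have hlm := lower_mean (ψ := fun m : ℤ => ρ (g ^ m • x)) (fun m => hρ0 _) hLpos (half_pos hε) hshift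
  refine ⟨fun m => F' (g ^ m • x),
    ⟨V, i1, i2, i3, G, i4, i5, i6, i7, i8, i9, Γ, g, x, F', h1, h2, h3, fun m => rfl⟩,
    ε / 2 / (2 * L), by positivity, L, fun m => ⟨ρ (g ^ m • x), hρ0 _, rfl⟩, ?_, ?_⟩
  · intro m hm
    rw [h4, h4]
    by_contra hcon
    push Not at hcon
    apply hm
    show ((ρ (g ^ m • x) : ℝ) : ℂ) = 0
    have : ρ (g ^ m • x) = 0 := by
      apply max_eq_left
      have : ‖F (g ^ m • x) - F x₀‖ = ‖F (g ^ m • x) - F (g ^ m₀ • x)‖ := by rw [hx₀]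
      rw [this]
      linarith
    rw [this, Complex.ofReal_zero]
  · intro n hn M
    refine (hlm n hn M).trans (le_of_eq ?_)
    refine Finset.sum_congr rfl (fun i _ => ?_)
    show ρ (g ^ (M + (i : ℤ)) • x) = ‖((ρ (g ^ (M + (i : ℤ)) • x) : ℝ) : ℂ)‖
    rw [Complex.norm_real, Real.norm_of_nonneg (hρ0 _)]

private theorem basic_nilseq {s : ℕ} {φ : ℤ → ℂ} (hφ : BasicNil s φ) : Nilseq s φ :=
  fun ε hε => ⟨φ, hφ, fun m => by rw [sub_self, norm_zero]; exact le_of_lt hε⟩

private theorem basic_bdd {s : ℕ} {φ : ℤ → ℂ} (hφ : BasicNil s φ) : ∃ C : ℝ, 0 ≤ C ∧ ∀ m, ‖φ m‖ ≤ C := by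
  obtain ⟨W, hW, hm⟩ := (basicNil_iff s φ).1 hφ
  obtain ⟨C, hC⟩ := hW.bdd
  exact ⟨C, (norm_nonneg _).trans (hC φ hm 0), fun m => hC φ hm m⟩

private theorem nilseq_bdd {s : ℕ} {f : ℤ → ℂ} (hf : Nilseq s f) : ∃ C : ℝ, 0 ≤ C ∧ ∀ m, ‖f m‖ ≤ C := by
  obtain ⟨φ, hφ, h⟩ := hf 1 one_pos
  obtain ⟨C, hC0, hC⟩ := basic_bdd hφ
  refine ⟨1 + C, by linarith, fun m => ?_⟩
  calc ‖f m‖ = ‖(f m - φ m) + φ m‖ := by rw [sub_add_cancel]
    _ ≤ ‖f m - φ m‖ + ‖φ m‖ := norm_add_le _ _
    _ ≤ 1 + C := add_le_add (h m) (hC m)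

private theorem basic_prod {s : ℕ} {φ γ : ℤ → ℂ} (hφ : BasicNil s φ) (hγ : BasicNil s γ)
    (q : C(ℂ × ℂ, ℂ)) : BasicNil s (fun m => q (φ m, γ m)) := by
  obtain ⟨W, hW, hm⟩ := (basicNil_iff s φ).1 hφ
  obtain ⟨W', hW', hm'⟩ := (basicNil_iff s γ).1 hγ
  obtain ⟨U, hU, h⟩ := hW.prod hW' q
  exact (basicNil_iff s _).2 ⟨U, hU, h φ hm γ hm'⟩

/-- **NILALG3b.** Nilsequences form a `SeqAlg`.

Proof. Let `f` be within `ε` of the basic `φ`, etc. (`basicNil_iff`). `add`, `mul`: `NilClass.prod`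
with `q (z, w) = z + w`, `z * w`, and estimates (`‖f g - φ γ‖ ≤ ‖f‖ ‖g - γ‖ + ‖γ‖ ‖f - φ‖`; `f` bounded;
choose the approximations small enough depending on the bounds of `f` and `g`).
`cj`: `NilClass.comp`. `const`: `nilClass_const`. `closed`, `bdd`: clear. `recur`: let `φ` be basic
within `ε / 3` of `f` and use `basic_recur φ m₀ (ε / 3)`:
`‖f m - f m₀‖ ≤ ‖f m - φ m‖ + ‖φ m - φ m₀‖ + ‖φ m₀ - f m₀‖ ≤ ε`. -/
theorem nilseq_seqAlg (s : ℕ) : SeqAlg {ψ | Nilseq s ψ} := by
  refine ⟨?_, ?_, ?_, ?_, ?_, ?_, ?_⟩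
  · intro f hf
    obtain ⟨C, _, hC⟩ := nilseq_bdd hf
    exact ⟨C, hC⟩
  · intro c
    obtain ⟨W, hW, hm⟩ := nilClass_const s c
    exact basic_nilseq ((basicNil_iff s _).2 ⟨W, hW, hm⟩)
  · intro f hf g hg ε hε
    obtain ⟨φ, hφ, h1⟩ := hf (ε / 2) (half_pos hε)
    obtain ⟨γ, hγ, h2⟩ := hg (ε / 2) (half_pos hε)
    refine ⟨fun m => φ m + γ m, basic_prod hφ hγ ⟨fun z : ℂ × ℂ => z.1 + z.2, by fun_prop⟩, fun m => ?_⟩
    calc ‖f m + g m - (φ m + γ m)‖ = ‖(f m - φ m) + (g m - γ m)‖ := by congr 1; ring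
      _ ≤ ‖f m - φ m‖ + ‖g m - γ m‖ := norm_add_le _ _
      _ ≤ ε / 2 + ε / 2 := add_le_add (h1 m) (h2 m)
      _ = ε := by ring
  · intro f hf g hg ε hε
    obtain ⟨Cf, hCf0, hCf⟩ := nilseq_bdd hf
    obtain ⟨γ, hγ, h2⟩ := hg (ε / (2 * (Cf + 1))) (by positivity)
    obtain ⟨Cγ, hCγ0, hCγ⟩ := basic_bdd hγ
    obtain ⟨φ, hφ, h1⟩ := hf (ε / (2 * (Cγ + 1))) (by positivity)
    refine ⟨fun m => φ m * γ m, basic_prod hφ hγ ⟨fun z : ℂ × ℂ => z.1 * z.2, by fun_prop⟩, fun m => ?_⟩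
    have e1 : Cf * (ε / (2 * (Cf + 1))) ≤ ε / 2 := by
      rw [mul_div_assoc', div_le_div_iff₀ (by positivity) (by positivity)]
      nlinarith
    have e2 : (ε / (2 * (Cγ + 1))) * Cγ ≤ ε / 2 := by
      rw [div_mul_eq_mul_div, div_le_div_iff₀ (by positivity) (by positivity)]
      nlinarith
    calc ‖f m * g m - φ m * γ m‖ = ‖f m * (g m - γ m) + (f m - φ m) * γ m‖ := by congr 1; ring
      _ ≤ ‖f m * (g m - γ m)‖ + ‖(f m - φ m) * γ m‖ := norm_add_le _ _
      _ = ‖f m‖ * ‖g m - γ m‖ + ‖f m - φ m‖ * ‖γ m‖ := by rw [norm_mul, norm_mul]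
      _ ≤ Cf * (ε / (2 * (Cf + 1))) + (ε / (2 * (Cγ + 1))) * Cγ := by
          apply add_le_add
          · exact mul_le_mul (hCf m) (h2 m) (norm_nonneg _) hCf0
          · exact mul_le_mul (h1 m) (hCγ m) (norm_nonneg _) (by positivity)
      _ ≤ ε := by linarith
  · intro f hf ε hε
    obtain ⟨φ, hφ, h1⟩ := hf ε hε
    obtain ⟨W, hW, hm⟩ := (basicNil_iff s φ).1 hφ
    obtain ⟨U, hU, h⟩ := hW.comp ⟨fun z : ℂ => conj z, Complex.continuous_conj⟩
    refine ⟨fun m => conj (φ m), (basicNil_iff s _).2 ⟨U, hU, h φ hm⟩, fun m => ?_⟩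
    rw [← map_sub, RCLike.norm_conj]
    exact h1 m
  · intro f hf ε hε
    obtain ⟨g, hg, h1⟩ := hf (ε / 2) (half_pos hε)
    obtain ⟨φ, hφ, h2⟩ := hg (ε / 2) (half_pos hε)
    refine ⟨φ, hφ, fun m => ?_⟩
    calc ‖f m - φ m‖ = ‖(f m - g m) + (g m - φ m)‖ := by congr 1; ring
      _ ≤ ‖f m - g m‖ + ‖g m - φ m‖ := norm_add_le _ _
      _ ≤ ε / 2 + ε / 2 := add_le_add (h1 m) (h2 m)
      _ = ε := by ring
  · intro f hf m₀ ε hε
    obtain ⟨φ, hφ, h1⟩ := hf (ε / 3) (by positivity)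
    obtain ⟨ψ, hψ, c, hc, L, h2, h3, h4⟩ := basic_recur hφ m₀ (ε := ε / 3) (by positivity)
    refine ⟨ψ, basic_nilseq hψ, c, hc, L, h2, fun m hm => ?_, h4⟩
    calc ‖f m - f m₀‖ = ‖(f m - φ m) + (φ m - φ m₀) - (f m₀ - φ m₀)‖ := by congr 1; ring
      _ ≤ ‖(f m - φ m) + (φ m - φ m₀)‖ + ‖f m₀ - φ m₀‖ := norm_sub_le _ _
      _ ≤ ‖f m - φ m‖ + ‖φ m - φ m₀‖ + ‖f m₀ - φ m₀‖ := by
          gcongr
          exact norm_add_le _ _
      _ ≤ ε / 3 + ε / 3 + ε / 3 := add_le_add (add_le_add (h1 m) (h3 m hm)) (h1 m₀)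
      _ = ε := by ring

end Pool.Agent.Nil820

end
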