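import Mathlib

/-! # Piece FG: cocompact discrete subgroups of compactly generated groups are finitely generated -/

open scoped Topology Pointwise

namespace Pool.Agent.Nil820

/-- **FG.** Proof. Replace `K` by `K ∪ {1}` and `Q` by `Q ∪ Q⁻¹ ∪ {1}` (compact). The set
`E = Γ ∩ (K⁻¹ * Q * K)` is finite: `K⁻¹ * Q * K` is compact and `Γ` is discrete and closed
(a discrete subgroup of a Hausdorff group is closed), so the intersection is compact and discrete.
Let `Γ₀ = Subgroup.closure E`. The set `K * Γ₀` is stable under left multiplication by `Q`: for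
`q ∈ Q`, `k ∈ K`: `q k = k' γ'`, `k' ∈ K`, `γ' ∈ Γ`, so `γ' = k'⁻¹ q k ∈ E`. It contains `1`, so it
contains the subgroup generated by `Q` (`Q = Q⁻¹`), which is `G`. For `γ ∈ Γ`: `γ = k γ₀`,
`γ₀ ∈ Γ₀ ≤ Γ`, `k = γ γ₀⁻¹ ∈ Γ ∩ K ⊆ E` (as `k = 1⁻¹ * 1 * k`), so `γ ∈ Γ₀`. -/
theorem fg_of_cocompact {G : Type} [Group G] [TopologicalSpace G] [IsTopologicalGroup G]
    [T2Space G] (Γ : Subgroup G) [DiscreteTopology Γ] {K : Set G} (hK : IsCompact K)
    (hKΓ : ∀ x : G, ∃ k ∈ K, ∃ γ ∈ Γ, x = k * γ) {Q : Set G} (hQ : IsCompact Q)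
    (hQG : Subgroup.closure Q = ⊤) : Γ.FG := by
  set K1 : Set G := K ∪ {1} with hK1
  set Q1 : Set G := Q ∪ Q⁻¹ ∪ {1} with hQ1
  have hK1c : IsCompact K1 := hK.union isCompact_singleton
  have hQ1c : IsCompact Q1 := (hQ.union hQ.inv).union isCompact_singleton
  set C : Set G := K1⁻¹ * Q1 * K1 with hC
  have hCc : IsCompact C := (hK1c.inv.mul hQ1c).mul hK1c
  have hΓcl : IsClosed (Γ : Set G) := Subgroup.isClosed_of_discrete
  set E : Set G := (Γ : Set G) ∩ C with hE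
  have hEfin : E.Finite := by
    have hcomp : IsCompact ((↑) ⁻¹' C : Set Γ) :=
      hΓcl.isClosedEmbedding_subtypeVal.isCompact_preimage hCc
    have hf : ((↑) ⁻¹' C : Set Γ).Finite := hcomp.finite_of_discrete
    have : E = (↑) '' ((↑) ⁻¹' C : Set Γ) := by
      ext x
      simp [hE]
      tauto
    rw [this]
    exact hf.image _
  have hEΓ : Subgroup.closure E ≤ Γ := (Subgroup.closure_le Γ).2 fun x hx => hx.1
  have hone : (1 : G) ∈ K1 := Or.inr rfl
  have hstep : ∀ q ∈ Q1, ∀ x, (∃ k ∈ K1, ∃ γ ∈ Subgroup.closure E, x = k * γ) →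
      ∃ k ∈ K1, ∃ γ ∈ Subgroup.closure E, q * x = k * γ := by
    rintro q hq x ⟨k, hk, γ, hγ, rfl⟩
    obtain ⟨k', hk', γ', hγ', he⟩ := hKΓ (q * k)
    refine ⟨k', Or.inl hk', γ' * γ, ?_, ?_⟩
    · refine Subgroup.mul_mem _ (Subgroup.subset_closure ⟨hγ', ?_⟩) hγ
      have : γ' = k'⁻¹ * q * k := by
        rw [mul_assoc, he]; group
      rw [this]
      exact Set.mul_mem_mul (Set.mul_mem_mul (Set.inv_mem_inv.2 (Or.inl hk')) hq) hk
    · rw [← mul_assoc, he, mul_assoc]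
  have hall : ∀ x : G, ∃ k ∈ K1, ∃ γ ∈ Subgroup.closure E, x = k * γ := by
    intro x
    have hx : x ∈ Subgroup.closure Q := by rw [hQG]; trivial
    induction hx using Subgroup.closure_induction_left with
    | one => exact ⟨1, hone, 1, Subgroup.one_mem _, by simp⟩
    | mul_left q hq y hy ih => exact hstep q (Or.inl (Or.inl hq)) y ih
    | inv_mul_cancel q hq y hy ih => exact hstep q⁻¹ (Or.inl (Or.inr (Set.inv_mem_inv.2 hq))) y ih
  have hΓE : Γ ≤ Subgroup.closure E := by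
    intro γ hγ
    obtain ⟨k, hk, γ0, hγ0, he⟩ := hall γ
    have hkΓ : k ∈ Γ := by
      have : k = γ * γ0⁻¹ := by rw [he]; group
      rw [this]
      exact Γ.mul_mem hγ (Γ.inv_mem (hEΓ hγ0))
    have hkE : k ∈ E := by
      refine ⟨hkΓ, ?_⟩
      have : k = (1 : G)⁻¹ * 1 * k := by group
      rw [this]
      exact Set.mul_mem_mul (Set.mul_mem_mul (Set.inv_mem_inv.2 hone) (Or.inr rfl)) hk
    rw [he]
    exact Subgroup.mul_mem _ (Subgroup.subset_closure hkE) hγ0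
  have hΓeq : Γ = Subgroup.closure E := le_antisymm hΓE hEΓ
  rw [Subgroup.fg_iff]
  exact ⟨E, hΓeq.symm, hEfin⟩

end Pool.Agent.Nil820
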