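import Pool.Agent.Lib_MP_820dd4_an.Multi0

/-! ### Part `Multi1` -/

section

/-! # Piece MULTI1: one free coordinate -/

open scoped Topology Pointwise

namespace Pool.Agent.Nil820

/-- the tuple with value `1` at `i` and the prescribed generators elsewhere -/
noncomputable def multi1W {G ι : Type} [Group G] [DecidableEq ι] (i : ι) (S : Finset G)
    (z : {j : ι // j ≠ i} → S) : ι → G :=
  fun j => if h : j = i then 1 else (z ⟨j, h⟩ : G)

theorem multi1W_update {G ι : Type} [Group G] [DecidableEq ι] (i : ι) (S : Finset G)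
    (x : ι → G) (hx : ∀ j, j ≠ i → x j ∈ S) :
    Function.update (multi1W i S (fun j => ⟨x j.1, hx j.1 j.2⟩)) i (x i) = x := by
  funext j
  by_cases h : j = i
  · subst h
    simp
  · rw [Function.update_of_ne h]
    simp [multi1W, h]

theorem multi1W_mem {G ι : Type} [Group G] [DecidableEq ι] (i : ι) (S : Finset G)
    {Γ : Subgroup G} (hS : Subgroup.closure (S : Set G) = Γ)
    (z : {j : ι // j ≠ i} → S) {g : G} (hg : g ∈ Γ) (j : ι) :
    Function.update (multi1W i S z) i g j ∈ Γ := by
  by_cases h : j = i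
  · subst h
    simpa using hg
  · rw [Function.update_of_ne h]
    simp only [multi1W, h, dif_neg, not_false_iff]
    rw [← hS]
    exact Subgroup.subset_closure (z ⟨j, h⟩).2

/-- **MULTI1.** One free coordinate `i`.

Proof. Let `S` be a finite generating set of `Γ` (`hfg`). By `MulMap.closure_le` with
`S j = S` for `j ≠ i` and `S i = ⊤`, `LP c Γ {i}` is contained in the subgroup generated by the
values `c z`, `z j ∈ S` for `j ≠ i`. There are finitely many restrictions of such `z` to `{j ≠ i}`,
and for fixed ones the set of values is the subgroup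
`H_z = {c (update z i a) | a ∈ G}` (range of a homomorphism). As `a = k γ` with `k ∈ K`, `γ ∈ Γ`,
`c (update z i a) = c (update z i k) * c (update z i γ)` with `c (update z i γ) ∈ Λ` (all coordinates
in `Γ`), and `{c (update z i k) | k ∈ K}` is compact. So `H_z` is small, and the finite supremum is
small (`Small.iSup`). -/
theorem multi_one {G L ι : Type} [Group G] [TopologicalSpace G] [CommGroup L] [TopologicalSpace L]
    [IsTopologicalGroup L] [Fintype ι] [DecidableEq ι] {Γ : Subgroup G} (hfg : Γ.FG) {K : Set G}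
    (hK : IsCompact K) (hKΓ : ∀ x : G, ∃ k ∈ K, ∃ γ ∈ Γ, x = k * γ) {Λ : Subgroup L}
    {c : (ι → G) → L} (hcc : Continuous c) (hc : MulMap c)
    (hΓ : ∀ x, (∀ i, x i ∈ Γ) → c x ∈ Λ) (i : ι) :
    Small Λ (LP c Γ {i} : Set L) := by
  obtain ⟨S, hS⟩ := hfg
  let φ : ({j : ι // j ≠ i} → S) → G →* L := fun z =>
    { toFun := fun a => c (Function.update (multi1W i S z) i a)
      map_one' := hc.one _ _
      map_mul' := fun a b => hc _ _ _ _ }
  have hφ : ∀ z, Small Λ (((φ z).range : Subgroup L) : Set L) := by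
    intro z
    refine ⟨(fun k => c (Function.update (multi1W i S z) i k)) '' K, ?_, ?_⟩
    · exact hK.image (hcc.comp (continuous_const.update i continuous_id))
    · rintro y ⟨a, rfl⟩
      obtain ⟨k, hk, g, hg, rfl⟩ := hKΓ a
      exact ⟨_, ⟨k, hk, rfl⟩, _, hΓ _ (fun j => multi1W_mem i S hS z hg j), (φ z).map_mul k g⟩
  refine (Small.iSup hφ).mono ?_
  intro y hy
  have hle : LP c Γ {i} ≤ ⨆ z, (φ z).range := by
    unfold LP
    rw [Subgroup.closure_le]
    rintro _ ⟨x, hx, rfl⟩
    have h1 := hc.closure_le (fun j => if j = i then (Set.univ : Set G) else (S : Set G)) x (by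
      intro j
      by_cases h : j = i
      · simp [h]
      · simp only [h, if_false]
        rw [hS]
        exact hx j (by simpa using h))
    refine (Subgroup.closure_le _).2 ?_ h1
    rintro _ ⟨z, hz, rfl⟩
    have hz' : ∀ j, j ≠ i → z j ∈ S := by
      intro j hj
      have := hz j
      simpa [hj] using this
    have h2 : c z = φ (fun j => ⟨z j.1, hz' j.1 j.2⟩) (z i) := by
      change c z = c (Function.update (multi1W i S _) i (z i))
      rw [multi1W_update i S z hz']
    rw [h2]
    exact (le_iSup (fun z => (φ z).range) (fun j => ⟨z j.1, hz' j.1 j.2⟩)) ⟨_, rfl⟩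
  exact hle hy

end Pool.Agent.Nil820

end

/-! ### Part `Multi2` -/

section

/-! # Piece MULTI2: the root argument -/

open scoped Topology Pointwise

namespace Pool.Agent.Nil820

/-- **MULTI2.** If the coordinate `p` is near the identity (so that it has roots near the identity)
and another coordinate `q ≠ p` is free, the value lies in the closure of the values with `q` in `Γ`.

Proof. Let `y = x p ∈ U`, `y = z_n ^ (k_n)`, `z_n → 1`. Then, by `MulMap.pow` twice,
`c x = c (update x p (z_n ^ k_n)) = c (update x p z_n) ^ k_n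
     = c (update (update x p z_n) q ((x q) ^ k_n))`. Write `(x q) ^ k_n = κ_n γ_n`, `κ_n ∈ K`,
`γ_n ∈ Γ`: this is `c (update (update x p z_n) q κ_n) * m_n`,
`m_n = c (update (update x p z_n) q γ_n) ∈ LP c Γ (P.erase q)` (outside `P.erase q` the coordinates
are in `Γ`). Let `V` be a neighbourhood of `1` in `L`. The map
`(z, κ) ↦ c (update (update x p z) q κ)` is continuous and equal to `1` for `z = 1`
(`MulMap.one`; `update` in different coordinates commutes), so by compactness of `K` (tube lemma)
there is a neighbourhood `W` of `1` in `G` with `c (..) ∈ V` for `z ∈ W`, `κ ∈ K`. For `n` large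
`z_n ∈ W`, so `c x ∈ V * m_n`. As `V` is arbitrary, `c x` is in the closure of
`LP c Γ (P.erase q)` (`mem_closure_iff_nhds`; `L` is a topological group). -/
theorem multi_root {G L ι : Type} [Group G] [TopologicalSpace G] [CommGroup L]
    [TopologicalSpace L] [IsTopologicalGroup L] [Fintype ι] [DecidableEq ι] {Γ : Subgroup G}
    {K : Set G} (hK : IsCompact K) (hKΓ : ∀ x : G, ∃ k ∈ K, ∃ γ ∈ Γ, x = k * γ)
    {c : (ι → G) → L} (hcc : Continuous c) (hc : MulMap c) (P : Finset ι) {p q : ι}
    (hpq : p ≠ q) (x : ι → G) (hx : ∀ i, i ∉ P → x i ∈ Γ)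
    (hroot : ∃ (k : ℕ → ℕ) (z : ℕ → G), (∀ n, (z n) ^ (k n) = x p) ∧
      Filter.Tendsto z Filter.atTop (𝓝 1)) (hp : p ∈ P) (hq : q ∈ P) :
    c x ∈ closure (LP c Γ (P.erase q) : Set L) := by
  obtain ⟨k, z, hz, hz1⟩ := hroot
  rw [mem_closure_iff_nhds]
  intro t ht
  have hΨ : Continuous fun a : G × G =>
      c (Function.update (Function.update x p a.1) q a.2) :=
    hcc.comp (Continuous.update (A := fun _ : ι => G)
      (Continuous.update (A := fun _ : ι => G) (continuous_const (y := x)) p continuous_fst)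
      q continuous_snd)
  have hO : IsOpen {a : G × G |
      (c (Function.update (Function.update x p a.1) q a.2))⁻¹ * c x ∈ interior t} :=
    isOpen_interior.preimage (hΨ.inv.mul continuous_const)
  have hsub : ({(1 : G)} : Set G) ×ˢ K ⊆ {a : G × G |
      (c (Function.update (Function.update x p a.1) q a.2))⁻¹ * c x ∈ interior t} := by
    rintro ⟨a, κ⟩ ⟨ha, -⟩
    have ha' : a = 1 := ha
    subst ha'
    show (c (Function.update (Function.update x p 1) q κ))⁻¹ * c x ∈ interior t
    rw [Function.update_comm hpq, hc.one, inv_one, one_mul]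
    exact mem_interior_iff_mem_nhds.2 ht
  obtain ⟨W, W', hW, -, h1W, hKW, hWW⟩ := generalized_tube_lemma isCompact_singleton hK hO hsub
  have hev : ∀ᶠ n in Filter.atTop, z n ∈ W :=
    hz1.eventually (hW.mem_nhds (h1W (Set.mem_singleton _)))
  obtain ⟨n, hn⟩ := hev.exists
  obtain ⟨κ, hκ, γ, hγ, e⟩ := hKΓ ((x q) ^ (k n))
  have e1 : c x = c (Function.update (Function.update x p (z n)) q κ) *
      c (Function.update (Function.update x p (z n)) q γ) := by
    rw [← hc, ← e, hc.pow]
    have h1 : Function.update (Function.update x p (z n)) q (x q) =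
        Function.update x p (z n) := by
      have h2 : x q = Function.update x p (z n) q := by
        rw [Function.update_of_ne hpq.symm]
      rw [h2, Function.update_eq_self]
    rw [h1, ← hc.pow, hz, Function.update_eq_self]
  have e2 : (c (Function.update (Function.update x p (z n)) q κ))⁻¹ * c x =
      c (Function.update (Function.update x p (z n)) q γ) := by
    rw [e1, inv_mul_cancel_left]
  refine ⟨c (Function.update (Function.update x p (z n)) q γ), ?_, ?_⟩
  · have h3 : (c (Function.update (Function.update x p (z n)) q κ))⁻¹ * c x ∈ interior t :=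
      hWW (Set.mk_mem_prod hn (hKW hκ))
    rw [e2] at h3
    exact interior_subset h3
  · refine Subgroup.subset_closure ⟨_, fun i hi => ?_, rfl⟩
    by_cases hiq : i = q
    · subst hiq
      rw [Function.update_self]
      exact hγ
    · have hiP : i ∉ P := fun h => hi (Finset.mem_erase.2 ⟨hiq, h⟩)
      have hip : i ≠ p := fun h => hiP (h ▸ hp)
      rw [Function.update_of_ne hiq, Function.update_of_ne hip]
      exact hx i hiP

end Pool.Agent.Nil820

end

/-! ### Part `Multi3` -/

section

/-! # Piece MULTI3: at least two free coordinates -/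

open scoped Topology Pointwise

namespace Pool.Agent.Nil820

/-- **MULTI3a.** Open subgroups containing `Γ` and all commutators have finite index, in the form of
exponents and finitely many representatives.

Proof. `H` is normal (it contains all commutators). The cosets `r H` are open and cover the compact
set `K`, so finitely many cover `K`, hence `G = K Γ` (as `Γ ≤ H`): there is a finite set `R` with
`∀ x, ∃ r ∈ R, r⁻¹ * x ∈ H`, and `H` has finite index (`Subgroup.FiniteIndex`), so `x ^ n ∈ H` for
`n = H.index` (`Subgroup.pow_index_mem`, `H` normal). -/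
theorem finite_index_of_open {G : Type} [Group G] [TopologicalSpace G] [IsTopologicalGroup G]
    {Γ : Subgroup G} {K : Set G} (hK : IsCompact K)
    (hKΓ : ∀ x : G, ∃ k ∈ K, ∃ γ ∈ Γ, x = k * γ) (H : Subgroup G) (hH : ∃ U ∈ 𝓝 (1 : G), U ⊆ H)
    (hΓ : Γ ≤ H) (hcomm : ∀ a b : G, a * b * a⁻¹ * b⁻¹ ∈ H) :
    (∃ n : ℕ, 0 < n ∧ ∀ x : G, x ^ n ∈ H) ∧
      ∃ R : Set G, R.Finite ∧ ∀ x, ∃ r ∈ R, ∃ h ∈ H, x = r * h := by
  obtain ⟨U, hU, hUH⟩ := hH
  have hopen : IsOpen (H : Set G) := H.isOpen_of_mem_nhds (Filter.mem_of_superset hU hUH)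
  have hnorm : H.Normal := ⟨fun n hn g => by
    have h := H.mul_mem (hcomm g n) hn
    rwa [inv_mul_cancel_right] at h⟩
  obtain ⟨t, -, ht⟩ := hK.elim_nhds_subcover (fun k => {x | k⁻¹ * x ∈ H}) (fun k _ => by
    have h1 : IsOpen {x : G | k⁻¹ * x ∈ H} := hopen.preimage (continuous_const_mul k⁻¹)
    refine h1.mem_nhds ?_
    show k⁻¹ * k ∈ H
    rw [inv_mul_cancel]
    exact H.one_mem)
  have hR : ∀ x, ∃ r ∈ (t : Set G), ∃ h ∈ H, x = r * h := by
    intro x
    obtain ⟨k, hk, γ, hγ, rfl⟩ := hKΓ x
    obtain ⟨r, hr, hrk⟩ := Set.mem_iUnion₂.1 (ht hk)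
    refine ⟨r, hr, r⁻¹ * k * γ, H.mul_mem hrk (hΓ hγ), ?_⟩
    group
  have hfin : Finite (G ⧸ H) := by
    refine Set.finite_univ_iff.1 ((t.finite_toSet.image (QuotientGroup.mk (s := H))).subset ?_)
    intro y _
    obtain ⟨x, rfl⟩ := QuotientGroup.mk_surjective y
    obtain ⟨r, hr, h, hh, rfl⟩ := hR x
    exact ⟨r, hr, (QuotientGroup.mk_mul_of_mem r hh).symm⟩
  have hfi : H.FiniteIndex := Subgroup.finiteIndex_of_finite_quotient
  exact ⟨⟨H.index, Nat.pos_of_ne_zero hfi.index_ne_zero, fun x => H.pow_index_mem x⟩,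
    t, t.finite_toSet, hR⟩

/-- **MULTI3b.** The induction step: at least two free coordinates.

Proof. Let `M₀ = ⨆ q : P, LP c Γ (P.erase q)`, small by `ih` and `Small.iSup`, and
`M = M₀.topologicalClosure`, small by `Small.closure`.
For `p ∈ P` let `H p` be the set of all `y ∈ G` such that `c (update x p y) ∈ M` for all `x` with
`x i ∈ Γ` for `i ∉ P`. It is a subgroup (`hc`, `MulMap.one`, `MulMap.inv`). It contains
* the neighbourhood `U` of `RootProp` (`multi_root` applied to `update x p y` with some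
  `q ∈ P`, `q ≠ p`, which exists since `P` has at least two elements; `LP c Γ (P.erase q) ≤ M₀`);
* `Γ` (the coordinates of `update x p γ` outside `P.erase p` are in `Γ`);
* all commutators (`MulMap.comm`).
By `finite_index_of_open` there are `n_p > 0` with `y ^ n_p ∈ H p` for all `y` and a finite `R p` with
`G = R p * H p`. Let `S` be a finite generating set of `Γ`. Apply `MulMap.closure_le'` with
`S i = R i`, `E i = H i` for `i ∈ P`, and `S i = S`, `E i = ∅` for `i ∉ P`: every `x` with
`x i ∈ Γ` for `i ∉ P` satisfies `c x ∈ M ⊔ ⟨E₀⟩` with the finite set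
`E₀ = {c z | z i ∈ R i (i ∈ P), z i ∈ S (i ∉ P)}` (`Set.Finite.pi`); each `e = c z ∈ E₀` satisfies
`e ^ n_p = c (update z p (z p ^ n_p)) ∈ M` for a `p ∈ P` (`z i ∈ S ⊆ Γ` for `i ∉ P`). So
`LP c Γ P ≤ M ⊔ ⟨E₀⟩` is small by `Small.torsion`. -/
theorem multi_step {G L ι : Type} [Group G] [TopologicalSpace G] [IsTopologicalGroup G]
    [CommGroup L] [TopologicalSpace L] [IsTopologicalGroup L] [Fintype ι] [DecidableEq ι]
    {Γ : Subgroup G} (hfg : Γ.FG) {K : Set G} (hK : IsCompact K)
    (hKΓ : ∀ x : G, ∃ k ∈ K, ∃ γ ∈ Γ, x = k * γ) (hroot : RootProp G) {Λ : Subgroup L}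
    (hΛ : IsClosed (Λ : Set L)) {c : (ι → G) → L} (hcc : Continuous c) (hc : MulMap c)
    (P : Finset ι) (hP : 2 ≤ P.card) (ih : ∀ q ∈ P, Small Λ (LP c Γ (P.erase q) : Set L)) :
    Small Λ (LP c Γ P : Set L) := by
  obtain ⟨T, hT⟩ := hfg
  -- the small subgroup `M`
  set M₀ : Subgroup L := ⨆ q : P, LP c Γ (P.erase q) with hM₀
  have hM₀s : Small Λ (M₀ : Set L) := Small.iSup fun q => ih q q.2
  set M : Subgroup L := M₀.topologicalClosure with hM
  have hMs : Small Λ (M : Set L) := hM₀s.closure hΛ
  have hM₀M : M₀ ≤ M := M₀.le_topologicalClosure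
  have hLPM : ∀ q ∈ P, LP c Γ (P.erase q) ≤ M₀ := fun q hq =>
    le_iSup (fun q : P => LP c Γ (P.erase q)) ⟨q, hq⟩
  -- the subgroups `H p`
  let H : ι → Subgroup G := fun p =>
    { carrier := {y | ∀ x : ι → G, (∀ i, i ∉ P → x i ∈ Γ) → c (Function.update x p y) ∈ M}
      one_mem' := fun x _ => by rw [hc.one]; exact M.one_mem
      mul_mem' := fun {a b} ha hb x hx => by rw [hc]; exact M.mul_mem (ha x hx) (hb x hx)
      inv_mem' := fun {a} ha x hx => by rw [hc.inv]; exact M.inv_mem (ha x hx) }
  have hH : ∀ p y, y ∈ H p ↔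
      ∀ x : ι → G, (∀ i, i ∉ P → x i ∈ Γ) → c (Function.update x p y) ∈ M := fun _ _ => Iff.rfl
  have hHfin : ∀ p ∈ P, (∃ n : ℕ, 0 < n ∧ ∀ x : G, x ^ n ∈ H p) ∧
      ∃ R : Set G, R.Finite ∧ ∀ x, ∃ r ∈ R, ∃ h ∈ H p, x = r * h := by
    intro p hp
    obtain ⟨U, hU, hUr⟩ := hroot
    obtain ⟨q, hq, hqp⟩ : ∃ q ∈ P, q ≠ p := by
      have : 1 < P.card := hP
      exact Finset.exists_mem_ne this p
    refine finite_index_of_open hK hKΓ (H p) ⟨U, hU, ?_⟩ ?_ ?_
    · intro y hy x hx
      have h1 := multi_root hK hKΓ hcc hc P hqp.symm (Function.update x p y) (fun i hi => by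
        have hip : i ≠ p := fun h => hi (h ▸ hp)
        rw [Function.update_of_ne hip]
        exact hx i hi) (by rw [Function.update_self]; exact hUr y hy) hp hq
      exact closure_mono (hLPM q hq) h1
    · intro γ hγ x hx
      refine hM₀M (hLPM p hp (Subgroup.subset_closure ⟨_, fun i hi => ?_, rfl⟩))
      by_cases hip : i = p
      · subst hip
        rw [Function.update_self]
        exact hγ
      · rw [Function.update_of_ne hip]
        exact hx i fun h => hi (Finset.mem_erase.2 ⟨hip, h⟩)
    · intro a b x _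
      rw [hc.comm]
      exact M.one_mem
  choose! hn hR using hHfin
  choose! R hRf hRH using hR
  -- the finite set `E₀`
  let S : ι → Set G := fun i => if i ∈ P then R i else (T : Set G)
  let E : ι → Set G := fun i => if i ∈ P then (H i : Set G) else ∅
  have hS1 : ∀ i ∈ P, S i = R i := fun i hi => if_pos hi
  have hS2 : ∀ i, i ∉ P → S i = (T : Set G) := fun i hi => if_neg hi
  have hE1 : ∀ i ∈ P, E i = (H i : Set G) := fun i hi => if_pos hi
  have hE2 : ∀ i, i ∉ P → E i = ∅ := fun i hi => if_neg hi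
  have hTΓ : (T : Set G) ⊆ Γ := by rw [← hT]; exact Subgroup.subset_closure
  have hSf : ∀ i, (S i).Finite := by
    intro i
    by_cases hi : i ∈ P
    · rw [hS1 i hi]; exact hRf i hi
    · rw [hS2 i hi]; exact T.finite_toSet
  have hE₀ : {y | ∃ z : ι → G, (∀ i, z i ∈ S i) ∧ y = c z}.Finite := by
    refine ((Set.Finite.pi' hSf).image c).subset ?_
    rintro y ⟨z, hz, rfl⟩
    exact ⟨z, hz, rfl⟩
  obtain ⟨p, hp⟩ : P.Nonempty := Finset.card_pos.1 (by omega)
  refine (Small.torsion hMs hE₀ ?_).mono ?_
  · rintro e ⟨z, hz, rfl⟩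
    obtain ⟨n, hn0, hnH⟩ := hn p hp
    refine ⟨n, hn0, ?_⟩
    have h1 := hnH (z p) z (fun i hi => hTΓ (by rw [← hS2 i hi]; exact hz i))
    rwa [hc.pow, Function.update_eq_self] at h1
  · show LP c Γ P ≤ _
    refine (Subgroup.closure_le _).2 ?_
    rintro y ⟨x, hx, rfl⟩
    refine hc.closure_le' M S E ?_ x ?_
    · rintro z hz ⟨i, hi⟩
      have hiP : i ∈ P := by
        by_contra h
        rw [hE2 i h] at hi
        exact hi
      rw [hE1 i hiP] at hi
      have h1 := hi z fun j hj => by
        rcases hz j with h | h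
        · rw [hS2 j hj] at h
          exact hTΓ h
        · rw [hE2 j hj] at h
          exact h.elim
      rwa [Function.update_eq_self] at h1
    · intro i
      by_cases hi : i ∈ P
      · obtain ⟨r, hr, h, hh, e⟩ := hRH i hi (x i)
        rw [e]
        refine Subgroup.mul_mem _ (Subgroup.subset_closure (Or.inl ?_))
          (Subgroup.subset_closure (Or.inr ?_))
        · rw [hS1 i hi]; exact hr
        · rw [hE1 i hi]; exact hh
      · have h1 : x i ∈ Subgroup.closure (T : Set G) := by rw [hT]; exact hx i hi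
        refine Subgroup.closure_mono ?_ h1
        rw [hS2 i hi]
        exact Set.subset_union_left

end Pool.Agent.Nil820

end

/-! ### Part `Multi` -/

section

/-! # Piece MULTI: multilinear maps on a group with a cocompact subgroup -/

open scoped Topology Pointwise

namespace Pool.Agent.Nil820

/-- **MULTI.** Proof. Induction on `P.card` (`Finset.strongInduction`): `P = ∅`: `LP c Γ ∅ ≤ Λ`
(`hΓ`), `Small.of_le`; `P = {i}`: `multi_one`; otherwise `multi_step`. Take `P = univ`. -/
theorem multi {G L ι : Type} [Group G] [TopologicalSpace G] [IsTopologicalGroup G]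
    [CommGroup L] [TopologicalSpace L] [IsTopologicalGroup L] [Fintype ι] [DecidableEq ι]
    {Γ : Subgroup G} (hfg : Γ.FG) {K : Set G} (hK : IsCompact K)
    (hKΓ : ∀ x : G, ∃ k ∈ K, ∃ γ ∈ Γ, x = k * γ) (hroot : RootProp G) {Λ : Subgroup L}
    (hΛ : IsClosed (Λ : Set L)) {c : (ι → G) → L} (hcc : Continuous c) (hc : MulMap c)
    (hΓ : ∀ x, (∀ i, x i ∈ Γ) → c x ∈ Λ) :
    Small Λ (closure (Subgroup.closure (Set.range c) : Set L)) := by
  have key : ∀ (n : ℕ) (P : Finset ι), P.card = n → Small Λ (LP c Γ P : Set L) := by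
    intro n
    induction n with
    | zero =>
      intro P hP
      have hP0 : P = ∅ := Finset.card_eq_zero.1 hP
      refine Small.of_le ?_
      have : LP c Γ P ≤ Λ := by
        refine (Subgroup.closure_le _).2 ?_
        rintro y ⟨x, hx, rfl⟩
        exact hΓ x (fun i => hx i (by rw [hP0]; exact Finset.notMem_empty i))
      exact this
    | succ n ih =>
      intro P hP
      rcases Nat.eq_zero_or_pos n with hn | hn
      · obtain ⟨i, hi⟩ := Finset.card_eq_one.1 (by rw [hP, hn] : P.card = 1)
        rw [hi]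
        exact multi_one hfg hK hKΓ hcc hc hΓ i
      · refine multi_step hfg hK hKΓ hroot hΛ hcc hc P (by omega) (fun q hq => ih _ ?_)
        rw [Finset.card_erase_of_mem hq, hP]
        rfl
  have hu := (key _ (Finset.univ : Finset ι) rfl).closure hΛ
  refine hu.mono (closure_mono ?_)
  have : Subgroup.closure (Set.range c) ≤ LP c Γ Finset.univ := by
    refine Subgroup.closure_mono ?_
    rintro y ⟨x, rfl⟩
    exact ⟨x, fun i hi => absurd (Finset.mem_univ i) hi, rfl⟩
  exact this

end Pool.Agent.Nil820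

end
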