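import Pool.Agent.Lib_MP_820dd4_an.Icomm1
import Pool.Agent.Lib_MP_820dd4_an.Multi

/-! ### Part `Icomm2` -/

section

/-! # Piece ICOMM2: multiplicativity of iterated commutators -/

open scoped Topology

namespace Pool.Agent.Nil820

/-- elements of `lcs (n+1)` commute with everything modulo `lcs (n+2)` -/
theorem icomm_aux_comm {G : Type} [Group G] (n : ℕ) {g : G}
    (hg : g ∈ (⊤ : Subgroup G).lowerCentralSeries n) (h : G) :
    QuotientGroup.mk' ((⊤ : Subgroup G).lowerCentralSeries (n + 1)) g *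
        QuotientGroup.mk' ((⊤ : Subgroup G).lowerCentralSeries (n + 1)) h =
      QuotientGroup.mk' ((⊤ : Subgroup G).lowerCentralSeries (n + 1)) h *
        QuotientGroup.mk' ((⊤ : Subgroup G).lowerCentralSeries (n + 1)) g := by
  have h1 : g * h * g⁻¹ * h⁻¹ ∈ (⊤ : Subgroup G).lowerCentralSeries (n + 1) := by
    rw [Subgroup.lowerCentralSeries_succ]
    exact Subgroup.commutator_mem_commutator hg (Subgroup.mem_top h)
  have h2 : QuotientGroup.mk' ((⊤ : Subgroup G).lowerCentralSeries (n + 1)) (g * h * g⁻¹ * h⁻¹) = 1 :=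
    (QuotientGroup.eq_one_iff _).2 h1
  simp only [map_mul, map_inv] at h2
  have h3 := mul_inv_eq_one.1 h2
  have h4 := mul_inv_eq_iff_eq_mul.1 h3
  exact h4

/-- a congruence gives the error term -/
theorem icomm_aux_exists {G : Type} [Group G] (N : Subgroup G) [N.Normal] {X Y : G}
    (h : QuotientGroup.mk' N X = QuotientGroup.mk' N Y) : ∃ u ∈ N, X = Y * u := by
  refine ⟨Y⁻¹ * X, ?_, by group⟩
  have := QuotientGroup.eq.1 h.symm
  exact this

/-- updating the last coordinate -/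
theorem icomm_update_last {G : Type} [Group G] (n : ℕ) (x : Fin (n + 1 + 1) → G) (a : G) :
    icomm (n + 1) (Function.update x (Fin.last (n + 1)) a) =
      icomm n (fun i => x i.castSucc) * a * (icomm n (fun i => x i.castSucc))⁻¹ * a⁻¹ := by
  have h1 : (fun i : Fin (n + 1) => Function.update x (Fin.last (n + 1)) a i.castSucc) =
      fun i => x i.castSucc := by
    funext i
    exact Function.update_of_ne (Fin.castSucc_lt_last i).ne _ _
  simp only [icomm, h1, Function.update_self]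

/-- updating another coordinate -/
theorem icomm_update_castSucc {G : Type} [Group G] (n : ℕ) (x : Fin (n + 1 + 1) → G)
    (j : Fin (n + 1)) (a : G) :
    icomm (n + 1) (Function.update x j.castSucc a) =
      icomm n (Function.update (fun i => x i.castSucc) j a) * x (Fin.last (n + 1)) *
        (icomm n (Function.update (fun i => x i.castSucc) j a))⁻¹ *
          (x (Fin.last (n + 1)))⁻¹ := by
  have h1 : (fun i : Fin (n + 1) => Function.update x j.castSucc a i.castSucc) =
      Function.update (fun i => x i.castSucc) j a := by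
    funext i
    by_cases hij : i = j
    · subst hij; simp
    · rw [Function.update_of_ne hij, Function.update_of_ne]
      exact fun h => hij (Fin.castSucc_injective _ h)
  have h2 : Function.update x j.castSucc a (Fin.last (n + 1)) = x (Fin.last (n + 1)) :=
    Function.update_of_ne (Fin.castSucc_lt_last j).ne' _ _
  simp only [icomm, h1, h2]

/-- **ICOMM2.** Multiplicativity in every coordinate modulo the next term of the lower central
series.

Proof. Induction on `n`. `n = 0`: equality, `u = 1`. Step `n → n + 1`. Let `w = icomm n (...)` be the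
first entry of the outer commutator, `w ∈ lcs n`, `N = lcs (n+2)` normal.
Last coordinate: `⁅w, a b⁆ = ⁅w, a⁆ * (a ⁅w, b⁆ a⁻¹) = ⁅w, a⁆ * ⁅a, ⁅w, b⁆⁆ * ⁅w, b⁆` and
`⁅a, ⁅w, b⁆⁆ ∈ ⁅⊤, lcs (n+1)⁆ = N`.
Other coordinates `i.castSucc`: by induction `w(a b) = w(a) w(b) u` with `u ∈ lcs (n+1)`;
`⁅w(a) w(b) u, y⁆ ≡ ⁅w(a), y⁆ ⁅w(b), y⁆ ⁅u, y⁆` modulo `N` because
`⁅p q, y⁆ = (p ⁅q, y⁆ p⁻¹) ⁅p, y⁆ = ⁅p, ⁅q, y⁆⁆ ⁅q, y⁆ ⁅p, y⁆` with `⁅q, y⁆ ∈ lcs (n+1)` for
`q ∈ lcs n`, so `⁅p, ⁅q, y⁆⁆ ∈ N`, and elements of `lcs (n+1)` commute with everything modulo `N`;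
`⁅u, y⁆ ∈ lcs (n+2) = N`. (It may be easier to argue in the quotient group `G ⧸ N`, where
`lcs (n+1)` becomes central.) -/
theorem icomm_update_mul {G : Type} [Group G] (n : ℕ) (x : Fin (n + 1) → G) (i : Fin (n + 1))
    (a b : G) : ∃ u ∈ (⊤ : Subgroup G).lowerCentralSeries (n + 1),
      icomm n (Function.update x i (a * b)) =
        icomm n (Function.update x i a) * icomm n (Function.update x i b) * u := by
  induction n with
  | zero =>
    refine ⟨1, Subgroup.one_mem _, ?_⟩
    have hi : i = 0 := Fin.fin_one_eq_zero i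
    subst hi
    simp [icomm]
  | succ n ih =>
    apply icomm_aux_exists
    refine Fin.lastCases ?_ (fun j => ?_) i
    · simp only [icomm_update_last]
      set w := icomm n (fun i => x i.castSucc) with hw
      have hwm : w ∈ (⊤ : Subgroup G).lowerCentralSeries n := icomm_mem n _
      have hc : ∀ y : G, w * y * w⁻¹ * y⁻¹ ∈ (⊤ : Subgroup G).lowerCentralSeries (n + 1) := by
        intro y
        rw [Subgroup.lowerCentralSeries_succ]
        exact Subgroup.commutator_mem_commutator hwm (Subgroup.mem_top y)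
      have h1 := icomm_aux_comm (n + 1) (hc b) a
      have h2 : w * (a * b) * w⁻¹ * (a * b)⁻¹ =
          (w * a * w⁻¹ * a⁻¹) * (a * (w * b * w⁻¹ * b⁻¹)) * a⁻¹ := by group
      rw [h2, map_mul, map_mul, map_mul _ a, ← h1]
      simp only [map_mul, map_inv]
      group
    · simp only [icomm_update_castSucc]
      obtain ⟨u, hu, he⟩ := ih (fun i => x i.castSucc) j
      rw [he]
      set wa := icomm n (Function.update (fun i => x i.castSucc) j a) with hwa
      set wb := icomm n (Function.update (fun i => x i.castSucc) j b) with hwb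
      set y := x (Fin.last (n + 1)) with hy
      have hc : ∀ w ∈ (⊤ : Subgroup G).lowerCentralSeries n, 
          w * y * w⁻¹ * y⁻¹ ∈ (⊤ : Subgroup G).lowerCentralSeries (n + 1) := by
        intro w hwm
        rw [Subgroup.lowerCentralSeries_succ]
        exact Subgroup.commutator_mem_commutator hwm (Subgroup.mem_top y)
      have hb := hc wb (icomm_mem n _)
      have h1 := icomm_aux_comm (n + 1) hu y
      have h2 := icomm_aux_comm (n + 1) hb wa
      have h3 := icomm_aux_comm (n + 1) hb (wa * y * wa⁻¹ * y⁻¹)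
      set π := QuotientGroup.mk' ((⊤ : Subgroup G).lowerCentralSeries (n + 1 + 1)) with hπ
      have e1 : π (wa * wb * u * y * (wa * wb * u)⁻¹ * y⁻¹) =
          π (wa * wb * y * (wa * wb)⁻¹ * y⁻¹) := by
        have e0 : wa * wb * u * y * (wa * wb * u)⁻¹ * y⁻¹ =
          wa * wb * (u * y * u⁻¹) * (wa * wb)⁻¹ * y⁻¹ := by group
        have e00 : π (u * y * u⁻¹) = π y := by
          rw [map_mul, map_mul, h1, map_inv]; group
        rw [e0]
        simp only [map_mul] at e00 ⊢
        rw [e00]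
      have e2 : wa * wb * y * (wa * wb)⁻¹ * y⁻¹ =
          wa * (wb * y * wb⁻¹ * y⁻¹) * (y * wa⁻¹ * y⁻¹) := by group
      have e3 : π (wa * (wb * y * wb⁻¹ * y⁻¹) * (y * wa⁻¹ * y⁻¹)) =
          π (wb * y * wb⁻¹ * y⁻¹) * π (wa * y * wa⁻¹ * y⁻¹) := by
        have e4 : wa * y * wa⁻¹ * y⁻¹ = wa * (y * wa⁻¹ * y⁻¹) := by group
        rw [map_mul π (wa * (wb * y * wb⁻¹ * y⁻¹)), map_mul π wa, ← h2, mul_assoc, ← map_mul, e4]
      rw [e1, e2, e3, h3, ← map_mul]

end Pool.Agent.Nil820

end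

/-! ### Part `Icomm3` -/

section

/-! # Piece ICOMM3: iterated commutators generate -/

open scoped Topology

namespace Pool.Agent.Nil820

/-- **ICOMM3.** Iterated commutators generate the lower central series modulo the next term.

Proof. Induction on `n`. `n = 0`: every element is `icomm 0`. Step: `lcs (n+1)` is generated by
`⁅w, y⁆`, `w ∈ lcs n`. Fix `y`. By induction `w` is in the subgroup generated by `range (icomm n)` and
`lcs (n+1)`; show `⁅w, y⁆ ∈ M := closure (range (icomm (n+1))) ⊔ lcs (n+2)` by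
`Subgroup.closure_induction` (for the set `range (icomm n) ∪ lcs (n+1)`; keep track of `w ∈ lcs n`):
for `w = icomm n z`, `⁅w, y⁆ = icomm (n+1) (Fin.snoc z y)`; for `w ∈ lcs (n+1)`,
`⁅w, y⁆ ∈ lcs (n+2)`; products: `⁅p q, y⁆ = ⁅p, ⁅q, y⁆⁆ ⁅q, y⁆ ⁅p, y⁆` with
`⁅p, ⁅q, y⁆⁆ ∈ lcs (n+2)`; inverses: `⁅p⁻¹, y⁆ = p⁻¹ ⁅p, y⁆⁻¹ p = ⁅p⁻¹, ⁅p, y⁆⁻¹⁆ ⁅p, y⁆⁻¹`. -/
theorem icomm_generate {G : Type} [Group G] (n : ℕ) :
    (⊤ : Subgroup G).lowerCentralSeries n ≤
      Subgroup.closure (Set.range (icomm n : (Fin (n + 1) → G) → G)) ⊔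
        (⊤ : Subgroup G).lowerCentralSeries (n + 1) := by
  induction n with
  | zero =>
    intro g _
    apply Subgroup.mem_sup_left
    apply Subgroup.subset_closure
    exact ⟨fun _ => g, rfl⟩
  | succ n ih =>
    set M : Subgroup G := Subgroup.closure (Set.range (icomm (n + 1) : (Fin (n + 1 + 1) → G) → G)) ⊔
        (⊤ : Subgroup G).lowerCentralSeries (n + 1 + 1) with hM
    have hN : ∀ z ∈ (⊤ : Subgroup G).lowerCentralSeries (n + 1 + 1), z ∈ M := fun z hz =>
      Subgroup.mem_sup_right hz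
    have hcom : ∀ m, ∀ z ∈ (⊤ : Subgroup G).lowerCentralSeries m, ∀ y : G,
        z * y * z⁻¹ * y⁻¹ ∈ (⊤ : Subgroup G).lowerCentralSeries (m + 1) := by
      intro m z hz y
      rw [Subgroup.lowerCentralSeries_succ]
      exact Subgroup.commutator_mem_commutator hz (Subgroup.mem_top y)
    have key : ∀ y : G, ∀ w ∈ Subgroup.closure
        (Set.range (icomm n : (Fin (n + 1) → G) → G) ∪
          ((⊤ : Subgroup G).lowerCentralSeries (n + 1) : Set G)),
        w ∈ (⊤ : Subgroup G).lowerCentralSeries n ∧ w * y * w⁻¹ * y⁻¹ ∈ M := by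
      intro y w hw
      induction hw using Subgroup.closure_induction with
      | mem z hz =>
        rcases hz with ⟨v, rfl⟩ | hz
        · refine ⟨icomm_mem n v, ?_⟩
          apply Subgroup.mem_sup_left
          apply Subgroup.subset_closure
          refine ⟨Fin.snoc (α := fun _ => G) v y, ?_⟩
          simp [icomm]
        · exact ⟨Subgroup.lowerCentralSeries_antitone _ (Nat.le_succ n) hz,
            hN _ (hcom _ _ hz y)⟩
      | one => exact ⟨Subgroup.one_mem _, by simp⟩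
      | mul p q _ _ hp hq =>
        refine ⟨Subgroup.mul_mem _ hp.1 hq.1, ?_⟩
        have e : p * q * y * (p * q)⁻¹ * y⁻¹ =
            ((q * y * q⁻¹ * y⁻¹) * p⁻¹ * (q * y * q⁻¹ * y⁻¹)⁻¹ * p⁻¹⁻¹)⁻¹ ^ 0 *
            (p * (q * y * q⁻¹ * y⁻¹) * p⁻¹ * (q * y * q⁻¹ * y⁻¹)⁻¹) * (q * y * q⁻¹ * y⁻¹) *
              (p * y * p⁻¹ * y⁻¹) := by group
        rw [e, pow_zero, one_mul]
        refine M.mul_mem (M.mul_mem ?_ hq.2) hp.2
        have h1 := hcom _ _ (hcom _ _ hq.1 y) p
        have h2 := ((⊤ : Subgroup G).lowerCentralSeries (n + 1 + 1)).inv_mem h1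
        have e2 : ((q * y * q⁻¹ * y⁻¹) * p * (q * y * q⁻¹ * y⁻¹)⁻¹ * p⁻¹)⁻¹ =
            p * (q * y * q⁻¹ * y⁻¹) * p⁻¹ * (q * y * q⁻¹ * y⁻¹)⁻¹ := by group
        rw [e2] at h2
        exact hN _ h2
      | inv p _ hp =>
        refine ⟨Subgroup.inv_mem _ hp.1, ?_⟩
        have e : p⁻¹ * y * p⁻¹⁻¹ * y⁻¹ =
            ((p * y * p⁻¹ * y⁻¹) * p⁻¹ * (p * y * p⁻¹ * y⁻¹)⁻¹ * p⁻¹⁻¹)⁻¹ ^ 0 *
            (p⁻¹ * (p * y * p⁻¹ * y⁻¹)⁻¹ * p⁻¹⁻¹ * (p * y * p⁻¹ * y⁻¹)) *
              (p * y * p⁻¹ * y⁻¹)⁻¹ := by group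
        rw [e, pow_zero, one_mul]
        refine M.mul_mem ?_ (M.inv_mem hp.2)
        have h1 := hcom _ _ ((((⊤ : Subgroup G).lowerCentralSeries (n + 1))).inv_mem
          (hcom _ _ hp.1 y)) p⁻¹
        have h2 := ((⊤ : Subgroup G).lowerCentralSeries (n + 1 + 1)).inv_mem h1
        have e2 : ((p * y * p⁻¹ * y⁻¹)⁻¹ * p⁻¹ * (p * y * p⁻¹ * y⁻¹)⁻¹⁻¹ * p⁻¹⁻¹)⁻¹ =
            p⁻¹ * (p * y * p⁻¹ * y⁻¹)⁻¹ * p⁻¹⁻¹ * (p * y * p⁻¹ * y⁻¹) := by group
        rw [e2] at h2
        exact hN _ h2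
    rw [Subgroup.lowerCentralSeries_succ, Subgroup.commutator_le]
    intro w hw y _
    have hw' : w ∈ Subgroup.closure (Set.range (icomm n : (Fin (n + 1) → G) → G) ∪
        ((⊤ : Subgroup G).lowerCentralSeries (n + 1) : Set G)) := by
      rw [Subgroup.closure_union, Subgroup.closure_eq]
      exact ih hw
    exact (key y w hw').2

end Pool.Agent.Nil820

end

/-! ### Part `Last` -/

section

/-! # Piece LAST: the last term of the lower central series is cocompact -/

open scoped Topology Pointwise commutatorElement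

namespace Pool.Agent.Nil820

/-- **LAST.** Proof. `L₀ = lcs n` is central since `⁅lcs n, ⊤⁆ = lcs (n+1) = ⊥`; its closure
`Lc = (lcs n).topologicalClosure` is central too (`G` is Hausdorff: `{y | y g = g y}` is closed).
Let `L = ↥Lc` with its commutative group structure
(`Subgroup.commGroupTopologicalClosure`, or `{ (inferInstance : Group ↥Lc) with mul_comm := .. }`),
a topological group. `c : (Fin (n+1) → G) → L`, `c x = ⟨icomm n x, _⟩` (`icomm_mem`), continuous, and
`MulMap c` by `icomm_update_mul` (`u ∈ lcs (n+1) = ⊥`). `Λ = Γ.subgroupOf Lc`, closed (`Γ` is closed: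
discrete subgroup of a Hausdorff group), `c x ∈ Λ` if all `x i ∈ Γ` (`icomm_mem_subgroup`). By
`multi`, the closure (in `L`) of the subgroup generated by `range c` is `Small Λ`; this closure is all
of `L`, because the subgroup generated by `range (icomm n)` is `lcs n` (`icomm_generate`), which is
dense in `Lc`. The compact set `C ⊆ L` has compact image in `G`. -/
theorem last_cocpt {G : Type} [Group G] [TopologicalSpace G] [IsTopologicalGroup G]
    [T2Space G] {Γ : Subgroup G} [DiscreteTopology Γ] (hfg : Γ.FG) {K : Set G} (hK : IsCompact K)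
    (hKΓ : ∀ x : G, ∃ k ∈ K, ∃ γ ∈ Γ, x = k * γ) (hroot : RootProp G) {n : ℕ}
    (hn : (⊤ : Subgroup G).lowerCentralSeries (n + 1) = ⊥) :
    ∃ C : Set G, IsCompact C ∧
      C ⊆ (((⊤ : Subgroup G).lowerCentralSeries n).topologicalClosure : Set G) ∧
      ∀ c ∈ ((⊤ : Subgroup G).lowerCentralSeries n).topologicalClosure, ∃ k ∈ C, ∃ γ ∈ Γ,
        γ ∈ ((⊤ : Subgroup G).lowerCentralSeries n).topologicalClosure ∧ c = k * γ := by
  have hcomm0 : ∀ x y : ↥((⊤ : Subgroup G).lowerCentralSeries n), x * y = y * x := by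
    intro x y
    have h1 : ⁅(x : G), (y : G)⁆ ∈ (⊤ : Subgroup G).lowerCentralSeries (n + 1) := by
      rw [Subgroup.lowerCentralSeries_succ]
      exact Subgroup.commutator_mem_commutator x.2 (Subgroup.mem_top _)
    rw [hn, Subgroup.mem_bot, commutatorElement_eq_one_iff_mul_comm] at h1
    exact Subtype.ext h1
  let L : Subgroup G := ((⊤ : Subgroup G).lowerCentralSeries n).topologicalClosure
  let _ : CommGroup ↥L := Subgroup.commGroupTopologicalClosure _ hcomm0
  let c : (Fin (n + 1) → G) → ↥L :=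
    fun x => ⟨icomm n x, Subgroup.le_topologicalClosure _ (icomm_mem n x)⟩
  have hcc : Continuous c := (icomm_continuous n).subtype_mk _
  have hc : MulMap c := by
    intro x i a b
    obtain ⟨u, hu, e⟩ := icomm_update_mul n x i a b
    rw [hn, Subgroup.mem_bot] at hu
    rw [hu, mul_one] at e
    exact Subtype.ext e
  have hΓcl : IsClosed (Γ : Set G) := Subgroup.isClosed_of_discrete
  let Λ : Subgroup ↥L := Γ.subgroupOf L
  have hΛ : IsClosed (Λ : Set ↥L) := hΓcl.preimage continuous_subtype_val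
  have hΓc : ∀ x, (∀ i, x i ∈ Γ) → c x ∈ Λ := fun x hx =>
    Subgroup.mem_subgroupOf.mpr (icomm_mem_subgroup Γ n x hx)
  obtain ⟨C, hC, hsmall⟩ := multi hfg hK hKΓ hroot hΛ hcc hc hΓc
  have hle : (⊤ : Subgroup G).lowerCentralSeries n ≤
      (Subgroup.closure (Set.range c)).map L.subtype := by
    have h1 := icomm_generate (G := G) n
    rw [hn, sup_bot_eq] at h1
    refine h1.trans ?_
    rw [Subgroup.closure_le]
    rintro _ ⟨x, rfl⟩
    exact ⟨c x, Subgroup.subset_closure ⟨x, rfl⟩, rfl⟩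
  have hdense : ∀ y : ↥L, y ∈ closure (Subgroup.closure (Set.range c) : Set ↥L) := by
    intro y
    rw [closure_subtype]
    have hy : (y : G) ∈ closure (((⊤ : Subgroup G).lowerCentralSeries n : Subgroup G) : Set G) := y.2
    refine closure_mono ?_ hy
    intro g hg
    obtain ⟨z, hz, e⟩ := hle hg
    exact ⟨z, hz, e⟩
  refine ⟨Subtype.val '' C, hC.image continuous_subtype_val, ?_, ?_⟩
  · rintro _ ⟨k, _, rfl⟩
    exact k.2
  · intro y hy
    obtain ⟨k, hk, l, hl, e⟩ := hsmall ⟨y, hy⟩ (hdense ⟨y, hy⟩)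
    exact ⟨k, ⟨k, hk, rfl⟩, l, Subgroup.mem_subgroupOf.mp hl, l.2, congrArg Subtype.val e⟩

end Pool.Agent.Nil820

end
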