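import Pool.Agent.Lib_MP_820dd4_an.Defs
import Pool.Agent.Lib_MP_820dd4_an.Last
import Pool.Agent.Lib_MP_820dd4_an.FGen

/-! ### Part `Open1` -/

section

/-! # Piece OPEN1: reduction to an open compactly generated subgroup -/

open scoped Topology Pointwise

namespace Pool.Agent.Nil820

/-- **OPEN1a.** Proof: every point `x Γ` has the neighbourhood `mk '' interior V_x`, `V_x` a compact
neighbourhood of `x`, open map `mk : G → G ⧸ Γ`; finitely many cover `G ⧸ Γ`; `K = ⋃ V_x`. -/
theorem exists_compact_cover {G : Type} [Group G] [TopologicalSpace G] [IsTopologicalGroup G]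
    [LocallyCompactSpace G] (Γ : Subgroup G) [CompactSpace (G ⧸ Γ)] :
    ∃ K : Set G, IsCompact K ∧ ∀ x : G, ∃ k ∈ K, ∃ γ ∈ Γ, x = k * γ := by
  choose V hVc hV using fun x : G => exists_compact_mem_nhds x
  have hU : ∀ q : G ⧸ Γ, (QuotientGroup.mk '' V q.out : Set (G ⧸ Γ)) ∈ 𝓝 q := by
    intro q
    have h1 : (QuotientGroup.mk '' V q.out : Set (G ⧸ Γ)) ∈ 𝓝 (QuotientGroup.mk q.out : G ⧸ Γ) :=
      QuotientGroup.isOpenMap_coe.image_mem_nhds (hV q.out)
    rwa [QuotientGroup.out_eq'] at h1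
  obtain ⟨t, _, ht⟩ := isCompact_univ.elim_nhds_subcover
    (fun q : G ⧸ Γ => (QuotientGroup.mk '' V q.out : Set (G ⧸ Γ))) (fun q _ => hU q)
  refine ⟨⋃ q ∈ t, V q.out, t.isCompact_biUnion fun q _ => hVc q.out, fun x => ?_⟩
  have h2 := ht (Set.mem_univ (QuotientGroup.mk x : G ⧸ Γ))
  simp only [Set.mem_iUnion] at h2
  obtain ⟨q, hq, v, hv, hvx⟩ := h2
  refine ⟨v, ?_, v⁻¹ * x, QuotientGroup.eq.1 hvx, by group⟩
  simp only [Set.mem_iUnion]
  exact ⟨q, hq, hv⟩

/-- **OPEN1b.** Proof: let `V` be a compact neighbourhood of `1`, `Q₀ = K ∪ V ∪ {g}` compact,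
`H = Subgroup.closure Q₀`, open since it contains the neighbourhood `V` of `1`
(`Subgroup.isOpen_of_mem_nhds`). `Q`, `K'` are the preimages of `Q₀`, `K` in `↥H`, compact
(`Topology.IsInducing.isCompact_iff`, or closed embedding: `H` is closed); `Subgroup.closure Q = ⊤`
(`Subgroup.closure_preimage_eq_top` or `Subgroup.closure_induction`). For `x ∈ H`, `x = k γ` and
`k ∈ K ⊆ H`, so `γ ∈ H`. -/
theorem exists_open_subgroup {G : Type} [Group G] [TopologicalSpace G] [IsTopologicalGroup G]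
    [LocallyCompactSpace G] (Γ : Subgroup G) {K : Set G} (hK : IsCompact K)
    (hKΓ : ∀ x : G, ∃ k ∈ K, ∃ γ ∈ Γ, x = k * γ) (g : G) :
    ∃ H : Subgroup G, IsOpen (H : Set G) ∧ g ∈ H ∧ K ⊆ H ∧
      (∃ Q : Set ↥H, IsCompact Q ∧ Subgroup.closure Q = ⊤) ∧
      ∃ K' : Set ↥H, IsCompact K' ∧ ∀ x : ↥H, ∃ k ∈ K', ∃ γ ∈ Γ.subgroupOf H, x = k * γ := by
  obtain ⟨V, hVc, hV⟩ := exists_compact_mem_nhds (1 : G)
  have hQc : IsCompact (K ∪ V ∪ {g}) := (hK.union hVc).union isCompact_singleton
  have hsub : (K ∪ V ∪ {g} : Set G) ⊆ Subgroup.closure (K ∪ V ∪ {g}) := Subgroup.subset_closure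
  have hopen : IsOpen (Subgroup.closure (K ∪ V ∪ {g}) : Set G) :=
    Subgroup.isOpen_of_mem_nhds _ (Filter.mem_of_superset hV
      (fun v hv => hsub (Or.inl (Or.inr hv))))
  have hclosed : IsClosed (Subgroup.closure (K ∪ V ∪ {g}) : Set G) :=
    Subgroup.isClosed_of_isOpen _ hopen
  have hemb : Topology.IsClosedEmbedding
      (Subtype.val : ↥(Subgroup.closure (K ∪ V ∪ {g})) → G) := hclosed.isClosedEmbedding_subtypeVal
  refine ⟨Subgroup.closure (K ∪ V ∪ {g}), hopen, hsub (Or.inr rfl),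
    fun k hk => hsub (Or.inl (Or.inl hk)),
    ⟨Subtype.val ⁻¹' (K ∪ V ∪ {g}), hemb.isCompact_preimage hQc,
      Subgroup.closure_closure_coe_preimage⟩,
    Subtype.val ⁻¹' K, hemb.isCompact_preimage hK, fun x => ?_⟩
  obtain ⟨k, hk, γ, hγ, hx⟩ := hKΓ x
  have hkH : k ∈ Subgroup.closure (K ∪ V ∪ {g}) := hsub (Or.inl (Or.inl hk))
  have hγH : γ ∈ Subgroup.closure (K ∪ V ∪ {g}) := by
    have h1 : γ = k⁻¹ * (x : G) := by rw [hx]; group
    rw [h1]
    exact Subgroup.mul_mem _ (Subgroup.inv_mem _ hkH) x.2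
  exact ⟨⟨k, hkH⟩, hk, ⟨γ, hγH⟩, Subgroup.mem_subgroupOf.2 hγ, Subtype.ext hx⟩

end Pool.Agent.Nil820

end

/-! ### Part `Quot` -/

section

/-! # Piece QUOT: quotients by a closed central subgroup which is cocompact -/

open scoped Topology Pointwise

namespace Pool.Agent.Nil820

/-- **QUOT1.** The image of `Γ` in `G ⧸ N` is discrete.

Proof. Let `V` be a compact neighbourhood of `1` in `G`. Let `v ∈ V ∩ Γ N`: `v = γ n = γ k δ` with
`n = k δ`, `k ∈ C`, `δ ∈ Γ ∩ N`; as `N` is central, `v = (γ δ) k`, so `γ δ = v k⁻¹ ∈ V * C⁻¹`, a compact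
set, which meets the closed discrete subgroup `Γ` in a finite set `E`. So
`V ∩ Γ N ⊆ ⋃_{e ∈ E} e N`. The finitely many `e N`, `e ∈ E`, `e ∉ N`, are closed and do not contain
`1`; `V' = V \ ⋃ e N` is a neighbourhood of `1` with `V' ∩ Γ N ⊆ N`. Its image in `G ⧸ N` is a
neighbourhood of `1` (open map) which meets the image of `Γ` only in `1` (if `v N = γ N` with
`v ∈ V'` then `v ∈ Γ N`, so `v ∈ N`). A subgroup with isolated `1` is discrete
(`discreteTopology_of_isOpen_singleton_one` or similar). -/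
theorem quot_discrete {G : Type} [Group G] [TopologicalSpace G] [IsTopologicalGroup G]
    [T2Space G] [LocallyCompactSpace G] (N : Subgroup G) [N.Normal] (hN : IsClosed (N : Set G))
    (hcen : ∀ n ∈ N, ∀ g : G, g * n = n * g) (Γ : Subgroup G) [DiscreteTopology Γ] {C : Set G}
    (hC : IsCompact C) (hCN : ∀ c ∈ N, ∃ k ∈ C, ∃ γ ∈ Γ, γ ∈ N ∧ c = k * γ) :
    DiscreteTopology (Γ.map (QuotientGroup.mk' N)) := by
  classical
  obtain ⟨V, hVc, hV1⟩ := exists_compact_mem_nhds (1 : G)
  have hΓc : IsClosed (Γ : Set G) := Subgroup.isClosed_of_discrete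
  have hE : ((V * C⁻¹) ∩ (Γ : Set G)).Finite := by
    have h1 : IsCompact ((V * C⁻¹) ∩ (Γ : Set G)) := (hVc.mul hC.inv).inter_right hΓc
    have h2 : DiscreteTopology ↥((V * C⁻¹) ∩ (Γ : Set G)) :=
      DiscreteTopology.of_subset (s := (Γ : Set G)) (by assumption) Set.inter_subset_right
    exact h1.finite ⟨h2⟩
  set E : Set G := ((V * C⁻¹) ∩ (Γ : Set G)) \ (N : Set G) with hEdef
  have hEf : E.Finite := hE.subset Set.sdiff_subset
  set W : Set G := ⋃ e ∈ E, (fun x => e⁻¹ * x) ⁻¹' (N : Set G) with hW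
  have hWc : IsClosed W := by
    refine hEf.isClosed_biUnion fun e _ => ?_
    exact hN.preimage (continuous_const.mul continuous_id)
  have hW1 : (1 : G) ∉ W := by
    rw [hW, Set.mem_iUnion₂]
    rintro ⟨e, he, h1⟩
    rw [Set.mem_preimage, mul_one] at h1
    exact he.2 (inv_mem_iff.1 h1)
  have hV' : V ∩ Wᶜ ∈ 𝓝 (1 : G) := Filter.inter_mem hV1 (hWc.isOpen_compl.mem_nhds hW1)
  have hkey : ∀ v ∈ V ∩ Wᶜ, ∀ γ ∈ Γ, γ⁻¹ * v ∈ N → v ∈ N := by
    rintro v ⟨hvV, hvW⟩ γ hγ hn
    obtain ⟨k, hk, δ, hδ, hδN, hkδ⟩ := hCN _ hn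
    have hkN : k ∈ N := by
      have h1 : k = γ⁻¹ * v * δ⁻¹ := by
        rw [hkδ]
        group
      rw [h1]
      exact N.mul_mem hn (N.inv_mem hδN)
    have h2 : v = γ * δ * k := by
      have h3 : v = γ * (k * δ) := by
        rw [← hkδ]
        group
      rw [h3, ← hcen k hkN δ, mul_assoc]
    have h4 : γ * δ = v * k⁻¹ := by
      rw [h2]
      group
    by_contra hvN
    apply hvW
    rw [hW, Set.mem_iUnion₂]
    refine ⟨γ * δ, ⟨⟨?_, Γ.mul_mem hγ hδ⟩, ?_⟩, ?_⟩
    · rw [h4]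
      exact Set.mul_mem_mul hvV (Set.inv_mem_inv.2 hk)
    · intro h5
      apply hvN
      rw [h2]
      exact N.mul_mem h5 hkN
    · rw [Set.mem_preimage, h2]
      have h6 : (γ * δ)⁻¹ * (γ * δ * k) = k := by group
      rw [h6]
      exact hkN
  have hopen : IsOpen ({1} : Set ↥(Γ.map (QuotientGroup.mk' N))) := by
    rw [isOpen_iff_mem_nhds]
    intro x hx
    rw [Set.mem_singleton_iff.1 hx]
    have h1 : (QuotientGroup.mk' N) '' (V ∩ Wᶜ) ∈ 𝓝 (1 : G ⧸ N) := by
      have h2 := (QuotientGroup.isOpenMap_coe (N := N)).image_mem_nhds hV'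
      exact h2
    have h3 : Subtype.val ⁻¹' ((QuotientGroup.mk' N) '' (V ∩ Wᶜ)) ∈
        𝓝 (1 : ↥(Γ.map (QuotientGroup.mk' N))) :=
      continuous_subtype_val.continuousAt.preimage_mem_nhds h1
    refine Filter.mem_of_superset h3 ?_
    rintro ⟨y, hy⟩ hy2
    obtain ⟨v, hv, hvy⟩ := hy2
    obtain ⟨γ, hγ, hγy⟩ := hy
    simp only at hvy
    have h4 : γ⁻¹ * v ∈ N := by
      rw [← QuotientGroup.eq]
      exact hγy.trans hvy.symm
    have h5 := hkey v hv γ hγ h4
    rw [Set.mem_singleton_iff]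
    apply Subtype.ext
    simp only
    rw [← hvy]
    exact (QuotientGroup.eq_one_iff v).2 h5
  exact discreteTopology_of_isOpen_singleton_one hopen

/-- **QUOT2.** `RootProp` passes to quotients: the image of the neighbourhood `U` is a
neighbourhood of `1` (open map), and images of roots are roots, converging to `1`. -/
theorem RootProp.quot {G : Type} [Group G] [TopologicalSpace G] [IsTopologicalGroup G]
    (h : RootProp G) (N : Subgroup G) [N.Normal] : RootProp (G ⧸ N) := by
  obtain ⟨U, hU, h1⟩ := h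
  refine ⟨(QuotientGroup.mk' N) '' U, (QuotientGroup.isOpenMap_coe (N := N)).image_mem_nhds hU, ?_⟩
  rintro _ ⟨u, hu, rfl⟩
  obtain ⟨k, z, hz, ht⟩ := h1 u hu
  refine ⟨k, fun n => QuotientGroup.mk' N (z n), fun n => ?_, ?_⟩
  · rw [← map_pow, hz]
  · have h2 : Filter.Tendsto (fun x : G => (QuotientGroup.mk' N) x) (𝓝 1) (𝓝 ((QuotientGroup.mk' N) 1)) :=
      (QuotientGroup.continuous_mk (N := N)).continuousAt
    rw [map_one] at h2
    exact h2.comp ht

/-- **QUOT3.** `RootProp` passes to open subgroups: `U' = U ∩ H`; the roots of `y` are eventually in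
`H` (which is a neighbourhood of `1`), shift the sequence. -/
theorem RootProp.open_subgroup {G : Type} [Group G] [TopologicalSpace G]
    (h : RootProp G) (H : Subgroup G) (hH : IsOpen (H : Set G)) : RootProp ↥H := by
  obtain ⟨U, hU, h1⟩ := h
  refine ⟨Subtype.val ⁻¹' U, continuous_subtype_val.continuousAt.preimage_mem_nhds hU, ?_⟩
  intro y hy
  obtain ⟨k, z, hz, ht⟩ := h1 y.1 hy
  obtain ⟨M, hM⟩ := Filter.eventually_atTop.1 (ht (hH.mem_nhds H.one_mem))
  refine ⟨fun n => k (n + M), fun n => ⟨z (n + M), hM _ (Nat.le_add_left _ _)⟩, fun n => ?_, ?_⟩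
  · apply Subtype.ext
    exact hz (n + M)
  · rw [tendsto_subtype_rng]
    exact (Filter.tendsto_add_atTop_iff_nat M).2 ht

end Pool.Agent.Nil820

end

/-! ### Part `Quot4` -/

section

/-! # Piece QUOT4: lifting cocompactness from a quotient -/

open scoped Topology Pointwise

namespace Pool.Agent.Nil820

/-- the cocompactness statement for the closure of the `i`-th term -/
def CocptLcs (G : Type) [Group G] [TopologicalSpace G] [IsTopologicalGroup G] (Γ : Subgroup G)
    (i : ℕ) : Prop :=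
  ∃ C : Set G, IsCompact C ∧
    C ⊆ (((⊤ : Subgroup G).lowerCentralSeries i).topologicalClosure : Set G) ∧
    ∀ c ∈ ((⊤ : Subgroup G).lowerCentralSeries i).topologicalClosure, ∃ k ∈ C, ∃ γ ∈ Γ,
      γ ∈ ((⊤ : Subgroup G).lowerCentralSeries i).topologicalClosure ∧ c = k * γ

/-- **QUOT4a.** Closures of lower central terms and quotients: for a closed normal subgroup `N`
contained in `closure (lcs i)`, the closure of `lcs i` of `G ⧸ N` is the image of the closure of
`lcs i` of `G`.

Proof. `lcs i (G ⧸ N)` is the image of `lcs i G` (`Subgroup.map_lowerCentralSeries`,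
`Subgroup.map_top_of_surjective`). The image of the closed set `E = closure (lcs i G)` is closed,
because its preimage is `E N = E` (quotient topology) and contains the image of `lcs i G`; and the
image of a closure is contained in the closure of the image (continuity). -/
theorem closure_lcs_quot {G : Type} [Group G] [TopologicalSpace G] [IsTopologicalGroup G]
    (N : Subgroup G) [N.Normal] {i : ℕ}
    (hN : N ≤ ((⊤ : Subgroup G).lowerCentralSeries i).topologicalClosure) (x : G) :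
    (QuotientGroup.mk' N x) ∈ ((⊤ : Subgroup (G ⧸ N)).lowerCentralSeries i).topologicalClosure ↔
      x ∈ ((⊤ : Subgroup G).lowerCentralSeries i).topologicalClosure := by
  have hmap : (⊤ : Subgroup (G ⧸ N)).lowerCentralSeries i =
      ((⊤ : Subgroup G).lowerCentralSeries i).map (QuotientGroup.mk' N) := by
    rw [Subgroup.map_lowerCentralSeries,
      Subgroup.map_top_of_surjective _ (QuotientGroup.mk'_surjective N)]
  rw [hmap]
  set L : Subgroup G := (⊤ : Subgroup G).lowerCentralSeries i with hL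
  have hpre : (L.topologicalClosure.map (QuotientGroup.mk' N)).comap (QuotientGroup.mk' N) =
      L.topologicalClosure := by
    apply Subgroup.comap_map_eq_self
    rw [QuotientGroup.ker_mk']
    exact hN
  constructor
  · intro h
    have hcl : IsClosed ((L.topologicalClosure.map (QuotientGroup.mk' N) :
        Subgroup (G ⧸ N)) : Set (G ⧸ N)) := by
      have h1 := (QuotientGroup.isQuotientMap_mk (N := N)).isClosed_preimage
        (s := ((L.topologicalClosure.map (QuotientGroup.mk' N) : Subgroup (G ⧸ N)) :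
          Set (G ⧸ N)))
      refine h1.1 ?_
      have h2 : ((QuotientGroup.mk : G → G ⧸ N) ⁻¹'
          ((L.topologicalClosure.map (QuotientGroup.mk' N) : Subgroup (G ⧸ N)) : Set (G ⧸ N))) =
          (L.topologicalClosure : Set G) := by
        have h3 := congrArg (fun S : Subgroup G => (S : Set G)) hpre
        exact h3
      rw [h2]
      exact L.isClosed_topologicalClosure
    have h4 := Subgroup.topologicalClosure_minimal (L.map (QuotientGroup.mk' N))
      (Subgroup.map_mono L.le_topologicalClosure) hcl h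
    rw [← hpre]
    exact h4
  · intro h
    have h1 : x ∈ closure (L : Set G) := h
    have h2 : (QuotientGroup.mk' N) x ∈ closure ((QuotientGroup.mk' N) '' (L : Set G)) :=
      image_closure_subset_closure_image (QuotientGroup.continuous_mk (N := N)) ⟨x, h1, rfl⟩
    exact h2

/-- **QUOT4b.** Proof. Let `E = closure (lcs i G)`, `C'` the compact set for `G ⧸ N`. By local
compactness there is a compact `K₁ ⊆ G` whose image contains `C'` (cover `C'` by images of interiors
of compact neighbourhoods); `K₂ = K₁ ∩ mk' N ⁻¹' C'` is compact (`C'` is closed, `G ⧸ N` is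
Hausdorff), its image is `C'` and `K₂ ⊆ E` by `closure_lcs_quot`. Let `c ∈ E`. Then
`mk' N c = c' γ'`, `c' ∈ C'`, `γ' ∈ Γ.map (mk' N)`, so `c' = mk' N k`, `k ∈ K₂`,
`γ' = mk' N γ`, `γ ∈ Γ`, and `c = k γ n`, `n ∈ N`; `n = k₀ δ`, `k₀ ∈ C`, `δ ∈ Γ ∩ N`. As `N` is
central, `c = (k k₀) (γ δ)`; `k k₀ ∈ K₂ * C ⊆ E` compact (intersect `C` with `N` first, or
`hCN'`), `γ δ ∈ Γ` and `γ δ = (k k₀)⁻¹ c ∈ E`. -/
theorem cocptLcs_of_quot {G : Type} [Group G] [TopologicalSpace G] [IsTopologicalGroup G]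
    [T2Space G] [LocallyCompactSpace G] (N : Subgroup G) [N.Normal] (hNc : IsClosed (N : Set G))
    (hcen : ∀ n ∈ N, ∀ g : G, g * n = n * g) (Γ : Subgroup G) {C : Set G}
    (hC : IsCompact C) (hCN' : C ⊆ (N : Set G))
    (hCN : ∀ c ∈ N, ∃ k ∈ C, ∃ γ ∈ Γ, γ ∈ N ∧ c = k * γ) {i : ℕ}
    (hN : N ≤ ((⊤ : Subgroup G).lowerCentralSeries i).topologicalClosure)
    (h : CocptLcs (G ⧸ N) (Γ.map (QuotientGroup.mk' N)) i) : CocptLcs G Γ i := by
  classical
  obtain ⟨C', hC', hC'sub, hC'cov⟩ := h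
  haveI : IsClosed (N : Set G) := hNc
  have hV : ∀ y : G ⧸ N, ∃ V : Set G, IsCompact V ∧ (QuotientGroup.mk' N) '' V ∈ 𝓝 y := by
    intro y
    obtain ⟨x, rfl⟩ := QuotientGroup.mk'_surjective N y
    obtain ⟨V, hV1, hV2⟩ := exists_compact_mem_nhds x
    exact ⟨V, hV1, (QuotientGroup.isOpenMap_coe (N := N)).image_mem_nhds hV2⟩
  choose V hV1 hV2 using hV
  obtain ⟨t, -, ht⟩ := hC'.elim_nhds_subcover (fun y => (QuotientGroup.mk' N) '' V y)
    (fun y _ => hV2 y)
  set K₁ : Set G := ⋃ y ∈ t, V y with hK₁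
  have hK₁c : IsCompact K₁ := t.isCompact_biUnion fun y _ => hV1 y
  have hcontmk : Continuous (QuotientGroup.mk' N) := QuotientGroup.continuous_mk (N := N)
  have hK₂c : IsCompact (K₁ ∩ (QuotientGroup.mk' N) ⁻¹' C') :=
    hK₁c.inter_right (hC'.isClosed.preimage hcontmk)
  have hK₂E : K₁ ∩ (QuotientGroup.mk' N) ⁻¹' C' ⊆
      (((⊤ : Subgroup G).lowerCentralSeries i).topologicalClosure : Set G) := by
    rintro x ⟨-, hx⟩
    exact (closure_lcs_quot N hN x).1 (hC'sub hx)
  refine ⟨(K₁ ∩ (QuotientGroup.mk' N) ⁻¹' C') * C, hK₂c.mul hC, ?_, ?_⟩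
  · rintro _ ⟨a, ha, b, hb, rfl⟩
    exact Subgroup.mul_mem _ (hK₂E ha) (hN (hCN' hb))
  · intro c hc
    obtain ⟨c', hc', γ', hγ', -, hcc⟩ := hC'cov _ ((closure_lcs_quot N hN c).2 hc)
    obtain ⟨γ, hγ, rfl⟩ := hγ'
    obtain ⟨y, hy, hcy⟩ := Set.mem_iUnion₂.1 (ht hc')
    obtain ⟨k, hk, rfl⟩ := hcy
    have hkK : k ∈ K₁ ∩ (QuotientGroup.mk' N) ⁻¹' C' := by
      refine ⟨?_, hc'⟩
      rw [hK₁]
      exact Set.mem_iUnion₂.2 ⟨y, hy, hk⟩
    have hn : (k * γ)⁻¹ * c ∈ N := by
      rw [← QuotientGroup.eq]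
      rw [← map_mul] at hcc
      exact hcc.symm
    obtain ⟨k₀, hk₀, δ, hδ, hδN, hkδ⟩ := hCN _ hn
    have h1 : c = k * k₀ * (γ * δ) := by
      have h2 : c = k * γ * (k₀ * δ) := by
        rw [← hkδ]
        group
      rw [h2]
      have h3 := hcen k₀ (hCN' hk₀) γ
      calc k * γ * (k₀ * δ) = k * (γ * k₀) * δ := by group
        _ = k * (k₀ * γ) * δ := by rw [h3]
        _ = k * k₀ * (γ * δ) := by group
    have h4 : k * k₀ ∈ (K₁ ∩ (QuotientGroup.mk' N) ⁻¹' C') * C := Set.mul_mem_mul hkK hk₀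
    refine ⟨k * k₀, h4, γ * δ, Γ.mul_mem hγ hδ, ?_, h1⟩
    have h5 : γ * δ = (k * k₀)⁻¹ * c := by
      rw [h1]
      group
    rw [h5]
    exact Subgroup.mul_mem _ (Subgroup.inv_mem _
      (Subgroup.mul_mem _ (hK₂E hkK) (hN (hCN' hk₀)))) hc

end Pool.Agent.Nil820

end

/-! ### Part `LcsCocpt` -/

section

/-! # Piece LCSCOCPT: all terms of the lower central series are cocompact -/

open scoped Topology Pointwise

namespace Pool.Agent.Nil820

/-- the trivial case -/
theorem cocptLcs_of_bot {G : Type} [Group G] [TopologicalSpace G] [IsTopologicalGroup G]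
    [T2Space G] (Γ : Subgroup G) {i : ℕ} (h : (⊤ : Subgroup G).lowerCentralSeries i = ⊥) :
    CocptLcs G Γ i := by
  have hcl : ((⊤ : Subgroup G).lowerCentralSeries i).topologicalClosure = ⊥ := by
    rw [h]
    apply le_bot_iff.1
    exact Subgroup.topologicalClosure_minimal _ le_rfl (by simp)
  refine ⟨{1}, isCompact_singleton, ?_, ?_⟩
  · rw [hcl]; simp
  · rw [hcl]
    intro c hc
    rw [Subgroup.mem_bot] at hc
    exact ⟨1, rfl, 1, Γ.one_mem, Subgroup.one_mem _, by simp [hc]⟩

/-- the closure of a central subgroup is central -/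
theorem central_closure {G : Type} [Group G] [TopologicalSpace G] [IsTopologicalGroup G]
    [T2Space G] (S : Subgroup G) (hS : ∀ n ∈ S, ∀ g : G, g * n = n * g) :
    ∀ n ∈ S.topologicalClosure, ∀ g : G, g * n = n * g := by
  intro n hn g
  have h1 : S.topologicalClosure ≤ Subgroup.centralizer {g} := by
    refine Subgroup.topologicalClosure_minimal _ ?_ ?_
    · intro m hm
      rw [Subgroup.mem_centralizer_iff]
      intro h hh
      rw [Set.mem_singleton_iff] at hh
      subst hh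
      exact hS m hm h
    · have h2 : ((Subgroup.centralizer {g} : Subgroup G) : Set G) = {m | g * m = m * g} := by
        ext m
        rw [SetLike.mem_coe, Subgroup.mem_centralizer_iff]
        simp
      rw [h2]
      exact isClosed_eq (continuous_const.mul continuous_id) (continuous_id.mul continuous_const)
  have h3 := h1 hn
  rw [Subgroup.mem_centralizer_iff] at h3
  exact h3 g rfl

/-- **LCSCOCPT.** Proof. Induction on `n` (all `G`). `n = 0`: `G` is trivial (`lcs 0 = ⊤ = ⊥`),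
`C = {1}` works for all `i`. Step: let `N = (lcs n).topologicalClosure`, central
(`⁅lcs n, ⊤⁆ = lcs (n+1) = ⊥`, closure in a Hausdorff group), closed, normal. `last_cocpt` gives `C`.
For `i ≤ n`: `N ≤ closure (lcs i)` (antitone). The group `G ⧸ N` is Hausdorff
(`QuotientGroup.instT3Space`), locally compact, `lcs n (G ⧸ N)` is the image of `lcs n G ≤ N`, so `⊥`;
the image of `Γ` is discrete (`quot_discrete`) and finitely generated, the image of `K` is compact and
`G ⧸ N = image K * image Γ`, `RootProp.quot`. The induction hypothesis and `cocptLcs_of_quot` give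
`CocptLcs G Γ i`. For `i > n`: `lcs i = ⊥` and its closure is `⊥` (`T1`), `C = {1}`. -/
theorem lcs_cocpt (n : ℕ) : ∀ (G : Type) [Group G] [TopologicalSpace G] [IsTopologicalGroup G]
    [T2Space G] [LocallyCompactSpace G] (Γ : Subgroup G), DiscreteTopology Γ → Γ.FG →
    ∀ K : Set G, IsCompact K → (∀ x : G, ∃ k ∈ K, ∃ γ ∈ Γ, x = k * γ) → RootProp G →
    (⊤ : Subgroup G).lowerCentralSeries n = ⊥ → ∀ i, CocptLcs G Γ i := by
  induction n with
  | zero =>
    intro G _ _ _ _ _ Γ _ _ K _ _ _ hn i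
    refine cocptLcs_of_bot Γ ?_
    rw [← le_bot_iff, ← hn]
    exact Subgroup.lowerCentralSeries_antitone _ (Nat.zero_le i)
  | succ n ih =>
    intro G _ _ _ _ _ Γ hΓ hfg K hK hKΓ hroot hn i
    rcases Nat.lt_or_ge n i with hi | hi
    · refine cocptLcs_of_bot Γ ?_
      rw [← le_bot_iff, ← hn]
      exact Subgroup.lowerCentralSeries_antitone _ hi
    · haveI := hΓ
      obtain ⟨C, hC, hCN', hCN⟩ := last_cocpt hfg hK hKΓ hroot hn
      set N : Subgroup G := ((⊤ : Subgroup G).lowerCentralSeries n).topologicalClosure with hNdef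
      have hNc : IsClosed (N : Set G) := Subgroup.isClosed_topologicalClosure _
      have hcen0 : ∀ m ∈ (⊤ : Subgroup G).lowerCentralSeries n, ∀ g : G, g * m = m * g := by
        intro m hm g
        have h1 := Subgroup.commutator_mem_commutator hm (Subgroup.mem_top g)
        rw [← Subgroup.lowerCentralSeries_succ, hn, Subgroup.mem_bot,
          commutatorElement_eq_one_iff_mul_comm] at h1
        exact h1.symm
      have hcen : ∀ m ∈ N, ∀ g : G, g * m = m * g := central_closure _ hcen0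
      haveI hNn : N.Normal := by
        refine ⟨fun m hm g => ?_⟩
        rw [hcen m hm g, mul_inv_cancel_right]
        exact hm
      haveI hNcl : IsClosed (N : Set G) := hNc
      haveI : T3Space (G ⧸ N) := QuotientGroup.instT3Space N
      have hNi : N ≤ ((⊤ : Subgroup G).lowerCentralSeries i).topologicalClosure :=
        Subgroup.topologicalClosure_mono (Subgroup.lowerCentralSeries_antitone _ hi)
      have hdisc : DiscreteTopology (Γ.map (QuotientGroup.mk' N)) :=
        quot_discrete N hNc hcen Γ hC hCN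
      have hfg' : (Γ.map (QuotientGroup.mk' N)).FG := by
        rw [Subgroup.fg_iff_submonoid_fg] at hfg ⊢
        exact hfg.map (QuotientGroup.mk' N)
      have hKc : IsCompact ((QuotientGroup.mk : G → G ⧸ N) '' K) := hK.image continuous_quot_mk
      have hroot' : RootProp (G ⧸ N) := RootProp.quot hroot N
      have hlcs : (⊤ : Subgroup (G ⧸ N)).lowerCentralSeries n = ⊥ := by
        have h1 : (⊤ : Subgroup G).map (QuotientGroup.mk' N) = ⊤ :=
          Subgroup.map_top_of_surjective _ (QuotientGroup.mk'_surjective N)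
        rw [← h1, ← Subgroup.map_lowerCentralSeries, Subgroup.map_eq_bot_iff,
          QuotientGroup.ker_mk']
        exact Subgroup.le_topologicalClosure _
      have hKΓ' : ∀ x : G ⧸ N, ∃ k ∈ (QuotientGroup.mk : G → G ⧸ N) '' K,
          ∃ γ ∈ Γ.map (QuotientGroup.mk' N), x = k * γ := by
        intro x
        induction x using QuotientGroup.induction_on with
        | H x =>
          obtain ⟨k, hk, γ, hγ, hx⟩ := hKΓ x
          refine ⟨_, ⟨k, hk, rfl⟩, QuotientGroup.mk' N γ, Subgroup.mem_map_of_mem _ hγ, ?_⟩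
          rw [hx]
          rfl
      exact cocptLcs_of_quot N hNc hcen Γ hC hCN' hCN hNi
        (ih (G ⧸ N) (Γ.map (QuotientGroup.mk' N)) hdisc hfg' _ hKc hKΓ' hroot' hlcs i)

end Pool.Agent.Nil820

end

/-! ### Part `Lcs` -/

section

/-! # Piece LCS: the closed lower central filtration -/

open scoped ComplexConjugate Topology

namespace Pool.Agent.Nil820

private theorem lcs_three {G : Type} [Group G] (N : Subgroup G) [N.Normal] (A B C : Subgroup G)
    (h1 : ⁅⁅B, C⁆, A⁆ ≤ N) (h2 : ⁅⁅C, A⁆, B⁆ ≤ N) : ⁅⁅A, B⁆, C⁆ ≤ N := by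
  have key : ∀ X : Subgroup G, X ≤ N ↔ X.map (QuotientGroup.mk' N) = ⊥ := by
    intro X
    rw [Subgroup.map_eq_bot_iff, QuotientGroup.ker_mk']
  rw [key, Subgroup.map_commutator, Subgroup.map_commutator] at *
  exact Subgroup.commutator_commutator_eq_bot_of_rotate h1 h2

/-- **LCS1.** `[lcs i, lcs l] ≤ lcs (i + l + 1)`.

Proof. Induction on `l` (all `i`). `l = 0`: `⁅lcs i, ⊤⁆ = lcs (i+1)`
(`Subgroup.lowerCentralSeries_succ`). Step: `lcs (l+1) = ⁅lcs l, ⊤⁆`; by the three subgroups lemma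
modulo the normal subgroup `N = lcs (i + l + 2)`
(`Subgroup.commutator_commutator_eq_bot_of_rotate` in the quotient `G ⧸ N`, or the direct form
`⁅⁅H, K⁆, L⁆ ≤ N` from `⁅⁅K, L⁆, H⁆ ≤ N` and `⁅⁅L, H⁆, K⁆ ≤ N`):
`⁅⁅lcs l, ⊤⁆, lcs i⁆ ≤ N` follows from `⁅⁅⊤, lcs i⁆, lcs l⁆ = ⁅lcs (i+1), lcs l⁆ ≤ lcs (i+1+l+1)`
and `⁅⁅lcs i, lcs l⁆, ⊤⁆ ≤ ⁅lcs (i+l+1), ⊤⁆ = lcs (i+l+2)`. -/
theorem lcs_comm {G : Type} [Group G] (i l : ℕ) :
    ⁅(⊤ : Subgroup G).lowerCentralSeries i, (⊤ : Subgroup G).lowerCentralSeries l⁆ ≤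
      (⊤ : Subgroup G).lowerCentralSeries (i + l + 1) := by
  induction l generalizing i with
  | zero => exact le_refl _
  | succ l ih =>
    rw [Subgroup.commutator_comm]
    show ⁅⁅(⊤ : Subgroup G).lowerCentralSeries l, (⊤ : Subgroup G)⁆,
      (⊤ : Subgroup G).lowerCentralSeries i⁆ ≤ (⊤ : Subgroup G).lowerCentralSeries (i + (l + 1) + 1)
    apply lcs_three
    · rw [Subgroup.commutator_comm ⊤ _]
      have h := ih (i + 1)
      have e : i + 1 + l + 1 = i + (l + 1) + 1 := by ring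
      rw [e] at h
      exact h
    · exact Subgroup.commutator_mono (ih i) le_rfl

/-- the closed lower central filtration: `clcs 0 = clcs 1 = G`, `clcs (i+1) = closure (lcs i)` -/
def clcs (G : Type) [Group G] [TopologicalSpace G] [IsTopologicalGroup G] (i : ℕ) : Subgroup G :=
  ((⊤ : Subgroup G).lowerCentralSeries (i - 1)).topologicalClosure

/-- **LCS2.** All properties of `NilData` except `cocpt` hold for the closed lower central
filtration, and `cocpt` is assumed for `closure (lcs i)`.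

Proof. `zero`, `one`: closure of `⊤`. `anti`: `Subgroup.lowerCentralSeries_antitone` and monotonicity
of the closure. `normal`: closure of a normal subgroup (`Subgroup.is_normal_topologicalClosure`).
`comm`: for `i = 0` or `l = 0` use normality (`a * (b a⁻¹ b⁻¹)` resp. `(a b a⁻¹) b⁻¹`); for `i, l ≥ 1`:
`{(a, b) | a b a⁻¹ b⁻¹ ∈ closure (lcs (i+l-1))}` is closed and contains
`lcs (i-1) × lcs (l-1)` by `lcs_comm`, hence its closure
(`map_mem_closure₂`). -/
theorem clcs_nilData {G : Type} [Group G] [TopologicalSpace G] [IsTopologicalGroup G]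
    (Γ : Subgroup G)
    (hc : ∀ i, ∃ K : Set G, IsCompact K ∧
      K ⊆ (((⊤ : Subgroup G).lowerCentralSeries i).topologicalClosure : Set G) ∧
      ∀ c ∈ ((⊤ : Subgroup G).lowerCentralSeries i).topologicalClosure, ∃ k ∈ K, ∃ γ ∈ Γ,
        γ ∈ ((⊤ : Subgroup G).lowerCentralSeries i).topologicalClosure ∧ c = k * γ) :
    NilData (clcs G) Γ := by
  have hn : ∀ i, (clcs G i).Normal := fun i =>
    Subgroup.is_normal_topologicalClosure _
  refine ⟨?_, ?_, ?_, hn, ?_, ?_⟩
  · exact top_le_iff.1 (Subgroup.le_topologicalClosure _)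
  · exact top_le_iff.1 (Subgroup.le_topologicalClosure _)
  · intro i
    exact Subgroup.topologicalClosure_mono
      ((⊤ : Subgroup G).lowerCentralSeries_antitone (by omega))
  · intro i l a ha b hb
    rcases Nat.eq_zero_or_pos i with hi | hi
    · subst hi
      rw [zero_add]
      exact (clcs G l).mul_mem ((hn l).conj_mem b hb a) ((clcs G l).inv_mem hb)
    rcases Nat.eq_zero_or_pos l with hl | hl
    · subst hl
      rw [add_zero]
      have h1 : b * a⁻¹ * b⁻¹ ∈ clcs G i := (hn i).conj_mem a⁻¹ ((clcs G i).inv_mem ha) b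
      have h2 := (clcs G i).mul_mem ha h1
      have e : a * b * a⁻¹ * b⁻¹ = a * (b * a⁻¹ * b⁻¹) := by group
      rw [e]
      exact h2
    have hcont : Continuous (Function.uncurry (fun a b : G => a * b * a⁻¹ * b⁻¹)) := by
      show Continuous (fun p : G × G => p.1 * p.2 * p.1⁻¹ * p.2⁻¹)
      fun_prop
    have ha' : a ∈ closure (((⊤ : Subgroup G).lowerCentralSeries (i - 1) : Subgroup G) : Set G) := ha
    have hb' : b ∈ closure (((⊤ : Subgroup G).lowerCentralSeries (l - 1) : Subgroup G) : Set G) := hb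
    have h : a * b * a⁻¹ * b⁻¹ ∈
        closure (((⊤ : Subgroup G).lowerCentralSeries (i + l - 1) : Subgroup G) : Set G) := by
      refine map_mem_closure₂ (f := fun a b : G => a * b * a⁻¹ * b⁻¹) hcont ha' hb' ?_
      intro x hx y hy
      have h1 := lcs_comm (i - 1) (l - 1) (Subgroup.commutator_mem_commutator hx hy)
      have e : i - 1 + (l - 1) + 1 = i + l - 1 := by omega
      rw [e] at h1
      exact h1
    exact h
  · intro i
    exact hc (i - 1)

end Pool.Agent.Nil820

end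

/-! ### Part `Open2` -/

section

/-! # Piece OPEN2: filtered data on an open subgroup -/

open scoped Topology Pointwise

namespace Pool.Agent.Nil820

/-- **OPEN2.** Proof. `K` from `exists_compact_cover`, `H` from `exists_open_subgroup`. `↥H` is a
Hausdorff topological group, locally compact (open subset), `Γ.subgroupOf H` is discrete
(it embeds into `Γ`), finitely generated by `fg_of_cocompact`, `RootProp ↥H` by
`RootProp.open_subgroup`, `lcs s ↥H = ⊥` (`Subgroup.top_subtype_lowerCentralSeries`,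
`Subgroup.lowerCentralSeries_mono`; the map to `G` is injective). `lcs_cocpt` and `clcs_nilData` give
the `NilData`; `clcs ↥H (s + 1) = closure (lcs s) = closure ⊥ = ⊥`. For `x ∈ G`: `x = k γ`,
`k ∈ K ⊆ H`. -/
theorem exists_nilData {G : Type} [Group G] [TopologicalSpace G] [IsTopologicalGroup G]
    [T2Space G] [LocallyCompactSpace G] (Γ : Subgroup G) [DiscreteTopology Γ]
    [CompactSpace (G ⧸ Γ)] (hroot : RootProp G) {s : ℕ}
    (hs : (⊤ : Subgroup G).lowerCentralSeries s = ⊥) (g : G) :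
    ∃ H : Subgroup G, g ∈ H ∧ (∀ x : G, ∃ h ∈ H, ∃ γ ∈ Γ, x = h * γ) ∧
      NilData (clcs ↥H) (Γ.subgroupOf H) ∧ clcs ↥H (s + 1) = ⊥ := by
  obtain ⟨K, hK, hKΓ⟩ := exists_compact_cover Γ
  obtain ⟨H, hHo, hgH, hKH, ⟨Q, hQ, hQH⟩, K', hK', hK'Γ⟩ := exists_open_subgroup Γ hK hKΓ g
  have : LocallyCompactSpace ↥H := hHo.locallyCompactSpace
  have hdisc : DiscreteTopology ↥(Γ.subgroupOf H) := by
    let f : ↥(Γ.subgroupOf H) → ↥Γ := fun x => ⟨((x : ↥H) : G), Subgroup.mem_subgroupOf.1 x.2⟩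
    have hf : Continuous f := by fun_prop
    have hinj : Function.Injective f := by
      intro x y hxy
      have h1 : ((x : ↥H) : G) = ((y : ↥H) : G) := congrArg (fun z : ↥Γ => (z : G)) hxy
      exact Subtype.ext (Subtype.ext h1)
    exact DiscreteTopology.of_continuous_injective hf hinj
  have hfg : (Γ.subgroupOf H).FG := fg_of_cocompact (Γ.subgroupOf H) hK' hK'Γ hQ hQH
  have hrootH : RootProp ↥H := hroot.open_subgroup H hHo
  have hsH : (⊤ : Subgroup ↥H).lowerCentralSeries s = ⊥ := by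
    have h1 : ((⊤ : Subgroup ↥H).lowerCentralSeries s).map H.subtype = H.lowerCentralSeries s :=
      Subgroup.top_subtype_lowerCentralSeries H s
    have h2 : H.lowerCentralSeries s ≤ (⊤ : Subgroup G).lowerCentralSeries s :=
      Subgroup.lowerCentralSeries_mono s le_top
    rw [hs, le_bot_iff] at h2
    rw [h2] at h1
    exact (Subgroup.map_eq_bot_iff_of_injective _ H.subtype_injective).1 h1
  refine ⟨H, hgH, fun x => ?_, ?_, ?_⟩
  · obtain ⟨k, hk, γ, hγ, hx⟩ := hKΓ x
    exact ⟨k, hKH hk, γ, hγ, hx⟩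
  · exact clcs_nilData (Γ.subgroupOf H)
      (lcs_cocpt s ↥H (Γ.subgroupOf H) hdisc hfg K' hK' hK'Γ hrootH hsH)
  · show ((⊤ : Subgroup ↥H).lowerCentralSeries (s + 1 - 1)).topologicalClosure = ⊥
    rw [Nat.add_sub_cancel, hsH]
    apply le_bot_iff.1
    exact Subgroup.topologicalClosure_minimal _ le_rfl (by simp)

end Pool.Agent.Nil820

end
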