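import Pool.Agent.Lib_MP_820dd4_an.Defs

/-! # Piece ROOT2: the squaring map of a Lie group in a chart -/

open scoped Topology Manifold

namespace Pool.Agent.Nil820

/-- **ROOT2.** The squaring map of a Lie group read in the chart at `1` has derivative `2 • id`.

Proof. Let `e = chartAt V (1 : G)`, `v₀ = e 1`. `m (u, v) = e (e.symm u * e.symm v)` is `C^∞` near
`(v₀, v₀)` (`contMDiff_mul`, `contMDiffAt_iff`, charts of `𝓘(ℝ, V)`; a composition of
`contMDiffOn_chart_symm`, `contMDiff_mul` and `contMDiffOn_chart`), hence strictly differentiable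
there (`ContDiffAt.hasStrictFDerivAt`). `m (u, v₀) = u` and `m (v₀, v) = v` near `v₀` (`e.symm v₀ = 1`),
so `D m (v₀, v₀) (a, b) = a + b`. `f u = m (u, u)`, so `D f v₀ = 2 • id`. -/
theorem hasStrictFDerivAt_sq {V : Type} [NormedAddCommGroup V] [NormedSpace ℝ V]
    [FiniteDimensional ℝ V] {G : Type} [Group G] [TopologicalSpace G] [ChartedSpace V G]
    [LieGroup (modelWithCornersSelf ℝ V) (⊤ : ℕ∞) G] :
    HasStrictFDerivAt
      (fun u : V => chartAt V (1 : G) ((chartAt V (1 : G)).symm u * (chartAt V (1 : G)).symm u))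
      ((2 : ℝ) • ContinuousLinearMap.id ℝ V) (chartAt V (1 : G) 1) := by
  set e := chartAt V (1 : G) with he
  set v0 : V := e 1 with hv0
  have h1s : (1 : G) ∈ e.source := mem_chart_source V 1
  have hv0t : v0 ∈ e.target := e.map_source h1s
  have hsymm0 : e.symm v0 = 1 := e.left_inv h1s
  set m : V × V → V := fun p => e (e.symm p.1 * e.symm p.2) with hm
  have hsymm : ContMDiffAt 𝓘(ℝ, V) 𝓘(ℝ, V) ((⊤ : ℕ∞) : WithTop ℕ∞) e.symm v0 :=
    (contMDiffOn_chart_symm (I := 𝓘(ℝ, V)) (x := (1 : G))).contMDiffAt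
      (e.open_target.mem_nhds hv0t)
  have hchart : ContMDiffAt 𝓘(ℝ, V) 𝓘(ℝ, V) ((⊤ : ℕ∞) : WithTop ℕ∞) e (1 : G) :=
    (contMDiffOn_chart (I := 𝓘(ℝ, V)) (x := (1 : G))).contMDiffAt
      (e.open_source.mem_nhds h1s)
  have hfst : ContMDiffAt 𝓘(ℝ, V × V) 𝓘(ℝ, V) ((⊤ : ℕ∞) : WithTop ℕ∞)
      (fun p : V × V => e.symm p.1) (v0, v0) :=
    ContMDiffAt.comp (v0, v0) (g := e.symm) (f := Prod.fst) hsymm contDiff_fst.contMDiff.contMDiffAt
  have hsnd : ContMDiffAt 𝓘(ℝ, V × V) 𝓘(ℝ, V) ((⊤ : ℕ∞) : WithTop ℕ∞)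
      (fun p : V × V => e.symm p.2) (v0, v0) :=
    ContMDiffAt.comp (v0, v0) (g := e.symm) (f := Prod.snd) hsymm contDiff_snd.contMDiff.contMDiffAt
  have hmul : ContMDiffAt 𝓘(ℝ, V × V) 𝓘(ℝ, V) ((⊤ : ℕ∞) : WithTop ℕ∞)
      (fun p : V × V => e.symm p.1 * e.symm p.2) (v0, v0) := hfst.mul hsnd
  have hmm : ContMDiffAt 𝓘(ℝ, V × V) 𝓘(ℝ, V) ((⊤ : ℕ∞) : WithTop ℕ∞) m (v0, v0) := by
    refine ContMDiffAt.comp (v0, v0) (g := e) ?_ hmul
    simp only [hsymm0, mul_one]
    exact hchart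
  have hcd : ContDiffAt ℝ ((⊤ : ℕ∞) : WithTop ℕ∞) m (v0, v0) := contMDiffAt_iff_contDiffAt.1 hmm
  have hst : HasStrictFDerivAt m (fderiv ℝ m (v0, v0)) (v0, v0) :=
    hcd.hasStrictFDerivAt (by simp)
  set D := fderiv ℝ m (v0, v0) with hD
  have hl : D.comp (ContinuousLinearMap.inl ℝ V V) = ContinuousLinearMap.id ℝ V := by
    have h1 : HasFDerivAt (fun u : V => m (u, v0)) (D.comp (ContinuousLinearMap.inl ℝ V V)) v0 :=
      HasFDerivAt.comp v0 (g := m) hst.hasFDerivAt (hasFDerivAt_prodMk_left v0 v0)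
    have h2 : HasFDerivAt (fun u : V => m (u, v0)) (ContinuousLinearMap.id ℝ V) v0 := by
      refine (hasFDerivAt_id v0).congr_of_eventuallyEq ?_
      filter_upwards [e.open_target.mem_nhds hv0t] with u hu
      simp [hm, hsymm0, e.right_inv hu]
    exact h1.unique h2
  have hr : D.comp (ContinuousLinearMap.inr ℝ V V) = ContinuousLinearMap.id ℝ V := by
    have h1 : HasFDerivAt (fun u : V => m (v0, u)) (D.comp (ContinuousLinearMap.inr ℝ V V)) v0 :=
      HasFDerivAt.comp v0 (g := m) hst.hasFDerivAt (hasFDerivAt_prodMk_right v0 v0)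
    have h2 : HasFDerivAt (fun u : V => m (v0, u)) (ContinuousLinearMap.id ℝ V) v0 := by
      refine (hasFDerivAt_id v0).congr_of_eventuallyEq ?_
      filter_upwards [e.open_target.mem_nhds hv0t] with u hu
      simp [hm, hsymm0, e.right_inv hu]
    exact h1.unique h2
  have hdiag : HasStrictFDerivAt (fun u : V => (u, u))
      ((ContinuousLinearMap.id ℝ V).prod (ContinuousLinearMap.id ℝ V)) v0 :=
    (hasStrictFDerivAt_id v0).prodMk (hasStrictFDerivAt_id v0)
  have hfin : HasStrictFDerivAt (fun u : V => m (u, u))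
      (D.comp ((ContinuousLinearMap.id ℝ V).prod (ContinuousLinearMap.id ℝ V))) v0 :=
    HasStrictFDerivAt.comp v0 (g := m) hst hdiag
  have hDD : D.comp ((ContinuousLinearMap.id ℝ V).prod (ContinuousLinearMap.id ℝ V)) =
      (2 : ℝ) • ContinuousLinearMap.id ℝ V := by
    ext a
    have ha : D (a, 0) = a := by
      have := congrArg (fun L : V →L[ℝ] V => L a) hl
      simpa using this
    have hb : D (0, a) = a := by
      have := congrArg (fun L : V →L[ℝ] V => L a) hr
      simpa using this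
    have hc : D (a, a) = D (a, 0) + D (0, a) := by
      rw [← map_add]
      simp
    simp only [ContinuousLinearMap.comp_apply, ContinuousLinearMap.prod_apply,
      ContinuousLinearMap.id_apply, _root_.smul_apply]
    rw [hc, ha, hb, two_smul]
  rw [← hDD]
  exact hfin

end Pool.Agent.Nil820
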