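import Pool.Agent.Lib_MP_820dd4_an.Bary1

/-! ### Part `Clos5` -/

section

/-! # Piece CLOS5: null sequences and squares -/

open scoped ComplexConjugate Topology

namespace Pool.Agent.Nil820

/-- **CLOS5.** Proof: `Bdd e` gives `‖e‖² ≤ C ‖e‖`, one direction is `UNull.of_le`. Conversely, for
every window `(∑ ‖e‖)² ≤ n ∑ ‖e‖²` (Cauchy-Schwarz, `sq_sum_le_card_mul_sum_sq`), so if
`∑ ‖e‖² ≤ ε² n` then `∑ ‖e‖ ≤ ε n`. -/
theorem uNull_iff_sq {e : ℤ → ℂ} (he : Bdd e) :
    UNull e ↔ UZero (fun m => conj (e m) * e m) := by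
  constructor
  · intro h
    obtain ⟨C, hC⟩ := he
    refine h.of_le C fun m => ?_
    rw [norm_mul, RCLike.norm_conj]
    exact mul_le_mul_of_nonneg_right (hC m) (norm_nonneg _)
  · intro h ε hε
    obtain ⟨L, hL⟩ := h (ε ^ 2) (by positivity)
    refine ⟨L, fun n hn M => ?_⟩
    have h1 := hL n hn M
    have e1 : ∑ i ∈ Finset.range n, conj (e (M + i)) * e (M + i) =
        ((∑ i ∈ Finset.range n, ‖e (M + i)‖ ^ 2 : ℝ) : ℂ) := by
      rw [Complex.ofReal_sum]
      refine Finset.sum_congr rfl fun i _ => ?_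
      rw [mul_comm, Complex.mul_conj, Complex.normSq_eq_norm_sq]
    have e2 : ∑ i ∈ Finset.range n, ((‖e (M + i)‖ : ℝ) : ℂ) =
        ((∑ i ∈ Finset.range n, ‖e (M + i)‖ : ℝ) : ℂ) := by
      rw [Complex.ofReal_sum]
    show ‖∑ i ∈ Finset.range n, ((‖e (M + i)‖ : ℝ) : ℂ)‖ ≤ ε * n
    have h1' : ‖∑ i ∈ Finset.range n, conj (e (M + i)) * e (M + i)‖ ≤ ε ^ 2 * n := h1
    rw [e1, Complex.norm_real, Real.norm_eq_abs, abs_of_nonneg (by positivity)] at h1'
    rw [e2, Complex.norm_real, Real.norm_eq_abs, abs_of_nonneg (by positivity)]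
    have h2 := sq_sum_le_card_mul_sum_sq (s := Finset.range n) (f := fun i : ℕ => ‖e (M + i)‖)
    rw [Finset.card_range] at h2
    have h3 : (∑ i ∈ Finset.range n, ‖e (M + i)‖) ^ 2 ≤ (ε * n) ^ 2 := by
      calc (∑ i ∈ Finset.range n, ‖e (M + i)‖) ^ 2
          ≤ n * ∑ i ∈ Finset.range n, ‖e (M + i)‖ ^ 2 := h2
        _ ≤ n * (ε ^ 2 * n) := mul_le_mul_of_nonneg_left h1' (by positivity)
        _ = (ε * n) ^ 2 := by ring
    exact abs_le_of_sq_le_sq' h3 (by positivity) |>.2

end Pool.Agent.Nil820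

end

/-! ### Part `CoreB` -/

section

/-! # Piece COREB: orthogonal vectors have null transforms -/

open scoped ComplexConjugate Topology
open MeasureTheory

namespace Pool.Agent.Nil820

/-- **COREB.** A vector whose transform is orthogonal to all members of the family has a null
transform.

Proof. Put `a m = ∫ w(p) θ p m dρ`, bounded (`|a m| ≤ C * ∫ ‖w‖`, `w ∈ L² ⊆ L¹` as `ρ` is finite).
By `uNull_iff_sq` it is enough that `UZero (fun m => conj (a m) * a m)`. For a window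
(start `M`, length `n ≥ 1`)
`(1/n) ∑_{i<n} conj (a (M+i)) a (M+i) = ∫ conj (w p) * A_{n,M}(p) dρ`,
`A_{n,M}(p) = (1/n) ∑_{i<n} conj (θ p (M+i)) * a (M+i)`.
Let `s_n(p) = sup_M ‖A_{n,M}(p)‖` (supremum over the countable set `ℤ`; measurable; bounded by
`C * sup |a|`); `s_n(p) → 0` for every `p` by `hw`, so `∫ ‖w p‖ s_n(p) dρ → 0` by dominated
convergence (`tendsto_integral_of_dominated_convergence`). This bounds all windows of length `n`
at once. (To avoid suprema one may argue by contradiction with a sequence of windows `(M_k, n_k)`,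
`n_k → ∞`, and dominated convergence for `A_{n_k, M_k}(p)`.) -/
theorem core_b {P : Type} [MeasurableSpace P] (ρ : Measure P)
    [IsProbabilityMeasure ρ] (θ : P → ℤ → ℂ) (hθm : ∀ m, Measurable fun p => θ p m) {C : ℝ}
    (hb : ∀ p m, ‖θ p m‖ ≤ C) (w : Lp ℂ 2 ρ)
    (hw : ∀ p₀, UZero (fun m => (∫ p, (w : P → ℂ) p * θ p m ∂ρ) * conj (θ p₀ m))) :
    UNull (fun m => ∫ p, (w : P → ℂ) p * θ p m ∂ρ) := by
  have hwi : Integrable (w : P → ℂ) ρ := (Lp.memLp w).integrable (by norm_num)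
  have hint : ∀ m, Integrable (fun p => (w : P → ℂ) p * θ p m) ρ := by
    intro m
    refine Integrable.mono' (hwi.norm.const_mul C)
      (hwi.aestronglyMeasurable.mul (hθm m).aestronglyMeasurable) (ae_of_all _ fun p => ?_)
    rw [norm_mul, mul_comm]
    exact mul_le_mul_of_nonneg_right (hb p m) (norm_nonneg _)
  have hab : ∀ m, ‖∫ p, (w : P → ℂ) p * θ p m ∂ρ‖ ≤ C * ∫ p, ‖(w : P → ℂ) p‖ ∂ρ := by
    intro m
    rw [← integral_const_mul]
    refine norm_integral_le_of_norm_le (hwi.norm.const_mul C) (ae_of_all _ fun p => ?_)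
    rw [norm_mul, mul_comm]
    exact mul_le_mul_of_nonneg_right (hb p m) (norm_nonneg _)
  set a : ℤ → ℂ := fun m => ∫ p, (w : P → ℂ) p * θ p m ∂ρ with ha
  have hbd : Bdd a := ⟨_, hab⟩
  obtain ⟨A, hA0, hA⟩ := hbd.nonneg
  rw [uNull_iff_sq hbd]
  by_contra hcon
  unfold UZero at hcon
  push Not at hcon
  obtain ⟨ε, hε, hL⟩ := hcon
  choose n hn M hM using fun k : ℕ => hL (k + 1)
  have hnpos : ∀ k, (0 : ℝ) < n k := fun k => by
    have h := hn k
    exact_mod_cast (by omega : 0 < n k)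
  -- the averages
  let F : ℕ → P → ℂ := fun k p =>
    (n k : ℂ)⁻¹ * ∑ i ∈ Finset.range (n k), a (M k + i) * conj ((w : P → ℂ) p * θ p (M k + i))
  have hF1 : ∀ k p, F k p = conj ((w : P → ℂ) p) *
      ((n k : ℂ)⁻¹ * ∑ i ∈ Finset.range (n k), a (M k + i) * conj (θ p (M k + i))) := by
    intro k p
    simp only [F, Finset.mul_sum, map_mul]
    refine Finset.sum_congr rfl fun i _ => ?_
    ring
  have hci : ∀ m, Integrable (fun p => conj ((w : P → ℂ) p * θ p m)) ρ := fun m =>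
    (hint m).mono (Complex.continuous_conj.comp_aestronglyMeasurable (hint m).1)
      (ae_of_all _ fun p => by rw [RCLike.norm_conj])
  have hFi : ∀ k, Integrable (F k) ρ := fun k =>
    (integrable_finsetSum _ fun i _ => (hci _).const_mul _).const_mul _
  have hFint : ∀ k, ∫ p, F k p ∂ρ =
      (n k : ℂ)⁻¹ * ∑ i ∈ Finset.range (n k), conj (a (M k + i)) * a (M k + i) := by
    intro k
    simp only [F]
    rw [integral_const_mul, integral_finsetSum _ fun i _ => (hci _).const_mul _]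
    congr 1
    refine Finset.sum_congr rfl fun i _ => ?_
    rw [integral_const_mul, integral_conj, mul_comm]
  have hlow : ∀ k, ε ≤ ‖∫ p, F k p ∂ρ‖ := by
    intro k
    rw [hFint, norm_mul, norm_inv, Complex.norm_natCast, ← div_eq_inv_mul, le_div_iff₀ (hnpos k)]
    exact (hM k).le
  -- pointwise bounds
  have hS : ∀ k p, ‖(n k : ℂ)⁻¹ * ∑ i ∈ Finset.range (n k), a (M k + i) * conj (θ p (M k + i))‖
      ≤ A * C := by
    intro k p
    rw [norm_mul, norm_inv, Complex.norm_natCast, ← div_eq_inv_mul, div_le_iff₀ (hnpos k)]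
    calc ‖∑ i ∈ Finset.range (n k), a (M k + i) * conj (θ p (M k + i))‖
        ≤ ∑ i ∈ Finset.range (n k), ‖a (M k + i) * conj (θ p (M k + i))‖ := norm_sum_le _ _
      _ ≤ ∑ _i ∈ Finset.range (n k), A * C := by
        refine Finset.sum_le_sum fun i _ => ?_
        rw [norm_mul, RCLike.norm_conj]
        exact mul_le_mul (hA _) (hb _ _) (norm_nonneg _) hA0
      _ = A * C * n k := by
        rw [Finset.sum_const, Finset.card_range, nsmul_eq_mul, mul_comm]
  have hFb : ∀ k, ∀ᵐ p ∂ρ, ‖F k p‖ ≤ A * C * ‖(w : P → ℂ) p‖ := fun k => ae_of_all _ fun p => by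
    rw [hF1, norm_mul, RCLike.norm_conj, mul_comm]
    exact mul_le_mul_of_nonneg_right (hS k p) (norm_nonneg _)
  have hlim : ∀ p, Filter.Tendsto (fun k => F k p) Filter.atTop (𝓝 0) := by
    intro p
    have h0 : Filter.Tendsto (fun k : ℕ => (n k : ℂ)⁻¹ *
        ∑ i ∈ Finset.range (n k), a (M k + i) * conj (θ p (M k + i))) Filter.atTop (𝓝 0) := by
      rw [Metric.tendsto_atTop]
      intro δ hδ
      obtain ⟨L, hL'⟩ := hw p (δ / 2) (by positivity)
      refine ⟨L, fun k hk => ?_⟩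
      rw [dist_zero_right, norm_mul, norm_inv, Complex.norm_natCast, ← div_eq_inv_mul]
      have h1 : ‖∑ i ∈ Finset.range (n k), a (M k + i) * conj (θ p (M k + i))‖ ≤ δ / 2 * n k :=
        hL' (n k) (by have := hn k; omega) (M k)
      have h2 : ‖∑ i ∈ Finset.range (n k), a (M k + i) * conj (θ p (M k + i))‖ / n k ≤ δ / 2 := by
        rw [div_le_iff₀ (hnpos k)]
        exact h1
      linarith
    have h1 := h0.const_mul (conj ((w : P → ℂ) p))
    rw [mul_zero] at h1
    exact h1.congr fun k => (hF1 k p).symm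
  have hT : Filter.Tendsto (fun k => ∫ p, F k p ∂ρ) Filter.atTop (𝓝 (∫ _p, (0 : ℂ) ∂ρ)) :=
    tendsto_integral_of_dominated_convergence (fun p => A * C * ‖(w : P → ℂ) p‖)
      (fun k => (hFi k).1) (hwi.norm.const_mul _) hFb (ae_of_all _ hlim)
  rw [integral_zero] at hT
  have h3 := hT.norm
  rw [norm_zero] at h3
  have h4 : ε ≤ 0 := ge_of_tendsto h3 (Filter.Eventually.of_forall hlow)
  linarith

end Pool.Agent.Nil820

end
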