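import Pool.Agent.Lib_MP_820dd4_an.Bary1

/-! ### Part `Mean2` -/

section

/-! # Piece MEAN2: elementary properties of invariant means -/

open scoped ComplexConjugate Topology

namespace Pool.Agent.Nil820

private theorem mean2_bdd_sum {ι : Type*} (s : Finset ι) (c : ι → ℂ)
    (f : ι → ℤ → ℂ) (h : ∀ i ∈ s, Bdd (f i)) : Bdd (fun m => ∑ i ∈ s, c i * f i m) := by
  classical
  induction s using Finset.induction_on with
  | empty => simpa using Bdd.const 0
  | insert a s ha ih =>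
    simp only [Finset.sum_insert ha]
    exact ((h a (Finset.mem_insert_self _ _)).cmul (c a)).add
      (ih fun i hi => h i (Finset.mem_insert_of_mem hi))

private theorem mean2_finset_sum (𝔪 : InvMean) {ι : Type*} (s : Finset ι) (c : ι → ℂ)
    (f : ι → ℤ → ℂ) (h : ∀ i ∈ s, Bdd (f i)) :
    𝔪.toFun (fun m => ∑ i ∈ s, c i * f i m) = ∑ i ∈ s, c i * 𝔪.toFun (f i) := by
  classical
  induction s using Finset.induction_on with
  | empty => simpa using 𝔪.const 0
  | insert a s ha ih =>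
    have h1 : Bdd (f a) := h a (Finset.mem_insert_self _ _)
    have h2 : ∀ i ∈ s, Bdd (f i) := fun i hi => h i (Finset.mem_insert_of_mem hi)
    simp only [Finset.sum_insert ha]
    rw [𝔪.add _ _ (h1.cmul (c a)) (mean2_bdd_sum s c f h2), 𝔪.smul _ _ h1, ih h2]

/-- **MEAN2.** Invariant means vanish on `UZero` sequences.

Proof. By shift invariance and additivity, for `n ≥ 1`,
`𝔪 f = 𝔪 (fun m => (1/n) * ∑ i ∈ range n, f (m + i))`, whose sup norm is `≤ ε` for `n ≥ L`. -/
theorem InvMean.eq_zero_of_uzero (𝔪 : InvMean) {f : ℤ → ℂ} (hf : Bdd f) (h : UZero f) :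
    𝔪.toFun f = 0 := by
  rw [← norm_le_zero_iff]
  refine le_of_forall_pos_le_add fun ε hε => ?_
  rw [zero_add]
  obtain ⟨L, hL⟩ := h ε hε
  have hn : ((L + 1 : ℕ) : ℂ) ≠ 0 := Nat.cast_ne_zero.2 (Nat.succ_ne_zero L)
  have hn' : (0 : ℝ) < ((L + 1 : ℕ) : ℝ) := Nat.cast_pos.2 (Nat.succ_pos L)
  have h1 : 𝔪.toFun (fun m => ∑ i ∈ Finset.range (L + 1),
      (((L + 1 : ℕ) : ℂ))⁻¹ * f (m + (i : ℤ))) = 𝔪.toFun f := by
    rw [mean2_finset_sum 𝔪 (Finset.range (L + 1)) (fun _ => (((L + 1 : ℕ) : ℂ))⁻¹)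
      (fun i m => f (m + (i : ℤ))) (fun i _ => hf.shift (i : ℤ))]
    simp only [𝔪.shift f _ hf]
    rw [Finset.sum_const, Finset.card_range, nsmul_eq_mul, ← mul_assoc, mul_inv_cancel₀ hn,
      one_mul]
  rw [← h1]
  refine 𝔪.bound _ _ fun m => ?_
  rw [← Finset.mul_sum, norm_mul, norm_inv, Complex.norm_natCast]
  have h2 := hL (L + 1) (Nat.le_succ L) m
  calc (((L + 1 : ℕ) : ℝ))⁻¹ * ‖∑ i ∈ Finset.range (L + 1), f (m + (i : ℤ))‖
      ≤ (((L + 1 : ℕ) : ℝ))⁻¹ * (ε * ((L + 1 : ℕ) : ℝ)) :=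
        mul_le_mul_of_nonneg_left h2 (inv_nonneg.2 hn'.le)
    _ = ε := by field_simp

/-- finite sums (easy induction from `add`, `smul`) -/
theorem InvMean.finset_sum (𝔪 : InvMean) {ι : Type*} (s : Finset ι) (c : ι → ℂ)
    (f : ι → ℤ → ℂ) (h : ∀ i ∈ s, Bdd (f i)) :
    𝔪.toFun (fun m => ∑ i ∈ s, c i * f i m) = ∑ i ∈ s, c i * 𝔪.toFun (f i) :=
  mean2_finset_sum 𝔪 s c f h

/-- the mean of a function with nonnegative real part has nonnegative real part:
if `‖f m‖ ≤ C` and `0 ≤ (f m).re`, the function `(f m).re = (f m + conj (f m)) / 2` takes values in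
`[0, C]`, so `‖C - 𝔪 (re f)‖ ≤ C` and hence `0 ≤ re (𝔪 (re f)) = re (𝔪 f)`. -/
theorem InvMean.re_nonneg (𝔪 : InvMean) {f : ℤ → ℂ} (hf : Bdd f) (h : ∀ m, 0 ≤ (f m).re) :
    0 ≤ (𝔪.toFun f).re := by
  obtain ⟨C, hC0, hC⟩ := hf.nonneg
  have hg : Bdd (fun m => f m + conj (f m)) := hf.add hf.cj
  have e1 : 𝔪.toFun (fun m => f m + conj (f m)) =
      𝔪.toFun f + conj (𝔪.toFun f) := by
    rw [𝔪.add _ _ hf hf.cj, 𝔪.cj _ hf]
  have e2 : 𝔪.toFun (fun m => ((2 * C : ℝ) : ℂ) + (-1) * (f m + conj (f m))) =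
      ((2 * C : ℝ) : ℂ) + (-1) * (𝔪.toFun f + conj (𝔪.toFun f)) := by
    rw [𝔪.add (fun _ => ((2 * C : ℝ) : ℂ)) (fun m => (-1) * (f m + conj (f m)))
      (Bdd.const _) (hg.cmul (-1)), 𝔪.smul _ _ hg, 𝔪.const, e1]
  have e3 : ‖𝔪.toFun (fun m => ((2 * C : ℝ) : ℂ) + (-1) * (f m + conj (f m)))‖ ≤ 2 * C := by
    refine 𝔪.bound _ _ fun m => ?_
    have h1 : ((2 * C : ℝ) : ℂ) + (-1) * (f m + conj (f m)) =
        ((2 * C - 2 * (f m).re : ℝ) : ℂ) := by
      rw [Complex.add_conj]
      push_cast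
      ring
    rw [h1, Complex.norm_real, Real.norm_eq_abs]
    have h2 : (f m).re ≤ C := (Complex.re_le_norm _).trans (hC m)
    rw [abs_of_nonneg (by linarith)]
    linarith [h m]
  rw [e2, Complex.add_conj] at e3
  have h3 : ((2 * C : ℝ) : ℂ) + (-1) * ((2 * (𝔪.toFun f).re : ℝ) : ℂ) =
      ((2 * C - 2 * (𝔪.toFun f).re : ℝ) : ℂ) := by
    push_cast
    ring
  rw [h3, Complex.norm_real, Real.norm_eq_abs] at e3
  have h4 := le_abs_self (2 * C - 2 * (𝔪.toFun f).re)
  linarith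

end Pool.Agent.Nil820

end

/-! ### Part `Mean1` -/

section

/-! # Piece MEAN1: an invariant mean detecting a sequence -/

open scoped ComplexConjugate Topology

namespace Pool.Agent.Nil820

/-- the average of `h` over the window of number `L` -/
noncomputable def mean1Avg (n : ℕ → ℕ) (M : ℕ → ℤ) (h : ℤ → ℂ) (L : ℕ) : ℂ :=
  (∑ i ∈ Finset.range (n L), h (M L + i)) / (n L : ℂ)

open Classical in
/-- the limit of the averages along the hyperfilter -/
noncomputable def mean1Lim (n : ℕ → ℕ) (M : ℕ → ℤ) (h : ℤ → ℂ) : ℂ :=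
  if H : ∃ z, Filter.Tendsto (mean1Avg n M h) (Filter.hyperfilter ℕ : Filter ℕ) (𝓝 z)
  then H.choose else 0

theorem mean1_bound (n : ℕ → ℕ) (M : ℕ → ℤ) {h : ℤ → ℂ} {C : ℝ} (hC : ∀ m, ‖h m‖ ≤ C) (L : ℕ)
    (hn : L + 1 ≤ n L) : ‖mean1Avg n M h L‖ ≤ C := by
  unfold mean1Avg
  have hpos : (0 : ℝ) < n L := by
    have : 0 < n L := by omega
    exact_mod_cast this
  rw [norm_div, Complex.norm_natCast, div_le_iff₀ hpos]
  calc ‖∑ i ∈ Finset.range (n L), h (M L + i)‖
      ≤ ∑ i ∈ Finset.range (n L), ‖h (M L + i)‖ := norm_sum_le _ _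
    _ ≤ ∑ _i ∈ Finset.range (n L), C := Finset.sum_le_sum fun i _ => hC _
    _ = C * n L := by
        rw [Finset.sum_const, Finset.card_range, nsmul_eq_mul]
        ring

theorem mean1_spec (n : ℕ → ℕ) (M : ℕ → ℤ) (hn : ∀ L, L + 1 ≤ n L) {h : ℤ → ℂ} (hh : Bdd h) :
    Filter.Tendsto (mean1Avg n M h) (Filter.hyperfilter ℕ : Filter ℕ) (𝓝 (mean1Lim n M h)) := by
  have H : ∃ z, Filter.Tendsto (mean1Avg n M h) (Filter.hyperfilter ℕ : Filter ℕ) (𝓝 z) := by
    obtain ⟨C, hC⟩ := hh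
    have h1 : IsCompact (Metric.closedBall (0 : ℂ) C) := isCompact_closedBall _ _
    have h2 : ((Ultrafilter.map (mean1Avg n M h) (Filter.hyperfilter ℕ) : Ultrafilter ℂ) : Filter ℂ) ≤
        Filter.principal (Metric.closedBall (0 : ℂ) C) := by
      rw [Filter.le_principal_iff, Ultrafilter.coe_map, Filter.mem_map]
      refine Filter.mem_of_superset Filter.univ_mem ?_
      intro L _
      show mean1Avg n M h L ∈ Metric.closedBall (0 : ℂ) C
      rw [mem_closedBall_zero_iff]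
      exact mean1_bound n M hC L (hn L)
    obtain ⟨z, -, hz⟩ := h1.ultrafilter_le_nhds _ h2
    exact ⟨z, hz⟩
  unfold mean1Lim
  rw [dif_pos H]
  exact H.choose_spec

theorem mean1_unique (n : ℕ → ℕ) (M : ℕ → ℤ) (hn : ∀ L, L + 1 ≤ n L) {h : ℤ → ℂ} (hh : Bdd h)
    {z : ℂ} (hz : Filter.Tendsto (mean1Avg n M h) (Filter.hyperfilter ℕ : Filter ℕ) (𝓝 z)) :
    mean1Lim n M h = z :=
  tendsto_nhds_unique (mean1_spec n M hn hh) hz

theorem mean1_avg_shift_one (n : ℕ → ℕ) (M : ℕ → ℤ) {h : ℤ → ℂ} {C : ℝ} (hC : ∀ m, ‖h m‖ ≤ C)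
    (L : ℕ) (hn : L + 1 ≤ n L) :
    ‖mean1Avg n M (fun m => h (m + 1)) L - mean1Avg n M h L‖ ≤ (2 * C) * (1 / ((L : ℝ) + 1)) := by
  unfold mean1Avg
  have hC0 : 0 ≤ C := (norm_nonneg _).trans (hC 0)
  have hpos : (0 : ℝ) < n L := by
    have : 0 < n L := by omega
    exact_mod_cast this
  have hle : (L : ℝ) + 1 ≤ n L := by exact_mod_cast hn
  have e : (∑ i ∈ Finset.range (n L), h (M L + i + 1)) - ∑ i ∈ Finset.range (n L), h (M L + i) =
      h (M L + (n L : ℤ)) - h (M L) := by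
    rw [← Finset.sum_sub_distrib]
    have h1 := Finset.sum_range_sub (fun i : ℕ => h (M L + (i : ℤ))) (n L)
    simp only [Nat.cast_zero, add_zero] at h1
    rw [← h1]
    refine Finset.sum_congr rfl fun i _ => ?_
    rw [Nat.cast_add, Nat.cast_one, add_assoc]
  rw [← sub_div, e, norm_div, Complex.norm_natCast, div_le_iff₀ hpos]
  have h2 : ‖h (M L + (n L : ℤ)) - h (M L)‖ ≤ 2 * C := by
    refine (norm_sub_le _ _).trans ?_
    have := hC (M L + (n L : ℤ))
    have := hC (M L)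
    linarith
  refine h2.trans ?_
  have h3 : 1 ≤ 1 / ((L : ℝ) + 1) * n L := by
    rw [one_div, ← div_eq_inv_mul, le_div_iff₀ (by positivity)]
    linarith
  nlinarith

theorem mean1_shift_one (n : ℕ → ℕ) (M : ℕ → ℤ) (hn : ∀ L, L + 1 ≤ n L) {h : ℤ → ℂ}
    (hh : Bdd h) : mean1Lim n M (fun m => h (m + 1)) = mean1Lim n M h := by
  obtain ⟨C, hC⟩ := hh
  refine mean1_unique n M hn (Bdd.shift ⟨C, hC⟩ 1) ?_
  have h1 := mean1_spec n M hn (h := h) ⟨C, hC⟩
  have h2 : Filter.Tendsto (fun L => mean1Avg n M (fun m => h (m + 1)) L - mean1Avg n M h L)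
      (Filter.hyperfilter ℕ : Filter ℕ) (𝓝 0) := by
    have h3 : Filter.Tendsto (fun L : ℕ => (2 * C) * (1 / ((L : ℝ) + 1)))
        (Filter.hyperfilter ℕ : Filter ℕ) (𝓝 0) := by
      have := (tendsto_one_div_add_atTop_nhds_zero_nat (𝕜 := ℝ)).const_mul (2 * C)
      rw [mul_zero] at this
      exact this.mono_left Nat.hyperfilter_le_atTop
    exact squeeze_zero_norm (fun L => mean1_avg_shift_one n M hC L (hn L)) h3
  have h4 := h1.add h2
  rw [add_zero] at h4
  refine h4.congr fun L => ?_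
  ring

theorem mean1_shift (n : ℕ → ℕ) (M : ℕ → ℤ) (hn : ∀ L, L + 1 ≤ n L) (r : ℤ) :
    ∀ h : ℤ → ℂ, Bdd h → mean1Lim n M (fun m => h (m + r)) = mean1Lim n M h := by
  induction r using Int.induction_on with
  | zero =>
    intro h _
    simp
  | succ i ih =>
    intro h hh
    have h1 := mean1_shift_one n M hn (h := fun m => h (m + i)) (hh.shift i)
    rw [ih h hh] at h1
    rw [← h1]
    congr 1
    funext m
    show h (m + (i + 1)) = h (m + 1 + i)
    congr 1
    ring
  | pred i ih =>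
    intro h hh
    have h1 := mean1_shift_one n M hn (h := fun m => h (m + (-i - 1))) (hh.shift _)
    rw [← h1]
    rw [← ih h hh]
    congr 1
    funext m
    show h (m + 1 + (-i - 1)) = h (m + -i)
    congr 1
    ring

/-- **MEAN1.** A bounded sequence which is not `UZero` is detected by an invariant mean.

Proof. `¬ UZero f` gives `ε > 0` such that for every `L` there are `n L ≥ L` (take `L ≥ 1`, so
`n L ≥ 1`) and `M L` with `‖∑ i ∈ range (n L), f (M L + i)‖ > ε * n L`. Let `U` be an ultrafilter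
on `ℕ` finer than `atTop` (`Filter.hyperfilter ℕ` or `Ultrafilter.of atTop`). For a bounded `h`
the averages `a_h(L) = (1 / n L) ∑ i ∈ range (n L), h (M L + i)` stay in a closed ball, which is
compact, so they converge along `U` to a point `toFun h` (`Ultrafilter.le_nhds_iff...`,
`IsCompact.ultrafilter_le_nhds`); for unbounded `h` put `toFun h = 0`, or define
`toFun h = lim U a_h` (`limUnder`) in all cases. Linearity, conjugation, constants (`n L ≥ 1`) and
the bound pass to the limit. Shift: `|a_h(L) - a_{h(· + r)}(L)| ≤ 2 |r| C / n L → 0` (telescoping;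
do `r = 1` first and iterate: the sum over `range n` of `h (M+i+1) - h (M+i)` is
`h (M+n) - h M`; then `r : ℕ` by induction and negative `r` by applying the result to the shifted
function). Finally `‖toFun f‖ ≥ ε` because `‖a_f(L)‖ > ε` for every `L`. -/
theorem exists_mean_of_not_uzero {f : ℤ → ℂ} (hf : Bdd f) (h : ¬ UZero f) :
    ∃ 𝔪 : InvMean, 𝔪.toFun f ≠ 0 := by
  unfold UZero at h
  push Not at h
  obtain ⟨ε, hε, h⟩ := h
  choose n0 hn0 M0 hM0 using h
  let n : ℕ → ℕ := fun L => n0 (L + 1)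
  let M : ℕ → ℤ := fun L => M0 (L + 1)
  have hn : ∀ L, L + 1 ≤ n L := fun L => hn0 (L + 1)
  have hM : ∀ L, ε * (n L) < ‖∑ i ∈ Finset.range (n L), f (M L + i)‖ := fun L => hM0 (L + 1)
  refine ⟨{ toFun := mean1Lim n M
            add := ?_
            smul := ?_
            const := ?_
            cj := ?_
            bound := ?_
            shift := fun g r hg => mean1_shift n M hn r g hg }, ?_⟩
  · intro g k hg hk
    refine mean1_unique n M hn (hg.add hk) ?_
    refine ((mean1_spec n M hn hg).add (mean1_spec n M hn hk)).congr fun L => ?_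
    unfold mean1Avg
    rw [Finset.sum_add_distrib, add_div]
  · intro c g hg
    refine mean1_unique n M hn (hg.cmul c) ?_
    refine ((mean1_spec n M hn hg).const_mul c).congr fun L => ?_
    unfold mean1Avg
    rw [← Finset.mul_sum, mul_div_assoc]
  · intro c
    refine mean1_unique n M hn (Bdd.const c) ?_
    refine tendsto_const_nhds.congr fun L => ?_
    unfold mean1Avg
    have hpos : (n L : ℂ) ≠ 0 := by
      have h1 := hn L
      have : n L ≠ 0 := by omega
      exact_mod_cast this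
    rw [Finset.sum_const, Finset.card_range, nsmul_eq_mul]
    field_simp
  · intro g hg
    refine mean1_unique n M hn hg.cj ?_
    refine ((Complex.continuous_conj.tendsto _).comp (mean1_spec n M hn hg)).congr fun L => ?_
    unfold mean1Avg
    simp only [Function.comp_apply, map_div₀, map_sum, map_natCast]
  · intro g C hC
    refine le_of_tendsto ((mean1_spec n M hn ⟨C, hC⟩).norm) ?_
    exact Filter.Eventually.of_forall fun L => mean1_bound n M hC L (hn L)
  · show mean1Lim n M f ≠ 0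
    have h1 : ε ≤ ‖mean1Lim n M f‖ := by
      refine ge_of_tendsto ((mean1_spec n M hn hf).norm) ?_
      refine Filter.Eventually.of_forall fun L => ?_
      unfold mean1Avg
      have hpos : (0 : ℝ) < n L := by
        have h1 := hn L
        have : 0 < n L := by omega
        exact_mod_cast this
      rw [norm_div, Complex.norm_natCast, le_div_iff₀ hpos]
      exact (hM L).le
    intro h0
    rw [h0, norm_zero] at h1
    linarith

end Pool.Agent.Nil820

end

/-! ### Part `Mean` -/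

section

/-! # Invariant means -/

open scoped ComplexConjugate Topology

namespace Pool.Agent.Nil820

theorem uzero_iff_mean {f : ℤ → ℂ} (hf : Bdd f) : UZero f ↔ ∀ 𝔪 : InvMean, 𝔪.toFun f = 0 := by
  constructor
  · intro h 𝔪
    exact 𝔪.eq_zero_of_uzero hf h
  · intro h
    by_contra h'
    obtain ⟨𝔪, h𝔪⟩ := exists_mean_of_not_uzero hf h'
    exact h𝔪 (h 𝔪)

end Pool.Agent.Nil820

end
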