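import Pool.Agent.Lib_MP_820dd4_an.Bary1
import Pool.Agent.Lib_MP_820dd4_an.Mean

/-! ### Part `Clos1` -/

section

/-! # Piece CLOS1: the A-part is bounded by the whole sequence -/

open scoped ComplexConjugate Topology

namespace Pool.Agent.Nil820

/-- **CLOS1.** The `A`-part is bounded by the whole sequence.

Proof. Fix `m₀` and `ε > 0`; let `ψ, c, L` be from `hA.recur N hN m₀ ε`, `ψ m = t_m ≥ 0`. Let
`P n = ∑_{i<n} ψ (i)` (window `M = 0`), a nonnegative real with `P n ≥ c n` for `n ≥ L`. Then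
`∑ ψ (N + e)` has norm `≤ C P`, `∑ ψ e` has norm `≤ ε c n ≤ ε P` for large `n` (`he ψ hψ`), and
`∑ ψ N = N m₀ P + ∑ ψ (N - N m₀)` where the last sum has norm `≤ ε P`. Hence
`‖N m₀‖ P ≤ (C + 2 ε) P`, and `P > 0`. Let `ε → 0`. -/
theorem SeqAlg.norm_le_of_orth {A : Set (ℤ → ℂ)} (hA : SeqAlg A) {N e : ℤ → ℂ} (hN : N ∈ A)
    (he : Orth A e) {C : ℝ} (hC : 0 ≤ C) (h : ∀ m, ‖N m + e m‖ ≤ C) : ∀ m, ‖N m‖ ≤ C := by
  intro m₀
  refine le_of_forall_pos_le_add fun δ hδ => ?_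
  obtain ⟨ψ, hψ, c, hc, L, hpos, hsupp, hmean⟩ := hA.recur N hN m₀ (δ / 2) (by positivity)
  obtain ⟨L2, hL2⟩ := he ψ hψ (δ / 2 * c) (by positivity)
  set n : ℕ := max (max L L2) 1 with hn
  have hnL : L ≤ n := le_trans (le_max_left _ _) (le_max_left _ _)
  have hnL2 : L2 ≤ n := le_trans (le_max_right _ _) (le_max_left _ _)
  have hn1 : 1 ≤ n := le_max_right _ _
  have hn0 : (0 : ℝ) < n := by exact_mod_cast hn1
  have h1 := hmean n hnL 0
  have h2 := hL2 n hnL2 0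
  set P : ℝ := ∑ i ∈ Finset.range n, ‖ψ (0 + i)‖ with hP
  have hP0 : 0 < P := lt_of_lt_of_le (mul_pos hc hn0) h1
  have hψn : ∀ m, ψ m = ((‖ψ m‖ : ℝ) : ℂ) := by
    intro m
    obtain ⟨t, ht, hm⟩ := hpos m
    rw [hm, Complex.norm_real, Real.norm_eq_abs, abs_of_nonneg ht]
  have hsum : ∑ i ∈ Finset.range n, ψ (0 + i) = (P : ℂ) := by
    rw [hP, Complex.ofReal_sum]
    exact Finset.sum_congr rfl fun i _ => hψn _
  have key : N m₀ * (P : ℂ) = ∑ i ∈ Finset.range n, ψ (0 + i) * (N (0 + i) + e (0 + i)) -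
      ∑ i ∈ Finset.range n, ψ (0 + i) * e (0 + i) -
      ∑ i ∈ Finset.range n, ψ (0 + i) * (N (0 + i) - N m₀) := by
    rw [← hsum, Finset.mul_sum, ← Finset.sum_sub_distrib, ← Finset.sum_sub_distrib]
    exact Finset.sum_congr rfl fun i _ => by ring
  have b1 : ‖∑ i ∈ Finset.range n, ψ (0 + i) * (N (0 + i) + e (0 + i))‖ ≤ P * C := by
    rw [hP, Finset.sum_mul]
    refine (norm_sum_le _ _).trans (Finset.sum_le_sum fun i _ => ?_)
    rw [norm_mul]
    exact mul_le_mul_of_nonneg_left (h _) (norm_nonneg _)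
  have b2 : ‖∑ i ∈ Finset.range n, ψ (0 + i) * (N (0 + i) - N m₀)‖ ≤ P * (δ / 2) := by
    rw [hP, Finset.sum_mul]
    refine (norm_sum_le _ _).trans (Finset.sum_le_sum fun i _ => ?_)
    rw [norm_mul]
    by_cases h0 : ψ (0 + i) = 0
    · rw [h0, norm_zero, zero_mul, zero_mul]
    · exact mul_le_mul_of_nonneg_left (hsupp _ h0) (norm_nonneg _)
  have b3 : ‖∑ i ∈ Finset.range n, ψ (0 + i) * e (0 + i)‖ ≤ P * (δ / 2) := by
    refine h2.trans ?_
    calc δ / 2 * c * n = c * n * (δ / 2) := by ring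
      _ ≤ P * (δ / 2) := mul_le_mul_of_nonneg_right h1 (by positivity)
  have b4 : ‖N m₀‖ * P ≤ P * C + P * (δ / 2) + P * (δ / 2) := by
    calc ‖N m₀‖ * P = ‖N m₀ * (P : ℂ)‖ := by
          rw [norm_mul, Complex.norm_real, Real.norm_eq_abs, abs_of_pos hP0]
      _ ≤ _ := by
          rw [key]
          refine (norm_sub_le _ _).trans (add_le_add ((norm_sub_le _ _).trans ?_) b2)
          exact add_le_add b1 b3
  have b5 : P * ‖N m₀‖ ≤ P * (C + δ) := by
    calc P * ‖N m₀‖ = ‖N m₀‖ * P := by ring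
      _ ≤ _ := b4
      _ = P * (C + δ) := by ring
  exact le_of_mul_le_mul_left b5 hP0

end Pool.Agent.Nil820

end

/-! ### Part `Clos2` -/

section

/-! # Piece CLOS2: decomposable sequences form a closed set -/

open scoped ComplexConjugate Topology

namespace Pool.Agent.Nil820

theorem clos2_aux {A : Set (ℤ → ℂ)} (hA : SeqAlg A) (Q : (ℤ → ℂ) → Prop)
    (hQ1 : ∀ e, Q e → Orth A e)
    (hQ2 : ∀ e : ℤ → ℂ, (∀ ε > 0, ∃ g, Q g ∧ ∀ m, ‖e m - g m‖ ≤ ε) → Q e) {a : ℤ → ℂ}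
    (h : ∀ ε > 0, ∃ b : ℤ → ℂ, (∃ N ∈ A, Q (fun m => b m - N m)) ∧ ∀ m, ‖a m - b m‖ ≤ ε) :
    ∃ N ∈ A, Q (fun m => a m - N m) := by
  have h' : ∀ k : ℕ, ∃ b N : ℤ → ℂ, N ∈ A ∧ Q (fun m => b m - N m) ∧
      ∀ m, ‖a m - b m‖ ≤ (1 / 2 : ℝ) ^ k := by
    intro k
    obtain ⟨b, ⟨N, hN, hq⟩, hb⟩ := h ((1 / 2 : ℝ) ^ k) (by positivity)
    exact ⟨b, N, hN, hq, hb⟩
  choose b N hN hq hb using h'
  have hNN : ∀ k l m, ‖N k m - N l m‖ ≤ (1 / 2 : ℝ) ^ k + (1 / 2 : ℝ) ^ l := by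
    intro k l
    have h1 : Orth A (fun m => (b k m - N k m) + -(b l m - N l m)) :=
      (hQ1 _ (hq k)).add (hQ1 _ (hq l)).neg
    refine hA.norm_le_of_orth (hA.sub (hN k) (hN l)) h1 (by positivity) fun m => ?_
    have e : N k m - N l m + (b k m - N k m + -(b l m - N l m)) = (a m - b l m) - (a m - b k m) := by
      ring
    rw [e]
    refine (norm_sub_le _ _).trans ?_
    linarith [hb k m, hb l m]
  have hlim : Filter.Tendsto (fun k : ℕ => (1 / 2 : ℝ) ^ k) Filter.atTop (𝓝 0) :=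
    tendsto_pow_atTop_nhds_zero_of_lt_one (by norm_num) (by norm_num)
  have hsmall : ∀ ε > 0, ∃ k : ℕ, (1 / 2 : ℝ) ^ k < ε := fun ε hε =>
    exists_pow_lt_of_lt_one hε (by norm_num)
  have hc : ∀ m, ∃ z : ℂ, Filter.Tendsto (fun k => N k m) Filter.atTop (𝓝 z) := by
    intro m
    apply cauchySeq_tendsto_of_complete
    rw [Metric.cauchySeq_iff]
    intro ε hε
    obtain ⟨K, hK⟩ := hsmall (ε / 2) (by positivity)
    refine ⟨K, fun k hk l hl => ?_⟩
    rw [dist_eq_norm]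
    have h1 : (1 / 2 : ℝ) ^ k ≤ (1 / 2 : ℝ) ^ K := pow_le_pow_of_le_one (by norm_num) (by norm_num) hk
    have h2 : (1 / 2 : ℝ) ^ l ≤ (1 / 2 : ℝ) ^ K := pow_le_pow_of_le_one (by norm_num) (by norm_num) hl
    linarith [hNN k l m]
  choose M hM using hc
  have hNM : ∀ k m, ‖N k m - M m‖ ≤ (1 / 2 : ℝ) ^ k := by
    intro k m
    have t1 : Filter.Tendsto (fun l => ‖N k m - N l m‖) Filter.atTop (𝓝 ‖N k m - M m‖) :=
      ((tendsto_const_nhds).sub (hM m)).norm
    have t2 : Filter.Tendsto (fun l : ℕ => (1 / 2 : ℝ) ^ k + (1 / 2 : ℝ) ^ l) Filter.atTop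
        (𝓝 ((1 / 2 : ℝ) ^ k + 0)) := tendsto_const_nhds.add hlim
    rw [add_zero] at t2
    exact le_of_tendsto_of_tendsto' t1 t2 fun l => hNN k l m
  refine ⟨M, ?_, ?_⟩
  · apply hA.closed
    intro ε hε
    obtain ⟨K, hK⟩ := hsmall ε hε
    refine ⟨N K, hN K, fun m => ?_⟩
    rw [norm_sub_rev]
    exact (hNM K m).trans hK.le
  · apply hQ2
    intro ε hε
    obtain ⟨K, hK⟩ := hsmall (ε / 2) (by positivity)
    refine ⟨_, hq K, fun m => ?_⟩
    have e : a m - M m - (b K m - N K m) = (a m - b K m) + (N K m - M m) := by ring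
    rw [e]
    refine (norm_add_le _ _).trans ?_
    linarith [hb K m, hNM K m]

/-- **CLOS2.** Proof. Choose `b_k`, `Dec A b_k` with parts `N_k`, `‖a - b_k‖ ≤ 2^(-k)`. By CLOS1
applied to `N_k - N_l` and `e_k - e_l` (`e_k = b_k - N_k`), `‖N_k - N_l‖ ≤ 2^(-k) + 2^(-l)`, so
`N_k` converges uniformly to some `N` (pointwise Cauchy, `cauchySeq_tendsto_of_complete`, and the
bound passes to the limit: `‖N_k m - N m‖ ≤ 2^(-k)`), `N ∈ A` by `hA.closed`; `a - N` is within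
`2 * 2^(-k)` of `e_k`, so `Orth.of_close` applies. -/
theorem Dec.of_close {A : Set (ℤ → ℂ)} (hA : SeqAlg A) {a : ℤ → ℂ}
    (h : ∀ ε > 0, ∃ b, Dec A b ∧ ∀ m, ‖a m - b m‖ ≤ ε) : Dec A a :=
  clos2_aux hA (Orth A) (fun _ he => he) (fun _ he => Orth.of_close hA he) h

/-- **CLOS3.** The same with `UNull` (use `UNull.orth` for CLOS1 and `UNull.of_close`). -/
theorem DecNull.of_close {A : Set (ℤ → ℂ)} (hA : SeqAlg A) {a : ℤ → ℂ}
    (h : ∀ ε > 0, ∃ b, DecNull A b ∧ ∀ m, ‖a m - b m‖ ≤ ε) : DecNull A a :=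
  clos2_aux hA UNull (fun _ he => he.orth hA) (fun _ he => UNull.of_close he) h

end Pool.Agent.Nil820

end

/-! ### Part `Hilb` -/

section

/-! # Piece HT: the orthogonality argument in an abstract Hilbert space -/

open scoped ComplexConjugate Topology

namespace Pool.Agent.Nil820

/-- the subspace of all vectors with decomposable coefficients -/
def decSub {H : Type} [NormedAddCommGroup H] [InnerProductSpace ℂ H]
    {A : Set (ℤ → ℂ)} (hA : SeqAlg A) {ι : Type*} (w : ι → ℤ → H) : Submodule ℂ H where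
  carrier := {v | ∀ i, Dec A (fun m => inner ℂ (w i m) v)}
  zero_mem' := by
    intro i
    simpa using Dec.of_mem (hA.const 0)
  add_mem' := by
    intro a b ha hb i
    simpa only [inner_add_right] using Dec.add hA (ha i) (hb i)
  smul_mem' := by
    intro c a ha i
    simpa only [inner_smul_right] using Dec.cmul hA c (ha i)

theorem decSub_closed {H : Type} [NormedAddCommGroup H] [InnerProductSpace ℂ H]
    {A : Set (ℤ → ℂ)} (hA : SeqAlg A) {ι : Type*} (w : ι → ℤ → H)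
    (hw : ∀ i, ∃ C : ℝ, ∀ m, ‖w i m‖ ≤ C) : IsClosed (decSub hA w : Set H) := by
  apply isClosed_of_closure_subset
  intro v hv i
  obtain ⟨C, hC⟩ := hw i
  have hC0 : 0 ≤ C := (norm_nonneg _).trans (hC 0)
  apply Dec.of_close hA
  intro ε hε
  obtain ⟨v', hv', hd⟩ := Metric.mem_closure_iff.1 hv (ε / (C + 1)) (by positivity)
  refine ⟨_, hv' i, fun m => ?_⟩
  rw [← inner_sub_right]
  rw [dist_eq_norm] at hd
  calc ‖inner ℂ (w i m) (v - v')‖ ≤ ‖w i m‖ * ‖v - v'‖ := norm_inner_le_norm _ _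
    _ ≤ C * (ε / (C + 1)) := mul_le_mul (hC m) hd.le (norm_nonneg _) hC0
    _ = (C / (C + 1)) * ε := by ring
    _ ≤ 1 * ε := by
        apply mul_le_mul_of_nonneg_right _ hε.le
        rw [div_le_one (by positivity)]
        linarith
    _ = ε := one_mul _

/-- coefficients of bounded families are bounded -/
theorem bdd_coef {H : Type} [NormedAddCommGroup H] [InnerProductSpace ℂ H] {a : ℤ → H}
    (ha : ∃ C : ℝ, ∀ m, ‖a m‖ ≤ C) (u : H) : Bdd (fun m => inner ℂ (a m) u) := by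
  obtain ⟨C, hC⟩ := ha
  exact ⟨C * ‖u‖, fun m => (norm_inner_le_norm _ _).trans
    (mul_le_mul_of_nonneg_right (hC m) (norm_nonneg _))⟩

/-- the Riesz vector of an averaged functional -/
theorem exists_riesz {H : Type} [NormedAddCommGroup H] [InnerProductSpace ℂ H] [CompleteSpace H]
    (𝔪 : InvMean) {φ : ℤ → ℂ} (hφ : Bdd φ) {a : ℤ → H} (ha : ∃ C : ℝ, ∀ m, ‖a m‖ ≤ C) :
    ∃ D : H, ∀ u : H, inner ℂ D u = 𝔪.toFun (fun m => φ m * inner ℂ (a m) u) := by
  obtain ⟨C, hC⟩ := ha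
  have hC0 : 0 ≤ C := (norm_nonneg _).trans (hC 0)
  obtain ⟨B, hB0, hB⟩ := hφ.nonneg
  have hb : ∀ u : H, Bdd (fun m => φ m * inner ℂ (a m) u) := fun u =>
    hφ.mul (bdd_coef ⟨C, hC⟩ u)
  let L : H →ₗ[ℂ] ℂ :=
    { toFun := fun u => 𝔪.toFun (fun m => φ m * inner ℂ (a m) u)
      map_add' := by
        intro u v
        rw [← 𝔪.add _ _ (hb u) (hb v)]
        congr 1
        funext m
        rw [inner_add_right, mul_add]
      map_smul' := by
        intro c u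
        rw [RingHom.id_apply, smul_eq_mul, ← 𝔪.smul c _ (hb u)]
        congr 1
        funext m
        rw [inner_smul_right]
        ring }
  let L' : H →L[ℂ] ℂ := L.mkContinuous (B * C) (by
    intro u
    refine 𝔪.bound _ _ fun m => ?_
    rw [norm_mul, mul_assoc]
    exact mul_le_mul (hB m) ((norm_inner_le_norm _ _).trans
      (mul_le_mul_of_nonneg_right (hC m) (norm_nonneg _))) (norm_nonneg _) hB0)
  refine ⟨(InnerProductSpace.toDual ℂ H).symm L', fun u => ?_⟩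
  rw [InnerProductSpace.toDual_symm_apply]
  rfl

/-- **HT.** Proof. Let `W = {v | ∀ i, Dec A (fun m => ⟪w i m, v⟫)}`, a subspace (`Dec.add`,
`Dec.cmul`), closed by `Dec.of_close` (if `v_k → v` in norm then `⟪w i m, v_k⟫ → ⟪w i m, v⟫`
uniformly in `m`, as `w i` is bounded).

Let `v ∈ Wᗮ`. Claim: `Orth A (fun m => ⟪w i m, v⟫)` for every `i` (so `v ∈ W`). By `hdense` and
`UZero.of_close` it is enough that `UZero (fun m => φ m * ⟪w i m, v⟫)` for `φ ∈ T`. Otherwise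
there is an invariant mean `𝔪` with `𝔪_m (φ m ⟪w i m, v⟫) ≠ 0` (`exists_mean_of_not_uzero`). The
functional `u ↦ 𝔪_m (φ m ⟪w i m, u⟫)` is linear and bounded; let `D` be its Riesz vector:
`⟪D, u⟫ = 𝔪_m (φ m ⟪w i m, u⟫)` (`InnerProductSpace.toDual`, or `LinearMap.mkContinuous`).
Then `D ∈ W`: for every `i'`,
`⟪w i' m', D⟫ = conj ⟪D, w i' m'⟫ = 𝔪_m (conj (φ m) ⟪w i' m', w i m⟫)
 = 𝔪_r (conj (φ (m' + r)) ⟪w i' m', w i (m' + r)⟫)` (shift invariance; `r + m' = m' + r`), which is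
`Dec A` as a function of `m'` by the hypothesis `h`. Hence `⟪D, v⟫ = 0`, a contradiction.

So `Wᗮ ≤ W`, hence `Wᗮ = ⊥` and `W = ⊤` (closed subspace of a complete space). -/
theorem hilbert_dec {H : Type} [NormedAddCommGroup H] [InnerProductSpace ℂ H] [CompleteSpace H]
    {A : Set (ℤ → ℂ)} (hA : SeqAlg A) {ι : Type*} (w : ι → ℤ → H)
    (hw : ∀ i, ∃ C : ℝ, ∀ m, ‖w i m‖ ≤ C) (T : Set (ℤ → ℂ)) (hT : ∀ φ ∈ T, Bdd φ)
    (hdense : ∀ ψ ∈ A, ∀ ε > 0, ∃ φ ∈ T, ∃ c : ℂ, ∀ m, ‖ψ m - c * φ m‖ ≤ ε)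
    (h : ∀ i i', ∀ φ ∈ T, ∀ 𝔪 : InvMean, Dec A (fun m =>
      𝔪.toFun (fun r => conj (φ (m + r)) * inner ℂ (w i' m) (w i (m + r))))) :
    ∀ i v, Dec A (fun m => inner ℂ (w i m) v) := by
  have hcl := decSub_closed hA w hw
  have : CompleteSpace (decSub hA w) := hcl.completeSpace_coe
  have key : ∀ v ∈ (decSub hA w)ᗮ, ∀ i, ∀ φ ∈ T, UZero (fun m => φ m * inner ℂ (w i m) v) := by
    intro v hv i φ hφ
    by_contra hne
    obtain ⟨𝔪, h𝔪⟩ := exists_mean_of_not_uzero ((hT φ hφ).mul (bdd_coef (hw i) v)) hne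
    obtain ⟨D, hD⟩ := exists_riesz 𝔪 (hT φ hφ) (hw i)
    have hDW : D ∈ decSub hA w := by
      intro i'
      have e : (fun m => inner ℂ (w i' m) D) = fun m =>
          𝔪.toFun (fun r => conj (φ (m + r)) * inner ℂ (w i' m) (w i (m + r))) := by
        funext m
        have hb : Bdd (fun r => φ r * inner ℂ (w i r) (w i' m)) :=
          (hT φ hφ).mul (bdd_coef (hw i) _)
        have hb' : Bdd (fun r => conj (φ r) * inner ℂ (w i' m) (w i r)) := by
          have := hb.cj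
          simpa only [map_mul, inner_conj_symm] using this
        rw [← inner_conj_symm, hD, ← 𝔪.cj _ hb]
        simp only [map_mul, inner_conj_symm]
        rw [← 𝔪.shift _ m hb']
        congr 1
        funext r
        rw [add_comm r m]
      change Dec A (fun m => inner ℂ (w i' m) D)
      rw [e]
      exact h i i' φ hφ 𝔪
    have h0 : inner ℂ D v = 0 := (Submodule.mem_orthogonal _ _).1 hv D hDW
    rw [hD] at h0
    exact h𝔪 h0
  have hle : ∀ v ∈ (decSub hA w)ᗮ, v ∈ decSub hA w := by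
    intro v hv i
    apply Dec.of_orth hA
    intro ψ hψ
    apply UZero.of_close
    intro ε hε
    obtain ⟨C, hC0, hC⟩ := (bdd_coef (hw i) v).nonneg
    obtain ⟨φ, hφ, c, hc⟩ := hdense ψ hψ (ε / (C + 1)) (by positivity)
    refine ⟨_, (key v hv i φ hφ).cmul c, fun m => ?_⟩
    have e : ψ m * inner ℂ (w i m) v - c * (φ m * inner ℂ (w i m) v) =
        (ψ m - c * φ m) * inner ℂ (w i m) v := by ring
    rw [e, norm_mul]
    calc ‖ψ m - c * φ m‖ * ‖inner ℂ (w i m) v‖ ≤ (ε / (C + 1)) * C :=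
          mul_le_mul (hc m) (hC m) (norm_nonneg _) (by positivity)
      _ = (C / (C + 1)) * ε := by ring
      _ ≤ 1 * ε := by
          apply mul_le_mul_of_nonneg_right _ hε.le
          rw [div_le_one (by positivity)]
          linarith
      _ = ε := one_mul _
  have hbot : (decSub hA w)ᗮ = ⊥ := by
    rw [Submodule.eq_bot_iff]
    intro v hv
    have h0 : inner ℂ v v = 0 := (Submodule.mem_orthogonal _ _).1 hv v (hle v hv)
    exact inner_self_eq_zero.1 h0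
  have htop : decSub hA w = ⊤ := (Submodule.orthogonal_eq_bot_iff).1 hbot
  intro i v
  have hv : v ∈ decSub hA w := by rw [htop]; trivial
  exact hv i

end Pool.Agent.Nil820

end
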