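import Pool.Agent.Lib_MP_820dd4_an.Mean
import Pool.Agent.Lib_MP_820dd4_an.Hilb
import Pool.Agent.Lib_MP_820dd4_an.Bary1
import Pool.Agent.Lib_MP_820dd4_an.CoreB

/-! ### Part `CoreA` -/

section

/-! # Piece COREA: the dual vectors decompose -/

open scoped ComplexConjugate Topology
open MeasureTheory

namespace Pool.Agent.Nil820

private theorem corea_int {P : Type} [MeasurableSpace P] (ρ : Measure P)
    [IsProbabilityMeasure ρ] (θ : P → ℤ → ℂ) (hθm : ∀ m, Measurable fun p => θ p m) {C : ℝ}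
    (hb : ∀ p m, ‖θ p m‖ ≤ C) (a b : ℂ) (m n : ℤ) :
    Integrable (fun p => a * conj (θ p n) * (b * θ p m)) ρ := by
  refine Integrable.of_bound (C := ‖a‖ * C * (‖b‖ * C)) ?_ ?_
  · have h1 : Measurable fun p => conj (θ p n) :=
      Complex.continuous_conj.measurable.comp (hθm n)
    exact (((h1.const_mul a)).mul ((hθm m).const_mul b)).aestronglyMeasurable
  · refine Filter.Eventually.of_forall fun p => ?_
    have hC : 0 ≤ C := le_trans (norm_nonneg _) (hb p 0)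
    rw [norm_mul, norm_mul, norm_mul, RCLike.norm_conj]
    have h1 := hb p n
    have h2 := hb p m
    gcongr

private theorem corea_corr_bdd {P : Type} [MeasurableSpace P] (ρ : Measure P)
    [IsProbabilityMeasure ρ] (θ : P → ℤ → ℂ) {C : ℝ}
    (hb : ∀ p m, ‖θ p m‖ ≤ C) (m' m : ℤ) :
    ‖∫ p, θ p m' * conj (θ p m) ∂ρ‖ ≤ C * C := by
  have h := norm_integral_le_of_norm_le_const (μ := ρ) (f := fun p => θ p m' * conj (θ p m))
    (C := C * C) (Filter.Eventually.of_forall fun p => by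
      have hC : 0 ≤ C := le_trans (norm_nonneg _) (hb p 0)
      rw [norm_mul, RCLike.norm_conj]
      have h1 := hb p m'
      have h2 := hb p m
      gcongr)
  simpa using h

/-- **COREA.** The dual vector of a member `t` of the family (for an invariant mean) has a
decomposable transform.

Proof. Write `S w m = ∫ w(p) θ p m dρ`. Let `conjθ m ∈ Lp ℂ 2 ρ` be the class of
`p ↦ conj (θ p m)` (bounded measurable, `MemLp.toLp`); `S w m = inner ℂ (conjθ m) w`
(`MeasureTheory.L2.inner_def`, `RCLike.inner_apply`). Then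
`S D m' = ⟪conjθ m', D⟫ = conj ⟪D, conjθ m'⟫
 = conj (𝔪_m ((∫ conj (θ p m') * θ p m dρ) * conj (t m)))`          (by `hD`)
` = 𝔪_m (t m * ∫ θ p m' * conj (θ p m) dρ)`                          (`InvMean.cj`)
` = 𝔪_r (t (m' + r) * ∫ θ p m' * conj (θ p (m' + r)) dρ)`            (`InvMean.shift`)
` = ∑_k h_k(m') * Q_k(m')`,
`Q_k(m) = 𝔪_r (∫ t (m + r) * conj (θ p (m + r)) * (conj (h_k m) * θ p m) dρ)`
(insert `∑_k h_k(m') * conj (h_k(m')) = 1`; `InvMean.finset_sum` or `smul`, `add`).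
For a finite `c : ℤ →₀ ℂ` and `K` as in `Dom (S k)`,
`∑_m c_m Q_k(m) = 𝔪_r (∫ ∑_m c_m q_{r,p}(m) dρ)` with
`q_{r,p}(m) = t (m + r) * conj (θ p (m + r)) * (conj (h_k m) * θ p m)`, `q_{r,p} ∈ S k`, which has
norm `≤ K` (`InvMean.finset_sum`, `InvMean.bound`, `norm_integral_le_of_norm_le_const`). So
`Dom (S k) Q_k`, hence `DecNull A Q_k`, and `DecNull.amul`, `DecNull.sum` give the claim. -/
theorem core_a {A : Set (ℤ → ℂ)} (hA : SeqAlg A) {P : Type} [MeasurableSpace P] (ρ : Measure P)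
    [IsProbabilityMeasure ρ] (θ : P → ℤ → ℂ) (hθm : ∀ m, Measurable fun p => θ p m) {C : ℝ}
    (hb : ∀ p m, ‖θ p m‖ ≤ C) (t : ℤ → ℂ) (ht : Bdd t)
    (d : ℕ) (h : Fin d → ℤ → ℂ) (S : Fin d → Set (ℤ → ℂ))
    (h1 : ∀ k, h k ∈ A) (h2 : ∀ m, ∑ k, ‖h k m‖ ^ 2 = 1)
    (h3 : ∀ k B, Dom (S k) B → DecNull A B)
    (h4 : ∀ k (p : P) (r : ℤ),
        (fun m => t (m + r) * conj (θ p (m + r)) * (conj (h k m) * θ p m)) ∈ S k)
    (𝔪 : InvMean) (D : Lp ℂ 2 ρ)
    (hD : ∀ w : Lp ℂ 2 ρ, inner ℂ D w =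
      𝔪.toFun (fun m => (∫ p, (w : P → ℂ) p * θ p m ∂ρ) * conj (t m))) :
    DecNull A (fun m => ∫ p, (D : P → ℂ) p * θ p m ∂ρ) := by
  classical
  obtain ⟨Ct, hCt0, hCt⟩ := ht.nonneg
  -- the functions `Q`
  set Q : Fin d → ℤ → ℂ := fun k m =>
    𝔪.toFun (fun r => ∫ p, t (m + r) * conj (θ p (m + r)) * (conj (h k m) * θ p m) ∂ρ) with hQ
  -- bound for the inner integrals
  have hbdI : ∀ (k : Fin d) (m : ℤ), Bdd (fun r =>
      ∫ p, t (m + r) * conj (θ p (m + r)) * (conj (h k m) * θ p m) ∂ρ) := by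
    intro k m
    refine ⟨Ct * C * (‖h k m‖ * C), fun r => ?_⟩
    have h := norm_integral_le_of_norm_le_const (μ := ρ)
      (f := fun p => t (m + r) * conj (θ p (m + r)) * (conj (h k m) * θ p m))
      (C := Ct * C * (‖h k m‖ * C)) (Filter.Eventually.of_forall fun p => by
        have hC : 0 ≤ C := le_trans (norm_nonneg _) (hb p 0)
        rw [norm_mul, norm_mul, norm_mul, RCLike.norm_conj, RCLike.norm_conj]
        have g1 := hb p (m + r)
        have g2 := hb p m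
        have g3 := hCt (m + r)
        gcongr)
    simpa using h
  -- the transform of `D`
  have hS : ∀ m', (∫ p, (D : P → ℂ) p * θ p m' ∂ρ) = ∑ k, h k m' * Q k m' := by
    intro m'
    have hmem : MemLp (fun p => conj (θ p m')) 2 ρ := by
      refine MemLp.of_bound (C := C) ?_ ?_
      · exact (Complex.continuous_conj.measurable.comp (hθm m')).aestronglyMeasurable
      · exact Filter.Eventually.of_forall fun p => by
          rw [RCLike.norm_conj]; exact hb p m'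
    set w := hmem.toLp with hw
    have hcoe : (w : P → ℂ) =ᵐ[ρ] fun p => conj (θ p m') := hmem.coeFn_toLp
    have e1 : (∫ p, (D : P → ℂ) p * θ p m' ∂ρ) = inner ℂ w D := by
      rw [MeasureTheory.L2.inner_def]
      refine integral_congr_ae ?_
      filter_upwards [hcoe] with p hp
      rw [RCLike.inner_apply, hp]
      simp
    have e2 : inner ℂ w D = conj (inner ℂ D w) := (inner_conj_symm w D).symm
    have e3 : ∀ m, (∫ p, (w : P → ℂ) p * θ p m ∂ρ) = ∫ p, conj (θ p m') * θ p m ∂ρ := by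
      intro m
      refine integral_congr_ae ?_
      filter_upwards [hcoe] with p hp
      rw [hp]
    have e4 : inner ℂ D w =
        𝔪.toFun (fun m => (∫ p, conj (θ p m') * θ p m ∂ρ) * conj (t m)) := by
      rw [hD w]
      congr 1
      funext m
      rw [e3]
    set f : ℤ → ℂ := fun m => (∫ p, θ p m' * conj (θ p m) ∂ρ) * t m with hf
    have hfb : Bdd f := by
      refine ⟨C * C * Ct, fun m => ?_⟩
      rw [hf]
      simp only
      rw [norm_mul]
      have g1 := corea_corr_bdd ρ θ hb m' m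
      have g2 := hCt m
      have g3 : 0 ≤ C * C := le_trans (norm_nonneg _) g1
      gcongr
    have e5 : conj (inner ℂ D w) = 𝔪.toFun f := by
      have hcf : (fun m => (∫ p, conj (θ p m') * θ p m ∂ρ) * conj (t m)) =
          fun m => conj (f m) := by
        funext m
        rw [hf]
        simp only [map_mul]
        rw [← integral_conj]
        congr 2
        funext p
        simp
      rw [e4, hcf, 𝔪.cj f hfb, Complex.conj_conj]
    have e6 : 𝔪.toFun f = 𝔪.toFun (fun r => f (r + m')) := (𝔪.shift f m' hfb).symm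
    have hone : ∑ k, h k m' * conj (h k m') = 1 := by
      have h2' := h2 m'
      have : ∑ k, h k m' * conj (h k m') = ((∑ k, ‖h k m'‖ ^ 2 : ℝ) : ℂ) := by
        rw [Complex.ofReal_sum]
        refine Finset.sum_congr rfl fun k _ => ?_
        rw [Complex.mul_conj, Complex.normSq_eq_norm_sq]
      rw [this, h2']
      simp
    have e7 : (fun r => f (r + m')) = fun r => ∑ k, h k m' *
        (∫ p, t (m' + r) * conj (θ p (m' + r)) * (conj (h k m') * θ p m') ∂ρ) := by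
      funext r
      have g1 : ∀ k, h k m' *
          (∫ p, t (m' + r) * conj (θ p (m' + r)) * (conj (h k m') * θ p m') ∂ρ) =
          (h k m' * conj (h k m')) * f (r + m') := by
        intro k
        rw [hf]
        simp only
        have : (∫ p, t (m' + r) * conj (θ p (m' + r)) * (conj (h k m') * θ p m') ∂ρ) =
            ∫ p, (t (r + m') * conj (h k m')) * (θ p m' * conj (θ p (r + m'))) ∂ρ := by
          congr 1
          funext p
          rw [add_comm m' r]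
          ring
        rw [this, integral_const_mul]
        ring
      rw [Finset.sum_congr rfl fun k _ => g1 k, ← Finset.sum_mul, hone, one_mul]
    rw [e1, e2, e5, e6, e7]
    rw [𝔪.finset_sum Finset.univ (fun k => h k m')
      (fun k r => ∫ p, t (m' + r) * conj (θ p (m' + r)) * (conj (h k m') * θ p m') ∂ρ)
      (fun k _ => hbdI k m')]
  -- domination
  have hdom : ∀ k, Dom (S k) (Q k) := by
    intro k c K hK hs
    have e1 : (c.sum fun m z => z * Q k m) = 𝔪.toFun (fun r => ∑ m ∈ c.support, c m *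
        (∫ p, t (m + r) * conj (θ p (m + r)) * (conj (h k m) * θ p m) ∂ρ)) := by
      rw [𝔪.finset_sum c.support (fun m => c m)
        (fun m r => ∫ p, t (m + r) * conj (θ p (m + r)) * (conj (h k m) * θ p m) ∂ρ)
        (fun m _ => hbdI k m)]
      rfl
    rw [e1]
    refine 𝔪.bound _ _ fun r => ?_
    have e2 : ∑ m ∈ c.support, c m *
        (∫ p, t (m + r) * conj (θ p (m + r)) * (conj (h k m) * θ p m) ∂ρ) =
        ∫ p, ∑ m ∈ c.support, c m *
          (t (m + r) * conj (θ p (m + r)) * (conj (h k m) * θ p m)) ∂ρ := by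
      rw [integral_finsetSum]
      · refine Finset.sum_congr rfl fun m _ => ?_
        rw [integral_const_mul]
      · intro m _
        exact (corea_int ρ θ hθm hb _ _ _ _).const_mul _
    rw [e2]
    have e3 := norm_integral_le_of_norm_le_const (μ := ρ)
      (f := fun p => ∑ m ∈ c.support, c m *
          (t (m + r) * conj (θ p (m + r)) * (conj (h k m) * θ p m)))
      (C := K) (Filter.Eventually.of_forall fun p => hs _ (h4 k p r))
    simpa using e3
  have hfin : DecNull A (fun m => ∑ k, h k m * Q k m) :=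
    DecNull.sum hA Finset.univ fun k _ => DecNull.amul hA (h1 k) (h3 k _ (hdom k))
  have : (fun m => ∫ p, (D : P → ℂ) p * θ p m ∂ρ) = fun m => ∑ k, h k m * Q k m := by
    funext m
    exact hS m
  rw [this]
  exact hfin

end Pool.Agent.Nil820

end

/-! ### Part `Bary2` -/

section

/-! # Piece BARY2: Riesz-Markov-Kakutani on compact spaces -/

open scoped ComplexConjugate Topology
open MeasureTheory

namespace Pool.Agent.Nil820

/-- **BARY2.** Riesz-Markov-Kakutani on a compact space, in the form used below.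

Proof. `RealRMK.rieszMeasure`, `RealRMK.integral_rieszMeasure` (for `C_c(Q, ℝ)`); on a compact
space `CompactlySupportedContinuousMap` and `ContinuousMap` are the same
(`CompactlySupportedContinuousMap.continuousMapEquiv`). `Φ 1 = 1` gives a probability measure. -/
theorem exists_measure_of_functional {Q : Type} [TopologicalSpace Q] [CompactSpace Q] [T2Space Q]
    [MeasurableSpace Q] [BorelSpace Q]
    (Φ : C(Q, ℝ) →ₗ[ℝ] ℝ) (hpos : ∀ f, (∀ q, 0 ≤ f q) → 0 ≤ Φ f) (h1 : Φ 1 = 1) :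
    ∃ (ρ : Measure Q) (_ : IsProbabilityMeasure ρ), ∀ f : C(Q, ℝ), ∫ q, f q ∂ρ = Φ f := by
  let Λ : CompactlySupportedContinuousMap Q ℝ →ₚ[ℝ] ℝ :=
    PositiveLinearMap.mk₀
      { toFun := fun g => Φ g.toContinuousMap
        map_add' := fun g g' => map_add Φ g.toContinuousMap g'.toContinuousMap
        map_smul' := fun c g => map_smul Φ c g.toContinuousMap }
      (fun g hg => hpos g.toContinuousMap fun q => hg q)
  have key : ∀ f : C(Q, ℝ), ∫ q, f q ∂(RealRMK.rieszMeasure Λ) = Φ f := by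
    intro f
    exact RealRMK.integral_rieszMeasure Λ ⟨f, HasCompactSupport.of_compactSpace f⟩
  refine ⟨RealRMK.rieszMeasure Λ, ?_, key⟩
  constructor
  have h2 := key 1
  rw [h1] at h2
  have h3 : ∫ q, (1 : C(Q, ℝ)) q ∂(RealRMK.rieszMeasure Λ) =
      ((RealRMK.rieszMeasure Λ) Set.univ).toReal := by
    simp [Measure.real]
  rw [h3] at h2
  rw [← ENNReal.ofReal_toReal (measure_ne_top (RealRMK.rieszMeasure Λ) Set.univ), h2]
  simp

end Pool.Agent.Nil820

end

/-! ### Part `Bary3` -/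

section

/-! # Piece BARY3: barycentric representation -/

open scoped ComplexConjugate Topology
open MeasureTheory

namespace Pool.Agent.Nil820

/-- **BARY3.** A sequence in the hull of a compact family is `∫ α θ_λ dρ(α, λ)`.

Proof. `P = Q = Λ × closedBall (0 : ℂ) 1` (compact Hausdorff) with its Borel σ-algebra
(`borel Q`, `⟨rfl⟩ : BorelSpace Q`), `lam = Prod.fst`, `α q = (q.2 : ℂ)`, both continuous. Combine
`exists_functional` and `exists_measure_of_functional`; real and imaginary parts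
(`integral_re_add_im`, or `integral_re`, `integral_im`; integrability: continuous bounded on a
probability space). -/
theorem exists_bary {Λ : Type} [TopologicalSpace Λ] [CompactSpace Λ] [T2Space Λ] [Nonempty Λ]
    (θ : Λ → ℤ → ℂ) (hθ : ∀ m, Continuous fun l => θ l m) {B : ℤ → ℂ}
    (hB : Dom (Set.range θ) B) :
    ∃ (P : Type) (_ : MeasurableSpace P) (ρ : Measure P) (_ : IsProbabilityMeasure ρ)
      (lam : P → Λ) (α : P → ℂ), (∀ p, ‖α p‖ ≤ 1) ∧ Measurable α ∧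
      (∀ f : C(Λ, ℂ), Measurable fun p => f (lam p)) ∧
      ∀ m, B m = ∫ p, α p * θ (lam p) m ∂ρ := by
  haveI : CompactSpace ↥(Metric.closedBall (0 : ℂ) 1) :=
    isCompact_iff_compactSpace.mp (isCompact_closedBall _ _)
  letI : MeasurableSpace (Λ × ↥(Metric.closedBall (0 : ℂ) 1)) := borel _
  haveI : BorelSpace (Λ × ↥(Metric.closedBall (0 : ℂ) 1)) := ⟨rfl⟩
  obtain ⟨Φ, hpos, h1, hre, him⟩ := exists_functional θ hθ hB
  obtain ⟨ρ, hρ, hint⟩ := exists_measure_of_functional Φ hpos h1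
  have hα : Continuous fun q : Λ × ↥(Metric.closedBall (0 : ℂ) 1) => (q.2 : ℂ) :=
    continuous_subtype_val.comp continuous_snd
  refine ⟨Λ × ↥(Metric.closedBall (0 : ℂ) 1), inferInstance, ρ, hρ, Prod.fst,
    fun q => (q.2 : ℂ), fun q => ?_, hα.measurable,
    fun f => (f.continuous.comp continuous_fst).measurable, fun m => ?_⟩
  · exact mem_closedBall_zero_iff.mp q.2.2
  · have hg : Continuous fun q : Λ × ↥(Metric.closedBall (0 : ℂ) 1) => (q.2 : ℂ) * θ q.1 m :=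
      hα.mul ((hθ m).comp continuous_fst)
    have hi : Integrable (fun q : Λ × ↥(Metric.closedBall (0 : ℂ) 1) => (q.2 : ℂ) * θ q.1 m) ρ :=
      hg.integrable_of_hasCompactSupport (HasCompactSupport.of_compactSpace _)
    have h2 := integral_re_add_im (𝕜 := ℂ) hi
    have e1 : ∫ q, RCLike.re ((q.2 : ℂ) * θ q.1 m) ∂ρ = (B m).re := by
      have h := hint ⟨fun q => ((q.2 : ℂ) * θ q.1 m).re, Complex.continuous_re.comp hg⟩
      rw [hre m _ (fun q => rfl)] at h
      exact h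
    have e2 : ∫ q, RCLike.im ((q.2 : ℂ) * θ q.1 m) ∂ρ = (B m).im := by
      have h := hint ⟨fun q => ((q.2 : ℂ) * θ q.1 m).im, Complex.continuous_im.comp hg⟩
      rw [him m _ (fun q => rfl)] at h
      exact h
    rw [e1, e2] at h2
    rw [← h2]
    exact (Complex.re_add_im (B m)).symm

end Pool.Agent.Nil820

end

/-! ### Part `Core` -/

section

/-! # Piece CORE: the orthogonality argument for compact families -/

open scoped ComplexConjugate Topology
open MeasureTheory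

namespace Pool.Agent.Nil820

section Transform

variable {P : Type} [MeasurableSpace P] {ρ : Measure P} [IsProbabilityMeasure ρ]
  {θ : P → ℤ → ℂ} {C : ℝ}

/-- the class of `p ↦ conj (θ p m)` -/
private theorem memLp_aux (hθm : ∀ m, Measurable fun p => θ p m)
    (hb : ∀ p m, ‖θ p m‖ ≤ C) (m : ℤ) : MemLp (fun p => conj (θ p m)) 2 ρ := by
  refine MemLp.of_bound ?_ C (Filter.Eventually.of_forall fun p => ?_)
  · exact (Complex.continuous_conj.measurable.comp (hθm m)).aestronglyMeasurable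
  · simpa using hb p m

/-- the transform is an inner product -/
private theorem tr_eq (hθm : ∀ m, Measurable fun p => θ p m)
    (hb : ∀ p m, ‖θ p m‖ ≤ C) (m : ℤ) (w : Lp ℂ 2 ρ) :
    ∫ p, (w : P → ℂ) p * θ p m ∂ρ = inner ℂ ((memLp_aux (ρ := ρ) hθm hb m).toLp _) w := by
  rw [MeasureTheory.L2.inner_def]
  apply integral_congr_ae
  filter_upwards [(memLp_aux (ρ := ρ) hθm hb m).coeFn_toLp] with p hp
  rw [hp, RCLike.inner_apply]
  simp

private theorem tr_norm (hθm : ∀ m, Measurable fun p => θ p m)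
    (hb : ∀ p m, ‖θ p m‖ ≤ C) (hC : 0 ≤ C) (m : ℤ) (w : Lp ℂ 2 ρ) :
    ‖∫ p, (w : P → ℂ) p * θ p m ∂ρ‖ ≤ C * ‖w‖ := by
  rw [tr_eq hθm hb m w]
  refine (norm_inner_le_norm _ _).trans (mul_le_mul_of_nonneg_right ?_ (norm_nonneg _))
  have h1 := Lp.norm_le_of_ae_bound (f := (memLp_aux (ρ := ρ) hθm hb m).toLp _) hC (by
    filter_upwards [(memLp_aux (ρ := ρ) hθm hb m).coeFn_toLp] with p hp
    rw [hp]
    simpa using hb p m)
  refine h1.trans (le_of_eq ?_)
  simp [measureUnivNNReal]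

private theorem tr_add (hθm : ∀ m, Measurable fun p => θ p m)
    (hb : ∀ p m, ‖θ p m‖ ≤ C) (m : ℤ) (w w' : Lp ℂ 2 ρ) :
    ∫ p, ((w + w' : Lp ℂ 2 ρ) : P → ℂ) p * θ p m ∂ρ =
      ∫ p, (w : P → ℂ) p * θ p m ∂ρ + ∫ p, (w' : P → ℂ) p * θ p m ∂ρ := by
  simp only [tr_eq hθm hb m, inner_add_right]

private theorem tr_sub (hθm : ∀ m, Measurable fun p => θ p m)
    (hb : ∀ p m, ‖θ p m‖ ≤ C) (m : ℤ) (w w' : Lp ℂ 2 ρ) :
    ∫ p, ((w - w' : Lp ℂ 2 ρ) : P → ℂ) p * θ p m ∂ρ =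
      ∫ p, (w : P → ℂ) p * θ p m ∂ρ - ∫ p, (w' : P → ℂ) p * θ p m ∂ρ := by
  simp only [tr_eq hθm hb m, inner_sub_right]

private theorem tr_smul (hθm : ∀ m, Measurable fun p => θ p m)
    (hb : ∀ p m, ‖θ p m‖ ≤ C) (m : ℤ) (c : ℂ) (w : Lp ℂ 2 ρ) :
    ∫ p, ((c • w : Lp ℂ 2 ρ) : P → ℂ) p * θ p m ∂ρ =
      c * ∫ p, (w : P → ℂ) p * θ p m ∂ρ := by
  simp only [tr_eq hθm hb m, inner_smul_right]

omit [IsProbabilityMeasure ρ] in
private theorem tr_zero (m : ℤ) :
    ∫ p, ((0 : Lp ℂ 2 ρ) : P → ℂ) p * θ p m ∂ρ = 0 := by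
  rw [integral_congr_ae (g := fun _ => (0 : ℂ)), integral_zero]
  filter_upwards [Lp.coeFn_zero ℂ 2 ρ] with p hp
  rw [hp]
  simp

/-- the vectors with decomposable transform -/
private def decSubC {A : Set (ℤ → ℂ)} (hA : SeqAlg A) (hθm : ∀ m, Measurable fun p => θ p m)
    (hb : ∀ p m, ‖θ p m‖ ≤ C) : Submodule ℂ (Lp ℂ 2 ρ) where
  carrier := {w | DecNull A (fun m => ∫ p, (w : P → ℂ) p * θ p m ∂ρ)}
  add_mem' := by
    intro w w' hw hw'
    simp only [Set.mem_ofPred_eq] at hw hw' ⊢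
    simp only [tr_add hθm hb]
    exact DecNull.add hA hw hw'
  zero_mem' := by
    simp only [Set.mem_ofPred_eq, tr_zero]
    exact DecNull.of_mem (hA.const 0)
  smul_mem' := by
    intro c w hw
    simp only [Set.mem_ofPred_eq] at hw ⊢
    simp only [tr_smul hθm hb]
    exact DecNull.cmul hA c hw

private theorem mem_decSubC {A : Set (ℤ → ℂ)} (hA : SeqAlg A)
    (hθm : ∀ m, Measurable fun p => θ p m) (hb : ∀ p m, ‖θ p m‖ ≤ C) (w : Lp ℂ 2 ρ) :
    w ∈ decSubC (ρ := ρ) hA hθm hb ↔ DecNull A (fun m => ∫ p, (w : P → ℂ) p * θ p m ∂ρ) :=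
  Iff.rfl

private theorem decSubC_closed {A : Set (ℤ → ℂ)} (hA : SeqAlg A)
    (hθm : ∀ m, Measurable fun p => θ p m) (hb : ∀ p m, ‖θ p m‖ ≤ C) (hC : 0 ≤ C) :
    IsClosed ((decSubC (ρ := ρ) hA hθm hb : Submodule ℂ (Lp ℂ 2 ρ)) : Set (Lp ℂ 2 ρ)) := by
  rw [← closure_subset_iff_isClosed]
  intro w hw
  rw [SetLike.mem_coe, mem_decSubC]
  refine DecNull.of_close hA fun ε hε => ?_
  rw [Metric.mem_closure_iff] at hw
  obtain ⟨w', hw', hd⟩ := hw (ε / (C + 1)) (by positivity)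
  refine ⟨_, (mem_decSubC hA hθm hb w').1 hw', fun m => ?_⟩
  rw [← tr_sub hθm hb]
  refine (tr_norm hθm hb hC m _).trans ?_
  rw [dist_eq_norm] at hd
  calc C * ‖w - w'‖ ≤ C * (ε / (C + 1)) := mul_le_mul_of_nonneg_left hd.le hC
    _ = (C / (C + 1)) * ε := by ring
    _ ≤ 1 * ε := by
        apply mul_le_mul_of_nonneg_right _ hε.le
        rw [div_le_one (by positivity)]
        linarith
    _ = ε := one_mul _

/-- the Riesz vector of the correlation with `t` for the mean `𝔪` -/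
private theorem exists_dual (hθm : ∀ m, Measurable fun p => θ p m)
    (hb : ∀ p m, ‖θ p m‖ ≤ C) (hC : 0 ≤ C) (𝔪 : InvMean) (t : ℤ → ℂ) (ht : ∀ m, ‖t m‖ ≤ C) :
    ∃ D : Lp ℂ 2 ρ, ∀ w : Lp ℂ 2 ρ, inner ℂ D w =
      𝔪.toFun (fun m => (∫ p, (w : P → ℂ) p * θ p m ∂ρ) * conj (t m)) := by
  have hbd : ∀ w : Lp ℂ 2 ρ, ∀ m,
      ‖(∫ p, (w : P → ℂ) p * θ p m ∂ρ) * conj (t m)‖ ≤ C * C * ‖w‖ := by
    intro w m
    rw [norm_mul, RCLike.norm_conj]
    calc ‖∫ p, (w : P → ℂ) p * θ p m ∂ρ‖ * ‖t m‖ ≤ (C * ‖w‖) * C :=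
          mul_le_mul (tr_norm hθm hb hC m w) (ht m) (norm_nonneg _) (by positivity)
      _ = C * C * ‖w‖ := by ring
  let L : Lp ℂ 2 ρ →ₗ[ℂ] ℂ :=
    { toFun := fun w => 𝔪.toFun (fun m => (∫ p, (w : P → ℂ) p * θ p m ∂ρ) * conj (t m))
      map_add' := by
        intro w w'
        rw [← 𝔪.add _ _ ⟨_, hbd w⟩ ⟨_, hbd w'⟩]
        congr 1
        funext m
        rw [tr_add hθm hb, add_mul]
      map_smul' := by
        intro c w
        rw [RingHom.id_apply, smul_eq_mul, ← 𝔪.smul c _ ⟨_, hbd w⟩]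
        congr 1
        funext m
        rw [tr_smul hθm hb, mul_assoc] }
  let L' : Lp ℂ 2 ρ →L[ℂ] ℂ := L.mkContinuous (C * C) fun w => 𝔪.bound _ _ (hbd w)
  refine ⟨(InnerProductSpace.toDual ℂ (Lp ℂ 2 ρ)).symm L', fun w => ?_⟩
  rw [InnerProductSpace.toDual_symm_apply]
  rfl

end Transform

/-- **CORE.** Let `θ` be a compact family. Suppose that for every `l₀` there are a finite
unit vector `h = (h_k)` of elements of `A` and sets `S k` whose hulls decompose, such that all the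
fourfold products
`m ↦ θ_{l₀}(m + r) * conj θ_l(m + r) * (conj h_k(m) * θ_l(m))` belong to `S k`. Then the hull of
the family decomposes.

Proof. If `Λ` is empty, `Dom ∅ B` forces `B = 0` (`c = single m 1`, `K = 0`). Otherwise take
`P, ρ, lam, α` from `exists_bary`; write `θ' p m` for `θ (lam p) m`, bounded by `C` and measurable
in `p` (it is `f (lam p)` for the continuous function `f = θ · m`).
For `w ∈ L²(ρ) = Lp ℂ 2 ρ` put `S w m = ∫ w(p) θ' p m dρ`, linear in `w` with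
`‖S w m‖ ≤ C ‖w‖` (it is the inner product with the class of `p ↦ conj (θ' p m)`). Let
`W = {w | DecNull A (S w)}`; it is a submodule (`DecNull.add`, `DecNull.cmul`) and closed
(`DecNull.of_close` and `‖S w m - S w' m‖ ≤ C ‖w - w'‖`). The theorem is `α ∈ W` (as
`B = S α`, `α` bounded measurable, `MemLp.toLp`, `MemLp.coeFn_toLp`).

Let `w ∈ Wᗮ`. For `p₀ : P` and an invariant mean `𝔪` let `D` be the Riesz vector
(`InnerProductSpace.toDual`, `LinearMap.mkContinuous`) of the bounded linear functional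
`w ↦ 𝔪_m (S w m * conj (θ' p₀ m))` (norm `≤ C²`). `core_a` (with `t = θ' p₀ = θ_{l₀}`,
`l₀ = lam p₀`, and `H l₀`) gives `D ∈ W`, so `𝔪_m (S w m * conj (θ' p₀ m)) = ⟪D, w⟫ = 0`; as `𝔪` is
arbitrary, `uzero_iff_mean` gives `UZero (fun m => S w m * conj (θ' p₀ m))` for every `p₀`, and
`core_b` gives `UNull (S w)`, so `w ∈ W` (`DecNull` with `N = 0`, `hA.const 0`).
Hence `Wᗮ ≤ W`, `Wᗮ = ⊥`, and `W = ⊤` because `W` is closed
(`Submodule.orthogonal_eq_bot_iff` for complete subspaces). -/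
theorem core {A : Set (ℤ → ℂ)} (hA : SeqAlg A) {Λ : Type} [TopologicalSpace Λ] [CompactSpace Λ]
    [T2Space Λ] (θ : Λ → ℤ → ℂ) (hθ : ∀ m, Continuous fun l => θ l m)
    (hb : ∃ C : ℝ, ∀ l m, ‖θ l m‖ ≤ C)
    (H : ∀ l₀ : Λ, ∃ (d : ℕ) (h : Fin d → ℤ → ℂ) (S : Fin d → Set (ℤ → ℂ)),
      (∀ k, h k ∈ A) ∧ (∀ m, ∑ k, ‖h k m‖ ^ 2 = 1) ∧ (∀ k B, Dom (S k) B → DecNull A B) ∧
      ∀ k (l : Λ) (r : ℤ),
        (fun m => θ l₀ (m + r) * conj (θ l (m + r)) * (conj (h k m) * θ l m)) ∈ S k)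
    {B : ℤ → ℂ} (hB : Dom (Set.range θ) B) : DecNull A B := by
  rcases isEmpty_or_nonempty Λ with hΛ | hΛ
  · have hB0 : B = fun _ => 0 := by
      funext m
      have := hB (Finsupp.single m 1) 0 le_rfl (by
        rintro s ⟨l, -⟩
        exact hΛ.elim l)
      simpa using this
    rw [hB0]
    exact DecNull.of_mem (hA.const 0)
  obtain ⟨P, mP, ρ, hρ, lam, α, hα1, hαm, hf, hBα⟩ := exists_bary θ hθ hB
  obtain ⟨C, hCb⟩ := hb
  have hC : 0 ≤ C := (norm_nonneg _).trans (hCb (Classical.arbitrary Λ) 0)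
  have hθm : ∀ m, Measurable fun p => θ (lam p) m := fun m => hf ⟨fun l => θ l m, hθ m⟩
  have hb' : ∀ p m, ‖θ (lam p) m‖ ≤ C := fun p m => hCb _ _
  set W : Submodule ℂ (Lp ℂ 2 ρ) :=
    decSubC (ρ := ρ) (θ := fun p => θ (lam p)) hA hθm hb' with hW
  have hWc : IsClosed (W : Set (Lp ℂ 2 ρ)) := decSubC_closed hA hθm hb' hC
  have hWp : Wᗮ ≤ W := by
    intro w hw
    rw [hW, mem_decSubC]
    refine DecNull.of_null hA (core_b ρ (fun p => θ (lam p)) hθm hb' w fun p₀ => ?_)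
    have hbd : Bdd (fun m => (∫ p, (w : P → ℂ) p * θ (lam p) m ∂ρ) * conj (θ (lam p₀) m)) := by
      refine ⟨C * ‖w‖ * C, fun m => ?_⟩
      rw [norm_mul, RCLike.norm_conj]
      exact mul_le_mul (tr_norm (θ := fun p => θ (lam p)) hθm hb' hC m w) (hb' p₀ m)
        (norm_nonneg _) (by positivity)
    rw [uzero_iff_mean hbd]
    intro 𝔪
    obtain ⟨D, hD⟩ := exists_dual (ρ := ρ) (θ := fun p => θ (lam p)) hθm hb' hC 𝔪
      (fun m => θ (lam p₀) m) (fun m => hb' p₀ m)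
    obtain ⟨d, h, S, h1, h2, h3, h4⟩ := H (lam p₀)
    have hDW : D ∈ W := by
      rw [hW, mem_decSubC]
      exact core_a hA ρ (fun p => θ (lam p)) hθm hb' (fun m => θ (lam p₀) m)
        ⟨C, fun m => hb' p₀ m⟩ d h S h1 h2 h3 (fun k p r => h4 k (lam p) r) 𝔪 D hD
    rw [← hD w]
    exact (Submodule.mem_orthogonal W w).1 hw D hDW
  have hWtop : W = ⊤ := by
    have : CompleteSpace W := hWc.completeSpace_coe
    rw [← Submodule.orthogonal_eq_bot_iff]
    rw [eq_bot_iff]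
    intro w hw
    have : inner ℂ w w = 0 := (Submodule.mem_orthogonal W w).1 hw w (hWp hw)
    rw [Submodule.mem_bot]
    exact inner_self_eq_zero.1 this
  have hαL : MemLp α 2 ρ :=
    MemLp.of_bound hαm.aestronglyMeasurable 1 (Filter.Eventually.of_forall hα1)
  have hmem : hαL.toLp α ∈ W := by rw [hWtop]; trivial
  rw [hW, mem_decSubC] at hmem
  convert hmem using 2 with m
  rw [hBα m]
  apply integral_congr_ae
  filter_upwards [hαL.coeFn_toLp] with p hp
  rw [hp]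

end Pool.Agent.Nil820

end

/-! ### Part `NilProd` -/

section

/-! # Piece NILPROD: products of filtered groups and of families -/

open scoped ComplexConjugate Topology

namespace Pool.Agent.Nil820

/-- **NILPROD1.** Componentwise; `cocpt`: the product of the two compact sets. -/
theorem NilData.prod {G H : Type} [Group G] [TopologicalSpace G] [Group H] [TopologicalSpace H]
    {fil : ℕ → Subgroup G} {Γ : Subgroup G} {fil' : ℕ → Subgroup H} {Γ' : Subgroup H}
    (h : NilData fil Γ) (h' : NilData fil' Γ') :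
    NilData (fun i => (fil i).prod (fil' i)) (Γ.prod Γ') := by
  refine ⟨?_, ?_, ?_, ?_, ?_, ?_⟩
  · show (fil 0).prod (fil' 0) = ⊤
    rw [h.zero, h'.zero, Subgroup.top_prod_top]
  · show (fil 1).prod (fil' 1) = ⊤
    rw [h.one, h'.one, Subgroup.top_prod_top]
  · intro i
    exact Subgroup.prod_mono (h.anti i) (h'.anti i)
  · intro i
    have := h.normal i
    have := h'.normal i
    show ((fil i).prod (fil' i)).Normal
    exact Subgroup.prod_normal _ _
  · intro i l a ha b hb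
    rw [Subgroup.mem_prod] at ha hb ⊢
    exact ⟨h.comm i l _ ha.1 _ hb.1, h'.comm i l _ ha.2 _ hb.2⟩
  · intro i
    obtain ⟨K, hK, hK1, hK2⟩ := h.cocpt i
    obtain ⟨K', hK', hK1', hK2'⟩ := h'.cocpt i
    refine ⟨K ×ˢ K', hK.prod hK', ?_, ?_⟩
    · rintro ⟨a, b⟩ ⟨ha, hb⟩
      exact Subgroup.mem_prod.2 ⟨hK1 ha, hK1' hb⟩
    · intro c hc
      rw [Subgroup.mem_prod] at hc
      obtain ⟨k, hk, γ, hγ, hγ2, e⟩ := hK2 _ hc.1
      obtain ⟨k', hk', γ', hγ', hγ2', e'⟩ := hK2' _ hc.2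
      exact ⟨(k, k'), ⟨hk, hk'⟩, (γ, γ'), Subgroup.mem_prod.2 ⟨hγ, hγ'⟩,
        Subgroup.mem_prod.2 ⟨hγ2, hγ2'⟩, Prod.ext e e'⟩

/-- **NILPROD2.** The family `(x₁, x₂) ↦ P x₁ * conj (Q κ x₂)` over the product, with the
translations `(g κ₀, g κ)`. `adapt`: the sequence is the product of `m ↦ P (v₁ g(κ₀)^m x₁)` and the
conjugate of `m ↦ Q κ' (v₂ g(κ)^m x₂)` (`hA.mul`, `hA.cj`); powers in a product group are
componentwise (`Prod.pow_fst`, `Prod.fst_zpow`...). -/
theorem NilFam.pair {G : Type} [Group G] [TopologicalSpace G]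
    {fil : ℕ → Subgroup G} {Γ : Subgroup G} {𝒦 : Type} [TopologicalSpace 𝒦] {g : 𝒦 → G}
    {Q : 𝒦 → G → ℂ} {j : ℕ} {A : Set (ℤ → ℂ)} (hA : SeqAlg A) (hQ : NilFam fil Γ g Q j A)
    (κ₀ : 𝒦) {P : G → ℂ} (h1 : Continuous P) (h2 : ∀ x γ, γ ∈ Γ → P (x * γ) = P x)
    (h3 : ∀ x c, c ∈ fil (j + 1) → P (x * c) = P x)
    (h4 : ∀ v x, (fun m : ℤ => P (v * (g κ₀) ^ m * x)) ∈ A) :
    NilFam (fun i => (fil i).prod (fil i)) (Γ.prod Γ) (fun κ => (g κ₀, g κ))
      (fun κ (x : G × G) => P x.1 * conj (Q κ x.2)) j A := by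
  refine ⟨?_, ?_, ?_, ?_, ?_⟩
  · exact continuous_const.prodMk hQ.contg
  · have e1 : Continuous (fun p : 𝒦 × (G × G) => P p.2.1) :=
      h1.comp (continuous_fst.comp continuous_snd)
    have e2 : Continuous (fun p : 𝒦 × (G × G) => Q p.1 p.2.2) :=
      hQ.contF.comp (continuous_fst.prodMk (continuous_snd.comp continuous_snd))
    exact e1.mul (Complex.continuous_conj.comp e2)
  · rintro κ x γ hγ
    rw [Subgroup.mem_prod] at hγ
    show P (x.1 * γ.1) * conj (Q κ (x.2 * γ.2)) = P x.1 * conj (Q κ x.2)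
    rw [h2 _ _ hγ.1, hQ.right _ _ _ hγ.2]
  · rintro κ x c hc
    rw [Subgroup.mem_prod] at hc
    show P (x.1 * c.1) * conj (Q κ (x.2 * c.2)) = P x.1 * conj (Q κ x.2)
    rw [h3 _ _ hc.1, hQ.deg _ _ _ hc.2]
  · intro κ κ' v x
    exact hA.mul _ (h4 v.1 x.1) _ (hA.cj _ (hQ.adapt κ κ' v.2 x.2))

/-- **NILPROD3.** The vertical character of the product family is `χ' (c₁, c₂) = χ c₁ * conj (χ c₂)`
(computation). -/
theorem VertChar.pair {G : Type} [Group G]
    {fil : ℕ → Subgroup G} {𝒦 : Type} {Q : 𝒦 → G → ℂ} {j : ℕ} {χ : G → ℂ}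
    (hQ : VertChar fil Q j χ) {P : G → ℂ} (hP : ∀ x, ∀ c ∈ fil j, P (x * c) = χ c * P x) :
    VertChar (fun i => (fil i).prod (fil i)) (fun κ (x : G × G) => P x.1 * conj (Q κ x.2)) j
      (fun c : G × G => χ c.1 * conj (χ c.2)) := by
  refine ⟨?_, ?_⟩
  · intro c hc
    rw [Subgroup.mem_prod] at hc
    show ‖χ c.1 * conj (χ c.2)‖ = 1
    rw [norm_mul, RCLike.norm_conj, hQ.1 _ hc.1, hQ.1 _ hc.2, one_mul]
  · intro κ x c hc
    rw [Subgroup.mem_prod] at hc
    show P (x.1 * c.1) * conj (Q κ (x.2 * c.2)) = χ c.1 * conj (χ c.2) * (P x.1 * conj (Q κ x.2))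
    rw [hP _ _ hc.1, hQ.2 _ _ _ hc.2, map_mul]
    ring

end Pool.Agent.Nil820

end

/-! ### Part `DerFam` -/

section

/-! # Piece DERFAM: the derived family -/

open scoped ComplexConjugate Topology

namespace Pool.Agent.Nil820

/-- the translations `(k⁻¹ g_κ k, g_κ)` of the derived family -/
def derg {G : Type} [Group G] [TopologicalSpace G]
    {fil : ℕ → Subgroup G} {Γ : Subgroup G} (h : NilData fil Γ) {𝒦 : Type} (g : 𝒦 → G) {K : Set G}
    (p : 𝒦 × ↥K) : ↥(derG (fil 2) (h.normal 2)) :=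
  ⟨((p.2 : G)⁻¹ * g p.1 * p.2, g p.1), by
    have h1 : ∀ x : G, x ∈ fil 1 := fun x => by rw [h.one]; trivial
    have h2 := h.comm 1 1 (p.2 : G)⁻¹ (h1 _) (g p.1) (h1 _)
    change (p.2 : G)⁻¹ * g p.1 * p.2 * (g p.1)⁻¹ ∈ fil 2
    simpa using h2⟩

/-- the functions `Z ((κ, k), (u, v)) = X κ (k u) * conj (Y κ v)` of the derived family -/
def derF {G : Type} [Group G] (N : Subgroup G) (hN : N.Normal) {𝒦 : Type} (X Y : 𝒦 → G → ℂ)
    {K : Set G} (p : 𝒦 × ↥K) (x : ↥(derG N hN)) : ℂ :=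
  X p.1 ((p.2 : G) * x.1.1) * conj (Y p.1 x.1.2)

/-- **DERFAM1.** The derived family has degree `j` if `X` and `Y` have degree `j + 1` and the same
vertical character at level `j + 1`.

Proof.
* `contg`, `contF`: compositions of continuous maps.
* `right`: `(γ₁, γ₂) ∈ derΓ` has `γ₁, γ₂ ∈ Γ`.
* `deg`: let `(c₁, c₂) ∈ derFil (j+1)`, so `c₁, c₂ ∈ fil (j+1)`, `c₁ c₂⁻¹ ∈ fil (j+2)`, so
  `c₁ = c₂ c''` with `c'' ∈ fil (j+2)` (normal). `X κ (k u c₁) = X κ (k u c₂)` (`hX.deg`)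
  `= χ c₂ * X κ (k u)`, `Y κ (v c₂) = χ c₂ * Y κ v`, and `χ c₂ * conj (χ c₂) = ‖χ c₂‖² = 1`.
* `adapt`: for `(κ', k')`, `v' = (v₁, v₂)`, `x' = (x₁, x₂)` the sequence is
  `X κ' (k' v₁ (k⁻¹ g_κ k)^m x₁) * conj (Y κ' (v₂ g_κ^m x₂))` and `(k⁻¹ g_κ k)^m = k⁻¹ g_κ^m k`,
  so the first factor is `X κ' ((k' v₁ k⁻¹) g_κ^m (k x₁))`: `hX.adapt`, `hY.adapt`, `hA.cj`,
  `hA.mul`. -/
theorem NilFam.der {G : Type} [Group G] [TopologicalSpace G] [IsTopologicalGroup G]
    {fil : ℕ → Subgroup G} {Γ : Subgroup G} (h : NilData fil Γ) {𝒦 : Type} [TopologicalSpace 𝒦]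
    {g : 𝒦 → G} {X Y : 𝒦 → G → ℂ} {j : ℕ} {A : Set (ℤ → ℂ)} (hA : SeqAlg A)
    (hX : NilFam fil Γ g X (j + 1) A) (hY : NilFam fil Γ g Y (j + 1) A) {χ : G → ℂ}
    (hχX : VertChar fil X (j + 1) χ) (hχY : VertChar fil Y (j + 1) χ) (K : Set G) :
    NilFam (derFil fil h.normal) (derΓ fil h.normal Γ) (derg h g (K := K))
      (derF (fil 2) (h.normal 2) X Y) j A where
  contg := by
    refine Continuous.subtype_mk (Continuous.prodMk ?_ ?_) _
    · exact ((continuous_subtype_val.comp continuous_snd).inv.mul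
        (hX.contg.comp continuous_fst)).mul (continuous_subtype_val.comp continuous_snd)
    · exact hX.contg.comp continuous_fst
  contF := by
    refine Continuous.mul ?_ ?_
    · exact hX.contF.comp (Continuous.prodMk (continuous_fst.comp continuous_fst)
        ((continuous_subtype_val.comp (continuous_snd.comp continuous_fst)).mul
          (continuous_fst.comp (continuous_subtype_val.comp continuous_snd))))
    · exact Complex.continuous_conj.comp (hY.contF.comp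
        (Continuous.prodMk (continuous_fst.comp continuous_fst)
          (continuous_snd.comp (continuous_subtype_val.comp continuous_snd))))
  right := by
    intro κ x γ hγ
    have h1 : γ.1.1 ∈ Γ ∧ γ.1.2 ∈ Γ := hγ
    show X κ.1 ((κ.2 : G) * (x.1.1 * γ.1.1)) * conj (Y κ.1 (x.1.2 * γ.1.2)) =
      X κ.1 ((κ.2 : G) * x.1.1) * conj (Y κ.1 x.1.2)
    rw [← mul_assoc, hX.right _ _ _ h1.1, hY.right _ _ _ h1.2]
  deg := by
    intro κ x c hc
    have h1 : (c.1.1 ∈ fil (j + 1) ∧ c.1.2 ∈ fil (j + 1)) ∧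
        c.1.1 * (c.1.2)⁻¹ ∈ fil (j + 1 + 1) := hc
    obtain ⟨⟨h2, h3⟩, h4⟩ := h1
    have h5 : (c.1.2)⁻¹ * c.1.1 ∈ fil (j + 1 + 1) := by
      have h6 := (h.normal (j + 1 + 1)).conj_mem _ h4 (c.1.2)⁻¹
      have h7 : (c.1.2)⁻¹ * (c.1.1 * (c.1.2)⁻¹) * (c.1.2)⁻¹⁻¹ = (c.1.2)⁻¹ * c.1.1 := by group
      rw [h7] at h6
      exact h6
    have h8 : X κ.1 ((κ.2 : G) * (x.1.1 * c.1.1)) = χ c.1.2 * X κ.1 ((κ.2 : G) * x.1.1) := by
      have h9 : (κ.2 : G) * (x.1.1 * c.1.1) =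
          ((κ.2 : G) * x.1.1 * c.1.2) * ((c.1.2)⁻¹ * c.1.1) := by group
      rw [h9, hX.deg _ _ _ h5, hχX.2 _ _ _ h3]
    show X κ.1 ((κ.2 : G) * (x.1.1 * c.1.1)) * conj (Y κ.1 (x.1.2 * c.1.2)) =
      X κ.1 ((κ.2 : G) * x.1.1) * conj (Y κ.1 x.1.2)
    rw [h8, hχY.2 _ _ _ h3, map_mul]
    have h10 : χ c.1.2 * conj (χ c.1.2) = 1 := by
      rw [Complex.mul_conj, Complex.normSq_eq_norm_sq, hχX.1 _ h3]
      norm_num
    calc χ c.1.2 * X κ.1 ((κ.2 : G) * x.1.1) * (conj (χ c.1.2) * conj (Y κ.1 x.1.2))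
        = (χ c.1.2 * conj (χ c.1.2)) * (X κ.1 ((κ.2 : G) * x.1.1) * conj (Y κ.1 x.1.2)) := by ring
      _ = X κ.1 ((κ.2 : G) * x.1.1) * conj (Y κ.1 x.1.2) := by rw [h10, one_mul]
  adapt := by
    intro κ κ' v x
    have h1 := hA.mul _ (hX.adapt κ.1 κ'.1 ((κ'.2 : G) * v.1.1 * (κ.2 : G)⁻¹) ((κ.2 : G) * x.1.1))
      _ (hA.cj _ (hY.adapt κ.1 κ'.1 v.1.2 x.1.2))
    have h2 : (fun m : ℤ => derF (fil 2) (h.normal 2) X Y κ' (v * (derg h g κ) ^ m * x)) =
        fun m : ℤ => X κ'.1 ((κ'.2 : G) * v.1.1 * (κ.2 : G)⁻¹ * (g κ.1) ^ m *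
          ((κ.2 : G) * x.1.1)) * conj (Y κ'.1 (v.1.2 * (g κ.1) ^ m * x.1.2)) := by
      funext m
      have h3 : ((v * (derg h g κ) ^ m * x : ↥(derG (fil 2) (h.normal 2))) : G × G) =
          (v.1.1 * ((κ.2 : G)⁻¹ * (g κ.1) ^ m * (κ.2 : G)) * x.1.1,
            v.1.2 * (g κ.1) ^ m * x.1.2) := by
        have h4 : (((derg h g κ) ^ m : ↥(derG (fil 2) (h.normal 2))) : G × G) =
            ((κ.2 : G)⁻¹ * (g κ.1) ^ m * (κ.2 : G), (g κ.1) ^ m) := by
          rw [Subgroup.coe_zpow]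
          refine Prod.ext ?_ ?_
          · rw [Prod.pow_fst]
            show ((κ.2 : G)⁻¹ * g κ.1 * (κ.2 : G)) ^ m = (κ.2 : G)⁻¹ * (g κ.1) ^ m * (κ.2 : G)
            have h5 := conj_zpow (i := m) (a := (κ.2 : G)⁻¹) (b := g κ.1)
            rw [inv_inv] at h5
            exact h5
          · rw [Prod.pow_snd]
            rfl
        rw [Subgroup.coe_mul, Subgroup.coe_mul, h4]
        rfl
      show X κ'.1 ((κ'.2 : G) * (v * (derg h g κ) ^ m * x :
        ↥(derG (fil 2) (h.normal 2))).1.1) * conj (Y κ'.1 (v * (derg h g κ) ^ m * x :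
        ↥(derG (fil 2) (h.normal 2))).1.2) = _
      rw [h3]
      simp only [mul_assoc]
    rw [h2]
    exact h1

/-- **DERFAM2.** The member identity. Proof: write `g_κ^r = k γ` with `k ∈ K`, `γ ∈ Γ`; take the
parameter `(κ, k)` and the point `x' = (γ x γ⁻¹, x)` (`γ x γ⁻¹ x⁻¹ ∈ fil 2` by `h.comm 1 1`). Then
`X κ (k (k⁻¹ g_κ k)^m γ x γ⁻¹) = X κ (g_κ^m k γ x γ⁻¹) = X κ (g_κ^(m+r) x γ⁻¹) = X κ (g_κ^(m+r) x)`
by right invariance. -/
theorem der_member {G : Type} [Group G] [TopologicalSpace G]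
    {fil : ℕ → Subgroup G} {Γ : Subgroup G} (h : NilData fil Γ) {𝒦 : Type}
    {g : 𝒦 → G} {X Y : 𝒦 → G → ℂ} (hX : ∀ κ x γ, γ ∈ Γ → X κ (x * γ) = X κ x) {K : Set G}
    (hK : ∀ c : G, ∃ k ∈ K, ∃ γ ∈ Γ, c = k * γ) (κ : 𝒦) (x : G) (r : ℤ) :
    (fun m : ℤ => X κ ((g κ) ^ (m + r) * x) * conj (Y κ ((g κ) ^ m * x))) ∈
      famSet (derg h g (K := K)) (derF (fil 2) (h.normal 2) X Y) := by
  obtain ⟨k, hk, γ, hγ, e⟩ := hK ((g κ) ^ r)
  have h1 : ∀ y : G, y ∈ fil 1 := fun y => by rw [h.one]; trivial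
  have hm : γ * x * γ⁻¹ * x⁻¹ ∈ fil 2 := h.comm 1 1 γ (h1 _) x (h1 _)
  refine ⟨(κ, ⟨k, hk⟩), ⟨(γ * x * γ⁻¹, x), hm⟩, ?_⟩
  funext m
  have h4 : (((derg h g (K := K) (κ, ⟨k, hk⟩)) ^ m : ↥(derG (fil 2) (h.normal 2))) : G × G) =
      (k⁻¹ * (g κ) ^ m * k, (g κ) ^ m) := by
    rw [Subgroup.coe_zpow]
    refine Prod.ext ?_ ?_
    · rw [Prod.pow_fst]
      show (k⁻¹ * g κ * k) ^ m = k⁻¹ * (g κ) ^ m * k
      have h5 := conj_zpow (i := m) (a := k⁻¹) (b := g κ)
      rw [inv_inv] at h5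
      exact h5
    · rw [Prod.pow_snd]
      rfl
  show X κ ((g κ) ^ (m + r) * x) * conj (Y κ ((g κ) ^ m * x)) =
    X κ (k * ((((derg h g (K := K) (κ, ⟨k, hk⟩)) ^ m : ↥(derG (fil 2) (h.normal 2))) :
      G × G).1 * (γ * x * γ⁻¹))) * conj (Y κ ((((derg h g (K := K) (κ, ⟨k, hk⟩)) ^ m :
      ↥(derG (fil 2) (h.normal 2))) : G × G).2 * x))
  rw [h4]
  have h6 : k * (k⁻¹ * (g κ) ^ m * k * (γ * x * γ⁻¹)) = (g κ) ^ (m + r) * x * γ⁻¹ := by
    rw [zpow_add, e]
    group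
  rw [h6, hX _ _ _ (Γ.inv_mem hγ)]

end Pool.Agent.Nil820

end

/-! ### Part `Clos4` -/

section

/-! # Piece CLOS4: inverse square roots in A -/

open scoped ComplexConjugate Topology

namespace Pool.Agent.Nil820

theorem clos4_poly {A : Set (ℤ → ℂ)} (hA : SeqAlg A) {n : ℤ → ℝ}
    (hn : (fun m => ((n m : ℝ) : ℂ)) ∈ A) (P : Polynomial ℝ) :
    (fun m => ((P.eval (n m) : ℝ) : ℂ)) ∈ A := by
  induction P using Polynomial.induction_on with
  | C a =>
    simp only [Polynomial.eval_C]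
    exact hA.const _
  | add p q hp hq =>
    simp only [Polynomial.eval_add, Complex.ofReal_add]
    exact hA.add _ hp _ hq
  | monomial k a ih =>
    have e : ∀ x : ℝ, (Polynomial.C a * Polynomial.X ^ (k + 1)).eval x =
        (Polynomial.C a * Polynomial.X ^ k).eval x * x := by
      intro x
      simp only [Polynomial.eval_mul, Polynomial.eval_C, Polynomial.eval_pow, Polynomial.eval_X]
      ring
    simp only [e, Complex.ofReal_mul]
    exact hA.mul _ ih _ hn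

/-- **CLOS4.** Continuous functional calculus in `A` (real variable): if `n ∈ A` has real values
in `[δ, C]` (as complex numbers), then `1 / sqrt n ∈ A`.

Proof. `hA.closed`: by Weierstrass (`polynomialFunctions.topologicalClosure` or
`exists_polynomial_near_of_continuousOn`) the continuous function `t ↦ 1 / √t` on `[δ, C]` is
uniformly approximated by real polynomials `P`, and `m ↦ P (n m)` is in `A` (induction on `P`:
`hA.const`, `hA.add`, `hA.mul`). -/
theorem SeqAlg.inv_sqrt_mem {A : Set (ℤ → ℂ)} (hA : SeqAlg A) {n : ℤ → ℝ} {δ C : ℝ} (hδ : 0 < δ)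
    (hn : (fun m => ((n m : ℝ) : ℂ)) ∈ A) (h1 : ∀ m, δ ≤ n m) (h2 : ∀ m, n m ≤ C) :
    (fun m => ((1 / Real.sqrt (n m) : ℝ) : ℂ)) ∈ A := by
  apply hA.closed
  intro ε hε
  have hc : ContinuousOn (fun t : ℝ => 1 / Real.sqrt t) (Set.Icc δ C) := by
    apply ContinuousOn.div continuousOn_const Real.continuous_sqrt.continuousOn
    intro x hx
    exact (Real.sqrt_pos.mpr (lt_of_lt_of_le hδ hx.1)).ne'
  obtain ⟨P, hP⟩ := exists_polynomial_near_of_continuousOn δ C _ hc ε hε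
  refine ⟨_, clos4_poly hA hn P, fun m => ?_⟩
  have h := hP (n m) ⟨h1 m, h2 m⟩
  rw [← Complex.ofReal_sub, Complex.norm_real, Real.norm_eq_abs, abs_sub_comm]
  exact h.le

end Pool.Agent.Nil820

end

/-! ### Part `Unit` -/

section

/-! # Piece UNIT: unit vectors of functions with a given vertical character -/

open scoped ComplexConjugate Topology

namespace Pool.Agent.Nil820

/-- **UNIT.** Proof. Let `F κ₀ y₀ ≠ 0`. For every `x` the translate `x' ↦ F κ₀ (v x')` with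
`v = y₀ x⁻¹` does not vanish at `x`, hence not on a neighbourhood of `x`. By compactness of `K`
(`h.cocpt 1`, `fil 1 = ⊤`) finitely many `v_1, ..., v_d` satisfy: for all `x ∈ K` some
`F κ₀ (v_k x) ≠ 0`; by right `Γ`-invariance the same holds for all `x ∈ G = K Γ`. Put
`n x = ∑_k ‖F κ₀ (v_k x)‖²`, continuous, `Γ`-invariant, `≥ δ > 0` (minimum over `K`) and `≤ C`, and
`H k x = F κ₀ (v_k x) / √(n x)`. Continuity, `∑ ‖H k x‖² = 1`, invariance under `Γ` and under
`fil (J+1)`: clear. For `c ∈ fil J`: `F κ₀ (v_k x c) = χ c * F κ₀ (v_k x)`, `n (x c) = n x`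
(`‖χ c‖ = 1`). Last claim: the sequence is the product of
`m ↦ F κ₀ (v_k v g(κ₀)^m x) ∈ A` (`hF.adapt κ₀ κ₀`) and of `m ↦ 1 / √(n (v g(κ₀)^m x))`, which is
in `A` by `hA.inv_sqrt_mem`, because `m ↦ n (v g(κ₀)^m x)` is a sum of products of elements of `A`
with their conjugates. -/
theorem unit_vec {G : Type} [Group G] [TopologicalSpace G] [IsTopologicalGroup G]
    {fil : ℕ → Subgroup G} {Γ : Subgroup G} (h : NilData fil Γ) {𝒦 : Type} [TopologicalSpace 𝒦]
    {g : 𝒦 → G} {F : 𝒦 → G → ℂ} {J : ℕ} {A : Set (ℤ → ℂ)} (hA : SeqAlg A)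
    (hF : NilFam fil Γ g F J A) {χ : G → ℂ} (hχ : VertChar fil F J χ) (κ₀ : 𝒦)
    (hne : ∃ x, F κ₀ x ≠ 0) :
    ∃ (d : ℕ) (H : Fin d → G → ℂ), (∀ k, Continuous (H k)) ∧ (∀ x, ∑ k, ‖H k x‖ ^ 2 = 1) ∧
      (∀ k x γ, γ ∈ Γ → H k (x * γ) = H k x) ∧
      (∀ k x c, c ∈ fil (J + 1) → H k (x * c) = H k x) ∧
      (∀ k x, ∀ c ∈ fil J, H k (x * c) = χ c * H k x) ∧
      ∀ k v x, (fun m : ℤ => H k (v * (g κ₀) ^ m * x)) ∈ A := by
  classical
  obtain ⟨y₀, hy₀⟩ := hne
  obtain ⟨K, hK, hK1, hcov⟩ := h.cocpt 1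
  have hf : Continuous (F κ₀) := hF.contF.comp (continuous_const.prodMk continuous_id)
  obtain ⟨t, -, ht⟩ := hK.elim_nhds_subcover (fun x => {x' | F κ₀ (y₀ * x⁻¹ * x') ≠ 0})
    (fun x _ => by
      have hc : Continuous (fun x' => F κ₀ (y₀ * x⁻¹ * x')) :=
        hf.comp (continuous_const.mul continuous_id)
      have ho : IsOpen {x' | F κ₀ (y₀ * x⁻¹ * x') ≠ 0} := isOpen_ne_fun hc continuous_const
      exact ho.mem_nhds (by
        show F κ₀ (y₀ * x⁻¹ * x) ≠ 0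
        rwa [inv_mul_cancel_right]))
  let w : Fin t.card → G := fun k => y₀ * ((t.equivFin.symm k : t) : G)⁻¹
  let n : G → ℝ := fun x => ∑ k, ‖F κ₀ (w k * x)‖ ^ 2
  have hcw : ∀ k, Continuous (fun x => F κ₀ (w k * x)) := fun k =>
    hf.comp (continuous_const.mul continuous_id)
  have hn : Continuous n := continuous_finsetSum _ fun k _ => (hcw k).norm.pow 2
  have hΓ : ∀ k x γ, γ ∈ Γ → F κ₀ (w k * (x * γ)) = F κ₀ (w k * x) := fun k x γ hγ => by
    rw [← mul_assoc, hF.right κ₀ _ γ hγ]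
  have hnΓ : ∀ x γ, γ ∈ Γ → n (x * γ) = n x := fun x γ hγ => by
    simp only [n]
    exact Finset.sum_congr rfl fun k _ => by rw [hΓ k x γ hγ]
  have hrep : ∀ x : G, ∃ k ∈ K, n x = n k := by
    intro x
    obtain ⟨k, hk, γ, hγ, -, rfl⟩ := hcov x (by rw [h.one]; exact Subgroup.mem_top _)
    exact ⟨k, hk, hnΓ k γ hγ⟩
  have hposK : ∀ x ∈ K, 0 < n x := by
    intro x hx
    obtain ⟨z, hz, hz'⟩ := Set.mem_iUnion₂.1 (ht hx)
    have hz'' : F κ₀ (y₀ * z⁻¹ * x) ≠ 0 := hz'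
    have hle : ‖F κ₀ (w (t.equivFin ⟨z, hz⟩) * x)‖ ^ 2 ≤ n x :=
      Finset.single_le_sum (f := fun k => ‖F κ₀ (w k * x)‖ ^ 2)
        (fun k _ => sq_nonneg _) (Finset.mem_univ _)
    refine lt_of_lt_of_le ?_ hle
    simp only [w, Equiv.symm_apply_apply]
    exact pow_pos (norm_pos_iff.2 hz'') 2
  have hKne : K.Nonempty := by
    obtain ⟨k, hk, -⟩ := hrep 1
    exact ⟨k, hk⟩
  obtain ⟨a, haK, ha⟩ := hK.exists_isMinOn hKne hn.continuousOn
  obtain ⟨b, hbK, hb⟩ := hK.exists_isMaxOn hKne hn.continuousOn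
  have hδ : 0 < n a := hposK a haK
  have hlow : ∀ x, n a ≤ n x := fun x => by
    obtain ⟨k, hk, e⟩ := hrep x
    rw [e]
    exact ha hk
  have hup : ∀ x, n x ≤ n b := fun x => by
    obtain ⟨k, hk, e⟩ := hrep x
    rw [e]
    exact hb hk
  have hpos : ∀ x, 0 < n x := fun x => lt_of_lt_of_le hδ (hlow x)
  have hdeg : ∀ k x c, c ∈ fil (J + 1) → F κ₀ (w k * (x * c)) = F κ₀ (w k * x) :=
    fun k x c hc => by rw [← mul_assoc, hF.deg κ₀ _ c hc]
  have hchi : ∀ k x, ∀ c ∈ fil J, F κ₀ (w k * (x * c)) = χ c * F κ₀ (w k * x) :=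
    fun k x c hc => by rw [← mul_assoc, hχ.2 κ₀ _ c hc]
  refine ⟨t.card, fun k x => F κ₀ (w k * x) * ((1 / Real.sqrt (n x) : ℝ) : ℂ), ?_, ?_, ?_, ?_,
    ?_, ?_⟩
  · intro k
    refine (hcw k).mul (Complex.continuous_ofReal.comp ?_)
    exact continuous_const.div (Real.continuous_sqrt.comp hn)
      fun x => (Real.sqrt_pos.2 (hpos x)).ne'
  · intro x
    have e : ∀ k, ‖F κ₀ (w k * x) * ((1 / Real.sqrt (n x) : ℝ) : ℂ)‖ ^ 2 =
        ‖F κ₀ (w k * x)‖ ^ 2 * (1 / n x) := by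
      intro k
      rw [norm_mul, mul_pow, Complex.norm_real, Real.norm_eq_abs, sq_abs, div_pow, one_pow,
        Real.sq_sqrt (hpos x).le]
    simp only [e]
    rw [← Finset.sum_mul]
    exact mul_one_div_cancel (hpos x).ne'
  · intro k x γ hγ
    show F κ₀ (w k * (x * γ)) * ((1 / Real.sqrt (n (x * γ)) : ℝ) : ℂ) = _
    rw [hΓ k x γ hγ, hnΓ x γ hγ]
  · intro k x c hc
    have e : n (x * c) = n x := by
      simp only [n]
      exact Finset.sum_congr rfl fun k _ => by rw [hdeg k x c hc]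
    show F κ₀ (w k * (x * c)) * ((1 / Real.sqrt (n (x * c)) : ℝ) : ℂ) = _
    rw [hdeg k x c hc, e]
  · intro k x c hc
    have e : n (x * c) = n x := by
      simp only [n]
      refine Finset.sum_congr rfl fun k _ => ?_
      rw [hchi k x c hc, norm_mul, hχ.1 c hc, one_mul]
    show F κ₀ (w k * (x * c)) * ((1 / Real.sqrt (n (x * c)) : ℝ) : ℂ) =
      χ c * (F κ₀ (w k * x) * ((1 / Real.sqrt (n x) : ℝ) : ℂ))
    rw [hchi k x c hc, e, mul_assoc]
  · intro k v x
    have hmem : ∀ k, (fun m : ℤ => F κ₀ (w k * (v * (g κ₀) ^ m * x))) ∈ A := by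
      intro k
      have e : (fun m : ℤ => F κ₀ (w k * (v * (g κ₀) ^ m * x))) =
          fun m : ℤ => F κ₀ (w k * v * (g κ₀) ^ m * x) := by
        funext m
        simp only [mul_assoc]
      rw [e]
      exact hF.adapt κ₀ κ₀ (w k * v) x
    have hnA : (fun m : ℤ => ((n (v * (g κ₀) ^ m * x) : ℝ) : ℂ)) ∈ A := by
      have e : (fun m : ℤ => ((n (v * (g κ₀) ^ m * x) : ℝ) : ℂ)) =
          fun m : ℤ => ∑ k, conj (F κ₀ (w k * (v * (g κ₀) ^ m * x))) *
            F κ₀ (w k * (v * (g κ₀) ^ m * x)) := by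
        funext m
        simp only [n, Complex.ofReal_sum, Complex.ofReal_pow, Complex.conj_mul']
      rw [e]
      exact hA.sum Finset.univ fun k _ => hA.mul _ (hA.cj _ (hmem k)) _ (hmem k)
    exact hA.mul _ (hmem k) _ (hA.inv_sqrt_mem hδ hnA (fun m => hlow _) (fun m => hup _))

end Pool.Agent.Nil820

end

/-! ### Part `Rrec0` -/

section

/-! # Piece RREC0: families of degree zero -/

open scoped ComplexConjugate Topology

namespace Pool.Agent.Nil820

/-- **RREC0.** For degree `0` every member is a constant sequence (`fil 1 = ⊤`, so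
`F κ x = F κ (x * x⁻¹) = F κ 1`), and `Dom` with `c = single m 1 - single 0 1`, `K = 0` shows that
`B` is constant, so `B ∈ A` (`hA.const`), `UNull` of `0`. -/
theorem nil_hull_zero {G : Type} [Group G] [TopologicalSpace G]
    {fil : ℕ → Subgroup G} {Γ : Subgroup G} (h : NilData fil Γ) {𝒦 : Type} [TopologicalSpace 𝒦]
    {g : 𝒦 → G} {F : 𝒦 → G → ℂ} {A : Set (ℤ → ℂ)} (hA : SeqAlg A)
    (hF : NilFam fil Γ g F 0 A) {B : ℤ → ℂ} (hB : Dom (famSet g F) B) : DecNull A B := by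
  have hconst : ∀ κ x, F κ x = F κ 1 := by
    intro κ x
    have hx : x ∈ fil (0 + 1) := by
      rw [Nat.zero_add, h.one]
      exact Subgroup.mem_top x
    have := hF.deg κ 1 x hx
    rw [one_mul] at this
    exact this
  have hsum : ∀ (m : ℤ) (s : ℤ → ℂ),
      ((Finsupp.single m (1 : ℂ) - Finsupp.single 0 1).sum fun n z => z * s n) = s m - s 0 := by
    intro m s
    rw [Finsupp.sum_sub_index (fun a b₁ b₂ => sub_mul b₁ b₂ (s a)),
      Finsupp.sum_single_index (by simp), Finsupp.sum_single_index (by simp)]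
    simp
  have hBc : ∀ m, B m = B 0 := by
    intro m
    have h0 := hB (Finsupp.single m 1 - Finsupp.single 0 1) 0 le_rfl (by
      rintro s ⟨κ, x, rfl⟩
      rw [hsum]
      simp only [hconst κ ((g κ) ^ m * x), hconst κ ((g κ) ^ (0 : ℤ) * x), sub_self, norm_zero]
      exact le_rfl)
    rw [hsum] at h0
    have := norm_le_zero_iff.mp h0
    exact sub_eq_zero.mp this
  have hBe : B = fun _ => B 0 := funext hBc
  rw [hBe]
  exact DecNull.of_mem (hA.const (B 0))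

/-- The members of a family are those with base points in a compact set. -/
theorem famSet_eq {G : Type} [Group G] [TopologicalSpace G]
    {fil : ℕ → Subgroup G} {Γ : Subgroup G} {𝒦 : Type} [TopologicalSpace 𝒦]
    {g : 𝒦 → G} {F : 𝒦 → G → ℂ} {j : ℕ} {A : Set (ℤ → ℂ)}
    (hF : NilFam fil Γ g F j A) {K : Set G} (hK : ∀ c : G, ∃ k ∈ K, ∃ γ ∈ Γ, c = k * γ) :
    famSet g F = Set.range (fun (l : 𝒦 × ↥K) (m : ℤ) => F l.1 ((g l.1) ^ m * l.2)) := by
  ext θ
  constructor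
  · rintro ⟨κ, x, rfl⟩
    obtain ⟨k, hk, γ, hγ, rfl⟩ := hK x
    refine ⟨(κ, ⟨k, hk⟩), ?_⟩
    funext m
    show F κ ((g κ) ^ m * k) = F κ ((g κ) ^ m * (k * γ))
    rw [← mul_assoc, hF.right κ _ γ hγ]
  · rintro ⟨⟨κ, k⟩, rfl⟩
    exact ⟨κ, k, rfl⟩

/-- a family of any degree is uniformly bounded (compactness of `𝒦 × K`) -/
theorem NilFam.bounded {G : Type} [Group G] [TopologicalSpace G]
    {fil : ℕ → Subgroup G} {Γ : Subgroup G} {𝒦 : Type} [TopologicalSpace 𝒦] [CompactSpace 𝒦]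
    {g : 𝒦 → G} {F : 𝒦 → G → ℂ} {j : ℕ} {A : Set (ℤ → ℂ)}
    (hF : NilFam fil Γ g F j A) {K : Set G} (hKc : IsCompact K)
    (hK : ∀ c : G, ∃ k ∈ K, ∃ γ ∈ Γ, c = k * γ) :
    ∃ C : ℝ, ∀ κ x, ‖F κ x‖ ≤ C := by
  have hc : IsCompact ((Set.univ : Set 𝒦) ×ˢ K) := isCompact_univ.prod hKc
  obtain ⟨C, hC⟩ := hc.exists_bound_of_continuousOn (f := fun p : 𝒦 × G => F p.1 p.2)
    hF.contF.continuousOn
  refine ⟨C, fun κ x => ?_⟩
  obtain ⟨k, hk, γ, hγ, rfl⟩ := hK x
  rw [hF.right κ k γ hγ]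
  exact hC (κ, k) ⟨Set.mem_univ _, hk⟩

end Pool.Agent.Nil820

end

/-! ### Part `RrecV` -/

section

/-! # Piece RRECV: families with a vertical character -/

open scoped ComplexConjugate Topology

namespace Pool.Agent.Nil820

/-- The statement of degree `j`. -/
def RStat (j : ℕ) : Prop :=
  ∀ (G : Type) [Group G] [TopologicalSpace G] [IsTopologicalGroup G] [T2Space G]
    (fil : ℕ → Subgroup G) (Γ : Subgroup G), NilData fil Γ →
    ∀ (𝒦 : Type) [TopologicalSpace 𝒦] [CompactSpace 𝒦] [T2Space 𝒦] (g : 𝒦 → G) (F : 𝒦 → G → ℂ)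
      (A : Set (ℤ → ℂ)), SeqAlg A → NilFam fil Γ g F j A → ∀ B, Dom (famSet g F) B → DecNull A B

/-- **RRECV.** Families of degree `j + 1` with a vertical character, from `RStat j`.

Proof. Let `K` be the compact set of `h.cocpt 1` (`fil 1 = ⊤`). Apply `core` with
`Λ = 𝒦 × ↥K`, `θ (κ, k) m = F κ (g κ ^ m * k)` (`famSet_eq`, `NilFam.bounded`; `↥K` is a compact
Hausdorff space). Given `l₀ = (κ₀, x₀)`:
if `F κ₀ = 0` identically, take `d = 1`, `h = 1`, `S = {0}` (the fourfold products are `0`, and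
`Dom {0} B` forces `B = 0`: `c = single m 1`, `K = 0`).
Otherwise take `d`, `H k` from `unit_vec`, `h k m = H k (g κ₀ ^ m * x₀)`. In `G × G` with
`fil × fil`, `Γ × Γ` (`NilData.prod`), the compact set `K₂ = K ×ˢ K`, translations
`g' κ = (g κ₀, g κ)`, let `X κ x = F κ₀ x.1 * conj (F κ x.2)`, `Y κ x = H k x.1 * conj (F κ x.2)`
(`NilFam.pair`, `VertChar.pair` with the same character `(c₁, c₂) ↦ χ c₁ * conj (χ c₂)` for both;
for `X` use `P = F κ₀`).
`S k = famSet (derg ..) (derF .. X Y)` on the derived group of `G × G` with parameters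
`𝒦 × ↥K₂`; its hull decomposes by `RStat j` (`NilData.der`, `NilFam.der`), and the fourfold product
`θ l₀ (m+r) * conj (θ l (m+r)) * (conj (h k m) * θ l m) = X κ (g' κ ^ (m+r) * (x₀, x)) *
conj (Y κ (g' κ ^ m * (x₀, x)))`, `l = (κ, x)`, is in `S k` by `der_member`. -/
theorem nil_hull_vert {j : ℕ} (ih : RStat j) {G : Type} [Group G] [TopologicalSpace G]
    [IsTopologicalGroup G] [T2Space G] {fil : ℕ → Subgroup G} {Γ : Subgroup G}
    (h : NilData fil Γ) {𝒦 : Type} [TopologicalSpace 𝒦] [CompactSpace 𝒦] [T2Space 𝒦]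
    {g : 𝒦 → G} {F : 𝒦 → G → ℂ} {A : Set (ℤ → ℂ)} (hA : SeqAlg A)
    (hF : NilFam fil Γ g F (j + 1) A) {χ : G → ℂ} (hχ : VertChar fil F (j + 1) χ) {B : ℤ → ℂ}
    (hB : Dom (famSet g F) B) : DecNull A B := by
  classical
  obtain ⟨K, hKc, hKs, hKcov⟩ := h.cocpt 1
  have hK : ∀ c : G, ∃ k ∈ K, ∃ γ ∈ Γ, c = k * γ := by
    intro c
    obtain ⟨k, hk, γ, hγ, -, e⟩ := hKcov c (by rw [h.one]; exact Subgroup.mem_top _)
    exact ⟨k, hk, γ, hγ, e⟩
  obtain ⟨C, hC⟩ := hF.bounded hKc hK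
  have hKs' : CompactSpace ↥K := isCompact_iff_compactSpace.1 hKc
  have hK2c : IsCompact (K ×ˢ K) := hKc.prod hKc
  have hKs2 : CompactSpace ↥(K ×ˢ K) := isCompact_iff_compactSpace.1 hK2c
  rw [famSet_eq hF hK] at hB
  refine core hA (fun (l : 𝒦 × ↥K) (m : ℤ) => F l.1 ((g l.1) ^ m * l.2)) ?_
    ⟨C, fun l m => hC _ _⟩ ?_ hB
  · intro m
    exact hF.contF.comp (continuous_fst.prodMk
      (((hF.contg.comp continuous_fst).zpow m).mul
        (continuous_subtype_val.comp continuous_snd)))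
  · rintro ⟨κ₀, x₀⟩
    by_cases hne : ∃ x, F κ₀ x ≠ 0
    · obtain ⟨d, H, H1, H2, H3, H4, H5, H6⟩ := unit_vec h hA hF hχ κ₀ hne
      have hp : NilData (fun i => (fil i).prod (fil i)) (Γ.prod Γ) := h.prod h
      have hX : NilFam (fun i => (fil i).prod (fil i)) (Γ.prod Γ) (fun κ => (g κ₀, g κ))
          (fun κ (x : G × G) => F κ₀ x.1 * conj (F κ x.2)) (j + 1) A :=
        NilFam.pair hA hF κ₀ (hF.contF.comp (continuous_const.prodMk continuous_id))
          (fun x γ hγ => hF.right κ₀ x γ hγ) (fun x c hc => hF.deg κ₀ x c hc)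
          (fun v x => hF.adapt κ₀ κ₀ v x)
      have hY : ∀ k, NilFam (fun i => (fil i).prod (fil i)) (Γ.prod Γ) (fun κ => (g κ₀, g κ))
          (fun κ (x : G × G) => H k x.1 * conj (F κ x.2)) (j + 1) A := fun k =>
        NilFam.pair hA hF κ₀ (H1 k) (H3 k) (H4 k) (H6 k)
      have hχX := VertChar.pair hχ (P := F κ₀) (fun x c hc => hχ.2 κ₀ x c hc)
      have hχY := fun k => VertChar.pair hχ (P := H k) (H5 k)
      have hK2 : ∀ c : G × G, ∃ k ∈ K ×ˢ K, ∃ γ ∈ Γ.prod Γ, c = k * γ := by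
        rintro ⟨c1, c2⟩
        obtain ⟨k1, hk1, γ1, hγ1, e1⟩ := hK c1
        obtain ⟨k2, hk2, γ2, hγ2, e2⟩ := hK c2
        exact ⟨(k1, k2), ⟨hk1, hk2⟩, (γ1, γ2), ⟨hγ1, hγ2⟩, by rw [e1, e2]; rfl⟩
      refine ⟨d, fun k m => H k ((g κ₀) ^ m * x₀), fun k =>
        famSet (derg hp (fun κ => (g κ₀, g κ)) (K := K ×ˢ K))
          (derF ((fil 2).prod (fil 2)) (hp.normal 2)
            (fun κ (x : G × G) => F κ₀ x.1 * conj (F κ x.2))
            (fun κ (x : G × G) => H k x.1 * conj (F κ x.2))), ?_, ?_, ?_, ?_⟩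
      · intro k
        have := H6 k 1 x₀
        simpa only [one_mul] using this
      · intro m
        exact H2 _
      · intro k B hB
        exact ih _ _ _ hp.der _ _ _ _ hA
          (NilFam.der hp hA hX (hY k) hχX (hχY k) (K ×ˢ K)) B hB
      · rintro k ⟨κ, x⟩ r
        have hmem := der_member hp (g := fun κ => (g κ₀, g κ))
          (X := fun κ (x : G × G) => F κ₀ x.1 * conj (F κ x.2))
          (Y := fun κ (x : G × G) => H k x.1 * conj (F κ x.2)) hX.right (K := K ×ˢ K) hK2 κ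
          ((x₀ : G), (x : G)) r
        have e : (fun m : ℤ => F κ₀ ((g κ₀) ^ (m + r) * x₀) *
            conj (F κ ((g κ) ^ (m + r) * x)) *
            (conj (H k ((g κ₀) ^ m * x₀)) * F κ ((g κ) ^ m * x))) =
            fun m : ℤ => (F κ₀ (((g κ₀, g κ) : G × G) ^ (m + r) * ((x₀ : G), (x : G))).1 *
              conj (F κ (((g κ₀, g κ) : G × G) ^ (m + r) * ((x₀ : G), (x : G))).2)) *
              conj (H k (((g κ₀, g κ) : G × G) ^ m * ((x₀ : G), (x : G))).1 *
              conj (F κ (((g κ₀, g κ) : G × G) ^ m * ((x₀ : G), (x : G))).2)) := by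
          funext m
          simp only [Prod.fst_mul, Prod.snd_mul, Prod.pow_fst, Prod.pow_snd, map_mul,
            Complex.conj_conj]
        change (fun m : ℤ => F κ₀ ((g κ₀) ^ (m + r) * x₀) *
            conj (F κ ((g κ) ^ (m + r) * x)) *
            (conj (H k ((g κ₀) ^ m * x₀)) * F κ ((g κ) ^ m * x))) ∈ _
        rw [e]
        exact hmem
    · have hz : ∀ x, F κ₀ x = 0 := by
        intro x
        by_contra hx
        exact hne ⟨x, hx⟩
      refine ⟨1, fun _ _ => 1, fun _ => {fun _ => 0}, fun _ => hA.const 1, ?_, ?_, ?_⟩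
      · intro m
        simp
      · intro k B hB
        have hB0 : B = fun _ => 0 := by
          funext m
          have := hB (Finsupp.single m 1) 0 le_rfl (by
            rintro s rfl
            simp)
          rw [Finsupp.sum_single_index (by simp), one_mul] at this
          exact norm_le_zero_iff.1 this
        rw [hB0]
        exact DecNull.of_mem (hA.const 0)
      · intro k l r
        refine Set.mem_singleton_iff.2 ?_
        funext m
        simp only [hz, zero_mul]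

end Pool.Agent.Nil820

end
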