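import Mathlib

/-! ### Part `PW1a1` -/

section

/-! # Piece PW1A1: translations on `L²` of a compact abelian group -/

open scoped ComplexConjugate Topology
open MeasureTheory

namespace Pool.Agent.Nil820

/-- **PW1A1.** Translation operators on `L²`.

Proof. `x ↦ x * b` is measure preserving (`measurePreserving_mul_right`; right invariance from
left invariance in a commutative group). `R b = Lp.compMeasurePreserving`
(`Lp.compMeasurePreservingₗᵢ` is a linear isometry; `Lp.coeFn_compMeasurePreserving` gives the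
a.e. formula). Homomorphism property from the a.e. formula (`x * (b * b') = (x * b) * b'`).
`star (R b) = R b⁻¹`: `ContinuousLinearMap.star_eq_adjoint`, `ContinuousLinearMap.eq_adjoint_iff`,
and `⟪R b⁻¹ u, v⟫ = ∫ conj (u (x b⁻¹)) v x = ∫ conj (u x) v (x b) = ⟪u, R b v⟫` by invariance. -/
theorem exists_translations {B : Type} [CommGroup B] [TopologicalSpace B] [IsTopologicalGroup B]
    [CompactSpace B] [T2Space B] [MeasurableSpace B] [BorelSpace B] (μ : Measure B)
    [μ.IsHaarMeasure] :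
    ∃ R : B →* (Lp ℂ 2 μ →L[ℂ] Lp ℂ 2 μ), (∀ b, star (R b) = R b⁻¹) ∧
      ∀ b (u : Lp ℂ 2 μ), (R b u : B → ℂ) =ᵐ[μ] fun x => (u : B → ℂ) (x * b) := by
  have hmp : ∀ b : B, MeasurePreserving (fun x => x * b) μ μ :=
    fun b => measurePreserving_mul_right μ b
  let R₀ : B → (Lp ℂ 2 μ →L[ℂ] Lp ℂ 2 μ) := fun b =>
    (Lp.compMeasurePreservingₗᵢ ℂ (fun x => x * b) (hmp b)).toContinuousLinearMap
  have hR : ∀ b (u : Lp ℂ 2 μ), (R₀ b u : B → ℂ) =ᵐ[μ] fun x => (u : B → ℂ) (x * b) := by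
    intro b u
    exact Lp.coeFn_compMeasurePreserving u (hmp b)
  have hcomp : ∀ (b : B) {f g : B → ℂ}, f =ᵐ[μ] g →
      (fun x => f (x * b)) =ᵐ[μ] fun x => g (x * b) := by
    intro b f g h
    exact (hmp b).quasiMeasurePreserving.ae_eq_comp h
  have h1 : R₀ 1 = 1 := by
    ext1 u
    apply Lp.ext
    refine (hR 1 u).trans ?_
    simp
  have hmul : ∀ b b', R₀ (b * b') = R₀ b * R₀ b' := by
    intro b b'
    ext1 u
    apply Lp.ext
    refine (hR (b * b') u).trans ?_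
    have h2 : ((R₀ b * R₀ b') u : B → ℂ) =ᵐ[μ] fun x => (R₀ b' u : B → ℂ) (x * b) :=
      hR b (R₀ b' u)
    refine Filter.EventuallyEq.symm (h2.trans ((hcomp b (hR b' u)).trans ?_))
    filter_upwards with x
    rw [mul_assoc]
  refine ⟨⟨⟨R₀, h1⟩, hmul⟩, ?_, hR⟩
  intro b
  show star (R₀ b) = R₀ b⁻¹
  rw [ContinuousLinearMap.star_eq_adjoint]
  symm
  rw [ContinuousLinearMap.eq_adjoint_iff]
  intro u v
  rw [L2.inner_def, L2.inner_def]
  rw [← integral_mul_right_eq_self (μ := μ)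
    (fun a => inner ℂ ((R₀ b⁻¹ u : B → ℂ) a) ((v : B → ℂ) a)) b]
  apply integral_congr_ae
  filter_upwards [hcomp b (hR b⁻¹ u), hR b v] with x hx hy
  rw [hx, hy, mul_inv_cancel_right]

end Pool.Agent.Nil820

end

/-! ### Part `PW1a2` -/

section

/-! # Piece PW1A2: convolution operators on `L²` of a compact abelian group -/

open scoped ComplexConjugate Topology
open MeasureTheory

namespace Pool.Agent.Nil820

/-- comparison of the `L¹` and `L²` norms on a finite measure space -/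
theorem integral_norm_le_L2 {B : Type} [MeasurableSpace B] (μ : Measure B) [IsFiniteMeasure μ]
    (u : Lp ℂ 2 μ) :
    ∫ y, ‖(u : B → ℂ) y‖ ∂μ ≤ ((μ Set.univ) ^ ((1 : ℝ) / 2)).toReal * ‖u‖ := by
  have h1 := eLpNorm_le_eLpNorm_mul_rpow_measure_univ (μ := μ) (p := 1) (q := 2)
    (f := (u : B → ℂ)) (by norm_num) (Lp.aestronglyMeasurable u)
  have h2 : ∫ y, ‖(u : B → ℂ) y‖ ∂μ = (eLpNorm (u : B → ℂ) 1 μ).toReal := by
    rw [eLpNorm_one_eq_lintegral_enorm, integral_norm_eq_lintegral_enorm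
      (Lp.aestronglyMeasurable u)]
  rw [h2, Lp.norm_def, ← ENNReal.toReal_mul, mul_comm]
  refine ENNReal.toReal_mono ?_ (h1.trans (le_of_eq ?_))
  · refine ENNReal.mul_ne_top (Lp.eLpNorm_ne_top u) ?_
    exact ENNReal.rpow_ne_top_of_nonneg (by norm_num) (measure_ne_top μ _)
  · congr 2
    norm_num

/-- **PW1A2.** Convolution operators `L² → C(B)`.

Proof. For `u ∈ L²` (⊆ `L¹`, `μ` is finite) the function `x ↦ ∫ f (x⁻¹ y) u y dμ(y)` is continuous
(the map `x ↦ f (x⁻¹ ·)` into `C(B)` is continuous) and bounded by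
`sup |f| * ∫ ‖u‖ ≤ sup |f| * c₀ * ‖u‖₂` with `c₀ = μ(B)^(1/2)` (comparison of
`L¹` and `L²` norms on a finite measure space). Linear in `u`;
`LinearMap.mkContinuous`. -/
theorem exists_convolution {B : Type} [CommGroup B] [TopologicalSpace B] [IsTopologicalGroup B]
    [CompactSpace B] [T2Space B] [MeasurableSpace B] [BorelSpace B] (μ : Measure B)
    [μ.IsHaarMeasure] :
    ∃ c₀ : ℝ, ∀ f : C(B, ℂ), ∃ T : Lp ℂ 2 μ →L[ℂ] C(B, ℂ),
      (∀ (u : Lp ℂ 2 μ) x, T u x = ∫ y, f (x⁻¹ * y) * (u : B → ℂ) y ∂μ) ∧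
      ∀ C, (∀ z, ‖f z‖ ≤ C) → ∀ u : Lp ℂ 2 μ, ‖T u‖ ≤ C * c₀ * ‖u‖ := by
  have : IsFiniteMeasure μ := inferInstance
  set c₀ : ℝ := ((μ Set.univ) ^ ((1 : ℝ) / 2)).toReal with hc₀
  have hc₀0 : 0 ≤ c₀ := ENNReal.toReal_nonneg
  refine ⟨c₀, fun f => ?_⟩
  have hui : ∀ u : Lp ℂ 2 μ, Integrable (u : B → ℂ) μ := fun u =>
    (Lp.memLp u).integrable (by norm_num)
  have hgu : ∀ (g : C(B, ℂ)) (u : Lp ℂ 2 μ), Integrable (fun y => g y * (u : B → ℂ) y) μ := by
    intro g u
    refine (hui u).bdd_mul (c := ‖g‖) g.continuous.aestronglyMeasurable ?_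
    exact Filter.Eventually.of_forall fun y => g.norm_coe_le_norm y
  have hnorm : ∀ (g : C(B, ℂ)) (C : ℝ) (u : Lp ℂ 2 μ), (∀ z, ‖g z‖ ≤ C) →
      ‖∫ y, g y * (u : B → ℂ) y ∂μ‖ ≤ C * c₀ * ‖u‖ := by
    intro g C u hC
    have hC0 : 0 ≤ C := (norm_nonneg _).trans (hC 1)
    calc ‖∫ y, g y * (u : B → ℂ) y ∂μ‖ ≤ ∫ y, C * ‖(u : B → ℂ) y‖ ∂μ := by
          refine norm_integral_le_of_norm_le ((hui u).norm.const_mul C) ?_
          refine Filter.Eventually.of_forall fun y => ?_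
          rw [norm_mul]
          exact mul_le_mul_of_nonneg_right (hC y) (norm_nonneg _)
      _ = C * ∫ y, ‖(u : B → ℂ) y‖ ∂μ := integral_const_mul _ _
      _ ≤ C * (c₀ * ‖u‖) := mul_le_mul_of_nonneg_left (integral_norm_le_L2 μ u) hC0
      _ = C * c₀ * ‖u‖ := by ring
  -- the translates of `f`
  let F : C(B, C(B, ℂ)) := ContinuousMap.curry
    ⟨fun p : B × B => f (p.1⁻¹ * p.2), by fun_prop⟩
  have hF : ∀ x y, F x y = f (x⁻¹ * y) := fun x y => rfl
  have hcont : ∀ u : Lp ℂ 2 μ, Continuous fun x => ∫ y, f (x⁻¹ * y) * (u : B → ℂ) y ∂μ := by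
    intro u
    have h1 : LipschitzWith (Real.toNNReal (c₀ * ‖u‖))
        (fun g : C(B, ℂ) => ∫ y, g y * (u : B → ℂ) y ∂μ) := by
      refine LipschitzWith.of_dist_le_mul fun g h => ?_
      rw [Real.coe_toNNReal _ (mul_nonneg hc₀0 (norm_nonneg _)), dist_eq_norm, dist_eq_norm,
        ← integral_sub (hgu g u) (hgu h u)]
      have := hnorm (g - h) ‖g - h‖ u fun z => (g - h).norm_coe_le_norm z
      calc ‖∫ y, (g y * (u : B → ℂ) y - h y * (u : B → ℂ) y) ∂μ‖
          = ‖∫ y, (g - h) y * (u : B → ℂ) y ∂μ‖ := by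
            congr 1
            refine integral_congr_ae (Filter.Eventually.of_forall fun y => ?_)
            simp only [ContinuousMap.sub_apply]
            ring
        _ ≤ ‖g - h‖ * c₀ * ‖u‖ := this
        _ = c₀ * ‖u‖ * ‖g - h‖ := by ring
    exact h1.continuous.comp F.continuous
  let L : Lp ℂ 2 μ →ₗ[ℂ] C(B, ℂ) :=
    { toFun := fun u => ⟨fun x => ∫ y, f (x⁻¹ * y) * (u : B → ℂ) y ∂μ, hcont u⟩
      map_add' := by
        intro u v
        ext x
        simp only [ContinuousMap.coe_mk, ContinuousMap.add_apply]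
        have h1 := hgu (F x) u
        have h2 := hgu (F x) v
        simp only [hF] at h1 h2
        rw [← integral_add h1 h2]
        refine integral_congr_ae ?_
        filter_upwards [Lp.coeFn_add u v] with y hy
        rw [hy, Pi.add_apply, mul_add]
      map_smul' := by
        intro c u
        ext x
        simp only [ContinuousMap.coe_mk, ContinuousMap.smul_apply, RingHom.id_apply, smul_eq_mul]
        rw [← integral_const_mul]
        refine integral_congr_ae ?_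
        filter_upwards [Lp.coeFn_smul c u] with y hy
        rw [hy, Pi.smul_apply, smul_eq_mul]
        ring }
  have hL : ∀ u x, L u x = ∫ y, f (x⁻¹ * y) * (u : B → ℂ) y ∂μ := fun u x => rfl
  have hLn : ∀ C, (∀ z, ‖f z‖ ≤ C) → ∀ u : Lp ℂ 2 μ, ‖L u‖ ≤ C * c₀ * ‖u‖ := by
    intro C hC u
    have hC0 : 0 ≤ C := (norm_nonneg _).trans (hC 1)
    refine (ContinuousMap.norm_le _ (by positivity)).2 fun x => ?_
    exact hnorm (F x) C u fun z => hC _
  refine ⟨L.mkContinuous (‖f‖ * c₀) (hLn ‖f‖ fun z => f.norm_coe_le_norm z), hL, hLn⟩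

end Pool.Agent.Nil820

end

/-! ### Part `PW1a` -/

section

/-! # Piece PW1A3: commuting operators on `L²` of a compact abelian group -/

open scoped ComplexConjugate Topology
open MeasureTheory

namespace Pool.Agent.Nil820

/-- **PW1A3.** Translation operators and a convolution operator.

Proof. Give `B` its Borel σ-algebra (`borel B`) and let `μ` be a Haar measure (`Measure.haar`).
`H = Lp ℂ 2 μ`, `R` from `exists_translations`.
Let `V = V⁻¹` be a symmetric neighbourhood of `1` with `b₀ ∉ V * V` and `f₀ : B → [0, 1]`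
continuous with `f₀ 1 = 1`, `f₀ = 0` outside `V` (Urysohn: `exists_continuous_zero_one_of_isClosed`;
`B` is compact Hausdorff, hence normal), `f x = f₀ x * f₀ x⁻¹` (symmetric: `f x⁻¹ = f x`).
`T = (C(B, ℂ) → L²) ∘ T_f` (`ContinuousMap.toLp`, `T_f` from `exists_convolution`), so
`(T u)(x) = ∫ f (x⁻¹ y) u y dμ(y)` a.e.
It is self-adjoint by Fubini (`f` is real and `f (x⁻¹ y) = f (y⁻¹ x)`) and commutes with `R b`
(`f ((x b)⁻¹ y)`, substitution `y → y b`, `B` abelian).
`(R b (T u))(x) = ∫ f (b⁻¹ x⁻¹ y) u y dμ(y)`, so `R b * T = toLp ∘ T_{f(b⁻¹ ·)}` and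
`‖R b T - R b' T‖ ≤ C sup_z |f (b⁻¹ z) - f (b'⁻¹ z)|` (linearity of `f ↦ T_f` and the norm bound),
which is small for `b'` near `b` (the map `b ↦ f (b⁻¹ ·) ∈ C(B, ℂ)` is continuous:
`ContinuousMap.curry`), whence the continuity. `R b₀ T ≠ T`: apply both to `u = f`: `T f` and
`R b₀ T f` are represented by continuous functions with
`T f (1) = ∫ f² > 0` (`μ` is positive on open sets) and `R b₀ T f (1) = ∫ f (b₀⁻¹ y) f y dμ(y) = 0`
because `y ∈ V` and `b₀⁻¹ y ∈ V` imply `b₀ ∈ V V⁻¹`; two continuous functions which are equal a.e. are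
equal (`Continuous.ae_eq_iff_eq`). -/
theorem exists_operators {B : Type} [CommGroup B] [TopologicalSpace B] [IsTopologicalGroup B]
    [CompactSpace B] [T2Space B] {b₀ : B} (hb : b₀ ≠ 1) :
    ∃ (H : Type) (_ : NormedAddCommGroup H) (_ : InnerProductSpace ℂ H) (_ : CompleteSpace H)
      (R : B →* (H →L[ℂ] H)) (T : H →L[ℂ] H), (∀ b, star (R b) = R b⁻¹) ∧ star T = T ∧
      (∀ b, R b * T = T * R b) ∧ Continuous (fun b => R b * T) ∧ R b₀ * T ≠ T := by
  letI : MeasurableSpace B := borel B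
  haveI : BorelSpace B := ⟨rfl⟩
  let μ : Measure B := Measure.haar
  obtain ⟨R, hR1, hR2⟩ := exists_translations μ
  obtain ⟨c₀, hc⟩ := exists_convolution μ
  choose Tc hT1 hT2 using hc
  -- the function
  obtain ⟨f, hf0, hf1, hf2⟩ : ∃ f : C(B, ℝ), (∀ y, f (b₀⁻¹ * y) * f y = 0) ∧ f 1 = 1 ∧
      ∀ y, 0 ≤ f y := by
    obtain ⟨U, U', hU, hU', h1, h2, hd⟩ := t2_separation hb
    have hV : IsOpen (U' ∩ (fun y => b₀ * y) ⁻¹' U) :=
      hU'.inter (hU.preimage (continuous_const.mul continuous_id))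
    have h1V : (1 : B) ∈ U' ∩ (fun y => b₀ * y) ⁻¹' U := by
      refine ⟨h2, ?_⟩
      show b₀ * 1 ∈ U
      rw [mul_one]
      exact h1
    obtain ⟨f, hfs, hft, hf⟩ := exists_continuous_zero_one_of_isClosed
      (isClosed_compl_iff.mpr hV) (isClosed_singleton (x := (1 : B)))
      (by
        rw [Set.disjoint_singleton_right]
        exact fun h => h h1V)
    refine ⟨f, fun y => ?_, hft rfl, fun y => (hf y).1⟩
    by_cases hy : y ∈ U' ∩ (fun y => b₀ * y) ⁻¹' U
    · have h4 : b₀⁻¹ * y ∉ U' ∩ (fun y => b₀ * y) ⁻¹' U := by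
        rintro ⟨_, h⟩
        have h5 : b₀ * (b₀⁻¹ * y) ∈ U := h
        rw [mul_inv_cancel_left] at h5
        exact Set.disjoint_left.mp hd h5 hy.1
      have h3 : f (b₀⁻¹ * y) = 0 := hfs h4
      rw [h3, zero_mul]
    · have h3 : f y = 0 := hfs hy
      rw [h3, mul_zero]
  let F : C(B × B, ℂ) := ⟨fun p => ((f (p.1⁻¹ * p.2) : ℝ) : ℂ),
    Complex.continuous_ofReal.comp (f.continuous.comp (continuous_fst.inv.mul continuous_snd))⟩
  let fc : B → C(B, ℂ) := fun b => F.curry b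
  have hfc : ∀ b z, fc b z = ((f (b⁻¹ * z) : ℝ) : ℂ) := fun b z => rfl
  have hfcc : Continuous fc := F.curry.continuous
  let ι : C(B, ℂ) →L[ℂ] Lp ℂ 2 μ := ContinuousMap.toLp (E := ℂ) 2 μ ℂ
  have hι : ∀ g : C(B, ℂ), (ι g : B → ℂ) =ᵐ[μ] g := fun g => ContinuousMap.coeFn_toLp μ g
  let S : B → (Lp ℂ 2 μ →L[ℂ] Lp ℂ 2 μ) := fun b => ι ∘L Tc (fc b)
  have hS : ∀ b u, (S b u : B → ℂ) =ᵐ[μ] Tc (fc b) u := fun b u => hι _
  have hint : ∀ (g : C(B, ℂ)) (u : Lp ℂ 2 μ) (x : B),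
      Integrable (fun y => g (x⁻¹ * y) * (u : B → ℂ) y) μ := by
    intro g u x
    have hu : Integrable (u : B → ℂ) μ := (Lp.memLp u).integrable (by norm_num)
    refine Integrable.mono' (hu.norm.const_mul ‖g‖) ?_ (ae_of_all _ fun y => ?_)
    · exact (g.continuous.comp (continuous_const.mul continuous_id)).aestronglyMeasurable.mul
        hu.aestronglyMeasurable
    · rw [norm_mul]
      exact mul_le_mul_of_nonneg_right (g.norm_coe_le_norm _) (norm_nonneg _)
  have claim1 : ∀ b, R b * S 1 = S b := by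
    intro b
    refine ContinuousLinearMap.ext fun u => Lp.ext ?_
    have h1 : ((R b * S 1) u : B → ℂ) =ᵐ[μ] fun x => (S 1 u : B → ℂ) (x * b) := hR2 b (S 1 u)
    have h2 : (fun x => (S 1 u : B → ℂ) (x * b)) =ᵐ[μ] fun x => Tc (fc 1) u (x * b) :=
      (measurePreserving_mul_right μ b).quasiMeasurePreserving.ae_eq_comp (hS 1 u)
    refine (h1.trans h2).trans (Filter.EventuallyEq.trans ?_ (hS b u).symm)
    refine Filter.Eventually.of_forall fun x => ?_
    show Tc (fc 1) u (x * b) = Tc (fc b) u x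
    rw [hT1, hT1]
    refine integral_congr_ae (Filter.Eventually.of_forall fun y => ?_)
    show fc 1 ((x * b)⁻¹ * y) * (u : B → ℂ) y = fc b (x⁻¹ * y) * (u : B → ℂ) y
    rw [hfc, hfc, show (1 : B)⁻¹ * ((x * b)⁻¹ * y) = b⁻¹ * (x⁻¹ * y) by group]
  have claim2 : ∀ b, R b * S 1 = S 1 * R b := by
    intro b
    rw [claim1]
    refine ContinuousLinearMap.ext fun u => Lp.ext ?_
    refine (hS b u).trans (Filter.EventuallyEq.trans ?_ (hS 1 (R b u)).symm)
    refine Filter.Eventually.of_forall fun x => ?_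
    rw [hT1, hT1]
    have h1 : ∫ y, fc 1 (x⁻¹ * y) * (R b u : B → ℂ) y ∂μ =
        ∫ y, (fun y => fc 1 (x⁻¹ * (y * b⁻¹)) * (u : B → ℂ) y) (y * b) ∂μ := by
      refine integral_congr_ae ?_
      filter_upwards [hR2 b u] with y hy
      show fc 1 (x⁻¹ * y) * (R b u : B → ℂ) y =
        fc 1 (x⁻¹ * (y * b * b⁻¹)) * (u : B → ℂ) (y * b)
      rw [hy, mul_inv_cancel_right]
    rw [h1, integral_mul_right_eq_self (fun y => fc 1 (x⁻¹ * (y * b⁻¹)) * (u : B → ℂ) y) b]
    refine integral_congr_ae (Filter.Eventually.of_forall fun y => ?_)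
    show fc b (x⁻¹ * y) * (u : B → ℂ) y = fc 1 (x⁻¹ * (y * b⁻¹)) * (u : B → ℂ) y
    rw [hfc, hfc, show b⁻¹ * (x⁻¹ * y) = (1 : B)⁻¹ * (x⁻¹ * (y * b⁻¹)) by
      rw [inv_one, one_mul, mul_comm b⁻¹, mul_assoc]]
  have claim3 : ∀ b b', ‖S b - S b'‖ ≤ ‖ι‖ * |c₀| * ‖fc b - fc b'‖ := by
    intro b b'
    refine ContinuousLinearMap.opNorm_le_bound _ (by positivity) fun u => ?_
    have h1 : (S b - S b') u = ι (Tc (fc b - fc b') u) := by
      show ι (Tc (fc b) u) - ι (Tc (fc b') u) = _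
      rw [← map_sub]
      congr 1
      refine ContinuousMap.ext fun x => ?_
      rw [ContinuousMap.sub_apply, hT1, hT1, hT1, ← integral_sub (hint _ _ _) (hint _ _ _)]
      refine integral_congr_ae (Filter.Eventually.of_forall fun y => ?_)
      show fc b (x⁻¹ * y) * (u : B → ℂ) y - fc b' (x⁻¹ * y) * (u : B → ℂ) y =
        (fc b - fc b') (x⁻¹ * y) * (u : B → ℂ) y
      rw [ContinuousMap.sub_apply, sub_mul]
    rw [h1]
    have h2 : ‖Tc (fc b - fc b') u‖ ≤ ‖fc b - fc b'‖ * |c₀| * ‖u‖ :=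
      (hT2 _ _ (fun z => (fc b - fc b').norm_coe_le_norm z) u).trans
        (mul_le_mul_of_nonneg_right (mul_le_mul_of_nonneg_left (le_abs_self _) (norm_nonneg _))
          (norm_nonneg _))
    calc ‖ι (Tc (fc b - fc b') u)‖ ≤ ‖ι‖ * ‖Tc (fc b - fc b') u‖ := ι.le_opNorm _
      _ ≤ ‖ι‖ * (‖fc b - fc b'‖ * |c₀| * ‖u‖) := mul_le_mul_of_nonneg_left h2 (norm_nonneg _)
      _ = ‖ι‖ * |c₀| * ‖fc b - fc b'‖ * ‖u‖ := by ring
  have claim4 : Continuous S := by
    rw [continuous_iff_continuousAt]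
    intro b₁
    unfold ContinuousAt
    rw [tendsto_iff_norm_sub_tendsto_zero]
    have h1 : Filter.Tendsto (fun b => ‖ι‖ * |c₀| * ‖fc b - fc b₁‖) (𝓝 b₁) (𝓝 0) := by
      have h2 : Filter.Tendsto (fun b => ‖fc b - fc b₁‖) (𝓝 b₁) (𝓝 0) :=
        tendsto_iff_norm_sub_tendsto_zero.mp (hfcc.tendsto b₁)
      have h3 := h2.const_mul (‖ι‖ * |c₀|)
      rw [mul_zero] at h3
      exact h3
    exact squeeze_zero (fun b => norm_nonneg _) (fun b => claim3 b b₁) h1
  have claim5 : S b₀ ≠ S 1 := by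
    intro h
    have h1 : ι (Tc (fc b₀) (ι (fc 1))) = ι (Tc (fc 1) (ι (fc 1))) :=
      congrArg (fun A : Lp ℂ 2 μ →L[ℂ] Lp ℂ 2 μ => A (ι (fc 1))) h
    have h2 : Tc (fc b₀) (ι (fc 1)) = Tc (fc 1) (ι (fc 1)) := ContinuousMap.toLp_injective μ h1
    have h3 : Tc (fc b₀) (ι (fc 1)) 1 = Tc (fc 1) (ι (fc 1)) 1 := by rw [h2]
    rw [hT1, hT1] at h3
    have h4 : ∫ y, fc b₀ (1⁻¹ * y) * (ι (fc 1) : B → ℂ) y ∂μ = 0 := by
      rw [← integral_zero B ℂ (μ := μ)]
      refine integral_congr_ae ?_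
      filter_upwards [hι (fc 1)] with y hy
      rw [hy, hfc, hfc, inv_one, one_mul, ← Complex.ofReal_mul, hf0,
        Complex.ofReal_zero]
    have h5 : ∫ y, fc 1 (1⁻¹ * y) * (ι (fc 1) : B → ℂ) y ∂μ =
        ((∫ y, f y * f y ∂μ : ℝ) : ℂ) := by
      rw [← integral_complex_ofReal]
      refine integral_congr_ae ?_
      filter_upwards [hι (fc 1)] with y hy
      rw [hy, hfc, hfc, inv_one, one_mul, one_mul, ← Complex.ofReal_mul]
    rw [h4, h5] at h3
    have h6 : (0 : ℝ) < ∫ y, f y * f y ∂μ := by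
      refine Continuous.integral_pos_of_hasCompactSupport_nonneg_nonzero
        (f.continuous.mul f.continuous) (HasCompactSupport.of_compactSpace _)
        (fun y => mul_nonneg (hf2 y) (hf2 y)) (x := 1) ?_
      rw [hf1]
      norm_num
    have h7 : (0 : ℝ) = ∫ y, f y * f y ∂μ := by exact_mod_cast h3
    exact absurd h7 (ne_of_lt h6)
  have claim6 : ∀ b, R b * star (S 1) = star (S 1) * R b := by
    intro b
    have h := congrArg star (claim2 b⁻¹)
    rw [star_mul, star_mul, hR1, inv_inv] at h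
    exact h.symm
  have claim7 : ∀ b, R b * (star (S 1) * S 1) = star (S 1) * S b := by
    intro b
    rw [← mul_assoc, claim6, mul_assoc, claim1]
  have claim8 : ∀ b, R b * (star (S 1) * S 1) = (star (S 1) * S 1) * R b := by
    intro b
    rw [← mul_assoc, claim6, mul_assoc, claim2, mul_assoc]
  refine ⟨Lp ℂ 2 μ, inferInstance, inferInstance, inferInstance, R, star (S 1) * S 1, hR1, ?_,
    claim8, ?_, ?_⟩
  · rw [star_mul, star_star]
  · have h : (fun b => R b * (star (S 1) * S 1)) = fun b => star (S 1) * S b := funext claim7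
    rw [h]
    exact continuous_const.mul claim4
  · intro h
    have h1 : star (S 1) * (S b₀ - S 1) = 0 := by
      rw [mul_sub, ← claim7, h, sub_self]
    have h2 : S b₀ - S 1 = S 1 * (R b₀ - 1) := by
      rw [← claim1 b₀, claim2, mul_sub, mul_one]
    have h3 : star (S b₀ - S 1) * (S b₀ - S 1) = 0 := by
      conv_lhs => rw [h2]
      rw [star_mul, mul_assoc, ← h2, h1, mul_zero]
    have h4 : S b₀ - S 1 = 0 := CStarRing.star_mul_self_eq_zero_iff _ |>.mp h3
    exact claim5 (sub_eq_zero.mp h4)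

end Pool.Agent.Nil820

end
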