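import Mathlib

/-! # Piece PW1B: a character from commuting operators (Gelfand theory) -/

open scoped ComplexConjugate Topology

namespace Pool.Agent.Nil820

private theorem pw1b_exists_char {A : Type} [CommCStarAlgebra A] {x : A} (hx : x ≠ 0) :
    ∃ φ : A →⋆ₐ[ℂ] ℂ, Continuous φ ∧ φ x ≠ 0 := by
  have h1 : ‖WeakDual.gelfandTransform ℂ A x‖ = ‖x‖ := by
    have := (gelfandTransform_isometry A).norm_map_of_map_zero (map_zero _) x
    exact this
  have h2 : WeakDual.gelfandTransform ℂ A x ≠ 0 := by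
    intro h
    rw [h, norm_zero] at h1
    exact hx (norm_eq_zero.mp h1.symm)
  obtain ⟨φ, hφ⟩ : ∃ φ : WeakDual.characterSpace ℂ A, WeakDual.gelfandTransform ℂ A x φ ≠ 0 := by
    by_contra hcon
    push Not at hcon
    exact h2 (ContinuousMap.ext hcon)
  refine ⟨{ toFun := φ, map_one' := map_one φ, map_mul' := map_mul φ, map_zero' := map_zero φ,
            map_add' := map_add φ, commutes' := fun r => ?_, map_star' := map_star φ },
    map_continuous φ, hφ⟩
  exact AlgHomClass.commutes φ r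

private theorem pw1b_exists_char_sub {A : Type} [CStarAlgebra A] (S : StarSubalgebra ℂ A)
    (hS : IsClosed (S : Set A)) (hc : ∀ x ∈ S, ∀ y ∈ S, x * y = y * x) {x : A} (hxS : x ∈ S)
    (hx : x ≠ 0) : ∃ φ : S →⋆ₐ[ℂ] ℂ, Continuous φ ∧ φ ⟨x, hxS⟩ ≠ 0 := by
  have : IsClosed (S : Set A) := hS
  let i1 : CStarAlgebra S := StarSubalgebra.cstarAlgebra S
  let i2 : CommCStarAlgebra S := { i1 with
    mul_comm := fun a b => Subtype.ext (hc a a.2 b b.2) }
  have hx' : (⟨x, hxS⟩ : S) ≠ 0 := fun h => hx (congrArg Subtype.val h)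
  exact pw1b_exists_char hx'

/-- **PW1B.** Proof. The set `s = range R ∪ {T}` is commuting and closed under `star`
(`B` abelian, `star (R b) = R b⁻¹`, `star T = T`). Let `𝒜` be the closure of the star subalgebra
generated by `s` (`StarSubalgebra.topologicalClosure (StarAlgebra.adjoin ℂ s)`), a commutative
C⋆-algebra (`StarAlgebra.adjoinCommRingOfComm`, `StarSubalgebra.commRingTopologicalClosure` or
similar; or take for `𝒜` the double centralizer of `s`: `StarSubalgebra.centralizer ℂ _`, which is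
closed and commutative). The element `x = R b₀ * T - T ∈ 𝒜` is nonzero, so by the Gelfand isometry
(`gelfandTransform_isometry`; or: `x` is normal so its spectral radius is `‖x‖ ≠ 0` and the spectrum
in a commutative Banach algebra is the set of values of characters) there is a character
`φ ∈ characterSpace ℂ 𝒜` with `φ x ≠ 0`, so `φ T * (φ (R b₀) - 1) ≠ 0`: `φ T ≠ 0`, `φ (R b₀) ≠ 1`.
Put `χ b = φ (R b)`, multiplicative; `‖χ b‖ = 1` since `χ b * χ b⁻¹ = 1` and
`χ b⁻¹ = φ (star (R b)) = conj (χ b)` (characters of a C⋆-algebra are star homomorphisms).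
Continuity: `χ b = φ (R b * T) / φ T`, and `b ↦ R b * T` is norm continuous, `φ` is continuous. -/
theorem exists_char_of_operators {B : Type} [CommGroup B] [TopologicalSpace B]
    {H : Type} [NormedAddCommGroup H] [InnerProductSpace ℂ H] [CompleteSpace H]
    (R : B →* (H →L[ℂ] H)) (T : H →L[ℂ] H) (h1 : ∀ b, star (R b) = R b⁻¹) (h2 : star T = T)
    (h3 : ∀ b, R b * T = T * R b) (h4 : Continuous (fun b => R b * T)) {b₀ : B}
    (h5 : R b₀ * T ≠ T) :
    ∃ χ : B →* ℂ, Continuous χ ∧ (∀ x, ‖χ x‖ = 1) ∧ χ b₀ ≠ 1 := by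
  set s : Set (H →L[ℂ] H) := Set.range R ∪ {T} with hs
  have hcomm : ∀ a ∈ s, ∀ b ∈ s, a * b = b * a := by
    rintro _ (⟨a, rfl⟩ | rfl) _ (⟨b, rfl⟩ | rfl)
    · rw [← map_mul, mul_comm, map_mul]
    · exact h3 a
    · exact (h3 b).symm
    · rfl
  have hstar : ∀ a ∈ s, star a ∈ s := by
    rintro _ (⟨a, rfl⟩ | rfl)
    · exact Or.inl ⟨a⁻¹, (h1 a).symm⟩
    · exact Or.inr h2
  set C1 : StarSubalgebra ℂ (H →L[ℂ] H) := StarSubalgebra.centralizer ℂ s with hC1
  set C2 : StarSubalgebra ℂ (H →L[ℂ] H) := StarSubalgebra.centralizer ℂ (C1 : Set (H →L[ℂ] H))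
    with hC2
  have hm1 : ∀ z, z ∈ C1 ↔ ∀ g ∈ s, g * z = z * g ∧ star g * z = z * star g := fun z =>
    StarSubalgebra.mem_centralizer_iff ℂ
  have hm2 : ∀ z, z ∈ C2 ↔ ∀ g ∈ C1, g * z = z * g ∧ star g * z = z * star g := fun z =>
    StarSubalgebra.mem_centralizer_iff ℂ
  have hsC1 : ∀ a ∈ s, a ∈ C1 := fun a ha => (hm1 a).mpr fun g hg =>
    ⟨hcomm g hg a ha, hcomm _ (hstar g hg) a ha⟩
  have hsC2 : ∀ a ∈ s, a ∈ C2 := fun a ha => (hm2 a).mpr fun g hg =>
    ⟨(((hm1 g).mp hg) a ha).1.symm, (((hm1 (star g)).mp (star_mem hg)) a ha).1.symm⟩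
  have hC2C1 : ∀ a ∈ C2, a ∈ C1 := fun a ha => (hm1 a).mpr fun g hg =>
    (hm2 a).mp ha g (hsC1 g hg)
  have hcomm2 : ∀ x ∈ C2, ∀ y ∈ C2, x * y = y * x := fun x hx y hy =>
    (((hm2 y).mp hy) x (hC2C1 x hx)).1
  have hclosed : IsClosed (C2 : Set (H →L[ℂ] H)) := by
    have : (C2 : Set (H →L[ℂ] H)) = ⋂ g ∈ (C1 : Set (H →L[ℂ] H)),
        {z | g * z = z * g ∧ star g * z = z * star g} := by
      ext z
      simp only [Set.mem_iInter, Set.mem_ofPred_eq]
      exact hm2 z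
    rw [this]
    refine isClosed_biInter fun g _ => ?_
    exact (isClosed_eq (continuous_const.mul continuous_id) (continuous_id.mul continuous_const)).inter
      (isClosed_eq (continuous_const.mul continuous_id) (continuous_id.mul continuous_const))
  have hRm : ∀ b, R b ∈ C2 := fun b => hsC2 _ (Or.inl ⟨b, rfl⟩)
  have hTm : T ∈ C2 := hsC2 _ (Or.inr rfl)
  have hxm : R b₀ * T - T ∈ C2 := sub_mem (mul_mem (hRm b₀) hTm) hTm
  obtain ⟨φ, hφc, hφ⟩ := pw1b_exists_char_sub C2 hclosed hcomm2 hxm (sub_ne_zero.mpr h5)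
  set ρ : B → C2 := fun b => ⟨R b, hRm b⟩ with hρ
  set τ : C2 := ⟨T, hTm⟩ with hτ
  have hx : (⟨R b₀ * T - T, hxm⟩ : C2) = ρ b₀ * τ - τ := rfl
  rw [hx, map_sub, map_mul] at hφ
  have hφT : φ τ ≠ 0 := by
    intro h
    rw [h] at hφ
    simp at hφ
  have hφR : φ (ρ b₀) ≠ 1 := by
    intro h
    rw [h] at hφ
    simp at hφ
  have hone : ρ 1 = 1 := Subtype.ext (map_one R)
  have hmul : ∀ a b, ρ (a * b) = ρ a * ρ b := fun a b => Subtype.ext (map_mul R a b)
  refine ⟨{ toFun := fun b => φ (ρ b), map_one' := by rw [hone, map_one],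
            map_mul' := fun a b => by rw [hmul, map_mul] }, ?_, ?_, hφR⟩
  · have h6 : (fun b => φ (ρ b)) = fun b => φ (ρ b * τ) / φ τ := by
      funext b
      rw [map_mul, mul_div_cancel_right₀ _ hφT]
    change Continuous (fun b => φ (ρ b))
    rw [h6]
    refine Continuous.div_const (hφc.comp ?_) _
    exact Continuous.subtype_mk h4 _
  · intro b
    change ‖φ (ρ b)‖ = 1
    have h7 : star (ρ b) = ρ b⁻¹ := Subtype.ext (h1 b)
    have h8 : φ (ρ b) * φ (ρ b⁻¹) = 1 := by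
      rw [← map_mul, ← hmul, mul_inv_cancel, hone, map_one]
    have h9 : φ (ρ b⁻¹) = star (φ (ρ b)) := by rw [← h7, map_star]
    rw [h9] at h8
    have h10 : ‖φ (ρ b) * star (φ (ρ b))‖ = 1 := by rw [h8, norm_one]
    rw [norm_mul, norm_star] at h10
    nlinarith [norm_nonneg (φ (ρ b))]

end Pool.Agent.Nil820
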