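import Pool.Agent.Lib_MP_820dd4_an.Bary1
import Pool.Agent.Lib_MP_820dd4_an.PW1a
import Pool.Agent.Lib_MP_820dd4_an.PW1b

/-! ### Part `Vert1` -/

section

/-! # Piece VERT1: the compact abelian group `fil J / closure (fil (J+1) (Γ ∩ fil J))` -/

open scoped ComplexConjugate Topology

namespace Pool.Agent.Nil820

/-- the filtration is antitone -/
theorem vert1_anti {G : Type} [Group G] [TopologicalSpace G] {fil : ℕ → Subgroup G}
    {Γ : Subgroup G} (h : NilData fil Γ) : Antitone fil :=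
  antitone_nat_of_succ_le h.anti

/-- A subgroup which contains all commutators is normal. -/
theorem vert1_normal {L : Type} [Group L] (N : Subgroup L)
    (hN : ∀ a b : L, a * b * a⁻¹ * b⁻¹ ∈ N) : N.Normal := by
  refine ⟨fun n hn g => ?_⟩
  have := N.mul_mem (hN g n) hn
  simpa [mul_assoc] using this

/-- **VERT1.** Proof. Let `L = ↥(fil J)` (`J = j + 1`), `N₀ ≤ L` the subgroup generated by
`(fil (J+1)).subgroupOf (fil J)` and `Γ.subgroupOf (fil J)`, `N = N₀.topologicalClosure`.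
`N` is normal in `L` and `L ⧸ N` is commutative since `[L, L] ≤ fil (2 J) ≤ fil (J+1)`
(`h.comm J J`, antitone as `2 J ≥ J + 1`), so every subgroup containing
`(fil (J+1)).subgroupOf (fil J)` is normal with commutative quotient. `B = L ⧸ N` with
`CommGroup` structure from the commutativity, Hausdorff since `N` is closed
(`QuotientGroup.instT3Space`), `π = QuotientGroup.mk' N`, open (`QuotientGroup.isOpenMap_coe`).
Compact: by `h.cocpt J`, `fil J = K (Γ ∩ fil J)`, so `B = π '' K` for the compact set `K` (as a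
subset of `L`; `Subtype.isCompact_iff` or `Topology.IsInducing.isCompact_iff`).
Last claim: the set `{n ∈ L | ∀ c, f (c * n) = f c}` is closed, contains both generating subgroups
and is a subgroup, so it contains `N`; and `π c = π c'` means `c' = c n`, `n ∈ N`. -/
theorem exists_vert_group {G : Type} [Group G] [TopologicalSpace G] [IsTopologicalGroup G]
    [T2Space G] {fil : ℕ → Subgroup G} {Γ : Subgroup G} (h : NilData fil Γ) (j : ℕ) :
    ∃ (B : Type) (_ : CommGroup B) (_ : TopologicalSpace B) (_ : IsTopologicalGroup B)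
      (_ : CompactSpace B) (_ : T2Space B) (π : ↥(fil (j + 1)) →* B), Continuous π ∧
      IsOpenMap π ∧ Function.Surjective π ∧
      ∀ f : ↥(fil (j + 1)) → ℂ, Continuous f →
        (∀ c u : ↥(fil (j + 1)), (u : G) ∈ fil (j + 2) → f (c * u) = f c) →
        (∀ c u : ↥(fil (j + 1)), (u : G) ∈ Γ → f (c * u) = f c) →
        ∀ c c', π c = π c' → f c = f c' := by
  classical
  set N₀ : Subgroup ↥(fil (j + 1)) :=
    (fil (j + 2)).subgroupOf (fil (j + 1)) ⊔ Γ.subgroupOf (fil (j + 1)) with hN₀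
  set N : Subgroup ↥(fil (j + 1)) := N₀.topologicalClosure with hN
  have hN0N : N₀ ≤ N := Subgroup.le_topologicalClosure N₀
  have hcomm : ∀ a b : ↥(fil (j + 1)), a * b * a⁻¹ * b⁻¹ ∈ N := by
    intro a b
    apply hN0N
    apply Subgroup.mem_sup_left
    rw [Subgroup.mem_subgroupOf]
    have h1 := h.comm (j + 1) (j + 1) a a.2 b b.2
    have h2 : fil (j + 1 + (j + 1)) ≤ fil (j + 2) := vert1_anti h (by omega)
    simpa using h2 h1
  have hΓN : ∀ u : ↥(fil (j + 1)), (u : G) ∈ Γ → u ∈ N := by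
    intro u hu
    apply hN0N
    apply Subgroup.mem_sup_right
    rw [Subgroup.mem_subgroupOf]
    exact hu
  haveI hnorm : N.Normal := vert1_normal N hcomm
  have hcl : IsClosed (N : Set ↥(fil (j + 1))) := Subgroup.isClosed_topologicalClosure N₀
  let cg : CommGroup (↥(fil (j + 1)) ⧸ N) :=
    { (inferInstance : Group (↥(fil (j + 1)) ⧸ N)) with
      mul_comm := by
        intro a b
        induction a using QuotientGroup.induction_on with
        | H a =>
          induction b using QuotientGroup.induction_on with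
          | H b =>
            rw [← QuotientGroup.mk_mul, ← QuotientGroup.mk_mul, QuotientGroup.eq]
            have := hcomm b⁻¹ a⁻¹
            simpa [mul_assoc] using this }
  refine ⟨↥(fil (j + 1)) ⧸ N, cg, inferInstance, ?_, ?_, ?_, QuotientGroup.mk' N, ?_, ?_, ?_, ?_⟩
  · exact (inferInstance : IsTopologicalGroup (↥(fil (j + 1)) ⧸ N))
  · obtain ⟨K, hK, hKs, hKc⟩ := h.cocpt (j + 1)
    have hK' : IsCompact ((fun x : ↥(fil (j + 1)) => (x : G)) ⁻¹' K) := by
      rw [Subtype.isCompact_iff]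
      convert hK using 1
      ext x
      constructor
      · rintro ⟨y, hy, rfl⟩
        exact hy
      · intro hx
        exact ⟨⟨x, hKs hx⟩, hx, rfl⟩
    have himg : IsCompact ((QuotientGroup.mk : ↥(fil (j + 1)) → ↥(fil (j + 1)) ⧸ N) ''
        ((fun x : ↥(fil (j + 1)) => (x : G)) ⁻¹' K)) := hK'.image continuous_quot_mk
    refine ⟨?_⟩
    suffices hu : ((QuotientGroup.mk : ↥(fil (j + 1)) → ↥(fil (j + 1)) ⧸ N) ''
        ((fun x : ↥(fil (j + 1)) => (x : G)) ⁻¹' K)) = Set.univ by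
      rw [← hu]
      exact himg
    rw [Set.eq_univ_iff_forall]
    intro b
    induction b using QuotientGroup.induction_on with
    | H c =>
      obtain ⟨k, hk, γ, hγ, hγ', hc⟩ := hKc c c.2
      refine ⟨⟨k, hKs hk⟩, hk, ?_⟩
      rw [QuotientGroup.eq]
      apply hΓN
      simp [hc, hγ]
  · haveI : IsClosed (N : Set ↥(fil (j + 1))) := hcl
    haveI : T3Space (↥(fil (j + 1)) ⧸ N) := QuotientGroup.instT3Space N
    infer_instance
  · exact continuous_quot_mk
  · exact QuotientGroup.isOpenMap_coe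
  · exact QuotientGroup.mk'_surjective N
  · intro f hf h2 hΓ c c' hcc
    have hmem : c⁻¹ * c' ∈ N := by
      have : (QuotientGroup.mk c : ↥(fil (j + 1)) ⧸ N) = QuotientGroup.mk c' := hcc
      rwa [QuotientGroup.eq] at this
    let S : Subgroup ↥(fil (j + 1)) :=
      { carrier := {n | ∀ c, f (c * n) = f c}
        one_mem' := by intro c; simp
        mul_mem' := by
          intro a b ha hb c
          rw [← mul_assoc, hb, ha]
        inv_mem' := by
          intro a ha c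
          have := ha (c * a⁻¹)
          rw [inv_mul_cancel_right] at this
          exact this.symm }
    have hSc : IsClosed (S : Set ↥(fil (j + 1))) := by
      have : (S : Set ↥(fil (j + 1))) = ⋂ c, {n | f (c * n) = f c} := by
        ext n
        simp only [Set.mem_iInter]
        exact Iff.rfl
      rw [this]
      refine isClosed_iInter fun c => isClosed_eq (hf.comp (continuous_const.mul continuous_id)) continuous_const
    have hN0S : N₀ ≤ S := by
      rw [hN₀]
      refine sup_le ?_ ?_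
      · intro u hu c
        exact h2 c u (Subgroup.mem_subgroupOf.1 hu)
      · intro u hu c
        exact hΓ c u (Subgroup.mem_subgroupOf.1 hu)
    have hNS : N ≤ S := Subgroup.topologicalClosure_minimal N₀ hN0S hSc
    have := hNS hmem c
    rw [mul_inv_cancel_left] at this
    exact this.symm

end Pool.Agent.Nil820

end

/-! ### Part `Vert2` -/

section

/-! # Piece VERT2: the function on `𝒦 × G × B` and its averages -/

open scoped ComplexConjugate Topology
open MeasureTheory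

namespace Pool.Agent.Nil820

/-- **VERT2.** Descent of `(κ, x, c) ↦ F κ (x c)` to the compact group `B`.

Proof. For fixed `κ, x` the function `f c = F κ (x * c)` is continuous on `fil (j+1)`, invariant
under right translation by `fil (j+2)` (`hF.deg`) and by `Γ` (`hF.right`), so it factors through
`π` (`hπ`). Define `Ft κ x b = F κ (x * c)` for a chosen `c` with `π c = b`. The map
`id × id × π : 𝒦 × G × fil (j+1) → 𝒦 × G × B` is an open surjective continuous map, hence a quotient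
map (`IsOpenMap.prodMap`, `IsOpenQuotientMap`), and `Ft ∘ (id × id × π) = F κ (x c)` is continuous,
so `Ft` is continuous. -/
theorem exists_Ft {G : Type} [Group G] [TopologicalSpace G] [IsTopologicalGroup G]
    {fil : ℕ → Subgroup G} {Γ : Subgroup G} {𝒦 : Type} [TopologicalSpace 𝒦]
    {g : 𝒦 → G} {F : 𝒦 → G → ℂ} {j : ℕ} {A : Set (ℤ → ℂ)} (hF : NilFam fil Γ g F (j + 1) A)
    {B : Type} [Group B] [TopologicalSpace B] (π : ↥(fil (j + 1)) →* B) (hπc : Continuous π)
    (hπo : IsOpenMap π) (hπs : Function.Surjective π)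
    (hπ : ∀ f : ↥(fil (j + 1)) → ℂ, Continuous f →
        (∀ c u : ↥(fil (j + 1)), (u : G) ∈ fil (j + 2) → f (c * u) = f c) →
        (∀ c u : ↥(fil (j + 1)), (u : G) ∈ Γ → f (c * u) = f c) →
        ∀ c c', π c = π c' → f c = f c') :
    ∃ Ft : 𝒦 → G → B → ℂ, Continuous (fun p : 𝒦 × G × B => Ft p.1 p.2.1 p.2.2) ∧
      ∀ κ x (c : ↥(fil (j + 1))), Ft κ x (π c) = F κ (x * c) := by
  have hfac : ∀ κ x (c c' : ↥(fil (j + 1))), π c = π c' → F κ (x * c) = F κ (x * c') := by
    intro κ x c c' hcc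
    refine hπ (fun c : ↥(fil (j + 1)) => F κ (x * c)) ?_ ?_ ?_ c c' hcc
    · exact hF.contF.comp
        (continuous_const.prodMk (continuous_const.mul continuous_subtype_val))
    · intro c u hu
      show F κ (x * ((c * u : ↥(fil (j + 1))) : G)) = F κ (x * c)
      rw [Subgroup.coe_mul, ← mul_assoc]
      exact hF.deg κ (x * c) u hu
    · intro c u hu
      show F κ (x * ((c * u : ↥(fil (j + 1))) : G)) = F κ (x * c)
      rw [Subgroup.coe_mul, ← mul_assoc]
      exact hF.right κ (x * c) u hu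
  have hval : ∀ κ x (c : ↥(fil (j + 1))),
      F κ (x * (Function.surjInv hπs (π c) : ↥(fil (j + 1)))) = F κ (x * c) := fun κ x c =>
    hfac κ x _ _ (Function.surjInv_eq hπs (π c))
  refine ⟨fun κ x b => F κ (x * (Function.surjInv hπs b : ↥(fil (j + 1)))), ?_, hval⟩
  have hq : IsOpenQuotientMap (Prod.map (id : 𝒦 → 𝒦) (Prod.map (id : G → G) π)) :=
    IsOpenQuotientMap.id.prodMap (IsOpenQuotientMap.id.prodMap ⟨hπs, hπc, hπo⟩)
  rw [hq.isQuotientMap.continuous_iff]
  have e : ((fun p : 𝒦 × G × B => F p.1 (p.2.1 * (Function.surjInv hπs p.2.2 : ↥(fil (j + 1))))) ∘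
      Prod.map (id : 𝒦 → 𝒦) (Prod.map (id : G → G) π)) =
      fun p : 𝒦 × G × ↥(fil (j + 1)) => F p.1 (p.2.1 * p.2.2) := by
    funext p
    exact hval p.1 p.2.1 p.2.2
  rw [e]
  exact hF.contF.comp (continuous_fst.prodMk
    ((continuous_fst.comp continuous_snd).mul
      (continuous_subtype_val.comp (continuous_snd.comp continuous_snd))))

/-- **VERT3.** Invariance properties of `Ft` (all follow from surjectivity of `π` and the
properties of `F`).
(1) `Ft κ (x γ) = Ft κ x` for `γ ∈ Γ`: `F κ (x γ c) = F κ (x c γ [γ⁻¹, c⁻¹])`, precisely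
`γ c = c γ (γ⁻¹ c⁻¹ γ c)` with `γ⁻¹ c⁻¹ γ c ∈ fil (1 + (j+1)) = fil (j+2)` (`h.comm 1 (j+1)`), so
`F κ (x γ c) = F κ (x c γ) = F κ (x c)`.
(2) `Ft κ (x u) = Ft κ x` for `u ∈ fil (j+2)`: `u c = c (c⁻¹ u c)`.
(3) `Ft κ (x c₀) b = Ft κ x (π c₀ * b)` for `c₀ ∈ fil (j+1)`.
(4) `Ft κ x 1 = F κ x`. -/
theorem Ft_props {G : Type} [Group G] [TopologicalSpace G]
    {fil : ℕ → Subgroup G} {Γ : Subgroup G} (h : NilData fil Γ) {𝒦 : Type} [TopologicalSpace 𝒦]
    {g : 𝒦 → G} {F : 𝒦 → G → ℂ} {j : ℕ} {A : Set (ℤ → ℂ)} (hF : NilFam fil Γ g F (j + 1) A)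
    {B : Type} [Group B] (π : ↥(fil (j + 1)) →* B) (hπs : Function.Surjective π)
    {Ft : 𝒦 → G → B → ℂ} (hFt : ∀ κ x (c : ↥(fil (j + 1))), Ft κ x (π c) = F κ (x * c)) :
    (∀ κ x γ, γ ∈ Γ → Ft κ (x * γ) = Ft κ x) ∧
    (∀ κ x u, u ∈ fil (j + 2) → Ft κ (x * u) = Ft κ x) ∧
    (∀ κ x (c : ↥(fil (j + 1))) b, Ft κ (x * c) b = Ft κ x (π c * b)) ∧
    (∀ κ x, Ft κ x 1 = F κ x) := by
  have key : ∀ κ x b, ∃ c : ↥(fil (j + 1)), π c = b ∧ Ft κ x b = F κ (x * c) := by
    intro κ x b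
    obtain ⟨c, rfl⟩ := hπs b
    exact ⟨c, rfl, hFt κ x c⟩
  refine ⟨?_, ?_, ?_, ?_⟩
  · intro κ x γ hγ
    funext b
    obtain ⟨c, rfl⟩ := hπs b
    rw [hFt, hFt]
    have hγ1 : γ⁻¹ ∈ fil 1 := by
      rw [h.one]
      exact Subgroup.mem_top _
    have hc := h.comm 1 (j + 1) γ⁻¹ hγ1 (c : G)⁻¹ (Subgroup.inv_mem _ c.2)
    rw [inv_inv, inv_inv] at hc
    have hc' : γ⁻¹ * (c : G)⁻¹ * γ * c ∈ fil (j + 1 + 1) := by
      have e1 : 1 + (j + 1) = j + 1 + 1 := by omega
      rw [← e1]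
      exact hc
    have e : x * γ * (c : G) = x * c * γ * (γ⁻¹ * (c : G)⁻¹ * γ * c) := by group
    rw [e, hF.deg κ (x * c * γ) _ hc', hF.right κ (x * c) γ hγ]
  · intro κ x u hu
    funext b
    obtain ⟨c, rfl⟩ := hπs b
    rw [hFt, hFt]
    have hc' : (c : G)⁻¹ * u * (c : G) ∈ fil (j + 1 + 1) := by
      have := (h.normal (j + 1 + 1)).conj_mem u hu (c : G)⁻¹
      rwa [inv_inv] at this
    have e : x * u * (c : G) = x * c * ((c : G)⁻¹ * u * (c : G)) := by group
    rw [e, hF.deg κ (x * c) _ hc']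
  · intro κ x c b
    obtain ⟨d, rfl⟩ := hπs b
    rw [← map_mul, hFt, hFt, Subgroup.coe_mul, mul_assoc]
  · intro κ x
    have := hFt κ x 1
    rw [map_one] at this
    rw [this, Subgroup.coe_one, mul_one]

end Pool.Agent.Nil820

end

/-! ### Part `Vert4` -/

section

/-! # Piece VERT4: averages over a compact group; uniform continuity -/

open scoped ComplexConjugate Topology
open MeasureTheory

namespace Pool.Agent.Nil820

/-- auxiliary: an integral over a measurable set covered by finitely many small sets -/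
theorem vert4_aux {A : Set (ℤ → ℂ)} (hA : SeqAlg A) {B : Type} [TopologicalSpace B]
    [MeasurableSpace B] [BorelSpace B] (μ : Measure B) [IsFiniteMeasure μ]
    (Φ : B → ℤ → ℂ) (hm : ∀ b, Φ b ∈ A) (q : B → ℂ) (Q ε : ℝ) (hQ0 : 0 ≤ Q)
    (hQ : ∀ b, ‖q b‖ ≤ Q) (_hε : 0 ≤ ε) (V : B → Set B) (hVo : ∀ b, IsOpen (V b))
    (hV : ∀ b, ∀ b' ∈ V b, ∀ m, ‖Φ b' m - Φ b m‖ ≤ ε)
    (hiq : Integrable q μ) (hiqΦ : ∀ m, Integrable (fun b => q b * Φ b m) μ) (t : Finset B) :
    ∀ S : Set B, MeasurableSet S → (S ⊆ ⋃ x ∈ t, V x) →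
      ∃ g ∈ A, ∀ m, ‖(∫ b in S, q b * Φ b m ∂μ) - g m‖ ≤ Q * ε * μ.real S := by
  classical
  induction t using Finset.induction_on with
  | empty =>
    intro S hS hSt
    have hS0 : S = ∅ := by
      simpa using hSt
    subst hS0
    refine ⟨fun _ => 0, hA.const 0, fun m => ?_⟩
    simp
  | insert a t ha ih =>
    intro S hS hSt
    have hVm : MeasurableSet (V a) := (hVo a).measurableSet
    have hS1 : MeasurableSet (S ∩ V a) := hS.inter hVm
    have hS2 : MeasurableSet (S \ V a) := hS.diff hVm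
    obtain ⟨g, hgA, hg⟩ := ih (S \ V a) hS2 (by
      intro x hx
      have := hSt hx.1
      simp only [Finset.mem_insert, Set.iUnion_iUnion_eq_or_left, Set.mem_union] at this
      rcases this with h | h
      · exact absurd h hx.2
      · exact h)
    refine ⟨fun m => (∫ b in S ∩ V a, q b ∂μ) * Φ a m + g m,
      hA.add _ (hA.mul _ (hA.const _) _ (hm a)) _ hgA, fun m => ?_⟩
    have hsplit : (∫ b in S, q b * Φ b m ∂μ) =
        (∫ b in S ∩ V a, q b * Φ b m ∂μ) + ∫ b in S \ V a, q b * Φ b m ∂μ :=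
      (integral_inter_add_sdiff hVm (hiqΦ m).integrableOn).symm
    have hmeas : μ.real S = μ.real (S ∩ V a) + μ.real (S \ V a) :=
      (measureReal_inter_add_sdiff hVm).symm
    have h1 : ‖(∫ b in S ∩ V a, q b * Φ b m ∂μ) - (∫ b in S ∩ V a, q b ∂μ) * Φ a m‖
        ≤ Q * ε * μ.real (S ∩ V a) := by
      rw [← integral_mul_const, ← integral_sub (hiqΦ m).integrableOn
        (hiq.integrableOn.mul_const _)]
      refine norm_setIntegral_le_of_norm_le_const (measure_lt_top _ _) fun b hb => ?_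
      rw [← mul_sub, norm_mul]
      exact mul_le_mul (hQ b) (hV a b hb.2 m) (norm_nonneg _) hQ0
    calc ‖(∫ b in S, q b * Φ b m ∂μ) - ((∫ b in S ∩ V a, q b ∂μ) * Φ a m + g m)‖
        = ‖((∫ b in S ∩ V a, q b * Φ b m ∂μ) - (∫ b in S ∩ V a, q b ∂μ) * Φ a m) +
            ((∫ b in S \ V a, q b * Φ b m ∂μ) - g m)‖ := by
          rw [hsplit]; ring_nf
      _ ≤ Q * ε * μ.real (S ∩ V a) + Q * ε * μ.real (S \ V a) :=
          (norm_add_le _ _).trans (add_le_add h1 (hg m))
      _ = Q * ε * μ.real S := by rw [hmeas]; ring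

/-- **VERT4.** A continuous average of elements of `A` is in `A`.

Proof. `hA.closed`: let `ε > 0`. By compactness cover `B` by finitely many open sets `U_1, ..., U_n`
with points `b_i` such that `‖Φ b m - Φ b_i m‖ ≤ ε` for all `b ∈ U_i` and all `m` (`hΦ`). Let
`E_i = U_i \ (U_1 ∪ ... ∪ U_{i-1})`, measurable, disjoint, covering `B`. Then
`‖∫ q b * Φ b m dμ - ∑_i (∫_{E_i} q dμ) * Φ b_i m‖ ≤ ∑_i ∫_{E_i} ‖q‖ ‖Φ b m - Φ b_i m‖ ≤ Q μ(B) ε`
where `Q` bounds `q`; and the sum is in `A` (`hA.mul`, `hA.const`, `hA.add`). (`b ↦ Φ b m` is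
continuous by `hΦ`, so everything is integrable.) -/
theorem SeqAlg.integral_mem {A : Set (ℤ → ℂ)} (hA : SeqAlg A) {B : Type} [TopologicalSpace B]
    [CompactSpace B] [MeasurableSpace B] [BorelSpace B] (μ : Measure B) [IsFiniteMeasure μ]
    (Φ : B → ℤ → ℂ) (hm : ∀ b, Φ b ∈ A)
    (hΦ : ∀ b, ∀ ε > 0, ∃ U ∈ 𝓝 b, ∀ b' ∈ U, ∀ m, ‖Φ b' m - Φ b m‖ ≤ ε)
    (q : B → ℂ) (hq : Continuous q) :
    (fun m => ∫ b, q b * Φ b m ∂μ) ∈ A := by
  have hΦc : ∀ m, Continuous (fun b => Φ b m) := by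
    intro m
    rw [Metric.continuous_iff']
    intro b ε hε
    obtain ⟨U, hU, h⟩ := hΦ b (ε / 2) (by positivity)
    filter_upwards [hU] with b' hb'
    rw [dist_eq_norm]
    exact lt_of_le_of_lt (h b' hb' m) (by linarith)
  have hint : ∀ f : B → ℂ, Continuous f → Integrable f μ := by
    intro f hf
    obtain ⟨C, hC⟩ := isCompact_univ.exists_bound_of_continuousOn hf.continuousOn
    exact Integrable.of_bound hf.aestronglyMeasurable C
      (Filter.Eventually.of_forall fun b => hC b (Set.mem_univ _))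
  have hiq : Integrable q μ := hint q hq
  have hiqΦ : ∀ m, Integrable (fun b => q b * Φ b m) μ := fun m => hint _ (hq.mul (hΦc m))
  obtain ⟨Q, hQ⟩ : ∃ Q : ℝ, 0 ≤ Q ∧ ∀ b, ‖q b‖ ≤ Q := by
    obtain ⟨C, hC⟩ := isCompact_univ.exists_bound_of_continuousOn hq.continuousOn
    exact ⟨max C 0, le_max_right _ _, fun b => (hC b (Set.mem_univ _)).trans (le_max_left _ _)⟩
  refine hA.closed _ fun ε hε => ?_
  set δ : ℝ := ε / (Q * μ.real Set.univ + 1) with hδ
  have hden : 0 < Q * μ.real Set.univ + 1 := by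
    have := mul_nonneg hQ.1 (measureReal_nonneg (μ := μ) (s := Set.univ))
    linarith
  have hδ0 : 0 < δ := div_pos hε hden
  choose U hU hUb using fun b => hΦ b δ hδ0
  obtain ⟨t, ht⟩ := (isCompact_univ (X := B)).elim_nhds_subcover (fun b => interior (U b))
    (fun b _ => interior_mem_nhds.2 (hU b))
  obtain ⟨g, hgA, hg⟩ := vert4_aux hA μ Φ hm q Q δ hQ.1 hQ.2 hδ0.le (fun b => interior (U b))
    (fun b => isOpen_interior) (fun b b' hb' m => hUb b b' (interior_subset hb') m)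
    hiq hiqΦ t Set.univ MeasurableSet.univ ht.2
  refine ⟨g, hgA, fun m => ?_⟩
  have h := hg m
  rw [Measure.restrict_univ] at h
  refine h.trans ?_
  have hle : Q * μ.real Set.univ ≤ Q * μ.real Set.univ + 1 := by linarith
  calc Q * δ * μ.real Set.univ = δ * (Q * μ.real Set.univ) := by ring
    _ ≤ δ * (Q * μ.real Set.univ + 1) := mul_le_mul_of_nonneg_left hle hδ0.le
    _ = ε := by rw [hδ]; field_simp

/-- **VERT5.** Uniform continuity in `b` over all of `𝒦 × G`.

Proof. For `x ∈ G` write `x = k γ`; `Ft κ x = Ft κ k`, so it is enough to consider `x ∈ K`. The set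
`{(κ, k, b') | ‖Ft κ k b' - Ft κ k b‖ < ε} ⊆ 𝒦 × K × B` is open and contains `𝒦 × K × {b}`, which is
compact; tube lemma (`generalized_tube_lemma`, or `IsCompact` and `Continuous` as in
`exists_nhds_...`). -/
theorem Ft_unif {G : Type} [Group G] [TopologicalSpace G]
    {Γ : Subgroup G} {𝒦 : Type} [TopologicalSpace 𝒦] [CompactSpace 𝒦] {K : Set G}
    (hK : IsCompact K) (hcov : ∀ c : G, ∃ k ∈ K, ∃ γ ∈ Γ, c = k * γ)
    {B : Type} [TopologicalSpace B] {Ft : 𝒦 → G → B → ℂ}
    (hc : Continuous (fun p : 𝒦 × G × B => Ft p.1 p.2.1 p.2.2))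
    (hΓ : ∀ κ x γ, γ ∈ Γ → Ft κ (x * γ) = Ft κ x) (b : B) {ε : ℝ} (hε : 0 < ε) :
    ∃ U ∈ 𝓝 b, ∀ b' ∈ U, ∀ κ x, ‖Ft κ x b' - Ft κ x b‖ ≤ ε := by
  -- the open set of good points in `(𝒦 × G) × B`
  have hcont1 : Continuous (fun p : (𝒦 × G) × B => Ft p.1.1 p.1.2 p.2) :=
    hc.comp ((continuous_fst.comp continuous_fst).prodMk
      ((continuous_snd.comp continuous_fst).prodMk continuous_snd))
  have hcont2 : Continuous (fun p : (𝒦 × G) × B => Ft p.1.1 p.1.2 b) :=
    hc.comp ((continuous_fst.comp continuous_fst).prodMk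
      ((continuous_snd.comp continuous_fst).prodMk continuous_const))
  have hopen : IsOpen {p : (𝒦 × G) × B | ‖Ft p.1.1 p.1.2 p.2 - Ft p.1.1 p.1.2 b‖ < ε} :=
    isOpen_lt (hcont1.sub hcont2).norm continuous_const
  have hcomp : IsCompact ((Set.univ : Set 𝒦) ×ˢ K) := isCompact_univ.prod hK
  obtain ⟨u, v, hu, hv, hsu, hbv, huv⟩ := generalized_tube_lemma hcomp
    (isCompact_singleton (x := b)) hopen (by
      rintro ⟨⟨κ, k⟩, b'⟩ ⟨_, hb'⟩
      have hb'' : b' = b := hb'
      subst hb''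
      simpa using hε)
  refine ⟨v, hv.mem_nhds (hbv rfl), fun b' hb' κ x => ?_⟩
  obtain ⟨k, hk, γ, hγ, rfl⟩ := hcov x
  rw [hΓ κ k γ hγ]
  have : ((κ, k), b') ∈ u ×ˢ v := ⟨hsu ⟨Set.mem_univ _, hk⟩, hb'⟩
  exact (huv this).le

/-- **VERT6.** Boundedness: `Ft` is bounded (compactness of `𝒦 × K × B`). -/
theorem Ft_bdd {G : Type} [Group G] [TopologicalSpace G]
    {Γ : Subgroup G} {𝒦 : Type} [TopologicalSpace 𝒦] [CompactSpace 𝒦] {K : Set G}
    (hK : IsCompact K) (hcov : ∀ c : G, ∃ k ∈ K, ∃ γ ∈ Γ, c = k * γ)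
    {B : Type} [TopologicalSpace B] [CompactSpace B] {Ft : 𝒦 → G → B → ℂ}
    (hc : Continuous (fun p : 𝒦 × G × B => Ft p.1 p.2.1 p.2.2))
    (hΓ : ∀ κ x γ, γ ∈ Γ → Ft κ (x * γ) = Ft κ x) :
    ∃ C : ℝ, ∀ κ x b, ‖Ft κ x b‖ ≤ C := by
  have hcomp : IsCompact ((Set.univ : Set 𝒦) ×ˢ (K ×ˢ (Set.univ : Set B))) :=
    isCompact_univ.prod (hK.prod isCompact_univ)
  obtain ⟨C, hC⟩ := hcomp.exists_bound_of_continuousOn hc.continuousOn
  refine ⟨C, fun κ x b => ?_⟩
  obtain ⟨k, hk, γ, hγ, rfl⟩ := hcov x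
  rw [hΓ κ k γ hγ]
  exact hC (κ, k, b) ⟨Set.mem_univ _, hk, Set.mem_univ _⟩

end Pool.Agent.Nil820

end

/-! ### Part `Vert7` -/

section

/-! # Piece VERT7: the vertical Fourier components -/

open scoped ComplexConjugate Topology
open MeasureTheory

namespace Pool.Agent.Nil820

private theorem integrable_of_cont {B : Type} [TopologicalSpace B] [CompactSpace B]
    [MeasurableSpace B] [BorelSpace B] (μ : Measure B) [IsFiniteMeasure μ] {f : B → ℂ}
    (hf : Continuous f) : Integrable f μ :=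
  hf.integrable_of_hasCompactSupport (HasCompactSupport.of_compactSpace f)

private theorem continuous_int {B : Type} [TopologicalSpace B] [CompactSpace B]
    [MeasurableSpace B] [BorelSpace B] (μ : Measure B) [IsFiniteMeasure μ] :
    Continuous (fun f : C(B, ℂ) => ∫ b, f b ∂μ) := by
  refine (LipschitzWith.of_dist_le_mul (K := ⟨μ.real Set.univ, measureReal_nonneg⟩) ?_).continuous
  intro f g
  rw [dist_eq_norm, ← integral_sub (integrable_of_cont μ f.continuous)
    (integrable_of_cont μ g.continuous)]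
  have h1 : ∀ b, ‖f b - g b‖ ≤ dist f g := by
    intro b
    rw [← dist_eq_norm]
    exact ContinuousMap.dist_apply_le_dist b
  calc ‖∫ b, (f b - g b) ∂μ‖ ≤ dist f g * μ.real Set.univ :=
        norm_integral_le_of_norm_le_const (Filter.Eventually.of_forall h1)
    _ = _ := by rw [mul_comm]; rfl

private theorem continuous_param {X B : Type} [TopologicalSpace X] [TopologicalSpace B]
    [CompactSpace B] [MeasurableSpace B] [BorelSpace B] (μ : Measure B) [IsFiniteMeasure μ]
    {f : X → B → ℂ} (hf : Continuous (fun p : X × B => f p.1 p.2)) :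
    Continuous (fun x => ∫ b, f x b ∂μ) := by
  let Φ : X → C(B, ℂ) := fun x => ⟨fun b => f x b, hf.comp (by fun_prop : Continuous (fun b : B => (x, b)))⟩
  have hΦ : Continuous Φ := by
    apply ContinuousMap.continuous_of_continuous_uncurry
    exact hf
  exact (continuous_int μ).comp hΦ

private theorem conj_char_inv {B : Type} [CommGroup B] (χ : B →* ℂ) (hχ1 : ∀ b, ‖χ b‖ = 1) (u : B) :
    conj (χ u⁻¹) = χ u := by
  have h1 : χ u⁻¹ * χ u = 1 := by rw [← map_mul, inv_mul_cancel, map_one]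
  have h2 : conj (χ u⁻¹) * χ u⁻¹ = 1 := by
    rw [← Complex.normSq_eq_conj_mul_self, Complex.normSq_eq_norm_sq, hχ1]
    simp
  have h3 : χ u⁻¹ ≠ 0 := by
    intro h
    rw [h, zero_mul] at h1
    exact zero_ne_one h1
  apply mul_right_cancel₀ h3
  rw [h2, mul_comm, h1]

/-- **VERT7.** The vertical Fourier component of a family is a family with a vertical character.

Proof. Use `Ft_props`, `Ft_unif`, `Ft_bdd` (with the compact set `K` of `h.cocpt 1`,
`fil 1 = ⊤`).
* `contF`: `continuous_of_dominated` (bound: `Ft_bdd`; `‖conj (χ b)‖ = 1`) or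
  `continuous_parametric_integral_of_continuous`; if first countability is a problem, use the
  compactness of `B`: for a compact measure space `∫` is continuous on `C(B, ℂ)` and
  `(κ, x) ↦ (b ↦ Ft κ x b)` is continuous into `C(B, ℂ)` (`ContinuousMap.curry`).
* `right`, `deg`: `Ft_props` (1), (2).
* `adapt`: `hA.integral_mem` with `Φ b m = Ft κ' (v g_κ^m x) b`, `q b = conj (χ b)`; for `b = π c`,
  `Φ b = (m ↦ F κ' (v g_κ^m (x c))) ∈ A` by `hF.adapt`; `hΦ` by `Ft_unif`; then multiply by `z`.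
* vertical character: `χ' c = χ (π ⟨c, _⟩)` for `c ∈ fil (j+1)`, `1` otherwise. By `Ft_props` (3) and
  invariance of `μ` (`integral_mul_left_eq_self`),
  `∫ conj (χ b) Ft κ (x c) b = ∫ conj (χ b) Ft κ x (π c * b) = ∫ conj (χ ((π c)⁻¹ * b)) Ft κ x b
  = χ (π c) ∫ conj (χ b) Ft κ x b`, because `conj (χ ((π c)⁻¹)) = χ (π c)` (norm one). -/
theorem fourier_fam {G : Type} [Group G] [TopologicalSpace G] [IsTopologicalGroup G]
    {fil : ℕ → Subgroup G} {Γ : Subgroup G} (h : NilData fil Γ) {𝒦 : Type} [TopologicalSpace 𝒦]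
    [CompactSpace 𝒦] {g : 𝒦 → G} {F : 𝒦 → G → ℂ} {j : ℕ} {A : Set (ℤ → ℂ)} (hA : SeqAlg A)
    (hF : NilFam fil Γ g F (j + 1) A)
    {B : Type} [CommGroup B] [TopologicalSpace B] [IsTopologicalGroup B] [CompactSpace B]
    [T2Space B] [MeasurableSpace B] [BorelSpace B] (μ : Measure B) [μ.IsHaarMeasure]
    [IsProbabilityMeasure μ]
    (π : ↥(fil (j + 1)) →* B) (hπs : Function.Surjective π)
    {Ft : 𝒦 → G → B → ℂ} (hc : Continuous (fun p : 𝒦 × G × B => Ft p.1 p.2.1 p.2.2))
    (hFt : ∀ κ x (c : ↥(fil (j + 1))), Ft κ x (π c) = F κ (x * c))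
    (χ : B →* ℂ) (hχ : Continuous χ) (hχ1 : ∀ b, ‖χ b‖ = 1) (z : ℂ) :
    NilFam fil Γ g (fun κ x => z * ∫ b, conj (χ b) * Ft κ x b ∂μ) (j + 1) A ∧
      ∃ χ' : G → ℂ, VertChar fil (fun κ x => z * ∫ b, conj (χ b) * Ft κ x b ∂μ) (j + 1) χ' := by
  classical
  obtain ⟨p1, p2, p3, p4⟩ := Ft_props h hF π hπs hFt
  obtain ⟨K, hK, _, hcov⟩ := h.cocpt 1
  have hcov' : ∀ c : G, ∃ k ∈ K, ∃ γ ∈ Γ, c = k * γ := by
    intro c
    obtain ⟨k, hk, γ, hγ, _, h4⟩ := hcov c (by rw [h.one]; exact Subgroup.mem_top c)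
    exact ⟨k, hk, γ, hγ, h4⟩
  have hχc : Continuous (fun b => conj (χ b)) := Complex.continuous_conj.comp hχ
  refine ⟨⟨hF.contg, ?_, ?_, ?_, ?_⟩, ?_⟩
  · apply continuous_const.mul
    apply continuous_param μ (X := 𝒦 × G) (f := fun p b => conj (χ b) * Ft p.1 p.2 b)
    apply Continuous.mul
    · exact hχc.comp continuous_snd
    · exact hc.comp (by fun_prop : Continuous (fun p : (𝒦 × G) × B => (p.1.1, p.1.2, p.2)))
  · intro κ x γ hγ
    simp only [p1 κ x γ hγ]
  · intro κ x c hc'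
    simp only [p2 κ x c hc']
  · intro κ κ' v x
    apply hA.cmul z
    apply hA.integral_mem μ (fun b m => Ft κ' (v * (g κ) ^ m * x) b) _ _ _ hχc
    · intro b
      obtain ⟨c, rfl⟩ := hπs b
      have h1 := hF.adapt κ κ' v (x * c)
      convert h1 using 2 with m
      rw [hFt, mul_assoc (v * g κ ^ m)]
    · intro b ε hε
      obtain ⟨U, hU, hU2⟩ := Ft_unif hK hcov' hc p1 b hε
      exact ⟨U, hU, fun b' hb' m => hU2 b' hb' κ' _⟩
  · refine ⟨fun c => if hc' : c ∈ fil (j + 1) then χ (π ⟨c, hc'⟩) else 1, ?_, ?_⟩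
    · intro c hc'
      simp only [hc', dif_pos, hχ1]
    · intro κ x c hc'
      simp only [hc', dif_pos]
      set u : B := π ⟨c, hc'⟩ with hu
      have e1 : ∀ b, Ft κ (x * c) b = Ft κ x (u * b) := fun b => p3 κ x ⟨c, hc'⟩ b
      have e2 : (∫ b, conj (χ b) * Ft κ (x * c) b ∂μ) =
          ∫ b, (fun b' => conj (χ (u⁻¹ * b')) * Ft κ x b') (u * b) ∂μ := by
        apply integral_congr_ae
        apply Filter.Eventually.of_forall
        intro b
        simp only [e1, inv_mul_cancel_left]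
      rw [e2, integral_mul_left_eq_self (fun b' => conj (χ (u⁻¹ * b')) * Ft κ x b') u]
      have e3 : ∀ b, conj (χ (u⁻¹ * b)) * Ft κ x b = χ u * (conj (χ b) * Ft κ x b) := by
        intro b
        rw [map_mul, map_mul, conj_char_inv χ hχ1]
        ring
      simp only [e3]
      rw [integral_const_mul]
      ring

end Pool.Agent.Nil820

end

/-! ### Part `PW2` -/

section

/-! # Piece PW2: trigonometric polynomials are dense on compact abelian groups -/

open scoped ComplexConjugate Topology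

namespace Pool.Agent.Nil820

theorem exists_char_ne_one {B : Type} [CommGroup B] [TopologicalSpace B] [IsTopologicalGroup B]
    [CompactSpace B] [T2Space B] {b₀ : B} (hb : b₀ ≠ 1) :
    ∃ χ : B →* ℂ, Continuous χ ∧ (∀ x, ‖χ x‖ = 1) ∧ χ b₀ ≠ 1 := by
  obtain ⟨H, i1, i2, i3, R, T, h1, h2, h3, h4, h5⟩ := exists_operators hb
  exact exists_char_of_operators R T h1 h2 h3 h4 h5

/-- The functions that are finite linear combinations of continuous unitary characters. -/
def IsTrigPoly {B : Type} [CommGroup B] [TopologicalSpace B] (f : C(B, ℂ)) : Prop :=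
  ∃ (ι : Type) (_ : Fintype ι) (c : ι → ℂ) (χ : ι → B →* ℂ), (∀ i, Continuous (χ i)) ∧
    (∀ i x, ‖χ i x‖ = 1) ∧ ∀ x, f x = ∑ i, c i * χ i x

/-- The star subalgebra of trigonometric polynomials. -/
def trigSubalgebra (B : Type) [CommGroup B] [TopologicalSpace B] : StarSubalgebra ℂ C(B, ℂ) where
  carrier := {f | IsTrigPoly f}
  mul_mem' := by
    rintro f g ⟨ι, _, c, χ, h1, h2, h3⟩ ⟨κ, _, d, ψ, k1, k2, k3⟩
    refine ⟨ι × κ, inferInstance, fun p => c p.1 * d p.2, fun p => χ p.1 * ψ p.2, ?_, ?_, ?_⟩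
    · intro p
      exact (h1 p.1).mul (k1 p.2)
    · intro p x
      rw [MonoidHom.mul_apply, norm_mul, h2, k2, one_mul]
    · intro x
      rw [ContinuousMap.mul_apply, h3, k3, Finset.sum_mul_sum, Fintype.sum_prod_type]
      refine Finset.sum_congr rfl fun i _ => Finset.sum_congr rfl fun j _ => ?_
      rw [MonoidHom.mul_apply]
      ring
  add_mem' := by
    rintro f g ⟨ι, _, c, χ, h1, h2, h3⟩ ⟨κ, _, d, ψ, k1, k2, k3⟩
    refine ⟨ι ⊕ κ, inferInstance, Sum.elim c d, Sum.elim χ ψ, ?_, ?_, ?_⟩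
    · rintro (i | j)
      · exact h1 i
      · exact k1 j
    · rintro (i | j) x
      · exact h2 i x
      · exact k2 j x
    · intro x
      rw [ContinuousMap.add_apply, h3, k3, Fintype.sum_sum_type]
      rfl
  algebraMap_mem' := by
    intro r
    refine ⟨Unit, inferInstance, fun _ => r, fun _ => 1, ?_, ?_, ?_⟩
    · intro _
      exact continuous_const
    · intro _ x
      simp
    · intro x
      simp [Algebra.algebraMap_eq_smul_one]
  star_mem' := by
    rintro f ⟨ι, _, c, χ, h1, h2, h3⟩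
    refine ⟨ι, inferInstance, fun i => conj (c i),
      fun i => ((starRingEnd ℂ : ℂ →+* ℂ) : ℂ →* ℂ).comp (χ i), ?_, ?_, ?_⟩
    · intro i
      exact Complex.continuous_conj.comp (h1 i)
    · intro i x
      show ‖conj (χ i x)‖ = 1
      rw [RCLike.norm_conj, h2]
    · intro x
      show conj (f x) = ∑ i, conj (c i) * conj (χ i x)
      rw [h3, map_sum]
      refine Finset.sum_congr rfl fun i _ => ?_
      rw [map_mul]

/-- **PW2.** Proof: the linear span of the continuous characters in `C(B, ℂ)` is a star subalgebra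
(products and conjugates of characters are characters) separating points
(`exists_char_ne_one` applied to `x * y⁻¹`), hence dense by the Stone-Weierstrass theorem
(`ContinuousMap.starSubalgebra_topologicalClosure_eq_top_of_separatesPoints`). Elements of the span
are finite linear combinations (`Submodule.span_induction` or
`Submodule.mem_span_range_iff_exists_finsupp`...). -/
theorem char_dense {B : Type} [CommGroup B] [TopologicalSpace B] [IsTopologicalGroup B]
    [CompactSpace B] [T2Space B] (f : C(B, ℂ)) {ε : ℝ} (hε : 0 < ε) :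
    ∃ (n : ℕ) (c : Fin n → ℂ) (χ : Fin n → B →* ℂ), (∀ i, Continuous (χ i)) ∧
      (∀ i x, ‖χ i x‖ = 1) ∧ ∀ x, ‖f x - ∑ i, c i * χ i x‖ ≤ ε := by
  have hsep : (trigSubalgebra B).SeparatesPoints := by
    intro x y hxy
    have h0 : x * y⁻¹ ≠ 1 := fun h => hxy (mul_inv_eq_one.mp h)
    obtain ⟨χ, hc, hn, h1⟩ := exists_char_ne_one h0
    refine ⟨χ, ⟨⟨χ, hc⟩, ?_, rfl⟩, ?_⟩
    · exact ⟨Unit, inferInstance, fun _ => 1, fun _ => χ, fun _ => hc, fun _ x => hn x,
        fun x => by simp⟩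
    · intro h
      apply h1
      rw [map_mul, h, ← map_mul, mul_inv_cancel, map_one]
  have htop := ContinuousMap.starSubalgebra_topologicalClosure_eq_top_of_separatesPoints
    (trigSubalgebra B) hsep
  have hf : f ∈ (trigSubalgebra B).topologicalClosure := by
    rw [htop]
    trivial
  have hf' : f ∈ closure ((trigSubalgebra B : StarSubalgebra ℂ C(B, ℂ)) : Set C(B, ℂ)) := hf
  obtain ⟨g, ⟨ι, _, c, χ, h1, h2, h3⟩, hfg⟩ := Metric.mem_closure_iff.mp hf' ε hε
  let e := (Fintype.equivFin ι).symm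
  refine ⟨Fintype.card ι, fun i => c (e i), fun i => χ (e i), fun i => h1 _, fun i x => h2 _ x, ?_⟩
  intro x
  have hs : ∑ i, c (e i) * χ (e i) x = g x := by
    rw [h3]
    exact Equiv.sum_comp e (fun i => c i * χ i x)
  rw [hs, ← dist_eq_norm]
  exact (ContinuousMap.dist_apply_le_dist x).trans hfg.le

end Pool.Agent.Nil820

end

/-! ### Part `Vert8` -/

section

/-! # Piece VERT8: vertical Fourier approximation of a family -/

open scoped ComplexConjugate Topology
open MeasureTheory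

namespace Pool.Agent.Nil820

private theorem exists_bump {B : Type} [TopologicalSpace B] [CompactSpace B] [T2Space B]
    [MeasurableSpace B] [BorelSpace B] (μ : Measure B) [IsFiniteMeasure μ] [μ.IsOpenPosMeasure]
    {b₀ : B} {U : Set B} (hU : U ∈ 𝓝 b₀) :
    ∃ k : C(B, ℝ), (∀ b, 0 ≤ k b) ∧ (∀ b, b ∉ U → k b = 0) ∧ ∫ b, k b ∂μ = 1 := by
  obtain ⟨V, hVU, hVo, hV0⟩ := mem_nhds_iff.1 hU
  obtain ⟨f, hf0, hf1, hf2⟩ := exists_continuous_zero_one_of_isClosed (hVo.isClosed_compl)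
    (isClosed_singleton (x := b₀)) (by
      rw [Set.disjoint_singleton_right]
      exact fun h => h hV0)
  have hint : Integrable (fun b => f b) μ :=
    f.continuous.integrable_of_hasCompactSupport (HasCompactSupport.of_compactSpace f)
  have hpos : 0 < ∫ b, f b ∂μ := by
    apply f.continuous.integral_pos_of_hasCompactSupport_nonneg_nonzero (HasCompactSupport.of_compactSpace f)
    · intro b
      exact (hf2 b).1
    · show f b₀ ≠ 0
      rw [hf1 (Set.mem_singleton b₀)]
      exact one_ne_zero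
  refine ⟨⟨fun b => (∫ b, f b ∂μ)⁻¹ * f b, by fun_prop⟩, ?_, ?_, ?_⟩
  · intro b
    exact mul_nonneg (inv_nonneg.2 hpos.le) (hf2 b).1
  · intro b hb
    have : f b = 0 := hf0 (fun h => hb (hVU h))
    simp [this]
  · simp only [ContinuousMap.coe_mk]
    rw [integral_const_mul, inv_mul_cancel₀ hpos.ne']

private theorem conv_close {B : Type} [TopologicalSpace B] [CompactSpace B]
    [MeasurableSpace B] [BorelSpace B] (μ : Measure B) [IsProbabilityMeasure μ]
    (k : C(B, ℝ)) (hk0 : ∀ b, 0 ≤ k b) {U : Set B} (hkU : ∀ b, b ∉ U → k b = 0)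
    (hk1 : ∫ b, k b ∂μ = 1) (f : B → ℂ) (hf : Continuous f) (w : ℂ) {ε : ℝ}
    (hε : ∀ b ∈ U, ‖f b - w‖ ≤ ε) : ‖(∫ b, (k b : ℂ) * f b ∂μ) - w‖ ≤ ε := by
  have i1 : Integrable (fun b => (k b : ℂ) * f b) μ :=
    Continuous.integrable_of_hasCompactSupport (by fun_prop) (HasCompactSupport.of_compactSpace _)
  have i2 : Integrable (fun b => (k b : ℂ) * w) μ :=
    Continuous.integrable_of_hasCompactSupport (by fun_prop) (HasCompactSupport.of_compactSpace _)
  have i3 : Integrable (fun b => k b) μ :=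
    k.continuous.integrable_of_hasCompactSupport (HasCompactSupport.of_compactSpace _)
  have e1 : ∫ b, (k b : ℂ) * w ∂μ = w := by
    rw [integral_mul_const]
    have : ∫ b, (k b : ℂ) ∂μ = ((∫ b, k b ∂μ : ℝ) : ℂ) := integral_ofReal
    rw [this, hk1]
    simp
  have e2 : (∫ b, (k b : ℂ) * f b ∂μ) - w = ∫ b, ((k b : ℂ) * f b - (k b : ℂ) * w) ∂μ := by
    rw [integral_sub i1 i2, e1]
  rw [e2]
  calc ‖∫ b, ((k b : ℂ) * f b - (k b : ℂ) * w) ∂μ‖ ≤ ∫ b, k b * ε ∂μ := by
        apply norm_integral_le_of_norm_le (i3.mul_const ε)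
        apply Filter.Eventually.of_forall
        intro b
        rw [← mul_sub, norm_mul, Complex.norm_real, Real.norm_eq_abs, abs_of_nonneg (hk0 b)]
        by_cases hb : b ∈ U
        · exact mul_le_mul_of_nonneg_left (hε b hb) (hk0 b)
        · rw [hkU b hb]
          simp
    _ = ε := by rw [integral_mul_const, hk1, one_mul]

/-- **VERT8.** Every family is uniformly approximated by finite sums of families with a vertical
character.

Proof. Take `B, π` from `exists_vert_group h j`, Borel structure, `μ` a Haar probability measure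
(`Measure.haarMeasure ⊤`, or `haar` normalised), `Ft` from `exists_Ft`. By `Ft_unif` at `b = 1`
there is a neighbourhood `U` of `1` with `‖Ft κ x b - F κ x‖ ≤ ε / 2` for `b ∈ U` (`Ft_props` (4)).
Let `k : B → [0, ∞)` be continuous, supported in `U`, `∫ k dμ = 1` (Urysohn bump function with value
`1` at `1`, divided by its integral, which is positive since `μ` is positive on open sets). Then
`‖∫ k b Ft κ x b dμ - F κ x‖ ≤ ε / 2`. Let `C ≥ 1` bound `Ft` (`Ft_bdd`) and let
`p b = ∑ c_i χ_i b` with `‖k b - p b‖ ≤ ε / (2 C)` (`char_dense`). So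
`‖F κ x - ∑ c_i ∫ χ_i b Ft κ x b dμ‖ ≤ ε`, and `χ_i = conj χ'_i` with the character
`χ'_i b = conj (χ_i b)` (as `MonoidHom`: `(starRingEnd ℂ).toMonoidHom.comp (χ i)`); take
`F' i κ x = c_i * ∫ conj (χ'_i b) * Ft κ x b dμ` and `fourier_fam`. -/
theorem vertical {G : Type} [Group G] [TopologicalSpace G] [IsTopologicalGroup G] [T2Space G]
    {fil : ℕ → Subgroup G} {Γ : Subgroup G} (h : NilData fil Γ) {𝒦 : Type} [TopologicalSpace 𝒦]
    [CompactSpace 𝒦] {g : 𝒦 → G} {F : 𝒦 → G → ℂ} {j : ℕ} {A : Set (ℤ → ℂ)} (hA : SeqAlg A)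
    (hF : NilFam fil Γ g F (j + 1) A) {ε : ℝ} (hε : 0 < ε) :
    ∃ (n : ℕ) (F' : Fin n → 𝒦 → G → ℂ) (χ : Fin n → G → ℂ),
      (∀ i, NilFam fil Γ g (F' i) (j + 1) A) ∧ (∀ i, VertChar fil (F' i) (j + 1) (χ i)) ∧
      ∀ κ x, ‖F κ x - ∑ i, F' i κ x‖ ≤ ε := by
  classical
  obtain ⟨B, i1, i2, i3, i4, i5, π, hπc, hπo, hπs, hπ⟩ := exists_vert_group h j
  obtain ⟨Ft, hc, hFt⟩ := exists_Ft hF π hπc hπo hπs hπ
  let _ : MeasurableSpace B := borel B
  have _ : BorelSpace B := ⟨rfl⟩
  let μ : Measure B := Measure.haarMeasure ⊤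
  have _ : IsProbabilityMeasure μ := ⟨by
    have := Measure.haarMeasure_self (K₀ := (⊤ : TopologicalSpace.PositiveCompacts B))
    simpa using this⟩
  obtain ⟨p1, p2, p3, p4⟩ := Ft_props h hF π hπs hFt
  obtain ⟨K, hK, _, hcov⟩ := h.cocpt 1
  have hcov' : ∀ c : G, ∃ k ∈ K, ∃ γ ∈ Γ, c = k * γ := by
    intro c
    obtain ⟨k, hk, γ, hγ, _, h4⟩ := hcov c (by rw [h.one]; exact Subgroup.mem_top c)
    exact ⟨k, hk, γ, hγ, h4⟩
  obtain ⟨U, hU, hU2⟩ := Ft_unif hK hcov' hc p1 1 (ε := ε / 2) (by positivity)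
  obtain ⟨k, hk0, hkU, hk1⟩ := exists_bump μ hU
  obtain ⟨C0, hC0⟩ := Ft_bdd hK hcov' hc p1
  set C : ℝ := max C0 1 with hCdef
  have hC1 : 1 ≤ C := le_max_right _ _
  have hC : ∀ κ x b, ‖Ft κ x b‖ ≤ C := fun κ x b => (hC0 κ x b).trans (le_max_left _ _)
  let kc : C(B, ℂ) := ⟨fun b => (k b : ℂ), by fun_prop⟩
  obtain ⟨n, c, χ, hχc, hχ1, hχ⟩ := char_dense kc (ε := ε / (2 * C)) (by positivity)
  let χ' : Fin n → B →* ℂ := fun i => (starRingEnd ℂ).toMonoidHom.comp (χ i)
  have hχ'v : ∀ i b, χ' i b = conj (χ i b) := fun i b => rfl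
  have hχ'c : ∀ i, Continuous (χ' i) := fun i => Complex.continuous_conj.comp (hχc i)
  have hχ'1 : ∀ i b, ‖χ' i b‖ = 1 := by
    intro i b
    rw [hχ'v, RCLike.norm_conj, hχ1]
  have hfam : ∀ i, NilFam fil Γ g (fun κ x => c i * ∫ b, conj (χ' i b) * Ft κ x b ∂μ) (j + 1) A ∧
      ∃ χ'' : G → ℂ, VertChar fil (fun κ x => c i * ∫ b, conj (χ' i b) * Ft κ x b ∂μ) (j + 1) χ'' :=
    fun i => fourier_fam h hA hF μ π hπs hc hFt (χ' i) (hχ'c i) (hχ'1 i) (c i)
  choose h1 χ'' h2 using hfam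
  refine ⟨n, fun i κ x => c i * ∫ b, conj (χ' i b) * Ft κ x b ∂μ, χ'', h1, h2, ?_⟩
  intro κ x
  have hFc : Continuous (fun b => Ft κ x b) := hc.comp (by fun_prop : Continuous (fun b : B => (κ, x, b)))
  have hclose : ‖(∫ b, (k b : ℂ) * Ft κ x b ∂μ) - F κ x‖ ≤ ε / 2 := by
    apply conv_close μ k hk0 hkU hk1 _ hFc
    intro b hb
    have := hU2 b hb κ x
    rwa [p4] at this
  have hint : ∀ i, Integrable (fun b => χ i b * Ft κ x b) μ := fun i =>
    ((hχc i).mul hFc).integrable_of_hasCompactSupport (HasCompactSupport.of_compactSpace _)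
  have hint2 : Integrable (fun b => (k b : ℂ) * Ft κ x b) μ :=
    Continuous.integrable_of_hasCompactSupport (by fun_prop) (HasCompactSupport.of_compactSpace _)
  have hsum : ∑ i, c i * ∫ b, conj (χ' i b) * Ft κ x b ∂μ = ∫ b, (∑ i, c i * χ i b) * Ft κ x b ∂μ := by
    have e1 : ∀ b, (∑ i, c i * χ i b) * Ft κ x b = ∑ i, c i * (χ i b * Ft κ x b) := by
      intro b
      rw [Finset.sum_mul]
      exact Finset.sum_congr rfl fun i _ => by ring
    simp only [e1]
    rw [integral_finsetSum _ (fun i _ => (hint i).const_mul (c i))]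
    apply Finset.sum_congr rfl
    intro i _
    rw [integral_const_mul]
    simp only [hχ'v, Complex.conj_conj]
  rw [hsum]
  have hint3 : Integrable (fun b => (∑ i, c i * χ i b) * Ft κ x b) μ := by
    apply Continuous.integrable_of_hasCompactSupport _ (HasCompactSupport.of_compactSpace _)
    apply Continuous.mul _ hFc
    exact continuous_finsetSum _ fun i _ => continuous_const.mul (hχc i)
  have hclose2 : ‖(∫ b, (k b : ℂ) * Ft κ x b ∂μ) - ∫ b, (∑ i, c i * χ i b) * Ft κ x b ∂μ‖ ≤ ε / 2 := by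
    rw [← integral_sub hint2 hint3]
    have : ∀ b, ‖(k b : ℂ) * Ft κ x b - (∑ i, c i * χ i b) * Ft κ x b‖ ≤ ε / 2 := by
      intro b
      rw [← sub_mul, norm_mul]
      calc ‖(k b : ℂ) - ∑ i, c i * χ i b‖ * ‖Ft κ x b‖ ≤ ε / (2 * C) * C :=
            mul_le_mul (hχ b) (hC κ x b) (norm_nonneg _) (by positivity)
        _ = ε / 2 := by
            field_simp
    have h3 := norm_integral_le_of_norm_le_const (μ := μ) (Filter.Eventually.of_forall this)
    simpa using h3
  calc ‖F κ x - ∫ b, (∑ i, c i * χ i b) * Ft κ x b ∂μ‖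
      = ‖(F κ x - ∫ b, (k b : ℂ) * Ft κ x b ∂μ) +
        ((∫ b, (k b : ℂ) * Ft κ x b ∂μ) - ∫ b, (∑ i, c i * χ i b) * Ft κ x b ∂μ)‖ := by ring_nf
    _ ≤ ‖F κ x - ∫ b, (k b : ℂ) * Ft κ x b ∂μ‖ +
        ‖(∫ b, (k b : ℂ) * Ft κ x b ∂μ) - ∫ b, (∑ i, c i * χ i b) * Ft κ x b ∂μ‖ := norm_add_le _ _
    _ ≤ ε / 2 + ε / 2 := by
        rw [norm_sub_rev]
        exact add_le_add hclose hclose2
    _ = ε := by ring

end Pool.Agent.Nil820

end
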