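import Pool.Agent.Lib_MP_820dd4_an.Root1
import Pool.Agent.Lib_MP_820dd4_an.Root2
import Pool.Agent.Lib_MP_820dd4_an.Bary1
import Pool.Agent.Lib_MP_820dd4_an.RrecV
import Pool.Agent.Lib_MP_820dd4_an.Vert8
import Pool.Agent.Lib_MP_820dd4_an.Open2
import Pool.Agent.Lib_MP_820dd4_an.NilAlg3

/-! ### Part `Root` -/

section

/-! # Piece ROOT3: roots near the identity of a Lie group -/

open scoped Topology Manifold

namespace Pool.Agent.Nil820

/-- **ROOT3.** Every Lie group has `RootProp`.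

Proof. Let `e = chartAt V 1`, `f` as in `hasStrictFDerivAt_sq`, and let `O ⊆ e.target` be a
neighbourhood of `e 1` such that `e.symm u * e.symm u ∈ e.source` for `u ∈ O`. For `y` near `1` in `G`
apply `exists_iterated_preimages` to `e y`: `z n = e.symm (w n)`, `z n → 1` (continuity of `e.symm` at
`e 1`), `z (n+1) ^ 2 = z n` (as `e (z (n+1) ^ 2) = f (w (n+1)) = w n = e (z n)`, both in the source),
so `z n ^ (2 ^ n) = z 0 = y`. `k n = 2 ^ n`. -/
theorem rootProp_of_lieGroup {V : Type} [NormedAddCommGroup V] [NormedSpace ℝ V]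
    [FiniteDimensional ℝ V] {G : Type} [Group G] [TopologicalSpace G] [ChartedSpace V G]
    [LieGroup (modelWithCornersSelf ℝ V) (⊤ : ℕ∞) G] : RootProp G := by
  have hsq := hasStrictFDerivAt_sq (V := V) (G := G)
  have : IsTopologicalGroup G := topologicalGroup_of_lieGroup (modelWithCornersSelf ℝ V) (⊤ : ℕ∞)
  set e := chartAt V (1 : G) with he
  have h1s : (1 : G) ∈ e.source := mem_chart_source V 1
  have hv0t : e 1 ∈ e.target := e.map_source h1s
  have hsymm0 : e.symm (e 1) = 1 := e.left_inv h1s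
  have hcs : ContinuousAt e.symm (e 1) := e.continuousAt_symm hv0t
  have hO1 : ∀ᶠ u in 𝓝 (e 1), e.symm u * e.symm u ∈ e.source := by
    have hc : ContinuousAt (fun u => e.symm u * e.symm u) (e 1) := hcs.mul hcs
    apply hc.eventually_mem
    simp only [hsymm0, mul_one]
    exact e.open_source.mem_nhds h1s
  have hO2 : ∀ᶠ u in 𝓝 (e 1), u ∈ e.target := e.open_target.mem_nhds hv0t
  have h0 : (fun u : V => e (e.symm u * e.symm u)) (e 1) = e 1 := by
    simp [hsymm0]
  have : CompleteSpace V := FiniteDimensional.complete ℝ V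
  obtain ⟨U, hU, hw⟩ := exists_iterated_preimages hsq h0 (hO1.and hO2)
  have hce : ContinuousAt e 1 := e.continuousAt h1s
  refine ⟨e ⁻¹' U ∩ e.source, Filter.inter_mem (hce.preimage_mem_nhds hU)
    (e.open_source.mem_nhds h1s), fun y hy => ?_⟩
  obtain ⟨w, hw0, hwO, hwf, hwl⟩ := hw (e y) hy.1
  refine ⟨fun n => 2 ^ n, fun n => e.symm (w n), fun n => ?_, ?_⟩
  · induction n with
    | zero =>
      simp only [pow_zero, pow_one, hw0]
      exact e.left_inv hy.2
    | succ n ih =>
      have h1 : e.symm (w (n + 1)) ^ 2 = e.symm (w n) := by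
        have h2 := hwf n
        have h3 := (hwO (n + 1)).1
        rw [sq, ← h2]
        exact (e.left_inv h3).symm
      show e.symm (w (n + 1)) ^ (2 ^ (n + 1)) = y
      rw [pow_succ', pow_mul, h1]
      exact ih
  · have := hcs.tendsto.comp hwl
    rw [hsymm0] at this
    exact this

end Pool.Agent.Nil820

end

/-! ### Part `Bary4` -/

section

/-! # Piece BARY4: integrals lie in the hull -/

open scoped ComplexConjugate Topology
open MeasureTheory

namespace Pool.Agent.Nil820

/-- **BARY4** (easy converse). An integral of members of `S` with weights bounded by `C` lies in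
`C` times the hull: apply the norm of the integral to each finite linear combination
(`integral_finset_sum`, `norm_integral_le_of_norm_le_const`). -/
theorem Dom.of_integral {P : Type} [MeasurableSpace P] (ρ : Measure P) [IsProbabilityMeasure ρ]
    (S : Set (ℤ → ℂ)) (θ : P → ℤ → ℂ) (hS : ∀ p, θ p ∈ S) (C : ℝ) (hC : 0 < C) (α : P → ℂ)
    (hα : ∀ p, ‖α p‖ ≤ C) (hαm : Measurable α) (hθm : ∀ m, Measurable fun p => θ p m)
    (hb : ∃ D : ℝ, ∀ p m, ‖θ p m‖ ≤ D) :
    Dom S (fun m => (C : ℂ)⁻¹ * ∫ p, α p * θ p m ∂ρ) := by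
  intro c K hK hs
  obtain ⟨D, hD⟩ := hb
  have hint : ∀ m, Integrable (fun p => α p * θ p m) ρ := by
    intro m
    refine Integrable.of_bound (C := C * D) ((hαm.mul (hθm m)).aestronglyMeasurable)
      (Filter.Eventually.of_forall fun p => ?_)
    rw [norm_mul]
    exact mul_le_mul (hα p) (hD p m) (norm_nonneg _) hC.le
  have e : (c.sum fun m z => z * ((C : ℂ)⁻¹ * ∫ p, α p * θ p m ∂ρ)) =
      (C : ℂ)⁻¹ * ∫ p, α p * (c.sum fun m z => z * θ p m) ∂ρ := by
    have e1 : (∫ p, α p * (c.sum fun m z => z * θ p m) ∂ρ) =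
        ∑ m ∈ c.support, c m * ∫ p, α p * θ p m ∂ρ := by
      have e2 : ∀ p, α p * (c.sum fun m z => z * θ p m) =
          ∑ m ∈ c.support, c m * (α p * θ p m) := by
        intro p
        rw [Finsupp.sum, Finset.mul_sum]
        exact Finset.sum_congr rfl fun m _ => by ring
      simp_rw [e2]
      rw [integral_finsetSum _ fun m _ => (hint m).const_mul (c m)]
      exact Finset.sum_congr rfl fun m _ => integral_const_mul _ _
    rw [e1, Finset.mul_sum, Finsupp.sum]
    exact Finset.sum_congr rfl fun m _ => by ring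
  rw [e, norm_mul, norm_inv, Complex.norm_real, Real.norm_eq_abs, abs_of_pos hC]
  have hle : ‖∫ p, α p * (c.sum fun m z => z * θ p m) ∂ρ‖ ≤ C * K := by
    have := norm_integral_le_of_norm_le_const (μ := ρ) (C := C * K)
      (f := fun p => α p * (c.sum fun m z => z * θ p m)) (Filter.Eventually.of_forall fun p => by
        rw [norm_mul]
        exact mul_le_mul (hα p) (hs _ (hS p)) (norm_nonneg _) hC.le)
    simpa using this
  rw [inv_mul_le_iff₀ hC]
  exact hle

end Pool.Agent.Nil820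

end

/-! ### Part `Rrec` -/

section

/-! # Piece RREC: hulls of families decompose -/

open scoped ComplexConjugate Topology
open MeasureTheory

namespace Pool.Agent.Nil820

/-- **RRECS.** Proof. Let `K` be the compact set of `h.cocpt 1`. If `𝒦` is empty then `famSet` is
empty and `B = 0`. Otherwise, with `Λ = 𝒦 × ↥K` (nonempty since `1 = k γ`) and
`θ (κ, k) m = F κ (g κ ^ m * k)`, `famSet_eq` and `exists_bary` give
`B m = ∫ α(p) θ_{lam p}(m) dρ(p)`. Use `DecNull.of_close`: let `ε > 0`, `F' i`, `χ i` from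
`vertical`; `B_i m = ∫ α(p) F'_i κ (g κ ^ m * k) dρ`, `(κ, k) = lam p`, lies in
`Dom (famSet g (F' i))` (`Dom.of_integral` with `C = 1`; measurability: `F'_i κ (g κ ^ m * k)` is a
continuous function of `(κ, k) ∈ Λ`, use the measurability clause of `exists_bary`), so
`DecNull A B_i` by `nil_hull_vert ih`; `DecNull.sum`; and `‖B m - ∑ B_i m‖ ≤ ε`. -/
theorem rstat_succ {j : ℕ} (ih : RStat j) : RStat (j + 1) := by
  intro G _ _ _ _ fil Γ h 𝒦 _ _ _ g F A hA hF B hB
  obtain ⟨K, hKc, -, hK2⟩ := h.cocpt 1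
  have hK : ∀ c : G, ∃ k ∈ K, ∃ γ ∈ Γ, c = k * γ := by
    intro c
    obtain ⟨k, hk, γ, hγ, -, e⟩ := hK2 c (by rw [h.one]; exact Subgroup.mem_top c)
    exact ⟨k, hk, γ, hγ, e⟩
  have : CompactSpace ↥K := isCompact_iff_compactSpace.mp hKc
  rcases isEmpty_or_nonempty 𝒦 with h𝒦 | h𝒦
  · have hB0 : B = fun _ => 0 := by
      funext m
      have := hB (Finsupp.single m 1) 0 le_rfl (by
        rintro s ⟨κ, -⟩
        exact h𝒦.elim κ)
      simpa using this
    rw [hB0]
    exact DecNull.of_mem (hA.const 0)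
  have hKn : Nonempty ↥K := by
    obtain ⟨k, hk, -⟩ := hK 1
    exact ⟨⟨k, hk⟩⟩
  have hcont : ∀ (F' : 𝒦 → G → ℂ), Continuous (fun p : 𝒦 × G => F' p.1 p.2) → ∀ m : ℤ,
      Continuous fun l : 𝒦 × ↥K => F' l.1 ((g l.1) ^ m * l.2) := by
    intro F' hF' m
    exact hF'.comp (continuous_fst.prodMk (((hF.contg.comp continuous_fst).zpow m).mul
      (continuous_subtype_val.comp continuous_snd)))
  have hB' := hB
  rw [famSet_eq hF hK] at hB'
  obtain ⟨P, mP, ρ, hρ, lam, α, hα1, hαm, hf, hBα⟩ :=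
    exists_bary (fun (l : 𝒦 × ↥K) (m : ℤ) => F l.1 ((g l.1) ^ m * l.2)) (hcont F hF.contF) hB'
  have hmeas : ∀ (F' : 𝒦 → G → ℂ), Continuous (fun p : 𝒦 × G => F' p.1 p.2) → ∀ m : ℤ,
      Measurable fun p => F' (lam p).1 ((g (lam p).1) ^ m * (lam p).2) := by
    intro F' hF' m
    exact hf ⟨fun l => F' l.1 ((g l.1) ^ m * l.2), hcont F' hF' m⟩
  have hint : ∀ (F' : 𝒦 → G → ℂ), NilFam fil Γ g F' (j + 1) A → ∀ m : ℤ,
      Integrable (fun p => α p * F' (lam p).1 ((g (lam p).1) ^ m * (lam p).2)) ρ := by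
    intro F' hF' m
    obtain ⟨C, hC⟩ := hF'.bounded hKc hK
    refine Integrable.of_bound (C := 1 * C) ((hαm.mul (hmeas F' hF'.contF m)).aestronglyMeasurable)
      (Filter.Eventually.of_forall fun p => ?_)
    rw [norm_mul]
    exact mul_le_mul (hα1 p) (hC _ _) (norm_nonneg _) zero_le_one
  apply DecNull.of_close hA
  intro ε hε
  obtain ⟨n, F', χ, h1, h2, h3⟩ := vertical h hA hF hε
  refine ⟨fun m => ∑ i, ∫ p, α p * F' i (lam p).1 ((g (lam p).1) ^ m * (lam p).2) ∂ρ, ?_, ?_⟩
  · refine DecNull.sum hA Finset.univ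
      (f := fun i m => ∫ p, α p * F' i (lam p).1 ((g (lam p).1) ^ m * (lam p).2) ∂ρ) fun i _ => ?_
    refine nil_hull_vert ih h hA (h1 i) (h2 i) ?_
    obtain ⟨C, hC⟩ := (h1 i).bounded hKc hK
    have hD := Dom.of_integral ρ (famSet g (F' i))
      (fun p m => F' i (lam p).1 ((g (lam p).1) ^ m * (lam p).2))
      (fun p => ⟨(lam p).1, (lam p).2, rfl⟩) 1 one_pos α hα1 hαm
      (fun m => hmeas (F' i) (h1 i).contF m) ⟨C, fun p m => hC _ _⟩
    simpa using hD
  · intro m
    beta_reduce
    rw [hBα m, ← integral_finsetSum _ fun i _ => hint (F' i) (h1 i) m,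
      ← integral_sub (hint F hF m) (integrable_finsetSum _ fun i _ => hint (F' i) (h1 i) m)]
    have hle := norm_integral_le_of_norm_le_const (μ := ρ) (C := ε)
      (f := fun p => α p * F (lam p).1 ((g (lam p).1) ^ m * (lam p).2) -
        ∑ i, α p * F' i (lam p).1 ((g (lam p).1) ^ m * (lam p).2))
      (Filter.Eventually.of_forall fun p => by
        rw [← Finset.mul_sum, ← mul_sub, norm_mul]
        calc ‖α p‖ * _ ≤ 1 * ε := mul_le_mul (hα1 p) (h3 _ _) (norm_nonneg _) zero_le_one
          _ = ε := one_mul ε)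
    simpa using hle

theorem rstat (j : ℕ) : RStat j := by
  induction j with
  | zero =>
    intro G _ _ _ _ fil Γ h 𝒦 _ _ _ g F A hA hF B hB
    exact nil_hull_zero h hA hF hB
  | succ j ih => exact rstat_succ ih

theorem nil_hull {G : Type} [Group G] [TopologicalSpace G]
    [IsTopologicalGroup G] [T2Space G] {fil : ℕ → Subgroup G} {Γ : Subgroup G}
    (h : NilData fil Γ) {𝒦 : Type} [TopologicalSpace 𝒦] [CompactSpace 𝒦] [T2Space 𝒦]
    {g : 𝒦 → G} {F : 𝒦 → G → ℂ} {j : ℕ} {A : Set (ℤ → ℂ)} (hA : SeqAlg A)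
    (hF : NilFam fil Γ g F j A) {B : ℤ → ℂ} (hB : Dom (famSet g F) B) : DecNull A B :=
  rstat j G fil Γ h 𝒦 g F A hA hF B hB

end Pool.Agent.Nil820

end

/-! ### Part `NilHull` -/

section

/-! # Piece NH: the hull of a nil class decomposes; nil classes form a weight system -/

open scoped ComplexConjugate Topology Manifold

namespace Pool.Agent.Nil820

/-- **NH.** Proof. Let `V, G, Γ, g, F` be the data of `W`. A Lie group is a topological group
(`topologicalGroup_of_lieGroup`), a finite dimensional one is locally compact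
(`Manifold.locallyCompact_of_finiteDimensional`), `RootProp G` by `rootProp_of_lieGroup`. Let `H` be
from `exists_nilData` (for `g`). On `↥H` take `𝒦 = Unit`, translation `⟨g, _⟩`, function
`F' () y = F (y : G ⧸ Γ)` (continuous, right invariant under `Γ.subgroupOf H`; invariant under
`clcs ↥H (s+1) = ⊥`); `adapt`: `m ↦ F (v g^m x Γ) = F₁ (g^m • x Γ)` with `F₁ z = F (v • z)` is a
basic nilsequence. So `NilFam (clcs ↥H) (Γ.subgroupOf H) _ F' s A`, `A = {ψ | Nilseq s ψ}`
(`nilseq_seqAlg s : SeqAlg A`). `famSet` of this family is `W`: every point of `G ⧸ Γ` is `h Γ` with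
`h ∈ H`. `nil_hull` gives `DecNull A B`, hence `Dec A B` (`DecNull.dec`: null sequences are orthogonal
to bounded sequences). -/
theorem nilClass_hull {s : ℕ} {W : Set (ℤ → ℂ)} (hW : NilClass s W) {B : ℤ → ℂ} (hB : Dom W B) :
    DecNull {ψ | Nilseq s ψ} B := by
  obtain ⟨V, i1, i2, i3, G, i4, i5, i6, i7, i8, i9, Γ, g, F, h1, h2, h3, rfl⟩ := hW
  have hTG : IsTopologicalGroup G :=
    topologicalGroup_of_lieGroup (modelWithCornersSelf ℝ V) (⊤ : ℕ∞)
  have hlc : LocallyCompactSpace G :=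
    Manifold.locallyCompact_of_finiteDimensional (modelWithCornersSelf ℝ V)
  have hroot : RootProp G := rootProp_of_lieGroup (V := V)
  obtain ⟨H, hgH, hHΓ, hdata, hbot⟩ := exists_nilData Γ hroot h1 g
  let g' : ↥H := ⟨g, hgH⟩
  let F' : Unit → ↥H → ℂ := fun _ y => F (QuotientGroup.mk (y : G))
  have hF : NilFam (clcs ↥H) (Γ.subgroupOf H) (fun _ : Unit => g') F' s {ψ | Nilseq s ψ} := by
    refine ⟨continuous_const, ?_, ?_, ?_, ?_⟩
    · exact F.continuous.comp
        (QuotientGroup.continuous_mk.comp (continuous_subtype_val.comp continuous_snd))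
    · intro κ x γ hγ
      show F (QuotientGroup.mk (((x * γ : ↥H)) : G)) = F (QuotientGroup.mk (x : G))
      congr 1
      rw [Subgroup.coe_mul]
      exact QuotientGroup.mk_mul_of_mem _ (Subgroup.mem_subgroupOf.1 hγ)
    · intro κ x c hc
      rw [hbot, Subgroup.mem_bot] at hc
      rw [hc, mul_one]
    · intro κ κ' v x ε hε
      refine ⟨fun m : ℤ => F' κ' (v * g' ^ m * x), ?_, fun m => ?_⟩
      · refine ⟨V, i1, i2, i3, G, i4, i5, i6, i7, i8, i9, Γ, g, QuotientGroup.mk (x : G),
          ⟨fun z => F ((v : G) • z), F.continuous.comp (continuous_const_smul (v : G))⟩,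
          h1, h2, h3, fun m => ?_⟩
        show F (QuotientGroup.mk (((v * g' ^ m * x : ↥H)) : G)) =
          F ((v : G) • g ^ m • (QuotientGroup.mk (x : G) : G ⧸ Γ))
        congr 1
        rw [smul_smul]
        show (QuotientGroup.mk (((v * g' ^ m * x : ↥H)) : G) : G ⧸ Γ) =
          QuotientGroup.mk ((v : G) * g ^ m * (x : G))
        rw [Subgroup.coe_mul, Subgroup.coe_mul, Subgroup.coe_zpow]
      · rw [sub_self, norm_zero]
        exact hε.le
  have hfam : famSet (fun _ : Unit => g') F' =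
      {ψ | ∃ x : G ⧸ Γ, ∀ m : ℤ, ψ m = F (g ^ m • x)} := by
    have key : ∀ (x : ↥H) (m : ℤ), F' () (g' ^ m * x) =
        F (g ^ m • (QuotientGroup.mk (x : G) : G ⧸ Γ)) := by
      intro x m
      show F (QuotientGroup.mk (((g' ^ m * x : ↥H)) : G)) = _
      congr 1
    ext θ
    constructor
    · rintro ⟨κ, x, rfl⟩
      exact ⟨QuotientGroup.mk (x : G), fun m => key x m⟩
    · rintro ⟨y, hy⟩
      obtain ⟨z, rfl⟩ := QuotientGroup.mk_surjective y
      obtain ⟨h, hh, γ, hγ, rfl⟩ := hHΓ z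
      refine ⟨(), ⟨h, hh⟩, ?_⟩
      funext m
      rw [hy m, key]
      congr 2
      exact QuotientGroup.mk_mul_of_mem _ hγ
  exact nil_hull hdata (nilseq_seqAlg s) hF (by rw [hfam]; exact hB)

/-- **W3.** Nil classes form a weight system. Proof: `NilClass.bdd`, `nilClass_const s 1`,
`NilClass.shift`, `NilClass.comp` (complex conjugation), `NilClass.prod` (multiplication),
`nilClass_hull`, and `dense` by the definition of `Nilseq` (`basicNil_iff`, `c = 1`). -/
theorem nil_weightSys (s : ℕ) : WeightSys {ψ | Nilseq s ψ} {W | NilClass s W} := by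
  refine ⟨?_, ?_, ?_, ?_, ?_, ?_, ?_⟩
  · intro W hW
    exact NilClass.bdd hW
  · exact nilClass_const s 1
  · intro W hW w hw r
    exact NilClass.shift hW hw r
  · intro W hW
    exact NilClass.comp hW ⟨fun z => conj z, Complex.continuous_conj⟩
  · intro W hW V hV
    exact NilClass.prod hW hV ⟨fun z => z.1 * z.2, continuous_fst.mul continuous_snd⟩
  · intro W hW B hB
    exact (nilClass_hull hW hB).dec (nilseq_seqAlg s)
  · intro ψ hψ ε hε
    obtain ⟨φ, hφ, h⟩ := hψ ε hε
    obtain ⟨W, hW, hφW⟩ := (basicNil_iff s φ).1 hφ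
    exact ⟨W, hW, φ, hφW, 1, fun m => by rw [one_mul]; exact h m⟩

end Pool.Agent.Nil820

end
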