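import Pool.Agent.Lib_MP_820dd4_an.AbsU
import Pool.Agent.Lib_MP_820dd4_an.Bary1
import Pool.Agent.Lib_MP_820dd4_an.Hilb

/-! ### Part `AbsI` -/

section

/-! # Piece ABSI: inner products -/

open scoped ComplexConjugate Topology

namespace Pool.Agent.Nil820

/-- the functions `u_m` are admissible -/
theorem absI_uv_meas {Ω : Type} {𝒲 : Set (Set (ℤ → ℂ))}
    (S : MeanSys Ω) {k : ℕ} {T0 : Equiv.Perm Ω} {T : Fin k → Equiv.Perm Ω} (hT0 : S.Pres T0)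
    (hT : ∀ i, S.Pres (T i)) {w : Ω → ℤ → ℂ} (hw : Weight 𝒲 S w)
    {f₀ : Ω → ℂ} (hf₀ : S.M f₀) {f : Fin k → Ω → ℂ} (hf : ∀ i, S.M (f i)) (m : ℤ) :
    S.M (fun ω => uv T0 T w f₀ f m ω) := by
  unfold uv
  refine S.mmul _ _ (S.mmul _ _ (hw.meas m) (hT0.meas_zpow (-m) hf₀)) ?_
  refine S.mprod Finset.univ (fun i ω => f i ((T i ^ m) ((T0 ^ (-m)) ω))) fun i _ => ?_
  exact hT0.meas_zpow (-m) (f := fun ω => f i ((T i ^ m) ω)) ((hT i).meas_zpow m (hf i))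

/-- **ABSI.** Inner products of the `u_m`. Proof: `S.E h = S.E (h ∘ T0 ^ m)` (`pres_zpow`), the
weights are invariant, `T0 ^ (-m) (T0 ^ m ω) = ω`,
`T i ^ (m + r) (T0 ^ (-(m + r)) (T0 ^ m ω)) = T i ^ m (T i ^ r (T0 ^ (-r) ω))` and
`T i ^ r`, `T0 ^ (-r)` commute with `T i ^ m`, so this is
`T i ^ r (T0 ^ (-r) (T i ^ m ω))`. -/
theorem uv_inner {Ω : Type} {𝒲 : Set (Set (ℤ → ℂ))}
    (S : MeanSys Ω) {k : ℕ} {T0 : Equiv.Perm Ω} {T : Fin k → Equiv.Perm Ω} (hT0 : S.Pres T0)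
    (hT : ∀ i, S.Pres (T i)) (hc : ∀ i, T i * T0 = T0 * T i)
    (hc' : ∀ i j, T i * T j = T j * T i)
    {w w' : Ω → ℤ → ℂ} (hw : Weight 𝒲 S w) (hw' : Weight 𝒲 S w')
    (hwT : ∀ ω, w (T0 ω) = w ω) (hwT' : ∀ ω, w' (T0 ω) = w' ω)
    {f₀ g₀ : Ω → ℂ} (hf₀ : S.M f₀) (hg₀ : S.M g₀) {f g : Fin k → Ω → ℂ}
    (hf : ∀ i, S.M (f i)) (hg : ∀ i, S.M (g i)) (m r : ℤ) :
    S.E (fun ω => uv T0 T w' g₀ g m ω * conj (uv T0 T w f₀ f (m + r) ω)) =
      S.E (fun ω => (w' ω m * conj (w ω (m + r))) * (g₀ ω * conj (f₀ ((T0 ^ (-r)) ω))) *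
        ∏ i, (fun ω' => g i ω' * conj (f i ((T i ^ r) ((T0 ^ (-r)) ω')))) ((T i ^ m) ω)) := by
  have hM : S.M (fun ω => uv T0 T w' g₀ g m ω * conj (uv T0 T w f₀ f (m + r) ω)) :=
    S.mmul _ _ (absI_uv_meas S hT0 hT hw' hg₀ hg m)
      (S.mconj _ (absI_uv_meas S hT0 hT hw hf₀ hf (m + r)))
  rw [← hT0.pres_zpow m hM]
  congr 1
  funext ω
  have e1 : (T0 ^ (-m)) ((T0 ^ m) ω) = ω := by
    rw [← Equiv.Perm.mul_apply, ← zpow_add, neg_add_cancel, zpow_zero, Equiv.Perm.one_apply]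
  have e2 : (T0 ^ (-(m + r))) ((T0 ^ m) ω) = (T0 ^ (-r)) ω := by
    rw [← Equiv.Perm.mul_apply, ← zpow_add]
    congr 2
    ring
  have e3 : ∀ i, (T i ^ (m + r)) ((T0 ^ (-r)) ω) = (T i ^ r) ((T0 ^ (-r)) ((T i ^ m) ω)) := by
    intro i
    have hcom : Commute (T i ^ m) (T0 ^ (-r)) := (show Commute (T i) T0 from hc i).zpow_zpow m (-r)
    rw [← Equiv.Perm.mul_apply, ← Equiv.Perm.mul_apply, ← Equiv.Perm.mul_apply, add_comm m r,
      zpow_add, mul_assoc, mul_assoc, hcom.eq]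
  unfold uv
  rw [inv_zpow hwT, inv_zpow hwT', e1, e2]
  simp only [e3, map_mul, map_prod, Finset.prod_mul_distrib]
  ring

end Pool.Agent.Nil820

end

/-! ### Part `AbsW` -/

section

/-! # Piece ABSW: the new weight -/

open scoped ComplexConjugate Topology

namespace Pool.Agent.Nil820

/-- **ABSW.** The new weight on `ℤ × Ω`. Proof: `h𝒲.shift`, `h𝒲.cj`, `h𝒲.mul` (twice) for the
class; boundedness by `h𝒲.bdd` of the resulting class; sections are admissible by `mmul`, `mconj`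
and constants. -/
theorem weight_prodZ {A : Set (ℤ → ℂ)} {𝒲 : Set (Set (ℤ → ℂ))} (h𝒲 : WeightSys A 𝒲) {Ω : Type}
    (S : MeanSys Ω) {w w' : Ω → ℤ → ℂ} (hw : Weight 𝒲 S w) (hw' : Weight 𝒲 S w') {φ : ℤ → ℂ}
    (hφ : ∃ W ∈ 𝒲, φ ∈ W) (𝔪 : InvMean) :
    Weight 𝒲 (S.prodZ 𝔪)
      (fun p m => conj (φ (m + p.1)) * (w' p.2 m * conj (w p.2 (m + p.1)))) := by
  obtain ⟨⟨W, hW, hwW⟩, hmeas⟩ := hw
  obtain ⟨⟨W', hW', hwW'⟩, hmeas'⟩ := hw'
  obtain ⟨V, hV, hφV⟩ := hφ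
  obtain ⟨V₁, hV₁, hV₁c⟩ := h𝒲.cj V hV
  obtain ⟨W₁, hW₁, hW₁c⟩ := h𝒲.cj W hW
  obtain ⟨U, hU, hUm⟩ := h𝒲.mul W' hW' W₁ hW₁
  obtain ⟨R, hR, hRm⟩ := h𝒲.mul V₁ hV₁ U hU
  have hmem : ∀ p : ℤ × Ω,
      (fun m : ℤ => conj (φ (m + p.1)) * (w' p.2 m * conj (w p.2 (m + p.1)))) ∈ R := by
    intro p
    have h1 : (fun m : ℤ => conj (φ (m + p.1))) ∈ V₁ :=
      hV₁c (fun m => φ (m + p.1)) (h𝒲.shift V hV φ hφV p.1)
    have h2 : (fun m : ℤ => conj (w p.2 (m + p.1))) ∈ W₁ :=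
      hW₁c (fun m => w p.2 (m + p.1)) (h𝒲.shift W hW (w p.2) (hwW p.2) p.1)
    have h3 : (fun m : ℤ => w' p.2 m * conj (w p.2 (m + p.1))) ∈ U :=
      hUm (w' p.2) (hwW' p.2) (fun m => conj (w p.2 (m + p.1))) h2
    exact hRm (fun m => conj (φ (m + p.1))) h1
      (fun m => w' p.2 m * conj (w p.2 (m + p.1))) h3
  refine ⟨⟨R, hR, hmem⟩, fun m => ⟨?_, fun r => ?_⟩⟩
  · obtain ⟨C, hC⟩ := h𝒲.bdd R hR
    exact ⟨C, fun p => hC _ (hmem p) m⟩
  · exact S.mmul _ _ (S.mconst (conj (φ (m + r))))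
      (S.mmul _ _ (hmeas' m) (S.mconj _ (hmeas (m + r))))

end Pool.Agent.Nil820

end

/-! ### Part `Gns` -/

section

/-! # Piece GNS: the Hilbert space of a mean system -/

open scoped ComplexConjugate Topology

namespace Pool.Agent.Nil820

/-- the vector space of the admissible functions -/
def gnsSub {Ω : Type} (S : MeanSys Ω) : Submodule ℂ (Ω → ℂ) where
  carrier := {f | S.M f}
  add_mem' := fun {f g} hf hg => S.madd f g hf hg
  zero_mem' := S.mconst 0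
  smul_mem' := fun c f hf => S.mmul _ f (S.mconst c) hf

/-- type synonym, without topology -/
def GnsV {Ω : Type} (S : MeanSys Ω) : Type := ↥(gnsSub S)

instance gnsAG {Ω : Type} (S : MeanSys Ω) : AddCommGroup (GnsV S) :=
  inferInstanceAs (AddCommGroup ↥(gnsSub S))

instance gnsMod {Ω : Type} (S : MeanSys Ω) : Module ℂ (GnsV S) :=
  inferInstanceAs (Module ℂ ↥(gnsSub S))

/-- the pre inner product -/
@[instance_reducible]
noncomputable def gnsCore {Ω : Type} (S : MeanSys Ω) : PreInnerProductSpace.Core ℂ (GnsV S) where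
  inner f g := S.E (fun ω => conj (f.1 ω) * g.1 ω)
  conj_inner_symm f g := by
    have h := S.Econj (fun ω => conj (g.1 ω) * f.1 ω) (S.mmul _ _ (S.mconj _ g.2) f.2)
    change conj (S.E (fun ω => conj (g.1 ω) * f.1 ω)) = S.E (fun ω => conj (f.1 ω) * g.1 ω)
    rw [← h]
    congr 1
    funext ω
    simp [mul_comm]
  re_inner_nonneg f := S.Epos f.1 f.2
  add_left f g k := by
    have h := S.Eadd (fun ω => conj (f.1 ω) * k.1 ω) (fun ω => conj (g.1 ω) * k.1 ω)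
      (S.mmul _ _ (S.mconj _ f.2) k.2) (S.mmul _ _ (S.mconj _ g.2) k.2)
    change S.E (fun ω => conj (f.1 ω + g.1 ω) * k.1 ω) = _
    rw [← h]
    congr 1
    funext ω
    simp [add_mul]
  smul_left f g r := by
    have h := S.Esmul (conj r) (fun ω => conj (f.1 ω) * g.1 ω)
      (S.mmul _ _ (S.mconj _ f.2) g.2)
    change S.E (fun ω => conj (r * f.1 ω) * g.1 ω) = _
    rw [← h]
    congr 1
    funext ω
    simp [mul_assoc]

/-- **GNS.** Proof. On the complex vector space `V` of the functions `f` with `S.M f` (a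
`Submodule ℂ (Ω → ℂ)`: closed under `+`, scalars `c * f = (const c) * f`, contains `0`) the form
`⟪f, g⟫ = S.E (conj f * g)` is a `PreInnerProductSpace.Core` (conjugate symmetric by `Econj`,
nonnegative by `Epos`, sesquilinear by `Eadd`, `Esmul`). `InnerProductSpace.ofCore` makes `V` a
seminormed inner product space; `H = UniformSpace.Completion V` is a Hilbert space
(`UniformSpace.Completion.innerProductSpace`; it is a `NormedAddCommGroup`). Put `J f = (f : H)`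
if `S.M f`, and `0` otherwise (`UniformSpace.Completion.inner_coe`). -/
theorem gns {Ω : Type} (S : MeanSys Ω) :
    ∃ (H : Type) (_ : NormedAddCommGroup H) (_ : InnerProductSpace ℂ H) (_ : CompleteSpace H)
      (J : (Ω → ℂ) → H), ∀ f g, S.M f → S.M g →
        inner ℂ (J f) (J g) = S.E (fun ω => conj (f ω) * g ω) := by
  classical
  let c : PreInnerProductSpace.Core ℂ (GnsV S) := gnsCore S
  let i1 : SeminormedAddCommGroup (GnsV S) :=
    @InnerProductSpace.Core.toSeminormedAddCommGroup ℂ (GnsV S) _ _ _ c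
  let i2 : InnerProductSpace ℂ (GnsV S) := InnerProductSpace.ofCore c
  let mk : ∀ f, S.M f → GnsV S := fun f h => ⟨f, h⟩
  refine ⟨UniformSpace.Completion (GnsV S), inferInstance, inferInstance, inferInstance,
    fun f => if h : S.M f then (UniformSpace.Completion.coe' (mk f h)) else 0, ?_⟩
  intro f g hf hg
  simp only [dif_pos hf, dif_pos hg]
  rw [UniformSpace.Completion.inner_coe]
  rfl

end Pool.Agent.Nil820

end

/-! ### Part `AbsS` -/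

section

/-! # Piece ABSS: the induction step -/

open scoped ComplexConjugate Topology

namespace Pool.Agent.Nil820

/-- the data indexing the vectors in the Hilbert space: weight, `f₀`, `f` -/
structure AbsIdx (𝒲 : Set (Set (ℤ → ℂ))) {Ω : Type} (S : MeanSys Ω) {k : ℕ}
    (T : Fin (k + 1) → Equiv.Perm Ω) where
  /-- the weight -/
  w : Ω → ℤ → ℂ
  /-- the function `f₀` -/
  f₀ : Ω → ℂ
  /-- the functions `f i` -/
  f : Fin k → Ω → ℂ
  hw : Weight 𝒲 S w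
  hwT : ∀ i ω, w (T i ω) = w ω
  hf₀ : S.M f₀
  hf : ∀ i, S.M (f i)

/-- norm bound for the vectors -/
theorem gns_norm_le {Ω : Type} {S : MeanSys Ω} {H : Type} [NormedAddCommGroup H]
    [InnerProductSpace ℂ H] {J : (Ω → ℂ) → H}
    (hJ : ∀ f g, S.M f → S.M g → inner ℂ (J f) (J g) = S.E (fun ω => conj (f ω) * g ω))
    {x : Ω → ℂ} (hx : S.M x) {C : ℝ} (hC : 0 ≤ C) (h : ∀ ω, ‖x ω‖ ≤ C) : ‖J x‖ ≤ C := by
  have h1 : ‖J x‖ ^ 2 ≤ C ^ 2 := by
    have e : ((‖J x‖ : ℂ)) ^ 2 = S.E (fun ω => conj (x ω) * x ω) := by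
      rw [← hJ x x hx hx]
      exact (inner_self_eq_norm_sq_to_K (𝕜 := ℂ) (J x)).symm
    have h2 : ‖S.E (fun ω => conj (x ω) * x ω)‖ ≤ C ^ 2 := by
      refine S.Ebound _ _ (S.mmul _ _ (S.mconj _ hx) hx) fun ω => ?_
      rw [norm_mul, RCLike.norm_conj, sq]
      exact mul_le_mul (h ω) (h ω) (norm_nonneg _) hC
    rw [← e, norm_pow, Complex.norm_real, norm_norm] at h2
    exact h2
  exact (pow_le_pow_iff_left₀ (norm_nonneg _) hC two_ne_zero).1 h1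

/-- the inner products of two families, averaged against a sequence, are correlation sequences of
fewer transformations in the product system -/
theorem abs_h {A : Set (ℤ → ℂ)} {𝒲 : Set (Set (ℤ → ℂ))}
    (h𝒲 : WeightSys A 𝒲) {k : ℕ} (ih : PStat A 𝒲 k) {Ω : Type} (S : MeanSys Ω)
    (T : Fin (k + 1) → Equiv.Perm Ω) (hT : ∀ i, S.Pres (T i))
    (hc : ∀ i j, T i * T j = T j * T i) (p q : AbsIdx 𝒲 S T) {φ : ℤ → ℂ}
    (hφ : ∃ W ∈ 𝒲, φ ∈ W) (𝔪 : InvMean) :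
    Dec A (fun m => 𝔪.toFun (fun r => conj (φ (m + r)) *
      S.E (fun ω => uv (T 0) (fun i : Fin k => T i.succ) q.w q.f₀ q.f m ω *
        conj (uv (T 0) (fun i : Fin k => T i.succ) p.w p.f₀ p.f (m + r) ω)))) := by
  classical
  -- the data in the product system
  let T'' : Fin k → Equiv.Perm (ℤ × Ω) := fun i => (Equiv.refl ℤ).prodCongr (T i.succ)
  let W : ℤ × Ω → ℤ → ℂ :=
    fun p' m => conj (φ (m + p'.1)) * (q.w p'.2 m * conj (p.w p'.2 (m + p'.1)))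
  let F₀ : ℤ × Ω → ℂ := fun p' => q.f₀ p'.2 * conj (p.f₀ (((T 0) ^ (-p'.1)) p'.2))
  let F : Fin k → ℤ × Ω → ℂ := fun i p' =>
    q.f i p'.2 * conj (p.f i (((T i.succ) ^ p'.1) (((T 0) ^ (-p'.1)) p'.2)))
  have hW : Weight 𝒲 (S.prodZ 𝔪) W := weight_prodZ h𝒲 S p.hw q.hw hφ 𝔪
  have hT'' : ∀ i, (S.prodZ 𝔪).Pres (T'' i) := fun i => (hT i.succ).prodZ 𝔪
  have hc'' : ∀ i j, T'' i * T'' j = T'' j * T'' i := by
    intro i j
    refine Equiv.ext fun p' => ?_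
    have h1 := congrArg (fun e : Equiv.Perm Ω => e p'.2) (hc i.succ j.succ)
    simp only [Equiv.Perm.mul_apply] at h1
    simp only [Equiv.Perm.mul_apply, T'', Equiv.prodCongr_apply, Prod.map_apply', h1]
  have hWT : ∀ i p', W (T'' i p') = W p' := by
    intro i p'
    have h1 : (T'' i p').1 = p'.1 := rfl
    have h2 : (T'' i p').2 = T i.succ p'.2 := rfl
    funext m
    simp only [W, h1, h2, p.hwT, q.hwT]
  have hF₀s : ∀ r : ℤ, S.M (fun ω => q.f₀ ω * conj (p.f₀ (((T 0) ^ (-r)) ω))) := fun r =>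
    S.mmul _ _ q.hf₀ (S.mconj _ ((hT 0).meas_zpow (-r) p.hf₀))
  have hFs : ∀ (i : Fin k) (r : ℤ), S.M (fun ω => q.f i ω *
      conj (p.f i (((T i.succ) ^ r) (((T 0) ^ (-r)) ω)))) := fun i r =>
    S.mmul _ _ (q.hf i) (S.mconj _ ((hT 0).meas_zpow (-r)
      (f := fun ω => p.f i (((T i.succ) ^ r) ω)) ((hT i.succ).meas_zpow r (p.hf i))))
  have hF₀ : (S.prodZ 𝔪).M F₀ := by
    refine ⟨?_, hF₀s⟩
    obtain ⟨C, hC⟩ := S.bdd _ q.hf₀
    obtain ⟨D, hD⟩ := S.bdd _ p.hf₀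
    refine ⟨C * D, fun p' => ?_⟩
    simp only [F₀]
    rw [norm_mul, RCLike.norm_conj]
    exact mul_le_mul (hC _) (hD _) (norm_nonneg _) ((norm_nonneg _).trans (hC p'.2))
  have hF : ∀ i, (S.prodZ 𝔪).M (F i) := by
    intro i
    refine ⟨?_, hFs i⟩
    obtain ⟨C, hC⟩ := S.bdd _ (q.hf i)
    obtain ⟨D, hD⟩ := S.bdd _ (p.hf i)
    refine ⟨C * D, fun p' => ?_⟩
    simp only [F]
    rw [norm_mul, RCLike.norm_conj]
    exact mul_le_mul (hC _) (hD _) (norm_nonneg _) ((norm_nonneg _).trans (hC p'.2))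
  have key := ih (ℤ × Ω) (S.prodZ 𝔪) T'' hT'' hc'' W hW hWT F₀ hF₀ F hF
  convert key using 2 with m
  change _ = 𝔪.toFun (fun r => S.E (fun ω => W (r, ω) m * F₀ (r, ω) *
    ∏ i, F i ((T'' i ^ m) (r, ω))))
  congr 1
  funext r
  rw [uv_inner S (hT 0) (fun i => hT i.succ) (fun i => hc i.succ 0)
    (fun i j => hc i.succ j.succ) p.hw q.hw (p.hwT 0) (q.hwT 0) p.hf₀ q.hf₀ p.hf q.hf m r]
  rw [← S.Esmul]
  · congr 1
    funext ω
    simp only [W, F₀, F, T'', prodCongr_zpow]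
    ring
  · refine S.mmul _ _ (S.mmul _ _ (S.mmul _ _ (q.hw.meas m) (S.mconj _ (p.hw.meas (m + r))))
      (hF₀s r)) ?_
    exact S.mprod Finset.univ (fun i ω => (fun ω' => q.f i ω' *
      conj (p.f i (((T i.succ) ^ r) (((T 0) ^ (-r)) ω')))) (((T i.succ) ^ m) ω))
      fun i _ => (hT i.succ).meas_zpow m (hFs i r)

/-- **ABSS.** Proof. Let `T : Fin (k+1) → Perm Ω` etc. be given, `T0 = T 0`, `T' i = T i.succ`.
Take `H, J` from `gns S`. Index set `ι`: all triples `(w, f₀, f)` with `Weight 𝒲 S w`, `w`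
invariant under all `T i`, `f₀, f i` admissible (`f : Fin k → Ω → ℂ`) (a subtype). Vectors
`v_{(w, f₀, f)} m = J (fun ω => conj (uv T0 T' w f₀ f m ω))`; bounded by `uv_adm`
(`‖J x‖² = re (S.E (conj x * x)) ≤ C²`). `T = {φ | ∃ W ∈ 𝒲, φ ∈ W}`, `hdense = h𝒲.dense`.
The hypothesis `h` of `hilbert_dec`: for `i = (w, f₀, f)`, `i' = (w', g₀, g)` and `φ ∈ T`, by
`uv_inner`, `Esmul`,
`𝔪_r (conj (φ (m + r)) * ⟪v_{i'} m, v_i (m + r)⟫) = (S.prodZ 𝔪).E (fun p => W p m * F₀ p *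
 ∏ i, F i ((T'' i ^ m) p))` with the weight `W` of `weight_prodZ`,
`F₀ (r, ω) = g₀ ω * conj (f₀ (T0 ^ (-r) ω))`,
`F i (r, ω) = g i ω * conj (f i (T' i ^ r (T0 ^ (-r) ω)))`,
`T'' i = (Equiv.refl ℤ).prodCongr (T' i)` (`prodCongr_zpow`), so the induction hypothesis `PStat k`
for the mean system `S.prodZ 𝔪` on `ℤ × Ω` applies (`Pres.prodZ`).
`hilbert_dec` applied to `v = J (f 0)` and `uv_repr` give the claim:
`⟪J (conj u_m), J (f 0)⟫ = S.E (u_m * f 0)`. -/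
theorem pstat_succ {A : Set (ℤ → ℂ)} {𝒲 : Set (Set (ℤ → ℂ))} (hA : SeqAlg A)
    (h𝒲 : WeightSys A 𝒲) {k : ℕ} (ih : PStat A 𝒲 k) : PStat A 𝒲 (k + 1) := by
  intro Ω S T hT hc w hw hwT f₀ hf₀ f hf
  obtain ⟨H, i1, i2, i3, J, hJ⟩ := gns S
  let vv : AbsIdx 𝒲 S T → ℤ → H := fun q m =>
    J (fun ω => conj (uv (T 0) (fun i : Fin k => T i.succ) q.w q.f₀ q.f m ω))
  have hadm : ∀ (q : AbsIdx 𝒲 S T) (m : ℤ),
      S.M (fun ω => conj (uv (T 0) (fun i : Fin k => T i.succ) q.w q.f₀ q.f m ω)) := fun q m =>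
    S.mconj _ ((uv_adm h𝒲 S (hT 0) (fun i : Fin k => hT i.succ) q.hw q.hf₀ q.hf).1 m)
  have hvv : ∀ q, ∃ C : ℝ, ∀ m, ‖vv q m‖ ≤ C := by
    intro q
    obtain ⟨C, hC⟩ := (uv_adm h𝒲 S (hT 0) (fun i : Fin k => hT i.succ) q.hw q.hf₀ q.hf).2
    refine ⟨|C|, fun m => gns_norm_le hJ (hadm q m) (abs_nonneg _) fun ω => ?_⟩
    rw [RCLike.norm_conj]
    exact (hC m ω).trans (le_abs_self _)
  have main := hilbert_dec hA vv hvv {φ | ∃ W ∈ 𝒲, φ ∈ W} ?_ ?_ ?_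
    ⟨w, f₀, fun i => f i.succ, hw, hwT, hf₀, fun i => hf i.succ⟩ (J (f 0))
  · convert main using 2 with m
    rw [hJ _ _ (hadm _ m) (hf 0), uv_repr S hT hw hwT hf₀ hf m]
    simp only [Complex.conj_conj]
  · rintro φ ⟨W, hW, hφ⟩
    obtain ⟨C, hC⟩ := h𝒲.bdd W hW
    exact ⟨C, hC φ hφ⟩
  · intro ψ hψ ε hε
    obtain ⟨W, hW, φ, hφ, c, hc⟩ := h𝒲.dense ψ hψ ε hε
    exact ⟨φ, ⟨W, hW, hφ⟩, c, hc⟩
  · intro p q φ hφ 𝔪
    convert abs_h h𝒲 ih S T hT hc p q hφ 𝔪 using 5 with m r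
    rw [hJ _ _ (hadm q m) (hadm p (m + r))]
    simp only [Complex.conj_conj]

end Pool.Agent.Nil820

end
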