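import Pool.Agent.Lib_MP_820dd4_an.Mean
import Pool.Agent.Lib_MP_820dd4_an.Bary1

/-! ### Part `ProdZ` -/

section

/-! # Piece PRODZ: product of a mean system with an invariant mean -/

open scoped ComplexConjugate Topology

namespace Pool.Agent.Nil820

theorem MeanSys.bdd_section {Ω : Type} (S : MeanSys Ω) {f : ℤ × Ω → ℂ}
    (h : (∃ C : ℝ, ∀ p, ‖f p‖ ≤ C) ∧ ∀ r, S.M (fun ω => f (r, ω))) :
    Bdd (fun r => S.E (fun ω => f (r, ω))) := by
  obtain ⟨⟨C, hC⟩, hM⟩ := h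
  exact ⟨C, fun r => S.Ebound _ C (hM r) fun ω => hC (r, ω)⟩

/-- **PRODZ.** The product of a mean system with an invariant mean on `ℤ`: admissible functions on
`ℤ × Ω` are the bounded ones with admissible sections, the expectation is `𝔪_r E_ω`. All the
fields are routine (`Epos`: `E (conj f f)` has nonnegative real part in every section, then
`InvMean.re_nonneg`; `Ebound`: `S.Ebound` in every section, then `InvMean.bound`). -/
noncomputable def MeanSys.prodZ {Ω : Type} (S : MeanSys Ω) (𝔪 : InvMean) : MeanSys (ℤ × Ω) where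
  M f := (∃ C : ℝ, ∀ p, ‖f p‖ ≤ C) ∧ ∀ r, S.M (fun ω => f (r, ω))
  E f := 𝔪.toFun (fun r => S.E (fun ω => f (r, ω)))
  bdd := fun _ h => h.1
  mconst := fun c => ⟨⟨‖c‖, fun _ => le_rfl⟩, fun _ => S.mconst c⟩
  madd := by
    rintro f g ⟨⟨C, hC⟩, hf⟩ ⟨⟨D, hD⟩, hg⟩
    exact ⟨⟨C + D, fun p => (norm_add_le _ _).trans (add_le_add (hC p) (hD p))⟩,
      fun r => S.madd _ _ (hf r) (hg r)⟩
  mmul := by
    rintro f g ⟨⟨C, hC⟩, hf⟩ ⟨⟨D, hD⟩, hg⟩
    refine ⟨⟨|C| * D, fun p => ?_⟩, fun r => S.mmul _ _ (hf r) (hg r)⟩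
    rw [norm_mul]
    exact mul_le_mul ((hC p).trans (le_abs_self C)) (hD p) (norm_nonneg _) (abs_nonneg _)
  mconj := by
    rintro f ⟨⟨C, hC⟩, hf⟩
    exact ⟨⟨C, fun p => by simpa using hC p⟩, fun r => S.mconj _ (hf r)⟩
  Econst := by
    intro c
    simp only [S.Econst]
    exact 𝔪.const c
  Eadd := by
    intro f g hf hg
    have e : (fun r => S.E (fun ω => f (r, ω) + g (r, ω))) =
        fun r => S.E (fun ω => f (r, ω)) + S.E (fun ω => g (r, ω)) := by
      funext r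
      exact S.Eadd _ _ (hf.2 r) (hg.2 r)
    show 𝔪.toFun (fun r => S.E (fun ω => f (r, ω) + g (r, ω))) = _
    rw [e]
    exact 𝔪.add _ _ (S.bdd_section hf) (S.bdd_section hg)
  Esmul := by
    intro c f hf
    have e : (fun r => S.E (fun ω => c * f (r, ω))) = fun r => c * S.E (fun ω => f (r, ω)) := by
      funext r
      exact S.Esmul c _ (hf.2 r)
    show 𝔪.toFun (fun r => S.E (fun ω => c * f (r, ω))) = _
    rw [e]
    exact 𝔪.smul c _ (S.bdd_section hf)
  Econj := by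
    intro f hf
    have e : (fun r => S.E (fun ω => conj (f (r, ω)))) = fun r => conj (S.E (fun ω => f (r, ω))) := by
      funext r
      exact S.Econj _ (hf.2 r)
    show 𝔪.toFun (fun r => S.E (fun ω => conj (f (r, ω)))) = _
    rw [e]
    exact 𝔪.cj _ (S.bdd_section hf)
  Epos := by
    rintro f ⟨⟨C, hC⟩, hf⟩
    refine 𝔪.re_nonneg ?_ fun r => S.Epos _ (hf r)
    refine ⟨|C| * C, fun r => S.Ebound _ _ (S.mmul _ _ (S.mconj _ (hf r)) (hf r)) fun ω => ?_⟩
    rw [norm_mul, RCLike.norm_conj]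
    exact mul_le_mul ((hC _).trans (le_abs_self C)) (hC _) (norm_nonneg _) (abs_nonneg _)
  Ebound := by
    intro f C hf hC
    exact 𝔪.bound _ C fun r => S.Ebound _ C (hf.2 r) fun ω => hC (r, ω)

/-- automorphisms extend to the product -/
theorem MeanSys.Pres.prodZ {Ω : Type} {S : MeanSys Ω} {T : Equiv.Perm Ω} (h : S.Pres T)
    (𝔪 : InvMean) : (S.prodZ 𝔪).Pres ((Equiv.refl ℤ).prodCongr T) where
  meas := by
    rintro f ⟨⟨C, hC⟩, hf⟩
    exact ⟨⟨C, fun p => hC _⟩, fun r => h.meas _ (hf r)⟩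
  meas_symm := by
    rintro f ⟨⟨C, hC⟩, hf⟩
    exact ⟨⟨C, fun p => hC _⟩, fun r => h.meas_symm _ (hf r)⟩
  pres := by
    rintro f ⟨_, hf⟩
    show 𝔪.toFun (fun r => S.E (fun ω => f (r, T ω))) = 𝔪.toFun (fun r => S.E (fun ω => f (r, ω)))
    congr 1
    funext r
    exact h.pres _ (hf r)

end Pool.Agent.Nil820

end

/-! ### Part `Pres` -/

section

/-! # Piece PRES: automorphisms of mean systems -/

open scoped ComplexConjugate Topology

namespace Pool.Agent.Nil820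

private theorem pres_meas_pow {Ω : Type} {S : MeanSys Ω} {T : Equiv.Perm Ω} (h : S.Pres T)
    (n : ℕ) : ∀ f : Ω → ℂ, S.M f → S.M (fun ω => f ((T ^ n) ω)) := by
  induction n with
  | zero => intro f hf; simpa using hf
  | succ n ih =>
    intro f hf
    have h1 := h.meas _ (ih f hf)
    simpa [pow_succ] using h1

private theorem pres_meas_pow_symm {Ω : Type} {S : MeanSys Ω} {T : Equiv.Perm Ω} (h : S.Pres T)
    (n : ℕ) : ∀ f : Ω → ℂ, S.M f → S.M (fun ω => f ((T⁻¹ ^ n) ω)) := by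
  induction n with
  | zero => intro f hf; simpa using hf
  | succ n ih =>
    intro f hf
    have h1 := h.meas_symm _ (ih f hf)
    rw [pow_succ]
    exact h1

/-- powers of an automorphism preserve admissible functions (nonnegative powers by induction with
`meas`, negative ones with `meas_symm`) -/
theorem MeanSys.Pres.meas_zpow {Ω : Type} {S : MeanSys Ω} {T : Equiv.Perm Ω} (h : S.Pres T)
    (n : ℤ) {f : Ω → ℂ} (hf : S.M f) : S.M (fun ω => f ((T ^ n) ω)) := by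
  obtain ⟨k, rfl | rfl⟩ := n.eq_nat_or_neg
  · have := pres_meas_pow h k f hf
    simpa using this
  · have := pres_meas_pow_symm h k f hf
    rw [zpow_neg, zpow_natCast, ← inv_pow]
    exact this

private theorem pres_pow {Ω : Type} {S : MeanSys Ω} {T : Equiv.Perm Ω} (h : S.Pres T)
    (n : ℕ) : ∀ f : Ω → ℂ, S.M f → S.E (fun ω => f ((T ^ n) ω)) = S.E f := by
  induction n with
  | zero => intro f hf; simp
  | succ n ih =>
    intro f hf
    have h1 := h.pres _ (pres_meas_pow h n f hf)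
    rw [← ih f hf, ← h1]
    rw [pow_succ]
    rfl

/-- powers of an automorphism preserve the expectation -/
theorem MeanSys.Pres.pres_zpow {Ω : Type} {S : MeanSys Ω} {T : Equiv.Perm Ω} (h : S.Pres T)
    (n : ℤ) {f : Ω → ℂ} (hf : S.M f) : S.E (fun ω => f ((T ^ n) ω)) = S.E f := by
  obtain ⟨k, rfl | rfl⟩ := n.eq_nat_or_neg
  · have := pres_pow h k f hf
    simpa using this
  · have h1 := pres_pow h k (fun ω => f ((T ^ (-(k : ℤ))) ω)) (h.meas_zpow _ hf)
    rw [← h1]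
    congr 1
    funext ω
    rw [zpow_neg, zpow_natCast]
    simp

/-- finite products are admissible -/
theorem MeanSys.mprod {Ω : Type} (S : MeanSys Ω) {ι : Type*} (s : Finset ι) (f : ι → Ω → ℂ)
    (h : ∀ i ∈ s, S.M (f i)) : S.M (fun ω => ∏ i ∈ s, f i ω) := by
  classical
  induction s using Finset.induction_on with
  | empty => simpa using S.mconst 1
  | insert a s ha ih =>
    simp only [Finset.prod_insert ha]
    exact S.mmul _ _ (h a (Finset.mem_insert_self _ _))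
      (ih fun i hi => h i (Finset.mem_insert_of_mem hi))

/-- finite sums are admissible and the expectation is additive -/
theorem MeanSys.Esum {Ω : Type} (S : MeanSys Ω) {ι : Type*} (s : Finset ι) (c : ι → ℂ)
    (f : ι → Ω → ℂ) (h : ∀ i ∈ s, S.M (f i)) :
    S.M (fun ω => ∑ i ∈ s, c i * f i ω) ∧
      S.E (fun ω => ∑ i ∈ s, c i * f i ω) = ∑ i ∈ s, c i * S.E (f i) := by
  classical
  induction s using Finset.induction_on with
  | empty =>
    constructor
    · simpa using S.mconst 0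
    · simpa using S.Econst 0
  | insert a s ha ih =>
    obtain ⟨h1, h2⟩ := ih fun i hi => h i (Finset.mem_insert_of_mem hi)
    have ha1 := h a (Finset.mem_insert_self _ _)
    have hm : S.M (fun ω => c a * f a ω) := S.mmul _ _ (S.mconst (c a)) ha1
    constructor
    · simp only [Finset.sum_insert ha]
      exact S.madd _ _ hm h1
    · simp only [Finset.sum_insert ha]
      rw [S.Eadd _ _ hm h1, h2, S.Esmul _ _ ha1]

/-- functions invariant under `T` are invariant under all powers -/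
theorem inv_zpow {Ω α : Type} {T : Equiv.Perm Ω} {w : Ω → α} (h : ∀ ω, w (T ω) = w ω) (n : ℤ)
    (ω : Ω) : w ((T ^ n) ω) = w ω := by
  have hN : ∀ (k : ℕ) (ω : Ω), w ((T ^ k) ω) = w ω := by
    intro k
    induction k with
    | zero => intro ω; simp
    | succ k ih =>
      intro ω
      rw [pow_succ]
      have : w ((T ^ k * T) ω) = w ((T ^ k) (T ω)) := rfl
      rw [this, ih, h]
  obtain ⟨k, rfl | rfl⟩ := n.eq_nat_or_neg
  · simpa using hN k ω
  · have h1 := hN k ((T ^ (-(k : ℤ))) ω)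
    rw [← h1]
    congr 1
    rw [zpow_neg, zpow_natCast]
    simp

/-- powers in the product space -/
theorem prodCongr_zpow {Ω : Type} (T : Equiv.Perm Ω) (n : ℤ) (p : ℤ × Ω) :
    (((Equiv.refl ℤ).prodCongr T : Equiv.Perm (ℤ × Ω)) ^ n) p = (p.1, (T ^ n) p.2) := by
  have hN : ∀ (k : ℕ) (p : ℤ × Ω),
      (((Equiv.refl ℤ).prodCongr T : Equiv.Perm (ℤ × Ω)) ^ k) p = (p.1, (T ^ k) p.2) := by
    intro k
    induction k with
    | zero => intro p; simp
    | succ k ih =>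
      intro p
      rw [pow_succ]
      have e : ((((Equiv.refl ℤ).prodCongr T : Equiv.Perm (ℤ × Ω)) ^ k) *
        ((Equiv.refl ℤ).prodCongr T : Equiv.Perm (ℤ × Ω))) p =
        (((Equiv.refl ℤ).prodCongr T : Equiv.Perm (ℤ × Ω)) ^ k) (p.1, T p.2) := rfl
      rw [e, ih, pow_succ]
      rfl
  obtain ⟨k, rfl | rfl⟩ := n.eq_nat_or_neg
  · simpa using hN k p
  · rw [zpow_neg, zpow_natCast, zpow_neg, zpow_natCast]
    rw [Equiv.Perm.inv_eq_iff_eq]
    rw [hN]
    simp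

end Pool.Agent.Nil820

end

/-! ### Part `AbsDefs` -/

section

/-! # Definitions for piece ABS (correlation sequences with weights, induction on the number of transformations) -/

open scoped ComplexConjugate Topology

namespace Pool.Agent.Nil820

/-- an admissible weight: `w ω` is a sequence in a fixed class `W ∈ 𝒲` -/
structure Weight (𝒲 : Set (Set (ℤ → ℂ))) {Ω : Type} (S : MeanSys Ω) (w : Ω → ℤ → ℂ) : Prop where
  cls : ∃ W ∈ 𝒲, ∀ ω, w ω ∈ W
  meas : ∀ m, S.M (fun ω => w ω m)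

/-- The statement for `k` transformations. -/
def PStat (A : Set (ℤ → ℂ)) (𝒲 : Set (Set (ℤ → ℂ))) (k : ℕ) : Prop :=
  ∀ (Ω : Type) (S : MeanSys Ω) (T : Fin k → Equiv.Perm Ω), (∀ i, S.Pres (T i)) →
    (∀ i j, T i * T j = T j * T i) → ∀ w : Ω → ℤ → ℂ, Weight 𝒲 S w →
    (∀ i ω, w (T i ω) = w ω) → ∀ f₀, S.M f₀ → ∀ f : Fin k → Ω → ℂ, (∀ i, S.M (f i)) →
    Dec A (fun m => S.E (fun ω => w ω m * f₀ ω * ∏ i, f i ((T i ^ m) ω)))

/-- The functions `u_m` -/
def uv {Ω : Type} {k : ℕ} (T0 : Equiv.Perm Ω) (T : Fin k → Equiv.Perm Ω) (w : Ω → ℤ → ℂ)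
    (f₀ : Ω → ℂ) (f : Fin k → Ω → ℂ) (m : ℤ) (ω : Ω) : ℂ :=
  w ω m * f₀ ((T0 ^ (-m)) ω) * ∏ i, f i ((T i ^ m) ((T0 ^ (-m)) ω))

end Pool.Agent.Nil820

end

/-! ### Part `AbsU` -/

section

/-! # Pieces ABSU, ABSR: the functions u_m -/

open scoped ComplexConjugate Topology

namespace Pool.Agent.Nil820

/-- **ABSU.** `u_m` is admissible and bounded independently of `m`. -/
theorem uv_adm {A : Set (ℤ → ℂ)} {𝒲 : Set (Set (ℤ → ℂ))} (h𝒲 : WeightSys A 𝒲) {Ω : Type}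
    (S : MeanSys Ω) {k : ℕ} {T0 : Equiv.Perm Ω} {T : Fin k → Equiv.Perm Ω} (hT0 : S.Pres T0)
    (hT : ∀ i, S.Pres (T i)) {w : Ω → ℤ → ℂ} (hw : Weight 𝒲 S w) {f₀ : Ω → ℂ} (hf₀ : S.M f₀)
    {f : Fin k → Ω → ℂ} (hf : ∀ i, S.M (f i)) :
    (∀ m, S.M (uv T0 T w f₀ f m)) ∧ ∃ C : ℝ, ∀ m ω, ‖uv T0 T w f₀ f m ω‖ ≤ C := by
  constructor
  · intro m
    have h1 : S.M (fun ω => w ω m * f₀ ((T0 ^ (-m)) ω)) :=
      S.mmul _ _ (hw.meas m) (hT0.meas_zpow (-m) hf₀)
    have h2 : S.M (fun ω => ∏ i ∈ (Finset.univ : Finset (Fin k)),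
        (fun ω => f i ((T i ^ m) ((T0 ^ (-m)) ω))) ω) := by
      refine S.mprod Finset.univ (fun i ω => f i ((T i ^ m) ((T0 ^ (-m)) ω))) ?_
      intro i _
      exact hT0.meas_zpow (-m) ((hT i).meas_zpow m (hf i))
    exact S.mmul _ _ h1 h2
  · obtain ⟨W, hW, hwW⟩ := hw.cls
    obtain ⟨Cw, hCw⟩ := h𝒲.bdd W hW
    obtain ⟨C0, hC0⟩ := S.bdd f₀ hf₀
    choose D hD using fun i => S.bdd (f i) (hf i)
    refine ⟨|Cw| * |C0| * ∏ i, |D i|, fun m ω => ?_⟩
    unfold uv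
    rw [norm_mul, norm_mul, norm_prod]
    have a1 : ‖w ω m‖ ≤ |Cw| := (hCw _ (hwW ω) m).trans (le_abs_self _)
    have a2 : ‖f₀ ((T0 ^ (-m)) ω)‖ ≤ |C0| := (hC0 _).trans (le_abs_self _)
    have a3 : ∏ i, ‖f i ((T i ^ m) ((T0 ^ (-m)) ω))‖ ≤ ∏ i, |D i| :=
      Finset.prod_le_prod (fun i _ => norm_nonneg _) fun i _ => (hD i _).trans (le_abs_self _)
    exact mul_le_mul (mul_le_mul a1 a2 (norm_nonneg _) (abs_nonneg _)) a3
      (Finset.prod_nonneg fun i _ => norm_nonneg _) (mul_nonneg (abs_nonneg _) (abs_nonneg _))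

/-- **ABSR.** Proof: `S.E h = S.E (h ∘ T 0 ^ (-m))` (`pres_zpow`), `w` is invariant, and
`T 0 ^ m (T 0 ^ (-m) ω) = ω` in the factor `i = 0` of the product (`Fin.prod_univ_succ`). -/
theorem uv_repr {Ω : Type} {𝒲 : Set (Set (ℤ → ℂ))}
    (S : MeanSys Ω) {k : ℕ} {T : Fin (k + 1) → Equiv.Perm Ω}
    (hT : ∀ i, S.Pres (T i)) {w : Ω → ℤ → ℂ} (hw : Weight 𝒲 S w) (hwT : ∀ i ω, w (T i ω) = w ω)
    {f₀ : Ω → ℂ} (hf₀ : S.M f₀) {f : Fin (k + 1) → Ω → ℂ} (hf : ∀ i, S.M (f i)) (m : ℤ) :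
    S.E (fun ω => w ω m * f₀ ω * ∏ i, f i ((T i ^ m) ω)) =
      S.E (fun ω => uv (T 0) (fun i : Fin k => T i.succ) w f₀ (fun i => f i.succ) m ω *
        f 0 ω) := by
  have hM : S.M (fun ω => w ω m * f₀ ω * ∏ i, f i ((T i ^ m) ω)) := by
    have h2 : S.M (fun ω => ∏ i ∈ (Finset.univ : Finset (Fin (k + 1))),
        (fun ω => f i ((T i ^ m) ω)) ω) := by
      refine S.mprod Finset.univ (fun i ω => f i ((T i ^ m) ω)) ?_
      intro i _
      exact (hT i).meas_zpow m (hf i)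
    exact S.mmul _ _ (S.mmul _ _ (hw.meas m) hf₀) h2
  rw [← (hT 0).pres_zpow (-m) hM]
  congr 1
  funext ω
  unfold uv
  have hwi : w (((T 0) ^ (-m)) ω) = w ω := inv_zpow (hwT 0) (-m) ω
  have h0 : ((T 0) ^ m) (((T 0) ^ (-m)) ω) = ω := by
    rw [← Equiv.Perm.mul_apply, ← zpow_add]
    simp
  rw [Fin.prod_univ_succ, hwi, h0]
  ring

end Pool.Agent.Nil820

end
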