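import Pool.Agent.Lib_MP_820dd4_an.AbsU
import Pool.Agent.Lib_MP_820dd4_an.AbsS

/-! ### Part `Abs0` -/

section

/-! # Piece ABS0: no transformation -/

open scoped ComplexConjugate Topology

namespace Pool.Agent.Nil820

/-- **ABS0.** Proof. Let `C > 0` bound `f₀`, `a m = S.E (w · m * f₀)`. For a finite `c` and `K` as
in `Dom W`: `∑ c_m a m = S.E (fun ω => (∑ c_m w ω m) * f₀ ω)` (`Esum`), of norm `≤ K * C`
(`Ebound`). So `Dom W (C⁻¹ * a)`, `Dec A (C⁻¹ * a)` by `h𝒲.hull`, and `a = C * (C⁻¹ * a)`,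
`Dec.cmul`. -/
theorem pstat_zero {A : Set (ℤ → ℂ)} {𝒲 : Set (Set (ℤ → ℂ))} (hA : SeqAlg A)
    (h𝒲 : WeightSys A 𝒲) : PStat A 𝒲 0 := by
  intro Ω S T _ _ w hw _ f₀ hf₀ f _
  obtain ⟨⟨W, hW, hwW⟩, hmeas⟩ := hw
  obtain ⟨C₀, hC₀⟩ := S.bdd f₀ hf₀
  obtain ⟨C, hCpos, hC⟩ : ∃ C : ℝ, 0 < C ∧ ∀ ω, ‖f₀ ω‖ ≤ C :=
    ⟨max C₀ 1, lt_of_lt_of_le one_pos (le_max_right _ _),
      fun ω => (hC₀ ω).trans (le_max_left _ _)⟩
  have hfun : (fun m : ℤ => S.E (fun ω => w ω m * f₀ ω * ∏ i, f i ((T i ^ m) ω))) =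
      fun m : ℤ => S.E (fun ω => w ω m * f₀ ω) := by
    funext m
    congr 1
    funext ω
    rw [Finset.univ_eq_empty, Finset.prod_empty, mul_one]
  rw [hfun]
  have hCne : ((C : ℝ) : ℂ) ≠ 0 := by exact_mod_cast hCpos.ne'
  have hdom : Dom W (fun m : ℤ => ((C : ℝ) : ℂ)⁻¹ * S.E (fun ω => w ω m * f₀ ω)) := by
    intro c K hK hs
    have hM : ∀ m ∈ c.support, S.M (fun ω => w ω m * f₀ ω) := fun m _ =>
      S.mmul _ _ (hmeas m) hf₀
    obtain ⟨h1, h2⟩ := S.Esum c.support (fun m => c m) (fun m ω => w ω m * f₀ ω) hM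
    have e1 : (c.sum fun m z => z * (((C : ℝ) : ℂ)⁻¹ * S.E (fun ω => w ω m * f₀ ω))) =
        ((C : ℝ) : ℂ)⁻¹ * S.E (fun ω => ∑ i ∈ c.support, c i * (w ω i * f₀ ω)) := by
      rw [h2, Finsupp.sum, Finset.mul_sum]
      refine Finset.sum_congr rfl fun m _ => ?_
      ring
    have h3 : ‖S.E (fun ω => ∑ i ∈ c.support, c i * (w ω i * f₀ ω))‖ ≤ K * C := by
      refine S.Ebound _ _ h1 fun ω => ?_
      have e2 : (∑ i ∈ c.support, c i * (w ω i * f₀ ω)) =
          (c.sum fun m z => z * w ω m) * f₀ ω := by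
        rw [Finsupp.sum, Finset.sum_mul]
        refine Finset.sum_congr rfl fun m _ => ?_
        ring
      rw [e2, norm_mul]
      exact mul_le_mul (hs (w ω) (hwW ω)) (hC ω) (norm_nonneg _) hK
    rw [e1, norm_mul, norm_inv, Complex.norm_real, Real.norm_eq_abs, abs_of_pos hCpos]
    calc C⁻¹ * ‖S.E (fun ω => ∑ i ∈ c.support, c i * (w ω i * f₀ ω))‖ ≤ C⁻¹ * (K * C) :=
          mul_le_mul_of_nonneg_left h3 (inv_nonneg.mpr hCpos.le)
      _ = K := by
          field_simp
  have hdec := (h𝒲.hull W hW _ hdom).cmul hA ((C : ℝ) : ℂ)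
  convert hdec using 2 with m
  field_simp

end Pool.Agent.Nil820

end

/-! ### Part `Abs` -/

section

/-! # Correlation sequences of a mean system decompose -/

open scoped ComplexConjugate Topology

namespace Pool.Agent.Nil820

theorem pstat {A : Set (ℤ → ℂ)} {𝒲 : Set (Set (ℤ → ℂ))} (hA : SeqAlg A)
    (h𝒲 : WeightSys A 𝒲) (k : ℕ) : PStat A 𝒲 k := by
  induction k with
  | zero => exact pstat_zero hA h𝒲
  | succ k ih => exact pstat_succ hA h𝒲 ih

/-- Correlation sequences of a mean system decompose. -/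
theorem corr_dec {A : Set (ℤ → ℂ)} {𝒲 : Set (Set (ℤ → ℂ))} (hA : SeqAlg A)
    (h𝒲 : WeightSys A 𝒲) {k : ℕ} {Ω : Type} (S : MeanSys Ω) (T : Fin k → Equiv.Perm Ω)
    (hT : ∀ i, S.Pres (T i)) (hc : ∀ i j, T i * T j = T j * T i) {f₀ : Ω → ℂ} (hf₀ : S.M f₀)
    {f : Fin k → Ω → ℂ} (hf : ∀ i, S.M (f i)) :
    Dec A (fun m => S.E (fun ω => f₀ ω * ∏ i, f i ((T i ^ m) ω))) := by
  have h := pstat hA h𝒲 k Ω S T hT hc (fun _ _ => 1)
    ⟨by obtain ⟨W, hW, h1⟩ := h𝒲.one; exact ⟨W, hW, fun _ => h1⟩, fun _ => S.mconst 1⟩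
    (fun _ _ => rfl) f₀ hf₀ f hf
  simpa only [one_mul] using h

end Pool.Agent.Nil820

end

/-! ### Part `Corr` -/

section

/-! # Piece CORR: correlation sequences of measure preserving transformations -/

open scoped ComplexConjugate Topology ENNReal
open MeasureTheory

namespace Pool.Agent.Nil820

theorem measSys_integrable {X : Type} [MeasurableSpace X] (μ : Measure X)
    [IsProbabilityMeasure μ] {f : X → ℂ} (hf : Measurable f ∧ ∃ C : ℝ, ∀ x, ‖f x‖ ≤ C) :
    Integrable f μ := by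
  obtain ⟨hm, C, hC⟩ := hf
  exact Integrable.of_bound hm.aestronglyMeasurable C (Filter.Eventually.of_forall hC)

/-- **CORR1.** The mean system of a probability space: bounded measurable functions and the
integral. -/
noncomputable def measSys {X : Type} [MeasurableSpace X] (μ : Measure X)
    [IsProbabilityMeasure μ] : MeanSys X where
  M f := Measurable f ∧ ∃ C : ℝ, ∀ x, ‖f x‖ ≤ C
  E f := ∫ x, f x ∂μ
  bdd := fun _ h => h.2
  mconst := fun c => ⟨measurable_const, ‖c‖, fun _ => le_rfl⟩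
  madd := by
    rintro f g ⟨hf, C, hC⟩ ⟨hg, D, hD⟩
    exact ⟨hf.add hg, C + D, fun x => (norm_add_le _ _).trans (add_le_add (hC x) (hD x))⟩
  mmul := by
    rintro f g ⟨hf, C, hC⟩ ⟨hg, D, hD⟩
    refine ⟨hf.mul hg, C * D, fun x => ?_⟩
    rw [norm_mul]
    exact mul_le_mul (hC x) (hD x) (norm_nonneg _) ((norm_nonneg _).trans (hC x))
  mconj := by
    rintro f ⟨hf, C, hC⟩
    refine ⟨Complex.continuous_conj.measurable.comp hf, C, fun x => ?_⟩
    rw [RCLike.norm_conj]
    exact hC x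
  Econst := by
    intro c
    simp
  Eadd := by
    intro f g hf hg
    exact integral_add (measSys_integrable μ hf) (measSys_integrable μ hg)
  Esmul := by
    intro c f _
    exact integral_const_mul c f
  Econj := by
    intro f _
    exact integral_conj
  Epos := by
    intro f _
    have h : (fun ω => conj (f ω) * f ω) = fun ω => (((‖f ω‖ ^ 2 : ℝ)) : ℂ) := by
      funext ω
      rw [mul_comm, Complex.mul_conj, Complex.normSq_eq_norm_sq]
    rw [h, integral_complex_ofReal, Complex.ofReal_re]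
    exact integral_nonneg fun ω => by positivity
  Ebound := by
    intro f C _ hC
    have h := norm_integral_le_of_norm_le_const (μ := μ) (Filter.Eventually.of_forall hC)
    simpa using h

/-- **CORR2.** invertible measure preserving transformations are automorphisms -/
theorem measSys_pres {X : Type} [MeasurableSpace X] (μ : Measure X)
    [IsProbabilityMeasure μ] (T : X ≃ᵐ X) (hT : MeasurePreserving T μ μ) :
    (measSys μ).Pres T.toEquiv := by
  refine ⟨?_, ?_, ?_⟩
  · rintro f ⟨hf, C, hC⟩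
    exact ⟨hf.comp T.measurable, C, fun x => hC _⟩
  · rintro f ⟨hf, C, hC⟩
    exact ⟨hf.comp T.symm.measurable, C, fun x => hC _⟩
  · rintro f ⟨hf, C, hC⟩
    exact hT.integral_comp' f

/-- powers of the underlying permutation are measurable and measure preserving -/
theorem measPres_zpow {X : Type} [MeasurableSpace X] (μ : Measure X) (T : X ≃ᵐ X)
    (hT : MeasurePreserving T μ μ) (m : ℤ) :
    MeasurePreserving (fun x => ((T.toEquiv : Equiv.Perm X) ^ m) x) μ μ := by
  have hn : ∀ (S : X ≃ᵐ X), MeasurePreserving S μ μ → ∀ n : ℕ,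
      MeasurePreserving (fun x => ((S.toEquiv : Equiv.Perm X) ^ n) x) μ μ := by
    intro S hS n
    induction n with
    | zero => exact MeasurePreserving.id μ
    | succ n ih =>
      have h := ih.comp hS
      have he : (fun x => ((S.toEquiv : Equiv.Perm X) ^ (n + 1)) x)
          = (fun x => ((S.toEquiv : Equiv.Perm X) ^ n) x) ∘ S := by
        funext x
        simp only [pow_succ, Equiv.Perm.mul_apply, Function.comp_apply]
        rfl
      rw [he]
      exact h
  rcases Int.eq_nat_or_neg m with ⟨n, rfl | rfl⟩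
  · simpa using hn T hT n
  · have h := hn T.symm (hT.symm T) n
    have he : (fun x => ((T.toEquiv : Equiv.Perm X) ^ (-(n : ℤ))) x)
        = fun x => ((T.symm.toEquiv : Equiv.Perm X) ^ n) x := by
      funext x
      rw [zpow_neg, zpow_natCast, ← inv_pow]
      rfl
    rw [he]
    exact h

/-- a function in `L^∞` is a.e. equal to a bounded measurable function -/
theorem exists_bdd_meas {X : Type} [MeasurableSpace X] (μ : Measure X) {f : X → ℂ}
    (hf : MemLp f ∞ μ) : ∃ g : X → ℂ, (Measurable g ∧ ∃ C : ℝ, ∀ x, ‖g x‖ ≤ C) ∧ f =ᵐ[μ] g := by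
  have hm := hf.aestronglyMeasurable.aemeasurable
  have hb : ∀ᵐ x ∂μ, ‖f x‖ ≤ (eLpNormEssSup f μ).toReal := by
    have h1 := enorm_ae_le_eLpNormEssSup f μ
    have h2 : eLpNormEssSup f μ ≠ ∞ := by
      have := hf.eLpNorm_ne_top
      rwa [eLpNorm_exponent_top] at this
    filter_upwards [h1] with x hx
    have h3 := ENNReal.toReal_mono h2 hx
    rwa [toReal_enorm] at h3
  set C : ℝ := (eLpNormEssSup f μ).toReal with hC
  have hC0 : 0 ≤ C := ENNReal.toReal_nonneg
  set g₀ := hm.mk f with hg₀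
  have hg₀m : Measurable g₀ := hm.measurable_mk
  have hfg₀ : f =ᵐ[μ] g₀ := hm.ae_eq_mk
  set s : Set X := {x | ‖g₀ x‖ ≤ C} with hs
  have hsm : MeasurableSet s := measurableSet_le hg₀m.norm measurable_const
  refine ⟨s.indicator g₀, ⟨hg₀m.indicator hsm, C, ?_⟩, ?_⟩
  · intro x
    by_cases hx : x ∈ s
    · rw [Set.indicator_of_mem hx]
      exact hx
    · rw [Set.indicator_of_notMem hx, norm_zero]
      exact hC0
  · filter_upwards [hfg₀, hb] with x h1 h2
    have hx : x ∈ s := by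
      change ‖g₀ x‖ ≤ C
      rw [← h1]
      exact h2
    rw [Set.indicator_of_mem hx]
    exact h1

/-- **CORR3.** Correlation sequences of functions in `L^∞` decompose.

Proof. A function in `L^∞` is a.e. equal to a bounded measurable function (take a measurable
representative and truncate it at the essential supremum: `f' x = f x` if `‖f x‖ ≤ C`, else `0`).
All `(T i)^m` are measure preserving, so the integrals do not change
(`MeasurePreserving.quasiMeasurePreserving`, `QuasiMeasurePreserving.ae_eq_comp`). Apply `corr_dec`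
to `measSys μ` and `(T i).toEquiv`. -/
theorem corr_meas {A : Set (ℤ → ℂ)} {𝒲 : Set (Set (ℤ → ℂ))} (hA : SeqAlg A)
    (h𝒲 : WeightSys A 𝒲) {X : Type} [MeasurableSpace X] (μ : Measure X) [IsProbabilityMeasure μ]
    {l : ℕ} (T : Fin l → X ≃ᵐ X) (hT : ∀ i, MeasurePreserving (T i) μ μ)
    (hc : ∀ i j x, T i (T j x) = T j (T i x)) {f₀ : X → ℂ} (hf₀ : MemLp f₀ ∞ μ)
    {f : Fin l → X → ℂ} (hf : ∀ i, MemLp (f i) ∞ μ) :
    Dec A (fun m => ∫ x, f₀ x * ∏ i, f i ((((T i).toEquiv : Equiv.Perm X) ^ m) x) ∂μ) := by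
  obtain ⟨g₀, hg₀, hfg₀⟩ := exists_bdd_meas μ hf₀
  choose g hg hfg using fun i => exists_bdd_meas μ (hf i)
  have h := corr_dec hA h𝒲 (measSys μ) (fun i => ((T i).toEquiv : Equiv.Perm X))
    (fun i => measSys_pres μ (T i) (hT i))
    (fun i j => by
      ext x
      simpa using hc i j x) (f₀ := g₀) hg₀ (f := g) hg
  have he : (fun m : ℤ => ∫ x, f₀ x * ∏ i, f i ((((T i).toEquiv : Equiv.Perm X) ^ m) x) ∂μ)
      = fun m => (measSys μ).E
        (fun ω => g₀ ω * ∏ i, g i ((((T i).toEquiv : Equiv.Perm X) ^ m) ω)) := by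
    funext m
    refine integral_congr_ae ?_
    have h1 : ∀ᵐ x ∂μ, ∀ i, f i ((((T i).toEquiv : Equiv.Perm X) ^ m) x)
        = g i ((((T i).toEquiv : Equiv.Perm X) ^ m) x) := by
      rw [ae_all_iff]
      intro i
      exact (measPres_zpow μ (T i) (hT i) m).quasiMeasurePreserving.ae_eq_comp (hfg i)
    filter_upwards [hfg₀, h1] with x hx0 hx1
    rw [hx0]
    congr 1
    exact Finset.prod_congr rfl fun i _ => hx1 i
  rw [he]
  exact h

end Pool.Agent.Nil820

end
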