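import Mathlib

/-!
# MP_820dd4_an: definitions

Everything happens for two-sided sequences `ℤ → ℂ`.

* `UZero f`: the window averages of `f` tend to `0`, uniformly in the position of the window.
* `UNull e`: the window averages of `‖e‖` tend to `0`, uniformly.
* `Orth A e`: `UZero (ψ * e)` for every `ψ ∈ A`.
* `SeqAlg A`: the closed algebras of sequences we work with (the nilsequences of step `s`).
* `Dec A a`: `a = N + e` with `N ∈ A` and `Orth A e`; `DecNull A a`: the same with `UNull e`.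
* `Dom S B`: `B` lies in the pointwise closed absolutely convex hull of `S` (dual description).
* `InvMean`: a shift invariant mean on bounded two-sided sequences.
* `MeanSys`, `CorrData`: finitely additive probability spaces.
* `NilData`, `NilFam`: filtered groups with cocompact subgroups, families of nil sequences.
-/

open scoped ComplexConjugate Topology

namespace Pool.Agent.Nil820

/-- bounded two-sided sequence -/
def Bdd (f : ℤ → ℂ) : Prop := ∃ C : ℝ, ∀ m, ‖f m‖ ≤ C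

/-- the averages over windows of length `n` tend to zero, uniformly in the window -/
def UZero (f : ℤ → ℂ) : Prop :=
  ∀ ε > 0, ∃ L : ℕ, ∀ n ≥ L, ∀ M : ℤ, ‖∑ i ∈ Finset.range n, f (M + i)‖ ≤ ε * n

/-- the averages of the absolute value over windows tend to zero, uniformly in the window -/
def UNull (e : ℤ → ℂ) : Prop := UZero (fun m => ((‖e m‖ : ℝ) : ℂ))

/-- `e` has zero correlation with every element of `A`, uniformly in the window -/
def Orth (A : Set (ℤ → ℂ)) (e : ℤ → ℂ) : Prop := ∀ ψ ∈ A, UZero (fun m => ψ m * e m)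

/-- The properties of the algebra of `s`-step nilsequences which are used. -/
structure SeqAlg (A : Set (ℤ → ℂ)) : Prop where
  bdd : ∀ f ∈ A, Bdd f
  const : ∀ c : ℂ, (fun _ => c) ∈ A
  add : ∀ f ∈ A, ∀ g ∈ A, (fun m => f m + g m) ∈ A
  mul : ∀ f ∈ A, ∀ g ∈ A, (fun m => f m * g m) ∈ A
  cj : ∀ f ∈ A, (fun m => conj (f m)) ∈ A
  closed : ∀ f : ℤ → ℂ, (∀ ε > 0, ∃ g ∈ A, ∀ m, ‖f m - g m‖ ≤ ε) → f ∈ A
  /-- recurrence: every value of `f ∈ A` is almost taken along a nonnegative element of `A`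
  with positive lower mean -/
  recur : ∀ f ∈ A, ∀ m₀ : ℤ, ∀ ε > 0, ∃ ψ ∈ A, ∃ c > (0 : ℝ), ∃ L : ℕ,
    (∀ m, ∃ t : ℝ, 0 ≤ t ∧ ψ m = (t : ℂ)) ∧ (∀ m, ψ m ≠ 0 → ‖f m - f m₀‖ ≤ ε) ∧
    (∀ n ≥ L, ∀ M : ℤ, c * n ≤ ∑ i ∈ Finset.range n, ‖ψ (M + i)‖)

/-- `a = N + e`, `N ∈ A`, `e` uniformly orthogonal to `A` -/
def Dec (A : Set (ℤ → ℂ)) (a : ℤ → ℂ) : Prop :=
  ∃ N ∈ A, Orth A (fun m => a m - N m)

/-- `a = N + e`, `N ∈ A`, `e` a null sequence -/
def DecNull (A : Set (ℤ → ℂ)) (a : ℤ → ℂ) : Prop :=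
  ∃ N ∈ A, UNull (fun m => a m - N m)

/-- `B` lies in the closed absolutely convex hull of `S` for the topology of pointwise
convergence, in dual form: every finite linear combination of coordinates is at `B` at most its
supremum over `S`. -/
def Dom (S : Set (ℤ → ℂ)) (B : ℤ → ℂ) : Prop :=
  ∀ (c : ℤ →₀ ℂ) (K : ℝ), 0 ≤ K → (∀ s ∈ S, ‖c.sum fun m z => z * s m‖ ≤ K) →
    ‖c.sum fun m z => z * B m‖ ≤ K

/-- A shift invariant mean on bounded sequences (values on unbounded ones are irrelevant). -/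
structure InvMean where
  /-- the mean -/
  toFun : (ℤ → ℂ) → ℂ
  add : ∀ f g, Bdd f → Bdd g → toFun (fun m => f m + g m) = toFun f + toFun g
  smul : ∀ (c : ℂ) f, Bdd f → toFun (fun m => c * f m) = c * toFun f
  const : ∀ c : ℂ, toFun (fun _ => c) = c
  cj : ∀ f, Bdd f → toFun (fun m => conj (f m)) = conj (toFun f)
  bound : ∀ f (C : ℝ), (∀ m, ‖f m‖ ≤ C) → ‖toFun f‖ ≤ C
  shift : ∀ f (r : ℤ), Bdd f → toFun (fun m => f (m + r)) = toFun f

/-- A finitely additive probability space in functional form: `M` is a star algebra of bounded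
functions on `Ω`, `E` is a unital positive functional on it. -/
structure MeanSys (Ω : Type) where
  /-- the admissible (measurable) functions -/
  M : (Ω → ℂ) → Prop
  /-- the expectation -/
  E : (Ω → ℂ) → ℂ
  bdd : ∀ f, M f → ∃ C : ℝ, ∀ ω, ‖f ω‖ ≤ C
  mconst : ∀ c : ℂ, M (fun _ => c)
  madd : ∀ f g, M f → M g → M (fun ω => f ω + g ω)
  mmul : ∀ f g, M f → M g → M (fun ω => f ω * g ω)
  mconj : ∀ f, M f → M (fun ω => conj (f ω))
  Econst : ∀ c : ℂ, E (fun _ => c) = c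
  Eadd : ∀ f g, M f → M g → E (fun ω => f ω + g ω) = E f + E g
  Esmul : ∀ (c : ℂ) f, M f → E (fun ω => c * f ω) = c * E f
  Econj : ∀ f, M f → E (fun ω => conj (f ω)) = conj (E f)
  Epos : ∀ f, M f → 0 ≤ (E (fun ω => conj (f ω) * f ω)).re
  Ebound : ∀ f (C : ℝ), M f → (∀ ω, ‖f ω‖ ≤ C) → ‖E f‖ ≤ C

/-- `T` is an automorphism of the mean system -/
structure MeanSys.Pres {Ω : Type} (S : MeanSys Ω) (T : Equiv.Perm Ω) : Prop where
  meas : ∀ f, S.M f → S.M (fun ω => f (T ω))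
  meas_symm : ∀ f, S.M f → S.M (fun ω => f (T.symm ω))
  pres : ∀ f, S.M f → S.E (fun ω => f (T ω)) = S.E f

/-- A weight class system: a collection of sets of sequences, closed under products, conjugates
and shifts, all of whose hulls decompose, and which generates `A`. -/
structure WeightSys (A : Set (ℤ → ℂ)) (𝒲 : Set (Set (ℤ → ℂ))) : Prop where
  bdd : ∀ W ∈ 𝒲, ∃ C : ℝ, ∀ w ∈ W, ∀ m, ‖w m‖ ≤ C
  one : ∃ W ∈ 𝒲, (fun _ => (1 : ℂ)) ∈ W
  shift : ∀ W ∈ 𝒲, ∀ w ∈ W, ∀ r : ℤ, (fun m => w (m + r)) ∈ W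
  cj : ∀ W ∈ 𝒲, ∃ W' ∈ 𝒲, ∀ w ∈ W, (fun m => conj (w m)) ∈ W'
  mul : ∀ W ∈ 𝒲, ∀ V ∈ 𝒲, ∃ U ∈ 𝒲, ∀ w ∈ W, ∀ v ∈ V, (fun m => w m * v m) ∈ U
  hull : ∀ W ∈ 𝒲, ∀ B, Dom W B → Dec A B
  dense : ∀ ψ ∈ A, ∀ ε > 0, ∃ W ∈ 𝒲, ∃ w ∈ W, ∃ c : ℂ, ∀ m, ‖ψ m - c * w m‖ ≤ ε

/-! ### Filtered groups -/

/-- A topological group with a filtration `G = fil 0 = fil 1 ≥ fil 2 ≥ ...` by normal subgroups
with `[fil i, fil l] ≤ fil (i + l)` and a subgroup `Γ` such that every `fil i` is a compact set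
times `Γ ∩ fil i`. -/
structure NilData {G : Type} [Group G] [TopologicalSpace G] (fil : ℕ → Subgroup G)
    (Γ : Subgroup G) : Prop where
  zero : fil 0 = ⊤
  one : fil 1 = ⊤
  anti : ∀ i, fil (i + 1) ≤ fil i
  normal : ∀ i, (fil i).Normal
  comm : ∀ i l, ∀ a ∈ fil i, ∀ b ∈ fil l, a * b * a⁻¹ * b⁻¹ ∈ fil (i + l)
  cocpt : ∀ i, ∃ K : Set G, IsCompact K ∧ K ⊆ (fil i : Set G) ∧
    ∀ c ∈ fil i, ∃ k ∈ K, ∃ γ ∈ Γ, γ ∈ fil i ∧ c = k * γ

/-- the fibre product `{(a, b) : a b⁻¹ ∈ N}` -/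
def derG {G : Type} [Group G] (N : Subgroup G) (hN : N.Normal) : Subgroup (G × G) where
  carrier := {p | p.1 * p.2⁻¹ ∈ N}
  one_mem' := by simp
  mul_mem' := by
    intro p q hp hq
    simp only [Set.mem_ofPred_eq, Prod.fst_mul, Prod.snd_mul] at *
    have h := N.mul_mem (hN.conj_mem _ hq p.1) hp
    convert h using 1
    group
  inv_mem' := by
    intro p hp
    simp only [Set.mem_ofPred_eq, Prod.fst_inv, Prod.snd_inv] at *
    have h := hN.conj_mem _ (N.inv_mem hp) p.2⁻¹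
    convert h using 1
    group

/-- the derived filtration `fil i ×_{fil (i+1)} fil i` of the derived group
`G ×_{fil 2} G` -/
def derFil {G : Type} [Group G] (fil : ℕ → Subgroup G) (hn : ∀ i, (fil i).Normal) (i : ℕ) :
    Subgroup ↥(derG (fil 2) (hn 2)) :=
  ((fil i).prod (fil i) ⊓ derG (fil (i + 1)) (hn (i + 1))).subgroupOf (derG (fil 2) (hn 2))

/-- the derived lattice -/
def derΓ {G : Type} [Group G] (fil : ℕ → Subgroup G) (hn : ∀ i, (fil i).Normal)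
    (Γ : Subgroup G) : Subgroup ↥(derG (fil 2) (hn 2)) :=
  (Γ.prod Γ).subgroupOf (derG (fil 2) (hn 2))

/-- A family of sequences `m ↦ F κ ((g κ) ^ m * x)` of degree `≤ j` over the filtered group,
all of whose members (and all their translates) belong to `A`. -/
structure NilFam {G : Type} [Group G] [TopologicalSpace G] (fil : ℕ → Subgroup G)
    (Γ : Subgroup G) {𝒦 : Type} [TopologicalSpace 𝒦] (g : 𝒦 → G) (F : 𝒦 → G → ℂ) (j : ℕ)
    (A : Set (ℤ → ℂ)) : Prop where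
  contg : Continuous g
  contF : Continuous (fun p : 𝒦 × G => F p.1 p.2)
  right : ∀ κ x γ, γ ∈ Γ → F κ (x * γ) = F κ x
  deg : ∀ κ x c, c ∈ fil (j + 1) → F κ (x * c) = F κ x
  adapt : ∀ κ κ' v x, (fun m : ℤ => F κ' (v * (g κ) ^ m * x)) ∈ A

/-- the members of the family -/
def famSet {G : Type} [Group G] {𝒦 : Type} (g : 𝒦 → G) (F : 𝒦 → G → ℂ) : Set (ℤ → ℂ) :=
  {θ | ∃ κ x, θ = fun m : ℤ => F κ ((g κ) ^ m * x)}

/-- `F` has the vertical character `χ` at level `j` -/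
def VertChar {G : Type} [Group G] (fil : ℕ → Subgroup G) {𝒦 : Type} (F : 𝒦 → G → ℂ) (j : ℕ)
    (χ : G → ℂ) : Prop :=
  (∀ c ∈ fil j, ‖χ c‖ = 1) ∧ ∀ κ x, ∀ c ∈ fil j, F κ (x * c) = χ c * F κ x

/-- square roots (iterated) near the identity: every Lie group has this property -/
def RootProp (G : Type) [Group G] [TopologicalSpace G] : Prop :=
  ∃ U ∈ 𝓝 (1 : G), ∀ y ∈ U, ∃ (k : ℕ → ℕ) (z : ℕ → G),
    (∀ n, (z n) ^ (k n) = y) ∧ Filter.Tendsto z Filter.atTop (𝓝 1)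

/-! ### Nilsequences -/

/-- A basic `s`-step nilsequence: `m ↦ F (g ^ m • x)`, where `G` is a (real, finite dimensional,
Hausdorff, second countable) Lie group, nilpotent of class at most `s`, `Γ` a discrete cocompact
subgroup, `g ∈ G`, `x ∈ G ⧸ Γ` and `F` a continuous function on `G ⧸ Γ`. -/
def BasicNil (s : ℕ) (ψ : ℤ → ℂ) : Prop :=
  ∃ (V : Type) (_ : NormedAddCommGroup V) (_ : NormedSpace ℝ V) (_ : FiniteDimensional ℝ V)
    (G : Type) (_ : Group G) (_ : TopologicalSpace G) (_ : T2Space G)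
    (_ : SecondCountableTopology G) (_ : ChartedSpace V G)
    (_ : LieGroup (modelWithCornersSelf ℝ V) (⊤ : ℕ∞) G)
    (Γ : Subgroup G) (g : G) (x : G ⧸ Γ) (F : C(G ⧸ Γ, ℂ)),
    (⊤ : Subgroup G).lowerCentralSeries s = ⊥ ∧ DiscreteTopology Γ ∧ CompactSpace (G ⧸ Γ) ∧
    ∀ m : ℤ, ψ m = F (g ^ m • x)

/-- The set of all sequences `m ↦ F (g ^ m • x)`, `x ∈ G ⧸ Γ`, for a fixed nilmanifold, a fixed
translation and a fixed function. -/
def NilClass (s : ℕ) (W : Set (ℤ → ℂ)) : Prop :=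
  ∃ (V : Type) (_ : NormedAddCommGroup V) (_ : NormedSpace ℝ V) (_ : FiniteDimensional ℝ V)
    (G : Type) (_ : Group G) (_ : TopologicalSpace G) (_ : T2Space G)
    (_ : SecondCountableTopology G) (_ : ChartedSpace V G)
    (_ : LieGroup (modelWithCornersSelf ℝ V) (⊤ : ℕ∞) G)
    (Γ : Subgroup G) (g : G) (F : C(G ⧸ Γ, ℂ)),
    (⊤ : Subgroup G).lowerCentralSeries s = ⊥ ∧ DiscreteTopology Γ ∧ CompactSpace (G ⧸ Γ) ∧
    W = {ψ | ∃ x : G ⧸ Γ, ∀ m : ℤ, ψ m = F (g ^ m • x)}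

theorem basicNil_iff (s : ℕ) (ψ : ℤ → ℂ) : BasicNil s ψ ↔ ∃ W, NilClass s W ∧ ψ ∈ W := by
  constructor
  · rintro ⟨V, i1, i2, i3, G, i4, i5, i6, i7, i8, i9, Γ, g, x, F, h1, h2, h3, h4⟩
    exact ⟨_, ⟨V, i1, i2, i3, G, i4, i5, i6, i7, i8, i9, Γ, g, F, h1, h2, h3, rfl⟩, ⟨x, h4⟩⟩
  · rintro ⟨W, ⟨V, i1, i2, i3, G, i4, i5, i6, i7, i8, i9, Γ, g, F, h1, h2, h3, rfl⟩, ⟨x, h4⟩⟩
    exact ⟨V, i1, i2, i3, G, i4, i5, i6, i7, i8, i9, Γ, g, x, F, h1, h2, h3, h4⟩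

/-- An `s`-step nilsequence: a uniform limit of basic ones. -/
def Nilseq (s : ℕ) (ψ : ℤ → ℂ) : Prop :=
  ∀ ε > 0, ∃ φ, BasicNil s φ ∧ ∀ m, ‖ψ m - φ m‖ ≤ ε

end Pool.Agent.Nil820
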