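import Mathlib

/-! # Piece ICOMM: iterated commutators -/

open scoped Topology

namespace Pool.Agent.Nil820

/-- the iterated commutator `⁅⁅⁅x 0, x 1⁆, x 2⁆, ...⁆`, where `⁅a, b⁆ = a * b * a⁻¹ * b⁻¹` (the notation
for elements is available after `open scoped commutatorElement`) -/
def icomm {G : Type} [Group G] : (n : ℕ) → (Fin (n + 1) → G) → G
  | 0, x => x 0
  | n + 1, x => icomm n (fun i => x i.castSucc) * x (Fin.last (n + 1)) *
      (icomm n (fun i => x i.castSucc))⁻¹ * (x (Fin.last (n + 1)))⁻¹

/-- **ICOMM1.** membership (induction; `Subgroup.commutator_mem_commutator`) -/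
theorem icomm_mem {G : Type} [Group G] (n : ℕ) (x : Fin (n + 1) → G) :
    icomm n x ∈ (⊤ : Subgroup G).lowerCentralSeries n := by
  induction n with
  | zero => exact Subgroup.mem_top _
  | succ n ih =>
    rw [Subgroup.lowerCentralSeries_succ]
    exact Subgroup.commutator_mem_commutator (ih _) (Subgroup.mem_top _)

/-- continuity -/
theorem icomm_continuous {G : Type} [Group G] [TopologicalSpace G] [IsTopologicalGroup G] (n : ℕ) :
    Continuous (icomm n : (Fin (n + 1) → G) → G) := by
  induction n with
  | zero => exact continuous_apply 0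
  | succ n ih =>
    have h1 : Continuous (fun x : Fin (n + 1 + 1) → G => icomm n (fun i => x i.castSucc)) :=
      ih.comp (continuous_pi fun i => continuous_apply _)
    have h2 : Continuous (fun x : Fin (n + 1 + 1) → G => x (Fin.last (n + 1))) :=
      continuous_apply _
    exact ((h1.mul h2).mul h1.inv).mul h2.inv

/-- membership in a subgroup -/
theorem icomm_mem_subgroup {G : Type} [Group G] (Γ : Subgroup G) (n : ℕ) (x : Fin (n + 1) → G)
    (hx : ∀ i, x i ∈ Γ) : icomm n x ∈ Γ := by
  induction n with
  | zero => exact hx 0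
  | succ n ih =>
    have h1 := ih (fun i => x i.castSucc) (fun i => hx _)
    have h2 := hx (Fin.last (n + 1))
    exact Γ.mul_mem (Γ.mul_mem (Γ.mul_mem h1 h2) (Γ.inv_mem h1)) (Γ.inv_mem h2)

end Pool.Agent.Nil820
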