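import Pool.Agent.Lib_MP_820dd4_an.Defs

/-! ### Part `Small` -/

section

/-! # Piece SMALL: subsets of a commutative topological group which are compact modulo `Λ` -/

open scoped Topology Pointwise

namespace Pool.Agent.Nil820

/-- `E` is contained in `C * Λ` with `C` compact -/
def Small {L : Type} [CommGroup L] [TopologicalSpace L] (Λ : Subgroup L) (E : Set L) : Prop :=
  ∃ C : Set L, IsCompact C ∧ ∀ y ∈ E, ∃ k ∈ C, ∃ l ∈ Λ, y = k * l

variable {L : Type} [CommGroup L] [TopologicalSpace L] [IsTopologicalGroup L] {Λ : Subgroup L}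

theorem Small.mono {E E' : Set L} (h : Small Λ E) (hE : E' ⊆ E) : Small Λ E' := by
  obtain ⟨C, hC, hy⟩ := h
  exact ⟨C, hC, fun y hyE => hy y (hE hyE)⟩

theorem Small.of_le {E : Set L} (h : E ⊆ Λ) : Small Λ E :=
  ⟨{1}, isCompact_singleton, fun y hy => ⟨1, rfl, y, h hy, (one_mul y).symm⟩⟩

theorem Small.of_compact {E : Set L} (h : IsCompact E) : Small Λ E :=
  ⟨E, h, fun y hy => ⟨y, hy, 1, Λ.one_mem, (mul_one y).symm⟩⟩

/-- products of small sets are small (`L` is commutative) -/
theorem Small.mul {E E' : Set L} (h : Small Λ E) (h' : Small Λ E') : Small Λ (E * E') := by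
  obtain ⟨C, hC, hy⟩ := h
  obtain ⟨C', hC', hy'⟩ := h'
  refine ⟨C * C', hC.mul hC', ?_⟩
  rintro y ⟨a, ha, b, hb, rfl⟩
  obtain ⟨k, hk, l, hl, rfl⟩ := hy a ha
  obtain ⟨k', hk', l', hl', rfl⟩ := hy' b hb
  exact ⟨k * k', ⟨k, hk, k', hk', rfl⟩, l * l', Λ.mul_mem hl hl', mul_mul_mul_comm _ _ _ _⟩

/-- the closure of a small set is small if `Λ` is closed (`C * Λ` is closed for `C` compact:
`IsCompact.mul_closed_of_...`, `IsClosed.mul_left_of_isCompact`, or similar) -/
theorem Small.closure (hΛ : IsClosed (Λ : Set L)) {E : Set L} (h : Small Λ E) :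
    Small Λ (_root_.closure E) := by
  obtain ⟨C, hC, hy⟩ := h
  have hcl : IsClosed (C * (Λ : Set L)) := hΛ.mul_left_of_isCompact hC
  have hsub : E ⊆ C * (Λ : Set L) := by
    intro y hyE
    obtain ⟨k, hk, l, hl, rfl⟩ := hy y hyE
    exact ⟨k, hk, l, hl, rfl⟩
  refine ⟨C, hC, fun y hyE => ?_⟩
  obtain ⟨k, hk, l, hl, hkl⟩ := closure_minimal hsub hcl hyE
  exact ⟨k, hk, l, hl, hkl.symm⟩

/-- the subgroup generated by two small subgroups is small (`H ⊔ H' = H * H'` as `L` is
commutative: `Subgroup.mul_normal` or `Subgroup.mem_sup`) -/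
theorem Small.sup {H H' : Subgroup L} (h : Small Λ (H : Set L)) (h' : Small Λ (H' : Set L)) :
    Small Λ ((H ⊔ H' : Subgroup L) : Set L) := by
  refine (h.mul h').mono ?_
  intro y hy
  obtain ⟨a, ha, b, hb, hab⟩ := Subgroup.mem_sup.1 hy
  exact ⟨a, ha, b, hb, hab⟩

/-- finite suprema of small subgroups are small -/
theorem Small.iSup {ι : Type} [Finite ι] {H : ι → Subgroup L} (h : ∀ i, Small Λ (H i : Set L)) :
    Small Λ ((⨆ i, H i : Subgroup L) : Set L) := by
  classical
  cases nonempty_fintype ι
  have key : ∀ s : Finset ι, Small Λ ((s.sup H : Subgroup L) : Set L) := by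
    intro s
    induction s using Finset.induction_on with
    | empty =>
      refine Small.of_le ?_
      rw [Finset.sup_empty]
      intro y hy
      rw [SetLike.mem_coe, Subgroup.mem_bot] at hy
      rw [hy]
      exact Λ.one_mem
    | insert a s ha ih =>
      rw [Finset.sup_insert]
      exact (h a).sup ih
  have := key Finset.univ
  rwa [Finset.sup_univ_eq_iSup] at this

theorem small_torsion_one {M : Subgroup L} (h : Small Λ (M : Set L)) {e : L} {n : ℕ} (hn : 0 < n)
    (he : e ^ n ∈ M) : Small Λ ((M ⊔ Subgroup.zpowers e : Subgroup L) : Set L) := by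
  classical
  have hF : Small Λ (Set.range (fun a : Fin n => e ^ (a : ℕ))) :=
    Small.of_compact (Set.finite_range _).isCompact
  refine (h.mul hF).mono ?_
  intro y hy
  obtain ⟨m, hm, z, hz, rfl⟩ := Subgroup.mem_sup.1 hy
  obtain ⟨k, rfl⟩ := Subgroup.mem_zpowers_iff.1 hz
  have hn' : (0 : ℤ) < n := by exact_mod_cast hn
  have hr0 : 0 ≤ k % (n : ℤ) := Int.emod_nonneg _ hn'.ne'
  have hr1 : k % (n : ℤ) < n := Int.emod_lt_of_pos _ hn'
  have hk : e ^ k = (e ^ n) ^ (k / (n : ℤ)) * e ^ ((k % (n : ℤ)).toNat) := by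
    rw [← zpow_natCast e n, ← zpow_mul, ← zpow_natCast e (k % (n : ℤ)).toNat,
      Int.toNat_of_nonneg hr0, ← zpow_add, Int.mul_ediv_add_emod]
  refine ⟨m * (e ^ n) ^ (k / (n : ℤ)), M.mul_mem hm (M.zpow_mem he _),
    e ^ ((k % (n : ℤ)).toNat), ⟨⟨(k % (n : ℤ)).toNat, ?_⟩, rfl⟩, ?_⟩
  · omega
  · show m * (e ^ n) ^ (k / (n : ℤ)) * e ^ ((k % (n : ℤ)).toNat) = m * e ^ k
    rw [hk, mul_assoc]

/-- **Torsion extensions.** If `M` is a small subgroup and `E` is a finite set such that every
element of `E` has a positive power in `M`, then `M ⊔ ⟨E⟩` is small: it is `F * M` for the finite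
set `F` of all products `∏_{e ∈ E} e ^ (a_e)`, `0 ≤ a_e < n_e`. (Induction on `E`:
adding one element `e` with `e ^ n ∈ M`: `M ⊔ zpowers e = {e ^ a | 0 ≤ a < n} * M`.) -/
theorem Small.torsion {M : Subgroup L} (h : Small Λ (M : Set L)) {E : Set L} (hE : E.Finite)
    (ht : ∀ e ∈ E, ∃ n : ℕ, 0 < n ∧ e ^ n ∈ M) :
    Small Λ ((M ⊔ Subgroup.closure E : Subgroup L) : Set L) := by
  induction E, hE using Set.Finite.induction_on with
  | empty =>
    rw [Subgroup.closure_empty, sup_bot_eq]
    exact h
  | @insert a s ha hs ih =>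
    have h1 := ih (fun e he => ht e (Set.mem_insert_of_mem _ he))
    obtain ⟨n, hn, hna⟩ := ht a (Set.mem_insert _ _)
    have h2 := small_torsion_one h1 hn ((le_sup_left : M ≤ M ⊔ Subgroup.closure s) hna)
    have h3 : M ⊔ Subgroup.closure (insert a s) = M ⊔ Subgroup.closure s ⊔ Subgroup.zpowers a := by
      rw [Set.insert_eq, Subgroup.closure_union, Subgroup.zpowers_eq_closure, sup_assoc,
        sup_comm (Subgroup.closure s)]
    rw [h3]
    exact h2

end Pool.Agent.Nil820

end

/-! ### Part `MultiDefs` -/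

section

/-! # Definitions for piece MULTI -/

open scoped Topology

namespace Pool.Agent.Nil820

/-- multiplicative in every coordinate -/
def MulMap {G L ι : Type} [Group G] [CommGroup L] [DecidableEq ι] (c : (ι → G) → L) : Prop :=
  ∀ x i a b, c (Function.update x i (a * b)) =
    c (Function.update x i a) * c (Function.update x i b)

/-- the subgroup generated by the values with coordinates outside `P` in `Γ` -/
def LP {G L ι : Type} [Group G] [CommGroup L] (c : (ι → G) → L) (Γ : Subgroup G)
    (P : Finset ι) : Subgroup L :=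
  Subgroup.closure {y | ∃ x : ι → G, (∀ i, i ∉ P → x i ∈ Γ) ∧ y = c x}

end Pool.Agent.Nil820

end

/-! ### Part `Multi0` -/

section

/-! # Piece MULTI0: algebra of maps which are multiplicative in every coordinate -/

open scoped Topology

namespace Pool.Agent.Nil820

variable {G L ι : Type} [Group G] [CommGroup L] [Fintype ι] [DecidableEq ι]

/-- for fixed other coordinates, a homomorphism (so it respects `1`, inverses and powers) -/
theorem MulMap.one {c : (ι → G) → L} (hc : MulMap c) (x : ι → G) (i : ι) :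
    c (Function.update x i 1) = 1 := by
  have h := hc x i 1 1
  rw [mul_one] at h
  exact left_eq_mul.1 h

theorem MulMap.inv {c : (ι → G) → L} (hc : MulMap c) (x : ι → G) (i : ι) (a : G) :
    c (Function.update x i a⁻¹) = (c (Function.update x i a))⁻¹ := by
  have h := hc x i a⁻¹ a
  rw [inv_mul_cancel, hc.one] at h
  exact eq_inv_of_mul_eq_one_left h.symm

theorem MulMap.pow {c : (ι → G) → L} (hc : MulMap c) (x : ι → G) (i : ι) (a : G) (n : ℕ) :
    c (Function.update x i (a ^ n)) = (c (Function.update x i a)) ^ n := by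
  induction n with
  | zero => rw [pow_zero, pow_zero, hc.one]
  | succ n ih => rw [pow_succ, pow_succ, hc, ih]

theorem MulMap.comm {c : (ι → G) → L} (hc : MulMap c) (x : ι → G) (i : ι) (a b : G) :
    c (Function.update x i (a * b * a⁻¹ * b⁻¹)) = 1 := by
  rw [hc, hc, hc, hc.inv, hc.inv]
  rw [mul_comm (c (Function.update x i a)) (c (Function.update x i b)), mul_inv_cancel_right,
    mul_inv_cancel]

/-- **MULTI0.** If the coordinates run through subgroups `H i` generated by sets `S i`, then the
values generate the same subgroup as the values on generators.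

Proof. Let `M` be the subgroup generated by the values `c x`, `x i ∈ S i`. Show by induction on the
finset `T` of coordinates: if `x i ∈ H i` for `i ∈ T` and `x i ∈ S i` for `i ∉ T` then `c x ∈ M`
(`Finset.induction_on`; for the new coordinate use `Subgroup.closure_induction` on the value `x i`
with `MulMap.one`, `MulMap.inv` and multiplicativity, all other coordinates fixed;
`x = Function.update x i (x i)`). Take `T = univ`. -/
theorem MulMap.closure_le {c : (ι → G) → L} (hc : MulMap c) (S : ι → Set G) (x : ι → G)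
    (hx : ∀ i, x i ∈ Subgroup.closure (S i)) :
    c x ∈ Subgroup.closure {y | ∃ z : ι → G, (∀ i, z i ∈ S i) ∧ y = c z} := by
  have key : ∀ T : Finset ι, ∀ x : ι → G, (∀ i, i ∈ T → x i ∈ Subgroup.closure (S i)) →
      (∀ i, i ∉ T → x i ∈ S i) →
      c x ∈ Subgroup.closure {y | ∃ z : ι → G, (∀ i, z i ∈ S i) ∧ y = c z} := by
    intro T
    induction T using Finset.induction_on with
    | empty =>
      intro x _ h2
      exact Subgroup.subset_closure ⟨x, fun i => h2 i (Finset.notMem_empty i), rfl⟩
    | insert i T hi ih =>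
      intro x h1 h2
      have h3 : ∀ g ∈ Subgroup.closure (S i), c (Function.update x i g) ∈
          Subgroup.closure {y | ∃ z : ι → G, (∀ i, z i ∈ S i) ∧ y = c z} := by
        intro g hg
        induction hg using Subgroup.closure_induction with
        | mem g hg =>
          apply ih
          · intro j hj
            have hji : j ≠ i := fun h => hi (h ▸ hj)
            rw [Function.update_of_ne hji]
            exact h1 j (Finset.mem_insert_of_mem hj)
          · intro j hj
            by_cases hji : j = i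
            · subst hji
              rw [Function.update_self]
              exact hg
            · rw [Function.update_of_ne hji]
              exact h2 j (by simp [hji, hj])
        | one => rw [hc.one]; exact Subgroup.one_mem _
        | mul a b _ _ ha hb => rw [hc]; exact Subgroup.mul_mem _ ha hb
        | inv a _ ha => rw [hc.inv]; exact Subgroup.inv_mem _ ha
      have h4 := h3 (x i) (h1 i (Finset.mem_insert_self i T))
      rwa [Function.update_eq_self] at h4
  exact key Finset.univ x (fun i _ => hx i) (fun i hi => absurd (Finset.mem_univ i) hi)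

/-- the same modulo a subgroup `M`: values on tuples of generators with one coordinate in a set `E i`
on which `c` takes values in `M` may be omitted. (Proof: `MulMap.closure_le` for `S i ∪ E i`; a tuple
`z` with `z i ∈ S i ∪ E i` either has all `z i ∈ S i` or some `z i ∈ E i`.) -/
theorem MulMap.closure_le' {c : (ι → G) → L} (hc : MulMap c) (M : Subgroup L) (S E : ι → Set G)
    (hE : ∀ z : ι → G, (∀ i, z i ∈ S i ∪ E i) → (∃ i, z i ∈ E i) → c z ∈ M)
    (x : ι → G) (hx : ∀ i, x i ∈ Subgroup.closure (S i ∪ E i)) :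
    c x ∈ M ⊔ Subgroup.closure {y | ∃ z : ι → G, (∀ i, z i ∈ S i) ∧ y = c z} := by
  have h := hc.closure_le (fun i => S i ∪ E i) x hx
  refine (Subgroup.closure_le _).2 ?_ h
  rintro y ⟨z, hz, rfl⟩
  by_cases hz' : ∃ i, z i ∈ E i
  · exact (le_sup_left : M ≤ M ⊔ _) (hE z hz hz')
  · have hz'' : ∀ i, z i ∈ S i := fun i => by
      rcases hz i with h | h
      · exact h
      · exact absurd ⟨i, h⟩ hz'
    exact (le_sup_right : _ ≤ M ⊔ Subgroup.closure {y | ∃ z : ι → G, (∀ i, z i ∈ S i) ∧ y = c z})
      (Subgroup.subset_closure ⟨z, hz'', rfl⟩)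

end Pool.Agent.Nil820

end
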