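import Pool.Agent.Lib_MP_820dd4_an.Defs

/-! # Piece ROOT1: iterated preimages under a map with derivative 2 -/

open scoped Topology Manifold

namespace Pool.Agent.Nil820

/-- **ROOT1.** Contraction: a map `f : V → V` which is strictly differentiable at a fixed point `v₀`
with derivative `2 • id` has iterated preimages converging to `v₀`.

Proof. The inverse function theorem (`HasStrictFDerivAt.toOpenPartialHomeomorph`,
`HasStrictFDerivAt.to_localInverse`) gives a local inverse `σ` with `σ v₀ = v₀`, `f (σ y) = y` near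
`v₀`, and derivative `(1/2) • id` at `v₀`, so `‖σ y - v₀‖ ≤ (3/4) ‖y - v₀‖` on a ball `B` around `v₀`
(contained in the given neighbourhood `O` and on which `f (σ y) = y`). `σ` maps `B` to itself; put
`w 0 = y`, `w (n+1) = σ (w n)`: `w n ∈ B`, `‖w n - v₀‖ ≤ (3/4)^n ‖y - v₀‖`, `f (w (n+1)) = w n`. -/
theorem exists_iterated_preimages {V : Type} [NormedAddCommGroup V] [NormedSpace ℝ V]
    [CompleteSpace V] {f : V → V} {v₀ : V}
    (hf : HasStrictFDerivAt f ((2 : ℝ) • ContinuousLinearMap.id ℝ V) v₀) (h0 : f v₀ = v₀)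
    {O : Set V} (hO : O ∈ 𝓝 v₀) :
    ∃ U ∈ 𝓝 v₀, ∀ y ∈ U, ∃ w : ℕ → V, w 0 = y ∧ (∀ n, w n ∈ O) ∧ (∀ n, f (w (n + 1)) = w n) ∧
      Filter.Tendsto w Filter.atTop (𝓝 v₀) := by
  let L : V ≃L[ℝ] V := ContinuousLinearEquiv.equivOfInverse
    ((2 : ℝ) • ContinuousLinearMap.id ℝ V) (((1 / 2 : ℝ)) • ContinuousLinearMap.id ℝ V)
    (fun x => by simp [smul_smul]) (fun x => by simp [smul_smul])
  have hL : (L : V →L[ℝ] V) = (2 : ℝ) • ContinuousLinearMap.id ℝ V := by
    ext x; rfl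
  have hLs : (L.symm : V →L[ℝ] V) = (1 / 2 : ℝ) • ContinuousLinearMap.id ℝ V := by
    ext x; rfl
  have hf' : HasStrictFDerivAt f (L : V →L[ℝ] V) v₀ := by rw [hL]; exact hf
  set σ : V → V := hf'.localInverse f L v₀ with hσ
  have hσ0 : σ v₀ = v₀ := by
    have := hf'.localInverse_apply_image
    rwa [h0] at this
  have hσd : HasFDerivAt σ ((1 / 2 : ℝ) • ContinuousLinearMap.id ℝ V) v₀ := by
    have := hf'.to_localInverse.hasFDerivAt
    rwa [h0, hLs] at this
  have hσr : ∀ᶠ y in 𝓝 v₀, f (σ y) = y := by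
    have := hf'.eventually_right_inverse
    rwa [h0] at this
  have hest : ∀ᶠ y in 𝓝 v₀, ‖σ y - v₀‖ ≤ (3 / 4) * ‖y - v₀‖ := by
    have h1 := hσd.isLittleO
    have h2 := h1.def (show (0 : ℝ) < 1 / 4 by norm_num)
    filter_upwards [h2] with y hy
    rw [hσ0] at hy
    have h3 : σ y - v₀ = (σ y - v₀ - ((1 / 2 : ℝ) • ContinuousLinearMap.id ℝ V) (y - v₀)) +
        (1 / 2 : ℝ) • (y - v₀) := by
      simp
    rw [h3]
    refine (norm_add_le _ _).trans ?_
    rw [norm_smul]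
    have : ‖(1 / 2 : ℝ)‖ = 1 / 2 := by norm_num
    rw [this]
    linarith
  obtain ⟨r, hr, hball⟩ := Metric.eventually_nhds_iff_ball.1
    ((Filter.eventually_of_mem hO (fun x hx => hx) : ∀ᶠ y in 𝓝 v₀, y ∈ O).and (hσr.and hest))
  have hstep : ∀ y ∈ Metric.ball v₀ r, σ y ∈ Metric.ball v₀ r := by
    intro y hy
    have h1 := (hball y hy).2.2
    rw [mem_ball_iff_norm] at hy ⊢
    have : 0 ≤ ‖y - v₀‖ := norm_nonneg _
    linarith
  refine ⟨Metric.ball v₀ r, Metric.ball_mem_nhds v₀ hr, fun y hy => ?_⟩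
  have hmem : ∀ n, σ^[n] y ∈ Metric.ball v₀ r := by
    intro n
    induction n with
    | zero => simpa using hy
    | succ n ih => rw [Function.iterate_succ_apply']; exact hstep _ ih
  refine ⟨fun n => σ^[n] y, rfl, fun n => (hball _ (hmem n)).1, fun n => ?_, ?_⟩
  · simp only [Function.iterate_succ_apply']
    exact (hball _ (hmem n)).2.1
  · have hb : ∀ n, ‖σ^[n] y - v₀‖ ≤ (3 / 4 : ℝ) ^ n * ‖y - v₀‖ := by
      intro n
      induction n with
      | zero => simp
      | succ n ih =>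
        rw [Function.iterate_succ_apply', pow_succ]
        have h1 := (hball _ (hmem n)).2.2
        calc ‖σ (σ^[n] y) - v₀‖ ≤ (3 / 4) * ‖σ^[n] y - v₀‖ := h1
          _ ≤ (3 / 4) * ((3 / 4 : ℝ) ^ n * ‖y - v₀‖) := by gcongr
          _ = (3 / 4 : ℝ) ^ n * (3 / 4) * ‖y - v₀‖ := by ring
    rw [tendsto_iff_norm_sub_tendsto_zero]
    have hlim : Filter.Tendsto (fun n : ℕ => (3 / 4 : ℝ) ^ n * ‖y - v₀‖) Filter.atTop (𝓝 0) := by
      have := (tendsto_pow_atTop_nhds_zero_of_lt_one (show (0 : ℝ) ≤ 3 / 4 by norm_num)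
        (by norm_num)).mul_const ‖y - v₀‖
      simpa using this
    exact squeeze_zero (fun n => norm_nonneg _) hb hlim

end Pool.Agent.Nil820
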